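import Pool.Agent.Lib.MP_e85462_co.L.Defs

/-! A1: elementary facts on unit squares. -/

open MeasureTheory Set

namespace SqLo

theorem pt_u (S : Sq) (s t : ℝ) : S.u (S.pt s t) = s := by
  have h := Real.sin_sq_add_cos_sq S.a
  simp only [Sq.u, Sq.pt]
  linear_combination s * h

theorem pt_v (S : Sq) (s t : ℝ) : S.v (S.pt s t) = t := by
  have h := Real.sin_sq_add_cos_sq S.a
  simp only [Sq.v, Sq.pt]
  linear_combination t * h

theorem pt_uv (S : Sq) (p : ℝ × ℝ) : S.pt (S.u p) (S.v p) = p := by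
  have h := Real.sin_sq_add_cos_sq S.a
  ext
  · simp only [Sq.u, Sq.v, Sq.pt]
    linear_combination (p.1 - S.x) * h
  · simp only [Sq.u, Sq.v, Sq.pt]
    linear_combination (p.2 - S.y) * h

theorem op_sub_cl (S : Sq) : S.op ⊆ S.cl := fun _ hp => ⟨hp.1.le, hp.2.le⟩

private theorem A1_cont_u (S : Sq) : Continuous S.u := by
  unfold Sq.u
  fun_prop

private theorem A1_cont_v (S : Sq) : Continuous S.v := by
  unfold Sq.v
  fun_prop

private theorem A1_cont_pt (S : Sq) : Continuous (fun q : ℝ × ℝ => S.pt q.1 q.2) := by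
  unfold Sq.pt
  fun_prop

theorem op_open (S : Sq) : IsOpen S.op := by
  have h1 : IsOpen {p : ℝ × ℝ | |S.u p| < 1 / 2} :=
    isOpen_lt (A1_cont_u S).abs continuous_const
  have h2 : IsOpen {p : ℝ × ℝ | |S.v p| < 1 / 2} :=
    isOpen_lt (A1_cont_v S).abs continuous_const
  exact h1.inter h2

private theorem A1_cl_closed (S : Sq) : IsClosed S.cl := by
  have h1 : IsClosed {p : ℝ × ℝ | |S.u p| ≤ 1 / 2} :=
    isClosed_le (A1_cont_u S).abs continuous_const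
  have h2 : IsClosed {p : ℝ × ℝ | |S.v p| ≤ 1 / 2} :=
    isClosed_le (A1_cont_v S).abs continuous_const
  exact h1.inter h2

theorem cl_compact (S : Sq) : IsCompact S.cl := by
  have h : S.cl = (fun q : ℝ × ℝ => S.pt q.1 q.2) ''
      (Icc (-(1 / 2) : ℝ) (1 / 2) ×ˢ Icc (-(1 / 2) : ℝ) (1 / 2)) := by
    ext p
    constructor
    · rintro ⟨h1, h2⟩
      exact ⟨(S.u p, S.v p), ⟨abs_le.1 h1, abs_le.1 h2⟩, pt_uv S p⟩
    · rintro ⟨q, ⟨h1, h2⟩, rfl⟩
      refine ⟨?_, ?_⟩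
      · change |S.u (S.pt q.1 q.2)| ≤ 1 / 2
        rw [pt_u]
        exact abs_le.2 h1
      · change |S.v (S.pt q.1 q.2)| ≤ 1 / 2
        rw [pt_v]
        exact abs_le.2 h2
  rw [h]
  exact (isCompact_Icc.prod isCompact_Icc).image (A1_cont_pt S)

private theorem A1_u_comb (S : Sq) (p q : ℝ × ℝ) (a b : ℝ) (h : a + b = 1) :
    S.u (a • p + b • q) = a * S.u p + b * S.u q := by
  have hb : b = 1 - a := by linarith
  subst hb
  simp only [Sq.u, Prod.fst_add, Prod.snd_add, Prod.smul_fst, Prod.smul_snd, smul_eq_mul]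
  ring

private theorem A1_v_comb (S : Sq) (p q : ℝ × ℝ) (a b : ℝ) (h : a + b = 1) :
    S.v (a • p + b • q) = a * S.v p + b * S.v q := by
  have hb : b = 1 - a := by linarith
  subst hb
  simp only [Sq.v, Prod.fst_add, Prod.snd_add, Prod.smul_fst, Prod.smul_snd, smul_eq_mul]
  ring

private theorem A1_abs_comb {x y a b : ℝ} (ha : 0 ≤ a) (hb : 0 ≤ b) :
    |a * x + b * y| ≤ a * |x| + b * |y| := by
  refine (abs_add_le _ _).trans ?_
  rw [abs_mul, abs_mul, abs_of_nonneg ha, abs_of_nonneg hb]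

private theorem A1_lt_comb {x y a b : ℝ} (ha : 0 ≤ a) (hb : 0 ≤ b) (h : a + b = 1)
    (hx : |x| < 1 / 2) (hy : |y| < 1 / 2) : |a * x + b * y| < 1 / 2 := by
  refine lt_of_le_of_lt (A1_abs_comb ha hb) ?_
  rcases eq_or_lt_of_le ha with h0 | h0
  · have hb1 : b = 1 := by linarith
    rw [← h0, hb1]
    linarith
  · nlinarith

private theorem A1_le_comb {x y a b : ℝ} (ha : 0 ≤ a) (hb : 0 ≤ b) (h : a + b = 1)
    (hx : |x| ≤ 1 / 2) (hy : |y| ≤ 1 / 2) : |a * x + b * y| ≤ 1 / 2 := by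
  refine (A1_abs_comb ha hb).trans ?_
  nlinarith

theorem op_convex (S : Sq) : Convex ℝ S.op := by
  intro p hp q hq a b ha hb hab
  refine ⟨?_, ?_⟩
  · rw [A1_u_comb S p q a b hab]
    exact A1_lt_comb ha hb hab hp.1 hq.1
  · rw [A1_v_comb S p q a b hab]
    exact A1_lt_comb ha hb hab hp.2 hq.2

theorem cl_convex (S : Sq) : Convex ℝ S.cl := by
  intro p hp q hq a b ha hb hab
  refine ⟨?_, ?_⟩
  · rw [A1_u_comb S p q a b hab]
    exact A1_le_comb ha hb hab hp.1 hq.1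
  · rw [A1_v_comb S p q a b hab]
    exact A1_le_comb ha hb hab hp.2 hq.2

theorem cl_closure (S : Sq) : closure S.op = S.cl := by
  apply Subset.antisymm
  · exact closure_minimal (op_sub_cl S) (A1_cl_closed S)
  · intro p hp
    rw [mem_closure_iff_seq_limit]
    refine ⟨fun n : ℕ => S.pt ((1 - 1 / ((n : ℝ) + 1)) * S.u p)
      ((1 - 1 / ((n : ℝ) + 1)) * S.v p), fun n => ?_, ?_⟩
    · have h0 : (0 : ℝ) < (n : ℝ) + 1 := by positivity
      have h1 : 0 < 1 / ((n : ℝ) + 1) := by positivity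
      have h2 : 1 / ((n : ℝ) + 1) ≤ 1 := by
        rw [div_le_one h0]
        have : (0 : ℝ) ≤ n := Nat.cast_nonneg n
        linarith
      have hk : 0 ≤ 1 - 1 / ((n : ℝ) + 1) := by linarith
      have key : ∀ x : ℝ, |x| ≤ 1 / 2 → |(1 - 1 / ((n : ℝ) + 1)) * x| < 1 / 2 := by
        intro x hx
        rw [abs_mul, abs_of_nonneg hk]
        nlinarith [abs_nonneg x]
      refine ⟨?_, ?_⟩
      · rw [pt_u]
        exact key _ hp.1
      · rw [pt_v]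
        exact key _ hp.2
    · have h1 : Filter.Tendsto (fun n : ℕ => 1 - 1 / ((n : ℝ) + 1)) Filter.atTop (nhds (1 - 0)) :=
        tendsto_const_nhds.sub tendsto_one_div_add_atTop_nhds_zero_nat
      rw [sub_zero] at h1
      have h2 := h1.mul_const (S.u p)
      have h3 := h1.mul_const (S.v p)
      rw [one_mul] at h2 h3
      have h4 := h2.prodMk_nhds h3
      have h5 := ((A1_cont_pt S).tendsto (S.u p, S.v p)).comp h4
      have h6 : S.pt (S.u p) (S.v p) = p := pt_uv S p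
      dsimp only at h5
      rw [h6] at h5
      exact h5

theorem ctr_mem (S : Sq) : (S.x, S.y) ∈ S.op := by
  refine ⟨?_, ?_⟩
  · simp only [Sq.u]
    norm_num
  · simp only [Sq.v]
    norm_num

theorem disj_cl {S T : Sq} (h : Disjoint S.op T.op) : Disjoint S.op T.cl := by
  rw [← cl_closure]
  exact h.closure_right (op_open S)

/-- `√2/2 < 71/100` -/
theorem cl_bd {S : Sq} {p : ℝ × ℝ} (h : p ∈ S.cl) :
    |p.1 - S.x| ≤ 71 / 100 ∧ |p.2 - S.y| ≤ 71 / 100 := by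
  have hcs := Real.sin_sq_add_cos_sq S.a
  have h1 : |S.u p| ≤ 1 / 2 := h.1
  have h2 : |S.v p| ≤ 1 / 2 := h.2
  have e : (p.1 - S.x) ^ 2 + (p.2 - S.y) ^ 2 = S.u p ^ 2 + S.v p ^ 2 := by
    simp only [Sq.u, Sq.v]
    linear_combination (-(p.1 - S.x) ^ 2 - (p.2 - S.y) ^ 2) * hcs
  have h3 : S.u p ^ 2 ≤ (1 / 2) ^ 2 := sq_le_sq' (by linarith [(abs_le.1 h1).1]) (abs_le.1 h1).2
  have h4 : S.v p ^ 2 ≤ (1 / 2) ^ 2 := sq_le_sq' (by linarith [(abs_le.1 h2).1]) (abs_le.1 h2).2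
  constructor
  · apply abs_le_of_sq_le_sq _ (by norm_num)
    nlinarith [sq_nonneg (p.2 - S.y)]
  · apply abs_le_of_sq_le_sq _ (by norm_num)
    nlinarith [sq_nonneg (p.1 - S.x)]

private theorem A1_q1u (S : Sq) (p : ℝ × ℝ) :
    (⟨S.x, S.y, S.a + Real.pi / 2⟩ : Sq).u p = S.v p := by
  simp only [Sq.u, Sq.v, Real.cos_add_pi_div_two, Real.sin_add_pi_div_two]
  ring

private theorem A1_q1v (S : Sq) (p : ℝ × ℝ) :
    (⟨S.x, S.y, S.a + Real.pi / 2⟩ : Sq).v p = -S.u p := by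
  simp only [Sq.u, Sq.v, Real.cos_add_pi_div_two, Real.sin_add_pi_div_two]
  ring

private theorem A1_q1cl (S : Sq) : (⟨S.x, S.y, S.a + Real.pi / 2⟩ : Sq).cl = S.cl := by
  ext p
  change (|(⟨S.x, S.y, S.a + Real.pi / 2⟩ : Sq).u p| ≤ 1 / 2 ∧
    |(⟨S.x, S.y, S.a + Real.pi / 2⟩ : Sq).v p| ≤ 1 / 2) ↔ (|S.u p| ≤ 1 / 2 ∧ |S.v p| ≤ 1 / 2)
  rw [A1_q1u, A1_q1v, abs_neg]
  exact and_comm

private theorem A1_q1op (S : Sq) : (⟨S.x, S.y, S.a + Real.pi / 2⟩ : Sq).op = S.op := by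
  ext p
  change (|(⟨S.x, S.y, S.a + Real.pi / 2⟩ : Sq).u p| < 1 / 2 ∧
    |(⟨S.x, S.y, S.a + Real.pi / 2⟩ : Sq).v p| < 1 / 2) ↔ (|S.u p| < 1 / 2 ∧ |S.v p| < 1 / 2)
  rw [A1_q1u, A1_q1v, abs_neg]
  exact and_comm

theorem quarter (S : Sq) (k : ℤ) :
    (⟨S.x, S.y, S.a + k * (Real.pi / 2)⟩ : Sq).cl = S.cl ∧
    (⟨S.x, S.y, S.a + k * (Real.pi / 2)⟩ : Sq).op = S.op := by
  induction k using Int.induction_on with
  | zero =>
    rw [Int.cast_zero, zero_mul, add_zero]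
    exact ⟨rfl, rfl⟩
  | succ i ih =>
    have e : S.a + ((i : ℤ) + 1 : ℤ) * (Real.pi / 2) =
        (S.a + ((i : ℤ) : ℝ) * (Real.pi / 2)) + Real.pi / 2 := by
      push_cast
      ring
    rw [e]
    exact ⟨(A1_q1cl ⟨S.x, S.y, S.a + ((i : ℤ) : ℝ) * (Real.pi / 2)⟩).trans ih.1,
      (A1_q1op ⟨S.x, S.y, S.a + ((i : ℤ) : ℝ) * (Real.pi / 2)⟩).trans ih.2⟩
  | pred i ih =>
    have e : S.a + ((-(i : ℤ) : ℤ) : ℝ) * (Real.pi / 2) =
        (S.a + ((-(i : ℤ) - 1 : ℤ) : ℝ) * (Real.pi / 2)) + Real.pi / 2 := by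
      push_cast
      ring
    rw [e] at ih
    exact ⟨(A1_q1cl ⟨S.x, S.y, S.a + ((-(i : ℤ) - 1 : ℤ) : ℝ) * (Real.pi / 2)⟩).symm.trans ih.1,
      (A1_q1op ⟨S.x, S.y, S.a + ((-(i : ℤ) - 1 : ℤ) : ℝ) * (Real.pi / 2)⟩).symm.trans ih.2⟩

end SqLo
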