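import Pool.Agent.Lib.MP_e85462_co.L.A1

/-! A1m: areas, holes and local waste. -/

open MeasureTheory Set

namespace SqLo

private theorem A1m_lin (a b c d : ℝ) (h : a * d - b * c = 1) :
    MeasurePreserving (fun q : ℝ × ℝ => (a * q.1 + b * q.2, c * q.1 + d * q.2)) volume volume := by
  have hdet : LinearMap.det (Matrix.toLin (Module.Basis.finTwoProd ℝ) (Module.Basis.finTwoProd ℝ)
      !![a, b; c, d]) = 1 := by
    rw [LinearMap.det_toLin, Matrix.det_fin_two_of, h]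
  have hmap := Measure.map_linearMap_addHaar_eq_smul_addHaar (volume : Measure (ℝ × ℝ))
    (f := Matrix.toLin (Module.Basis.finTwoProd ℝ) (Module.Basis.finTwoProd ℝ) !![a, b; c, d])
    (by rw [hdet]; exact one_ne_zero)
  rw [hdet, inv_one, abs_one, ENNReal.ofReal_one, one_smul] at hmap
  have e : (fun q : ℝ × ℝ => (a * q.1 + b * q.2, c * q.1 + d * q.2)) =
      ⇑(Matrix.toLin (Module.Basis.finTwoProd ℝ) (Module.Basis.finTwoProd ℝ) !![a, b; c, d]) := by
    funext q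
    rw [Matrix.toLin_finTwoProd_apply]
  refine ⟨by fun_prop, ?_⟩
  rw [e]
  exact hmap

theorem mp_uv (S : Sq) :
    MeasurePreserving (fun q : ℝ × ℝ => (S.u q, S.v q)) volume volume := by
  have h1 := A1m_lin (Real.cos S.a) (Real.sin S.a) (-Real.sin S.a) (Real.cos S.a)
    (by have := Real.sin_sq_add_cos_sq S.a; nlinarith)
  have h2 : MeasurePreserving (fun q : ℝ × ℝ => q + (-S.x, -S.y)) volume volume :=
    measurePreserving_add_right volume (-S.x, -S.y)
  have h3 := h1.comp h2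
  have e : (fun q : ℝ × ℝ => (S.u q, S.v q)) =
      (fun q : ℝ × ℝ => (Real.cos S.a * q.1 + Real.sin S.a * q.2,
        -Real.sin S.a * q.1 + Real.cos S.a * q.2)) ∘ (fun q : ℝ × ℝ => q + (-S.x, -S.y)) := by
    funext q
    simp only [Function.comp_apply, Sq.u, Sq.v, Prod.fst_add, Prod.snd_add]
    ext
    · simp only
      ring
    · simp only
      ring
  rw [e]
  exact h3

theorem mp_pt (S : Sq) :
    MeasurePreserving (fun q : ℝ × ℝ => S.pt q.1 q.2) volume volume := by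
  have h1 := A1m_lin (Real.cos S.a) (-Real.sin S.a) (Real.sin S.a) (Real.cos S.a)
    (by have := Real.sin_sq_add_cos_sq S.a; nlinarith)
  have h2 : MeasurePreserving (fun q : ℝ × ℝ => q + (S.x, S.y)) volume volume :=
    measurePreserving_add_right volume (S.x, S.y)
  have h3 := h2.comp h1
  have e : (fun q : ℝ × ℝ => S.pt q.1 q.2) = (fun q : ℝ × ℝ => q + (S.x, S.y)) ∘
      (fun q : ℝ × ℝ => (Real.cos S.a * q.1 + -Real.sin S.a * q.2,
        Real.sin S.a * q.1 + Real.cos S.a * q.2)) := by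
    funext q
    simp only [Function.comp_apply, Sq.pt, Prod.mk_add_mk]
    ext
    · simp only
      ring
    · simp only
      ring
  rw [e]
  exact h3

theorem vol_cl (S : Sq) : volume S.cl = 1 := by
  have e : S.cl = (fun q : ℝ × ℝ => (S.u q, S.v q)) ⁻¹'
      (Icc (-(1 / 2) : ℝ) (1 / 2) ×ˢ Icc (-(1 / 2) : ℝ) (1 / 2)) := by
    ext p
    simp only [Sq.cl, mem_setOf_eq, mem_preimage, mem_prod, mem_Icc, abs_le]
  rw [e, (mp_uv S).measure_preimage (measurableSet_Icc.prod measurableSet_Icc).nullMeasurableSet,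
    Measure.volume_eq_prod, Measure.prod_prod, Real.volume_Icc]
  norm_num

theorem vol_op (S : Sq) : volume S.op = 1 := by
  have e : S.op = (fun q : ℝ × ℝ => (S.u q, S.v q)) ⁻¹'
      (Ioo (-(1 / 2) : ℝ) (1 / 2) ×ˢ Ioo (-(1 / 2) : ℝ) (1 / 2)) := by
    ext p
    simp only [Sq.op, mem_setOf_eq, mem_preimage, mem_prod, mem_Ioo, abs_lt]
  rw [e, (mp_uv S).measure_preimage (measurableSet_Ioo.prod measurableSet_Ioo).nullMeasurableSet,
    Measure.volume_eq_prod, Measure.prod_prod, Real.volume_Ioo]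
  norm_num

theorem hole_open (P : Finset Sq) : IsOpen (Hole P) := by
  have e : Hole P = ⋂ S ∈ P, (S.cl)ᶜ := by
    ext p
    simp only [Hole, mem_setOf_eq, mem_iInter, mem_compl_iff]
  rw [e]
  exact isOpen_biInter_finset fun S _ => (cl_compact S).isClosed.isOpen_compl

private theorem A1m_bx (c : ℝ × ℝ) (r : ℝ) :
    bx c r = Icc (c.1 - r) (c.1 + r) ×ˢ Icc (c.2 - r) (c.2 + r) := by
  ext p
  simp only [bx, mem_setOf_eq, mem_prod, mem_Icc, abs_le]
  constructor
  · rintro ⟨⟨h1, h2⟩, h3, h4⟩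
    exact ⟨⟨by linarith, by linarith⟩, by linarith, by linarith⟩
  · rintro ⟨⟨h1, h2⟩, h3, h4⟩
    exact ⟨⟨by linarith, by linarith⟩, by linarith, by linarith⟩

theorem bx_meas (c : ℝ × ℝ) (r : ℝ) : MeasurableSet (bx c r) := by
  rw [A1m_bx]
  exact measurableSet_Icc.prod measurableSet_Icc

private theorem A1m_bx_vol (c : ℝ × ℝ) (r : ℝ) :
    volume (bx c r) = ENNReal.ofReal (2 * r) * ENNReal.ofReal (2 * r) := by
  rw [A1m_bx, Measure.volume_eq_prod, Measure.prod_prod, Real.volume_Icc, Real.volume_Icc]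
  congr 2 <;> ring

theorem bx_vol (c : ℝ × ℝ) (r : ℝ) (hr : 0 ≤ r) :
    volume (bx c r) = ENNReal.ofReal ((2 * r) ^ 2) := by
  rw [A1m_bx_vol, ← ENNReal.ofReal_mul (by positivity), sq]

theorem hb_fin (P : Finset Sq) (c : ℝ × ℝ) (r : ℝ) : volume (Hole P ∩ bx c r) < ⊤ := by
  refine (measure_mono inter_subset_right).trans_lt ?_
  rw [A1m_bx_vol]
  exact ENNReal.mul_lt_top ENNReal.ofReal_lt_top ENNReal.ofReal_lt_top

theorem wst_nn (P : Finset Sq) (r : ℝ) (S : Sq) : 0 ≤ wst P r S := ENNReal.toReal_nonneg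

private theorem A1m_bx_sub (c c' : ℝ × ℝ) (r r' : ℝ) (hx : |c.1 - c'.1| ≤ r' - r)
    (hy : |c.2 - c'.2| ≤ r' - r) : bx c r ⊆ bx c' r' := by
  rintro p ⟨h1, h2⟩
  rw [abs_le] at h1 h2 hx hy
  refine ⟨?_, ?_⟩
  · rw [abs_le]
    constructor <;> linarith [h1.1, h1.2, hx.1, hx.2]
  · rw [abs_le]
    constructor <;> linarith [h2.1, h2.2, hy.1, hy.2]

theorem wst_le (P : Finset Sq) (r r' : ℝ) (S T : Sq) (hx : |S.x - T.x| ≤ r' - r)
    (hy : |S.y - T.y| ≤ r' - r) : wst P r S ≤ wst P r' T := by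
  unfold wst
  refine ENNReal.toReal_mono (hb_fin P _ _).ne (measure_mono ?_)
  exact inter_subset_inter_right _ (A1m_bx_sub (S.x, S.y) (T.x, T.y) r r' hx hy)

/-- number of squares of a packing with centre in a box -/
theorem count_bx (P : Finset Sq) (hP : Packing P) (c : ℝ × ℝ) (r : ℝ) (hr : 0 ≤ r)
    (Q : Finset Sq) (hQ : Q ⊆ P) (h : ∀ S ∈ Q, |S.x - c.1| ≤ r ∧ |S.y - c.2| ≤ r) :
    (Q.card : ℝ) ≤ (2 * (r + 71 / 100)) ^ 2 := by
  have hsub : (⋃ S ∈ Q, S.op) ⊆ bx c (r + 71 / 100) := by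
    intro p hp
    simp only [mem_iUnion, exists_prop] at hp
    obtain ⟨S, hS, hp⟩ := hp
    obtain ⟨h1, h2⟩ := cl_bd (op_sub_cl S hp)
    obtain ⟨h3, h4⟩ := h S hS
    rw [abs_le] at h1 h2 h3 h4
    refine ⟨?_, ?_⟩
    · rw [abs_le]
      constructor <;> linarith [h1.1, h1.2, h3.1, h3.2]
    · rw [abs_le]
      constructor <;> linarith [h2.1, h2.2, h4.1, h4.2]
  have hvol : volume (⋃ S ∈ Q, S.op) = Q.card := by
    rw [measure_biUnion_finset (fun S hS T hT hne => hP S (hQ hS) T (hQ hT) hne)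
      (fun S _ => (op_open S).measurableSet)]
    simp only [vol_op, Finset.sum_const, nsmul_eq_mul, mul_one]
  have h5 := measure_mono (μ := volume) hsub
  rw [hvol, bx_vol c _ (by linarith)] at h5
  have h6 : (0 : ℝ) ≤ (2 * (r + 71 / 100)) ^ 2 := sq_nonneg _
  rw [← ENNReal.ofReal_natCast, ENNReal.ofReal_le_ofReal_iff h6] at h5
  exact h5

end SqLo
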