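import Pool.Agent.Lib.MP_e85462_co.L.A1m

/-! A2: separation of two disjoint squares of almost the same tilt; algebra of links. -/

open MeasureTheory Set

namespace SqLo

private theorem A2_frame (S : Sq) (w : ℝ) (p : ℝ × ℝ) :
    S.u p = (fU w p - fU w (S.x, S.y)) * Real.cos (S.a - w) +
        (fV w p - fV w (S.x, S.y)) * Real.sin (S.a - w) ∧
      S.v p = (fV w p - fV w (S.x, S.y)) * Real.cos (S.a - w) -
        (fU w p - fU w (S.x, S.y)) * Real.sin (S.a - w) := by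
  have h := Real.sin_sq_add_cos_sq w
  unfold Sq.u Sq.v fU fV
  rw [Real.cos_sub, Real.sin_sub]
  constructor
  · linear_combination (-((p.1 - S.x) * Real.cos S.a + (p.2 - S.y) * Real.sin S.a)) * h
  · linear_combination (-((p.2 - S.y) * Real.cos S.a - (p.1 - S.x) * Real.sin S.a)) * h

private theorem A2_mid {τ dU dV θ : ℝ} (h0 : 0 ≤ τ) (_h1 : τ ≤ 1) (hθ : |θ| ≤ τ)
    (hU : |dU| < 1 - τ) (hV : |dV| < 1 - τ) :
    |dU / 2 * Real.cos θ + dV / 2 * Real.sin θ| < 1 / 2 := by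
  have hc : |Real.cos θ| ≤ 1 := Real.abs_cos_le_one θ
  have hs : |Real.sin θ| ≤ τ := (Real.abs_sin_le_abs).trans hθ
  have e1 : |dU / 2 * Real.cos θ| ≤ |dU| / 2 := by
    rw [abs_mul, abs_div, abs_of_pos (by norm_num : (0 : ℝ) < 2)]
    have := abs_nonneg dU
    nlinarith
  have e2 : |dV / 2 * Real.sin θ| ≤ |dV| / 2 * τ := by
    rw [abs_mul, abs_div, abs_of_pos (by norm_num : (0 : ℝ) < 2)]
    have := abs_nonneg dV
    exact mul_le_mul_of_nonneg_left hs (by positivity)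
  have e3 : |dV| / 2 * τ ≤ (1 - τ) / 2 * τ := mul_le_mul_of_nonneg_right (by linarith) h0
  have e4 := abs_add_le (dU / 2 * Real.cos θ) (dV / 2 * Real.sin θ)
  nlinarith

/-- two disjoint squares whose tilts are within `τ` of `w`: the midpoint of the centres shows
that in the frame `w` one of the coordinates of the centres differs by at least `1 - τ` -/
theorem sep (w τ : ℝ) (S T : Sq) (h0 : 0 ≤ τ) (h1 : τ ≤ 1) (hS : |S.a - w| ≤ τ)
    (hT : |T.a - w| ≤ τ) (hd : Disjoint S.op T.op) :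
    1 - τ ≤ |fU w (T.x, T.y) - fU w (S.x, S.y)| ∨
    1 - τ ≤ |fV w (T.x, T.y) - fV w (S.x, S.y)| := by
  by_contra hcon
  push Not at hcon
  obtain ⟨hU, hV⟩ := hcon
  set dU := fU w (T.x, T.y) - fU w (S.x, S.y) with hdU
  set dV := fV w (T.x, T.y) - fV w (S.x, S.y) with hdV
  have key : ∀ (R : Sq) (sg : ℝ), |sg| = 1 → |R.a - w| ≤ τ →
      fU w ((S.x + T.x) / 2, (S.y + T.y) / 2) - fU w (R.x, R.y) = sg * dU / 2 →
      fV w ((S.x + T.x) / 2, (S.y + T.y) / 2) - fV w (R.x, R.y) = sg * dV / 2 →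
      ((S.x + T.x) / 2, (S.y + T.y) / 2) ∈ R.op := by
    intro R sg hsg hR e1 e2
    have f := A2_frame R w ((S.x + T.x) / 2, (S.y + T.y) / 2)
    rw [e1, e2] at f
    have hU' : |sg * dU| < 1 - τ := by rw [abs_mul, hsg, one_mul]; exact hU
    have hV' : |sg * dV| < 1 - τ := by rw [abs_mul, hsg, one_mul]; exact hV
    refine ⟨?_, ?_⟩
    · rw [f.1]; exact A2_mid h0 h1 hR hU' hV'
    · rw [f.2]
      have h2 := A2_mid (dU := sg * dV) (dV := -(sg * dU)) h0 h1 hR hV' (by rw [abs_neg]; exact hU')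
      have e3 : sg * dV / 2 * Real.cos (R.a - w) - sg * dU / 2 * Real.sin (R.a - w) =
        sg * dV / 2 * Real.cos (R.a - w) + -(sg * dU) / 2 * Real.sin (R.a - w) := by ring
      rw [e3]; exact h2
  have m1 := key S 1 abs_one hS (by rw [hdU]; unfold fU; ring) (by rw [hdV]; unfold fV; ring)
  have m2 := key T (-1) (by rw [abs_neg, abs_one]) hT (by rw [hdU]; unfold fU; ring)
    (by rw [hdV]; unfold fV; ring)
  exact Set.disjoint_left.1 hd m1 m2

theorem ang_small {θ x : ℝ} (h : |θ| ≤ 9 / 10) (hx : x ≤ 1 / 50)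
    (hs : |Real.sin (2 * θ)| ≤ x) : |θ| ≤ 52 / 100 * x := by
  have hpi1 := Real.pi_gt_d2
  have hpi2 := Real.pi_lt_d2
  have habs : |Real.sin (2 * θ)| = |Real.sin (2 * |θ|)| := by
    rcases abs_cases θ with ⟨h1, _⟩ | ⟨h1, _⟩
    · rw [h1]
    · rw [h1, mul_neg, Real.sin_neg, abs_neg]
  rw [habs] at hs
  have hθ0 := abs_nonneg θ
  obtain ⟨φ, hφ⟩ : ∃ φ, φ = 2 * |θ| := ⟨_, rfl⟩
  rw [← hφ] at hs
  have hφ0 : 0 ≤ φ := by rw [hφ]; positivity
  have hφ1 : φ ≤ 18 / 10 := by rw [hφ]; linarith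
  have hsin := (abs_le.1 hs).2
  have hx0 : 0 ≤ x := (abs_nonneg _).trans hs
  have hsm : φ ≤ 4 / 100 := by
    rcases le_total φ (Real.pi / 2) with h2 | h2
    · have h3 := Real.mul_le_sin hφ0 h2
      have h4 : 2 / Real.pi * φ ≤ 1 / 50 := by linarith
      rw [div_mul_eq_mul_div, div_le_iff₀ (by linarith)] at h4
      nlinarith
    · exfalso
      have h3 := Real.mul_le_sin (x := Real.pi - φ) (by linarith) (by linarith)
      rw [Real.sin_pi_sub] at h3
      have h4 : 2 / Real.pi * (Real.pi - φ) ≤ 1 / 50 := by linarith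
      rw [div_mul_eq_mul_div, div_le_iff₀ (by linarith)] at h4
      nlinarith
  rcases hφ0.eq_or_lt with h0 | h0
  · have : |θ| = 0 := by linarith
    rw [this]; positivity
  · have h5 := Real.sin_gt_sub_cube h0
    have h6 : φ ^ 3 / 6 ≤ φ * (1 / 2500) := by
      have : φ ^ 2 ≤ 1 / 625 := by nlinarith
      have : φ ^ 3 = φ * φ ^ 2 := by ring
      nlinarith
    have h7 : φ * (2499 / 2500) ≤ x := by linarith
    have h8 : |θ| = φ / 2 := by rw [hφ]; ring
    rw [h8]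
    linarith

theorem tilt_near {C : ℝ} {P : Finset Sq} (hN : Normd P) (hT : TC P C) {S T : Sq}
    (hS : S ∈ P) (hT' : T ∈ P) (aS : |S.a| ≤ 1 / 10) (dx : |S.x - T.x| ≤ 3)
    (dy : |S.y - T.y| ≤ 3) (hw : C * wst P 13 S ≤ 1 / 50) :
    |T.a - S.a| ≤ 52 / 100 * (C * wst P 13 S) := by
  have hpi2 := Real.pi_lt_d2
  have h1 := hN T hT'
  have h2 : |S.a - T.a| ≤ 9 / 10 := by
    refine (abs_sub _ _).trans ?_
    linarith
  rw [abs_sub_comm]
  exact ang_small h2 hw (hT S hS T hT' dx dy)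

private theorem A2_uT (S T : Sq) (s t : ℝ) :
    S.u (T.pt s t) = S.u (T.x, T.y) + s * Real.cos (T.a - S.a) - t * Real.sin (T.a - S.a) := by
  unfold Sq.u Sq.pt
  rw [Real.cos_sub, Real.sin_sub]
  ring

private theorem A2_vT (S T : Sq) (s t : ℝ) :
    S.v (T.pt s t) = S.v (T.x, T.y) + s * Real.sin (T.a - S.a) + t * Real.cos (T.a - S.a) := by
  unfold Sq.v Sq.pt
  rw [Real.cos_sub, Real.sin_sub]
  ring

private theorem A2_inj (S : Sq) (p q : ℝ × ℝ) : p = q ↔ S.u p = S.u q ∧ S.v p = S.v q := by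
  constructor
  · rintro rfl; exact ⟨rfl, rfl⟩
  · rintro ⟨h1, h2⟩
    rw [← pt_uv S p, ← pt_uv S q, h1, h2]

/-- solving the link equation -/
theorem lk_iff {S T : Sq} {t t' h : ℝ} (hc : Real.cos (T.a - S.a) ≠ 0) :
    S.pt (1 / 2 + h) t = T.pt (-1 / 2) t' ↔
    (t' = (t - S.v (T.x, T.y) + 1 / 2 * Real.sin (T.a - S.a)) / Real.cos (T.a - S.a) ∧
     h = S.u (T.x, T.y) - 1 / 2 - 1 / 2 * Real.cos (T.a - S.a)
        - t' * Real.sin (T.a - S.a)) := by
  rw [A2_inj S, pt_u, pt_v, A2_uT, A2_vT, eq_div_iff hc]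
  constructor
  · rintro ⟨h1, h2⟩
    exact ⟨by linarith, by linarith⟩
  · rintro ⟨h1, h2⟩
    exact ⟨by linarith, by linarith⟩

private theorem A2_cos {x : ℝ} (h : |x| ≤ 1 / 5) : 0 < Real.cos x := by
  have h1 := Real.one_sub_sq_div_two_le_cos (x := x)
  have h2 : x ^ 2 ≤ 1 / 25 := by
    rw [← sq_abs]
    have := abs_nonneg x
    nlinarith
  linarith

/-- the set of linked offsets is measurable and the transfer is affine of slope at least one -/
theorem lk_meas (C : ℝ) (P : Finset Sq) (S T : Sq) :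
    ∃ s c : ℝ, 1 ≤ s ∧ MeasurableSet {t | ∃ t' h, Link C P S t T t' h} ∧
      ∀ t t' h, Link C P S t T t' h → t' = s * t + c := by
  by_cases hyp : S ∈ P ∧ T ∈ P ∧ |S.a| ≤ 1 / 10 ∧ |T.a| ≤ 1 / 10 ∧
      10 * (C * wst P 16 S) ≤ 1 / 100 ∧ 10 * (C * wst P 16 T) ≤ 1 / 100
  · obtain ⟨hS, hT, aS, aT, wS, wT⟩ := hyp
    have hθ : |T.a - S.a| ≤ 1 / 5 := (abs_sub _ _).trans (by linarith)
    have hc := A2_cos hθ
    have hc1 := Real.cos_le_one (T.a - S.a)
    obtain ⟨s, hs⟩ : ∃ s, s = 1 / Real.cos (T.a - S.a) := ⟨_, rfl⟩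
    obtain ⟨c, hcd⟩ : ∃ c, c = (-S.v (T.x, T.y) + 1 / 2 * Real.sin (T.a - S.a)) /
        Real.cos (T.a - S.a) := ⟨_, rfl⟩
    have haff : ∀ t : ℝ, (t - S.v (T.x, T.y) + 1 / 2 * Real.sin (T.a - S.a)) /
        Real.cos (T.a - S.a) = s * t + c := by
      intro t
      rw [hs, hcd]
      field_simp
      ring
    refine ⟨s, c, ?_, ?_, ?_⟩
    · rw [hs, le_div_iff₀ hc]; linarith
    · obtain ⟨η, hη⟩ : ∃ η : ℝ → ℝ, η = fun t => S.u (T.x, T.y) - 1 / 2 -
          1 / 2 * Real.cos (T.a - S.a) - (s * t + c) * Real.sin (T.a - S.a) := ⟨_, rfl⟩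
      have hset : {t | ∃ t' h, Link C P S t T t' h} =
          {t | |t| < 1 / 2 - 10 * (C * wst P 16 S)} ∩
          ({t | |s * t + c| < 1 / 2 - 10 * (C * wst P 16 T)} ∩
          ({t | 0 ≤ η t} ∩ {t | η t ≤ 1 / 100})) := by
        ext t
        simp only [Set.mem_ofPred_eq, Set.mem_inter_iff]
        constructor
        · rintro ⟨t', h, L⟩
          obtain ⟨e1, e2⟩ := (lk_iff hc.ne').1 L.eq
          rw [haff] at e1
          have e3 : h = η t := by rw [hη, e2, e1]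
          refine ⟨L.mS, ?_, ?_, ?_⟩
          · rw [← e1]; exact L.mT
          · rw [← e3]; exact L.h0
          · rw [← e3]; exact L.h1
        · rintro ⟨m1, m2, m3, m4⟩
          refine ⟨s * t + c, η t, ⟨hS, hT, aS, aT, wS, wT, m1, m2, m3, m4, ?_⟩⟩
          rw [lk_iff hc.ne', haff]
          exact ⟨rfl, by rw [hη]⟩
      have hηc : Continuous η := by rw [hη]; fun_prop
      rw [hset]
      exact (measurableSet_lt (by fun_prop) (by fun_prop)).inter
        ((measurableSet_lt (by fun_prop) (by fun_prop)).inter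
        ((measurableSet_le (by fun_prop) hηc.measurable).inter
        (measurableSet_le hηc.measurable (by fun_prop))))
    · intro t t' h L
      rw [((lk_iff hc.ne').1 L.eq).1, haff]
  · have hno : ∀ t t' h, ¬ Link C P S t T t' h := fun t t' h L =>
      hyp ⟨L.hS, L.hT, L.aS, L.aT, L.wS, L.wT⟩
    refine ⟨1, 0, le_rfl, ?_, fun t t' h L => (hno t t' h L).elim⟩
    have : {t | ∃ t' h, Link C P S t T t' h} = ∅ := by
      ext t
      simp only [Set.mem_ofPred_eq, Set.mem_empty_iff_false, iff_false]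
      rintro ⟨t', h, L⟩
      exact hno t t' h L
    rw [this]
    exact MeasurableSet.empty

/-- the next entry point -/
theorem lk_ent {C : ℝ} {P : Finset Sq} {S T : Sq} {t t' h : ℝ} (L : Link C P S t T t' h) :
    T.pt (-1 / 2) t' = ((S.pt (-1 / 2) t).1 + (1 + h) * Real.cos S.a,
      (S.pt (-1 / 2) t).2 + (1 + h) * Real.sin S.a) := by
  rw [← L.eq]
  unfold Sq.pt
  refine Prod.ext ?_ ?_
  · simp only; ring
  · simp only; ring

/-- the centres of linked squares are close -/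
theorem lk_ctr {C : ℝ} (hC : 1 ≤ C) {P : Finset Sq} {S T : Sq} {t t' h : ℝ}
    (L : Link C P S t T t' h) :
    |S.x - T.x| ≤ 3 / 2 ∧ |S.y - T.y| ≤ 3 / 2 := by
  have hwS := mul_nonneg (by linarith : (0 : ℝ) ≤ C) (wst_nn P 16 S)
  have hwT := mul_nonneg (by linarith : (0 : ℝ) ≤ C) (wst_nn P 16 T)
  have ht : |t| ≤ 1 / 2 := by linarith [L.mS]
  have ht' : |t'| ≤ 1 / 2 := by linarith [L.mT]
  have hp : T.pt (-1 / 2) t' ∈ T.cl := by
    refine ⟨?_, ?_⟩
    · rw [pt_u]; norm_num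
    · rw [pt_v]; exact ht'
  have hb := cl_bd hp
  rw [← L.eq] at hb
  have hsin : |Real.sin S.a| ≤ 1 / 10 := (Real.abs_sin_le_abs).trans L.aS
  have hcos := Real.abs_cos_le_one S.a
  have hh0 := L.h0
  have hh1 := L.h1
  have hs0 : |(1 / 2 + h)| ≤ 51 / 100 := by rw [abs_le]; constructor <;> linarith
  have b1 : |(1 / 2 + h) * Real.cos S.a| ≤ 51 / 100 := by
    rw [abs_mul]
    have := abs_nonneg (Real.cos S.a)
    have := abs_nonneg (1 / 2 + h)
    nlinarith
  have b2 : |t * Real.sin S.a| ≤ 5 / 100 := by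
    rw [abs_mul]
    have := abs_nonneg (Real.sin S.a)
    have := abs_nonneg t
    nlinarith
  have b3 : |(1 / 2 + h) * Real.sin S.a| ≤ 51 / 1000 := by
    rw [abs_mul]
    have := abs_nonneg (Real.sin S.a)
    have := abs_nonneg (1 / 2 + h)
    nlinarith
  have b4 : |t * Real.cos S.a| ≤ 1 / 2 := by
    rw [abs_mul]
    have := abs_nonneg (Real.cos S.a)
    have := abs_nonneg t
    nlinarith
  obtain ⟨hb1, hb2⟩ := hb
  unfold Sq.pt at hb1 hb2
  simp only at hb1 hb2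
  rw [abs_le] at b1 b2 b3 b4 hb1 hb2
  rw [abs_le, abs_le]
  refine ⟨⟨?_, ?_⟩, ?_, ?_⟩ <;> linarith [b1.1, b1.2, b2.1, b2.2, b3.1, b3.2, b4.1, b4.2, hb1.1,
    hb1.2, hb2.1, hb2.2]

/-- tilts of linked squares -/
theorem lk_tilt {C : ℝ} {P : Finset Sq} (hC : 1 ≤ C) (hN : Normd P) (hT : TC P C) {S T : Sq}
    {t t' h : ℝ} (L : Link C P S t T t' h) :
    |T.a - S.a| ≤ 52 / 100 * (C * wst P 13 S) := by
  have hc := lk_ctr hC L
  have hw : wst P 13 S ≤ wst P 16 S := wst_le P 13 16 S S (by norm_num) (by norm_num)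
  have hw' : C * wst P 13 S ≤ C * wst P 16 S := mul_le_mul_of_nonneg_left hw (by linarith)
  exact tilt_near hN hT L.hS L.hT L.aS (by linarith [hc.1]) (by linarith [hc.2])
    (by linarith [L.wS])

end SqLo
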