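import Pool.Agent.Lib.MP_e85462_co.L.A1m

/-! B0: change of frame. -/

open MeasureTheory Set

namespace SqLo

private theorem B0_mv_u (O T : Sq) (p : ℝ × ℝ) :
    (mv O T).u (O.u p, O.v p) = T.u p ∧ (mv O T).v (O.u p, O.v p) = T.v p := by
  have hc : Real.cos T.a = Real.cos O.a * Real.cos (T.a - O.a) -
      Real.sin O.a * Real.sin (T.a - O.a) := by
    rw [← Real.cos_add]; congr 1; ring
  have hs : Real.sin T.a = Real.sin O.a * Real.cos (T.a - O.a) +
      Real.cos O.a * Real.sin (T.a - O.a) := by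
    rw [← Real.sin_add]; congr 1; ring
  simp only [mv, Sq.u, Sq.v]
  rw [hc, hs]
  constructor <;> ring

theorem mv_cl (O T : Sq) (p : ℝ × ℝ) : p ∈ T.cl ↔ (O.u p, O.v p) ∈ (mv O T).cl := by
  simp only [Sq.cl, mem_ofPred_eq, (B0_mv_u O T p).1, (B0_mv_u O T p).2]

theorem mv_op (O T : Sq) (p : ℝ × ℝ) : p ∈ T.op ↔ (O.u p, O.v p) ∈ (mv O T).op := by
  simp only [Sq.op, mem_ofPred_eq, (B0_mv_u O T p).1, (B0_mv_u O T p).2]

theorem mv_inj (O : Sq) : Function.Injective (mv O) := by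
  intro T T' h
  simp only [mv, Sq.mk.injEq] at h
  obtain ⟨h1, h2, h3⟩ := h
  have h4 := pt_uv O (T.x, T.y)
  have h5 := pt_uv O (T'.x, T'.y)
  rw [h1, h2, h5, Prod.mk.injEq] at h4
  cases T
  cases T'
  simp only [Sq.mk.injEq] at *
  exact ⟨h4.1.symm, h4.2.symm, by linarith⟩

private theorem B0_op (O S : Sq) {q : ℝ × ℝ} (h : q ∈ (mv O S).op) : O.pt q.1 q.2 ∈ S.op := by
  rw [mv_op O, pt_u, pt_v]
  exact h

theorem mv_pack (O : Sq) (P : Finset Sq) (hP : Packing P) : Packing (P.image (mv O)) := by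
  intro S' hS' T' hT' hne
  obtain ⟨S, hS, rfl⟩ := Finset.mem_image.1 hS'
  obtain ⟨T, hT, rfl⟩ := Finset.mem_image.1 hT'
  have hST : S ≠ T := fun h => hne (by rw [h])
  rw [Set.disjoint_left]
  intro q hq hq'
  exact Set.disjoint_left.1 (hP S hS T hT hST) (B0_op O S hq) (B0_op O T hq')

theorem mv_hole (O : Sq) (P : Finset Sq) (p : ℝ × ℝ) :
    p ∈ Hole P ↔ (O.u p, O.v p) ∈ Hole (P.image (mv O)) := by
  simp only [Hole, mem_ofPred_eq, Finset.forall_mem_image]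
  refine forall₂_congr fun S _ => ?_
  rw [mv_cl O]

theorem mv_vol (O : Sq) (P : Finset Sq) (A : Set (ℝ × ℝ)) (hA : MeasurableSet A) :
    volume (Hole (P.image (mv O)) ∩ A) = volume (Hole P ∩ {p | (O.u p, O.v p) ∈ A}) := by
  rw [← (mp_uv O).measure_preimage ((hole_open _).measurableSet.inter hA).nullMeasurableSet]
  congr 1
  ext p
  simp only [mem_preimage, mem_inter_iff, mem_ofPred_eq]
  rw [← mv_hole O P p]

theorem mv_u (O T : Sq) (p : ℝ × ℝ) :
    (mv O T).u (O.u p, O.v p) = T.u p ∧ (mv O T).v (O.u p, O.v p) = T.v p := B0_mv_u O T p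

theorem mv_self (O : Sq) : mv O O = std := by
  simp [mv, std, Sq.u, Sq.v]

end SqLo
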