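import Pool.Agent.Lib.MP_e85462_co.L.A1m
import Pool.Agent.Lib.MP_e85462_co.G.D3

/-! B7: tilt control, from the alignment theorem `SqL.align` of the local geometry (module G.D3). -/

open MeasureTheory Set

namespace SqLo

/-- the square as an `SqL.Sq` -/
private noncomputable def B7_sq (S : Sq) : SqL.Sq :=
  ⟨S.x, S.y, Real.cos S.a, Real.sin S.a, Real.cos_sq_add_sin_sq S.a⟩

private theorem B7_op (S : Sq) : (B7_sq S).op = S.op := rfl

private theorem B7_cl (S : Sq) : (B7_sq S).cl = S.cl := rfl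

private theorem B7_al (S T : Sq) : SqL.al (B7_sq S) (B7_sq T) =
    min |Real.cos (S.a - T.a)| |Real.sin (S.a - T.a)| := by
  rw [Real.cos_sub, Real.sin_sub]
  have e : Real.sin S.a * Real.cos T.a - Real.cos S.a * Real.sin T.a =
      -(Real.cos S.a * Real.sin T.a - Real.sin S.a * Real.cos T.a) := by ring
  rw [e, abs_neg]
  rfl

private theorem B7_unc (P : Finset Sq) (S : Sq) :
    SqL.unc (fun i : {T // T ∈ P} => B7_sq i.1) (SqL.disc (B7_sq S).m 13) ⊆
      Hole P ∩ bx (S.x, S.y) 13 := by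
  rintro w ⟨hw, hu⟩
  have hw' : (w.1 - S.x) ^ 2 + (w.2 - S.y) ^ 2 ≤ 13 ^ 2 := hw
  refine ⟨fun T hT hmem => hu (mem_iUnion.2 ⟨⟨T, hT⟩, hmem⟩), ?_, ?_⟩
  · refine abs_le_of_sq_le_sq ?_ (by norm_num)
    nlinarith [sq_nonneg (w.2 - S.y)]
  · refine abs_le_of_sq_le_sq ?_ (by norm_num)
    nlinarith [sq_nonneg (w.1 - S.x)]

theorem tc : ∃ C : ℝ, 1 ≤ C ∧ ∀ P : Finset Sq, Packing P → TC P C := by
  refine ⟨10 ^ 14, by norm_num, fun P hP S hS T hT hx hy => ?_⟩
  have hω := wst_nn P 13 S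
  rcases lt_or_ge (1 / 10 ^ 13) (wst P 13 S) with hbig | hsmall
  · have h1 : |Real.sin (2 * (S.a - T.a))| ≤ 1 := Real.abs_sin_le_one _
    refine h1.trans ?_
    have h2 : (10 ^ 14 : ℝ) * (1 / 10 ^ 13) = 10 := by norm_num
    nlinarith
  · have hF : SqL.Packing (fun i : {T // T ∈ P} => B7_sq i.1) := by
      intro i j hij
      exact hP i.1 i.2 j.1 j.2 (fun h => hij (Subtype.ext h))
    have hW : SqL.Wle (fun i : {T // T ∈ P} => B7_sq i.1) (B7_sq S) 13 (wst P 13 S) := by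
      unfold SqL.Wle
      refine (measure_mono (B7_unc P S)).trans ?_
      unfold wst
      rw [ENNReal.ofReal_toReal (hb_fin P _ _).ne]
    have hd : SqL.dd (B7_sq S) (B7_sq T) ≤ 25 := by
      have e : SqL.dd (B7_sq S) (B7_sq T) = (T.x - S.x) ^ 2 + (T.y - S.y) ^ 2 := rfl
      rw [e]
      rw [abs_le] at hx hy
      nlinarith [hx.1, hx.2, hy.1, hy.2]
    have h1 := SqL.align hF ⟨S, hS⟩ ⟨T, hT⟩ hω hsmall hW hd
    have h2 : min |Real.cos (S.a - T.a)| |Real.sin (S.a - T.a)| ≤ 2 * 10 ^ 7 * wst P 13 S := by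
      rw [← B7_al]
      exact h1
    have h3 : |Real.sin (2 * (S.a - T.a))| ≤
        2 * min |Real.cos (S.a - T.a)| |Real.sin (S.a - T.a)| := by
      rw [Real.sin_two_mul, abs_mul, abs_mul, abs_two]
      have c1 := Real.abs_cos_le_one (S.a - T.a)
      have c2 := Real.abs_sin_le_one (S.a - T.a)
      have c3 := abs_nonneg (Real.cos (S.a - T.a))
      have c4 := abs_nonneg (Real.sin (S.a - T.a))
      rcases le_total |Real.cos (S.a - T.a)| |Real.sin (S.a - T.a)| with h | h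
      · rw [min_eq_left h]
        nlinarith
      · rw [min_eq_right h]
        nlinarith
    nlinarith

end SqLo
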