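import Pool.Agent.Lib.MP_e85462_co.L.A2

/-! C3: the lengths of the gaps. -/

open MeasureTheory Set

namespace SqLo

/-- the set of pairs (offset, distance) with an uncovered point -/
def C3_E (P : Finset Sq) (S : Sq) : Set (ℝ × ℝ) :=
  {q | 0 < q.2 ∧ q.2 ≤ 1 / 100 ∧ S.pt (1 / 2 + q.2) q.1 ∈ Hole P}

theorem C3_meas (P : Finset Sq) (S : Sq) : MeasurableSet (C3_E P S) := by
  have hc : Continuous (fun q : ℝ × ℝ => S.pt (1 / 2 + q.2) q.1) := by
    unfold Sq.pt
    fun_prop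
  have h1 : MeasurableSet {q : ℝ × ℝ | 0 < q.2} := measurableSet_lt measurable_const measurable_snd
  have h2 : MeasurableSet {q : ℝ × ℝ | q.2 ≤ 1 / 100} :=
    measurableSet_le measurable_snd measurable_const
  have h3 : MeasurableSet ((fun q : ℝ × ℝ => S.pt (1 / 2 + q.2) q.1) ⁻¹' Hole P) :=
    ((hole_open P).preimage hc).measurableSet
  have : C3_E P S = {q : ℝ × ℝ | 0 < q.2} ∩ ({q : ℝ × ℝ | q.2 ≤ 1 / 100} ∩
      ((fun q : ℝ × ℝ => S.pt (1 / 2 + q.2) q.1) ⁻¹' Hole P)) := rfl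
  rw [this]
  exact h1.inter (h2.inter h3)

theorem hlen_meas (P : Finset Sq) (S : Sq) : Measurable (hlen P S) :=
  measurable_measure_prodMk_left (ν := volume) (C3_meas P S)

theorem hlen_int (P : Finset Sq) (S : Sq) :
    ∫⁻ t in Ioo (-1 / 2 : ℝ) (1 / 2), hlen P S t ≤ ENNReal.ofReal (wst P 20 S) := by
  have hA : MeasurableSet (Hole P ∩ bx (S.x, S.y) 20) :=
    (hole_open P).measurableSet.inter (bx_meas _ _)
  have hmp : MeasurePreserving (fun q : ℝ × ℝ => S.pt (1 / 2 + q.2) q.1) volume volume := by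
    have e1 : MeasurePreserving (Prod.swap : ℝ × ℝ → ℝ × ℝ) volume volume := by
      rw [Measure.volume_eq_prod]
      exact Measure.measurePreserving_swap
    have e2 : MeasurePreserving (Prod.map (fun x : ℝ => 1 / 2 + x) (id : ℝ → ℝ)) volume volume := by
      rw [Measure.volume_eq_prod]
      exact (measurePreserving_add_left volume (1 / 2 : ℝ)).prod (MeasurePreserving.id volume)
    exact (mp_pt S).comp (e2.comp e1)
  have hE : ∫⁻ t in Ioo (-1 / 2 : ℝ) (1 / 2), hlen P S t =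
      volume (C3_E P S ∩ (Ioo (-1 / 2 : ℝ) (1 / 2) ×ˢ univ)) := by
    have h1 : ∫⁻ t in Ioo (-1 / 2 : ℝ) (1 / 2), hlen P S t =
        ((volume.restrict (Ioo (-1 / 2 : ℝ) (1 / 2))).prod volume) (C3_E P S) := by
      rw [Measure.prod_apply (C3_meas P S)]
      rfl
    rw [h1]
    have h2 : (volume.restrict (Ioo (-1 / 2 : ℝ) (1 / 2))).prod (volume : Measure ℝ) =
        (volume.prod volume).restrict (Ioo (-1 / 2 : ℝ) (1 / 2) ×ˢ univ) := by
      rw [← Measure.prod_restrict, Measure.restrict_univ]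
    rw [h2, Measure.restrict_apply (C3_meas P S), ← Measure.volume_eq_prod]
  have hsub : C3_E P S ∩ (Ioo (-1 / 2 : ℝ) (1 / 2) ×ˢ univ) ⊆
      (fun q : ℝ × ℝ => S.pt (1 / 2 + q.2) q.1) ⁻¹' (Hole P ∩ bx (S.x, S.y) 20) := by
    rintro ⟨t, r⟩ ⟨⟨h0, h1, h2⟩, ⟨h3, -⟩⟩
    simp only at h0 h1 h2
    simp only [mem_Ioo] at h3
    refine ⟨h2, ?_⟩
    have hc := Real.neg_one_le_cos S.a
    have hc' := Real.cos_le_one S.a
    have hs := Real.neg_one_le_sin S.a
    have hs' := Real.sin_le_one S.a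
    have b1 : |(1 / 2 + r) * Real.cos S.a| ≤ 1 := by
      rw [abs_mul, abs_of_nonneg (by linarith : (0 : ℝ) ≤ 1 / 2 + r)]
      nlinarith [Real.abs_cos_le_one S.a, abs_nonneg (Real.cos S.a)]
    have b2 : |(1 / 2 + r) * Real.sin S.a| ≤ 1 := by
      rw [abs_mul, abs_of_nonneg (by linarith : (0 : ℝ) ≤ 1 / 2 + r)]
      nlinarith [Real.abs_sin_le_one S.a, abs_nonneg (Real.sin S.a)]
    have ht : |t| ≤ 1 := abs_le.2 ⟨by linarith, by linarith⟩
    have b3 : |t * Real.cos S.a| ≤ 1 := by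
      rw [abs_mul]
      nlinarith [Real.abs_cos_le_one S.a, abs_nonneg (Real.cos S.a), abs_nonneg t]
    have b4 : |t * Real.sin S.a| ≤ 1 := by
      rw [abs_mul]
      nlinarith [Real.abs_sin_le_one S.a, abs_nonneg (Real.sin S.a), abs_nonneg t]
    have c1 := abs_le.1 b1
    have c2 := abs_le.1 b2
    have c3 := abs_le.1 b3
    have c4 := abs_le.1 b4
    constructor
    · show |S.x + (1 / 2 + r) * Real.cos S.a - t * Real.sin S.a - S.x| ≤ 20
      rw [abs_le]
      constructor <;> linarith [c1.1, c1.2, c4.1, c4.2]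
    · show |S.y + (1 / 2 + r) * Real.sin S.a + t * Real.cos S.a - S.y| ≤ 20
      rw [abs_le]
      constructor <;> linarith [c2.1, c2.2, c3.1, c3.2]
  rw [hE]
  calc volume (C3_E P S ∩ (Ioo (-1 / 2 : ℝ) (1 / 2) ×ˢ univ))
      ≤ volume ((fun q : ℝ × ℝ => S.pt (1 / 2 + q.2) q.1) ⁻¹' (Hole P ∩ bx (S.x, S.y) 20)) :=
        measure_mono hsub
    _ = volume (Hole P ∩ bx (S.x, S.y) 20) := hmp.measure_preimage hA.nullMeasurableSet
    _ = ENNReal.ofReal (wst P 20 S) := by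
        unfold wst
        rw [ENNReal.ofReal_toReal (hb_fin P _ _).ne]

end SqLo
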