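import Pool.Agent.Lib.MP_e85462_co.L.A2
import Pool.Agent.Lib.MP_e85462_co.L.C3

/-! C1: few offsets are dead. -/

open MeasureTheory Set

namespace SqLo

private theorem C1_u (S T : Sq) (s t : ℝ) : T.u (S.pt s t) =
    (s - S.u (T.x, T.y)) * Real.cos (T.a - S.a) + (t - S.v (T.x, T.y)) * Real.sin (T.a - S.a) := by
  have h := Real.sin_sq_add_cos_sq S.a
  simp only [Sq.u, Sq.v, Sq.pt, Real.cos_sub, Real.sin_sub]
  linear_combination ((T.x - S.x) * Real.cos T.a + (T.y - S.y) * Real.sin T.a) * h

private theorem C1_v (S T : Sq) (s t : ℝ) : T.v (S.pt s t) =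
    (t - S.v (T.x, T.y)) * Real.cos (T.a - S.a) - (s - S.u (T.x, T.y)) * Real.sin (T.a - S.a) := by
  have h := Real.sin_sq_add_cos_sq S.a
  simp only [Sq.u, Sq.v, Sq.pt, Real.cos_sub, Real.sin_sub]
  linear_combination ((T.y - S.y) * Real.cos T.a - (T.x - S.x) * Real.sin T.a) * h

private theorem C1_cont (S : Sq) (t : ℝ) : Continuous fun r : ℝ => S.pt (1 / 2 + r) t := by
  unfold Sq.pt
  fun_prop

/-- the first square met by the ray -/
private theorem C1_first (P : Finset Sq) (S : Sq) (t : ℝ)
    (ht : ¬ ENNReal.ofReal (1 / 100) ≤ hlen P S t) :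
    ∃ r : ℝ, 0 ≤ r ∧ r ≤ 1 / 100 ∧ ENNReal.ofReal r ≤ hlen P S t ∧
      ∃ T ∈ P, T ≠ S ∧ S.pt (1 / 2 + r) t ∈ T.cl := by
  set A : Set ℝ := {r : ℝ | 0 < r ∧ r ≤ 1 / 100 ∧ S.pt (1 / 2 + r) t ∉ Hole P} with hA
  have hne : A.Nonempty := by
    by_contra hemp
    rw [Set.not_nonempty_iff_eq_empty] at hemp
    apply ht
    have h1 : volume (Ioc (0 : ℝ) (1 / 100)) ≤ hlen P S t := by
      apply measure_mono
      intro r hr
      refine ⟨hr.1, hr.2, ?_⟩
      by_contra hc
      have : r ∈ A := ⟨hr.1, hr.2, hc⟩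
      rw [hemp] at this
      exact this
    rwa [Real.volume_Ioc, sub_zero] at h1
  have hbdd : BddBelow A := ⟨0, fun r hr => hr.1.le⟩
  have hr0 : 0 ≤ sInf A := le_csInf hne fun r hr => hr.1.le
  obtain ⟨r1, hr1⟩ := hne
  have hr2 : sInf A ≤ 1 / 100 := (csInf_le hbdd hr1).trans hr1.2.1
  refine ⟨sInf A, hr0, hr2, ?_, ?_⟩
  · have h1 : volume (Ioo (0 : ℝ) (sInf A)) ≤ hlen P S t := by
      apply measure_mono
      intro r hr
      refine ⟨hr.1, hr.2.le.trans hr2, ?_⟩
      by_contra hc
      have h2 : sInf A ≤ r := csInf_le hbdd ⟨hr.1, hr.2.le.trans hr2, hc⟩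
      exact absurd hr.2 (not_lt.2 h2)
    rwa [Real.volume_Ioo, sub_zero] at h1
  · have hF : IsClosed (⋃ T ∈ P.erase S, {r : ℝ | S.pt (1 / 2 + r) t ∈ T.cl}) := by
      apply isClosed_biUnion_finset
      intro T _
      exact (cl_compact T).isClosed.preimage (C1_cont S t)
    have hsub : A ⊆ ⋃ T ∈ P.erase S, {r : ℝ | S.pt (1 / 2 + r) t ∈ T.cl} := by
      rintro r ⟨h1, h2, h3⟩
      have h4 : ∃ T ∈ P, S.pt (1 / 2 + r) t ∈ T.cl := by
        by_contra hc
        apply h3
        intro T hT hTc
        exact hc ⟨T, hT, hTc⟩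
      obtain ⟨T, hT, hTc⟩ := h4
      have hne : T ≠ S := by
        rintro rfl
        have h5 := hTc.1
        rw [pt_u] at h5
        have := (abs_le.1 h5).2
        linarith
      exact Set.mem_biUnion (Finset.mem_erase.2 ⟨hne, hT⟩) hTc
    have hmem := closure_minimal hsub hF (csInf_mem_closure ⟨r1, hr1⟩ hbdd)
    simp only [Set.mem_iUnion, Finset.mem_erase, exists_prop] at hmem
    obtain ⟨T, ⟨h1, h2⟩, h3⟩ := hmem
    exact ⟨T, h2, h1, h3⟩

/-- numerical core -/
private theorem C1_core (th t al be lam r : ℝ) (hlam0 : 0 ≤ lam) (hlam : lam ≤ 1 / 10 ^ 5)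
    (hth : |th| ≤ 52 / 100 * lam) (ht : |t| < 1 / 2 - 10 * lam)
    (hr0 : 0 ≤ r) (hr1 : r ≤ 1 / 100)
    (hu : |(1 / 2 + r - al) * Real.cos th + (t - be) * Real.sin th| ≤ 1 / 2)
    (hv : |(t - be) * Real.cos th - (1 / 2 + r - al) * Real.sin th| ≤ 1 / 2)
    (hb1 : t - be ∉ Icc (1 / 2 - 20 * lam) (1 / 2 + 20 * lam))
    (hb2 : t - be ∉ Icc (-1 / 2 - 20 * lam) (-1 / 2 + 20 * lam))
    (hsep : 1 - 52 / 100 * lam ≤ |al| ∨ 1 - 52 / 100 * lam ≤ |be|) :
    0 < Real.cos th ∧
    |(t - be + 1 / 2 * Real.sin th) / Real.cos th| < 1 / 2 - 10 * lam ∧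
    -(2 * lam) ≤ al - 1 / 2 - 1 / 2 * Real.cos th -
      (t - be + 1 / 2 * Real.sin th) / Real.cos th * Real.sin th ∧
    al - 1 / 2 - 1 / 2 * Real.cos th -
      (t - be + 1 / 2 * Real.sin th) / Real.cos th * Real.sin th ≤ r := by
  have hsin : |Real.sin th| ≤ 52 / 100 * lam := Real.abs_sin_le_abs.trans hth
  have hcos : 1 - lam ^ 2 / 4 ≤ Real.cos th := by
    have h1 := Real.one_sub_sq_div_two_le_cos (x := th)
    have h2 : th ^ 2 ≤ (52 / 100 * lam) ^ 2 := by
      rw [← sq_abs th]
      exact pow_le_pow_left₀ (abs_nonneg _) hth 2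
    nlinarith
  have hcos1 : Real.cos th ≤ 1 := Real.cos_le_one th
  have hsc := Real.sin_sq_add_cos_sq th
  set s := Real.sin th with hs
  set c := Real.cos th with hc
  have hlam2 : lam ^ 2 ≤ lam / 10 ^ 5 := by
    rw [pow_two]
    have := mul_le_mul_of_nonneg_left hlam hlam0
    linarith
  have hcpos : 0 < c := by
    have : lam ^ 2 ≤ 1 := by nlinarith
    linarith
  have hsabs := abs_le.1 hsin
  -- inverse rotation
  set U := (1 / 2 + r - al) * c + (t - be) * s with hU
  set W := (t - be) * c - (1 / 2 + r - al) * s with hW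
  have e1 : t - be = U * s + W * c := by
    rw [hU, hW]
    linear_combination (-(t - be)) * hsc
  have e2 : 1 / 2 + r - al = U * c - W * s := by
    rw [hU, hW]
    linear_combination (-(1 / 2 + r - al)) * hsc
  have hUs : |U * s| ≤ 1 / 2 * (52 / 100 * lam) := by
    rw [abs_mul]
    exact mul_le_mul hu hsin (abs_nonneg _) (by norm_num)
  have hWs : |W * s| ≤ 1 / 2 * (52 / 100 * lam) := by
    rw [abs_mul]
    exact mul_le_mul hv hsin (abs_nonneg _) (by norm_num)
  have hUc : |U * c| ≤ 1 / 2 := by
    rw [abs_mul, abs_of_pos hcpos]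
    calc |U| * c ≤ 1 / 2 * 1 := mul_le_mul hu hcos1 hcpos.le (by norm_num)
      _ = 1 / 2 := by norm_num
  have hWc : |W * c| ≤ 1 / 2 := by
    rw [abs_mul, abs_of_pos hcpos]
    calc |W| * c ≤ 1 / 2 * 1 := mul_le_mul hv hcos1 hcpos.le (by norm_num)
      _ = 1 / 2 := by norm_num
  have hUs' := abs_le.1 hUs
  have hWs' := abs_le.1 hWs
  have hUc' := abs_le.1 hUc
  have hWc' := abs_le.1 hWc
  have hx1 : t - be < 1 / 2 - 20 * lam := by
    by_contra hcon
    exact hb1 ⟨not_lt.1 hcon, by rw [e1]; linarith⟩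
  have hx2 : -(1 / 2 - 20 * lam) < t - be := by
    by_contra hcon
    exact hb2 ⟨by rw [e1]; linarith, by linarith [not_lt.1 hcon]⟩
  have ht' := abs_lt.1 ht
  have hbe : |be| < 1 - 52 / 100 * lam := by
    rw [abs_lt]
    constructor <;> linarith
  have hal : 1 - 52 / 100 * lam ≤ al := by
    rcases hsep with h | h
    · rcases le_abs.1 h with h' | h'
      · exact h'
      · exfalso
        linarith
    · exact absurd hbe (not_lt.2 h)
  -- the new offset
  have hx : |t - be + 1 / 2 * s| < (1 / 2 - 10 * lam) * c := by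
    have h1 : (1 / 2 - 10 * lam) * (1 - lam ^ 2 / 4) ≤ (1 / 2 - 10 * lam) * c := by
      apply mul_le_mul_of_nonneg_left hcos
      linarith
    have h2 : 1 / 2 - 10 * lam - lam ^ 2 / 8 ≤ (1 / 2 - 10 * lam) * (1 - lam ^ 2 / 4) := by
      have : 0 ≤ lam * lam ^ 2 := by positivity
      nlinarith
    rw [abs_lt]
    constructor
    · linarith
    · linarith
  have hp : |(t - be + 1 / 2 * s) / c| < 1 / 2 - 10 * lam := by
    rw [abs_div, abs_of_pos hcpos, div_lt_iff₀ hcpos]
    exact hx
  set t' := (t - be + 1 / 2 * s) / c with ht'def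
  have hts : |t' * s| ≤ 1 / 2 * (52 / 100 * lam) := by
    rw [abs_mul]
    exact mul_le_mul (by linarith) hsin (abs_nonneg _) (by norm_num)
  have hts' := abs_le.1 hts
  refine ⟨hcpos, hp, ?_, ?_⟩
  · linarith
  · -- compare the frame coordinate at distance h and r
    have e3 : t' * c = t - be + 1 / 2 * s := by
      rw [ht'def]
      field_simp
    have e4 : (1 / 2 + (al - 1 / 2 - 1 / 2 * c - t' * s) - al) * c + (t - be) * s = -1 / 2 := by
      linear_combination (-s) * e3 - 1 / 2 * hsc
    have hU' := (abs_le.1 hu).1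
    by_contra hcon
    have hcon' := not_le.1 hcon
    have h5 : (r - (al - 1 / 2 - 1 / 2 * c - t' * s)) * c < 0 :=
      mul_neg_of_neg_of_pos (by linarith) hcpos
    have h6 : U = -1 / 2 + (r - (al - 1 / 2 - 1 / 2 * c - t' * s)) * c := by
      rw [hU]
      linear_combination e4
    linarith

theorem dead (C : ℝ) (hC : 1 ≤ C) (P : Finset Sq) (hP : Packing P) (hN : Normd P)
    (hT : TC P C) (S : Sq) (hS : S ∈ P) (ha : |S.a| ≤ 1 / 20) :
    ∃ B : Set ℝ, MeasurableSet B ∧ volume B ≤ ENNReal.ofReal (10 ^ 5 * (C * wst P 20 S)) ∧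
      ∀ t, |t| < 1 / 2 → t ∉ B → ∃ T t' h, Link C P S t T t' h ∧ ENNReal.ofReal h ≤ hlen P S t := by
  have hw0 := wst_nn P 20 S
  set lam := C * wst P 20 S with hlamdef
  have hlam0 : 0 ≤ lam := by positivity
  have hwl : wst P 20 S ≤ lam := by
    rw [hlamdef]
    nlinarith
  rcases le_or_gt (1 / 10 ^ 5) lam with hbig | hsmall
  · refine ⟨Ioo (-1 / 2) (1 / 2), measurableSet_Ioo, ?_, fun t ht hB => ?_⟩
    · rw [Real.volume_Ioo]
      apply ENNReal.ofReal_le_ofReal
      have : (10 : ℝ) ^ 5 * (1 / 10 ^ 5) ≤ 10 ^ 5 * lam :=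
        mul_le_mul_of_nonneg_left hbig (by norm_num)
      norm_num at this ⊢
      linarith
    · exfalso
      apply hB
      have := abs_lt.1 ht
      exact ⟨by linarith [this.1], this.2⟩
  · classical
    set Nb : Finset Sq := P.filter fun T => |T.x - S.x| ≤ 3 / 2 ∧ |T.y - S.y| ≤ 3 / 2 with hNb
    have hcard : (Nb.card : ℝ) ≤ 20 := by
      have h1 := count_bx P hP (S.x, S.y) (3 / 2) (by norm_num) Nb (Finset.filter_subset _ _)
        (fun T hT => (Finset.mem_filter.1 hT).2)
      norm_num at h1
      linarith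
    set B1 : Set ℝ := Icc (-1 / 2) (-1 / 2 + 10 * lam) ∪ Icc (1 / 2 - 10 * lam) (1 / 2) with hB1
    set B2 : Set ℝ := {t | ENNReal.ofReal (1 / 100) ≤ hlen P S t} ∩ Ioo (-1 / 2) (1 / 2) with hB2
    set B3 : Sq → Set ℝ := fun T =>
      Icc (S.v (T.x, T.y) + (1 / 2 - 20 * lam)) (S.v (T.x, T.y) + (1 / 2 + 20 * lam)) ∪
      Icc (S.v (T.x, T.y) + (-1 / 2 - 20 * lam)) (S.v (T.x, T.y) + (-1 / 2 + 20 * lam)) with hB3
    have hm2 : MeasurableSet {t | ENNReal.ofReal (1 / 100) ≤ hlen P S t} :=
      measurableSet_le measurable_const (hlen_meas P S)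
    refine ⟨B1 ∪ B2 ∪ ⋃ T ∈ Nb, B3 T, ?_, ?_, ?_⟩
    · refine ((measurableSet_Icc.union measurableSet_Icc).union
        (hm2.inter measurableSet_Ioo)).union ?_
      exact Finset.measurableSet_biUnion _ fun T _ => measurableSet_Icc.union measurableSet_Icc
    · have v1 : volume B1 ≤ ENNReal.ofReal (20 * lam) := by
        refine (measure_union_le _ _).trans ?_
        rw [Real.volume_Icc, Real.volume_Icc, ← ENNReal.ofReal_add (by linarith) (by linarith)]
        apply ENNReal.ofReal_le_ofReal
        linarith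
      have v2 : volume B2 ≤ ENNReal.ofReal (100 * lam) := by
        have h1 := mul_meas_ge_le_lintegral (μ := volume.restrict (Ioo (-1 / 2 : ℝ) (1 / 2)))
          (hlen_meas P S) (ENNReal.ofReal (1 / 100))
        rw [Measure.restrict_apply hm2] at h1
        have h2 := h1.trans (hlen_int P S)
        have h3 : volume B2 = ENNReal.ofReal 100 * (ENNReal.ofReal (1 / 100) * volume B2) := by
          rw [← mul_assoc, ← ENNReal.ofReal_mul (by norm_num)]
          norm_num
        rw [h3]
        calc ENNReal.ofReal 100 * (ENNReal.ofReal (1 / 100) * volume B2)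
            ≤ ENNReal.ofReal 100 * ENNReal.ofReal (wst P 20 S) := by gcongr
          _ = ENNReal.ofReal (100 * wst P 20 S) := by rw [ENNReal.ofReal_mul (by norm_num)]
          _ ≤ ENNReal.ofReal (100 * lam) := ENNReal.ofReal_le_ofReal (by linarith)
      have v3 : volume (⋃ T ∈ Nb, B3 T) ≤ ENNReal.ofReal (1600 * lam) := by
        refine (measure_biUnion_finset_le _ _).trans ?_
        calc ∑ T ∈ Nb, volume (B3 T) ≤ ∑ _T ∈ Nb, ENNReal.ofReal (80 * lam) := by
              refine Finset.sum_le_sum fun T _ => ?_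
              refine (measure_union_le _ _).trans ?_
              rw [Real.volume_Icc, Real.volume_Icc,
                ← ENNReal.ofReal_add (by linarith) (by linarith)]
              apply ENNReal.ofReal_le_ofReal
              linarith
          _ = ENNReal.ofReal ((Nb.card : ℝ) * (80 * lam)) := by
              rw [Finset.sum_const, nsmul_eq_mul, ENNReal.ofReal_mul (Nat.cast_nonneg _),
                ENNReal.ofReal_natCast]
          _ ≤ _ := by
              apply ENNReal.ofReal_le_ofReal
              nlinarith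
      refine (measure_union_le _ _).trans ?_
      refine (add_le_add ((measure_union_le _ _).trans (add_le_add v1 v2)) v3).trans ?_
      rw [← ENNReal.ofReal_add (by linarith) (by linarith),
        ← ENNReal.ofReal_add (by linarith) (by linarith)]
      apply ENNReal.ofReal_le_ofReal
      norm_num
      linarith
    · intro t ht hB
      have ht' := abs_lt.1 ht
      have hn1 : t ∉ B1 := fun h => hB (Or.inl (Or.inl h))
      have hn2 : t ∉ B2 := fun h => hB (Or.inl (Or.inr h))
      have hn3 : ∀ T ∈ Nb, t ∉ B3 T := fun T hT h => hB (Or.inr (Set.mem_biUnion hT h))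
      have hh : ¬ ENNReal.ofReal (1 / 100) ≤ hlen P S t := fun h =>
        hn2 ⟨h, by linarith [ht'.1], ht'.2⟩
      obtain ⟨r, hr0, hr1, hrh, T, hTP, hTS, hTc⟩ := C1_first P S t hh
      -- the centre of `T` is near
      have hcs : |Real.sin S.a| ≤ 1 / 20 := Real.abs_sin_le_abs.trans ha
      have hcc : |Real.cos S.a| ≤ 1 := Real.abs_cos_le_one S.a
      have hbd := cl_bd hTc
      have hnear : |T.x - S.x| ≤ 3 / 2 ∧ |T.y - S.y| ≤ 3 / 2 := by
        have h1 : |(1 / 2 + r) * Real.cos S.a| ≤ 51 / 100 := by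
          rw [abs_mul, abs_of_nonneg (by linarith : (0 : ℝ) ≤ 1 / 2 + r)]
          calc (1 / 2 + r) * |Real.cos S.a| ≤ (51 / 100) * 1 :=
                mul_le_mul (by linarith) hcc (abs_nonneg _) (by norm_num)
            _ = _ := by norm_num
        have h2 : |(1 / 2 + r) * Real.sin S.a| ≤ 51 / 100 * (1 / 20) := by
          rw [abs_mul, abs_of_nonneg (by linarith : (0 : ℝ) ≤ 1 / 2 + r)]
          exact mul_le_mul (by linarith) hcs (abs_nonneg _) (by norm_num)
        have h3 : |t * Real.cos S.a| ≤ 1 / 2 := by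
          rw [abs_mul]
          calc |t| * |Real.cos S.a| ≤ (1 / 2) * 1 :=
                mul_le_mul ht.le hcc (abs_nonneg _) (by norm_num)
            _ = _ := by norm_num
        have h4 : |t * Real.sin S.a| ≤ 1 / 2 * (1 / 20) := by
          rw [abs_mul]
          exact mul_le_mul ht.le hcs (abs_nonneg _) (by norm_num)
        have g1 := abs_le.1 h1
        have g2 := abs_le.1 h2
        have g3 := abs_le.1 h3
        have g4 := abs_le.1 h4
        have g5 := abs_le.1 hbd.1
        have g6 := abs_le.1 hbd.2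
        simp only [Sq.pt] at g5 g6
        constructor
        · rw [abs_le]
          constructor <;> linarith [g5.1, g5.2]
        · rw [abs_le]
          constructor <;> linarith [g6.1, g6.2]
      have hTNb : T ∈ Nb := Finset.mem_filter.2 ⟨hTP, hnear⟩
      -- tilt
      have hw13 : wst P 13 S ≤ wst P 20 S :=
        wst_le P 13 20 S S (by simp; norm_num) (by simp; norm_num)
      have hC0 : 0 ≤ C := by linarith
      have hCw : C * wst P 13 S ≤ lam := mul_le_mul_of_nonneg_left hw13 hC0
      have hth : |T.a - S.a| ≤ 52 / 100 * lam := by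
        have h1 := tilt_near hN hT hS hTP (by linarith)
          (by rw [abs_sub_comm]; linarith [hnear.1]) (by rw [abs_sub_comm]; linarith [hnear.2])
          (by norm_num at hsmall ⊢; linarith : C * wst P 13 S ≤ 1 / 50)
        linarith
      have hTc' := hTc
      obtain ⟨hu, hv⟩ := hTc'
      rw [C1_u] at hu
      rw [C1_v] at hv
      have htl : |t| < 1 / 2 - 10 * lam := by
        rw [abs_lt]
        constructor
        · by_contra hc
          exact hn1 (Or.inl ⟨by linarith [ht'.1], by linarith [not_lt.1 hc]⟩)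
        · by_contra hc
          exact hn1 (Or.inr ⟨not_lt.1 hc, ht'.2.le⟩)
      have hb := hn3 T hTNb
      have hsep : 1 - 52 / 100 * lam ≤ |S.u (T.x, T.y)| ∨ 1 - 52 / 100 * lam ≤ |S.v (T.x, T.y)| := by
        have h1 := sep S.a (52 / 100 * lam) S T (by positivity)
          (by norm_num at hsmall ⊢; linarith) (by simp; positivity) hth (hP S hS T hTP hTS.symm)
        have e1 : fU S.a (T.x, T.y) - fU S.a (S.x, S.y) = S.u (T.x, T.y) := by
          simp only [fU, Sq.u]
          ring
        have e2 : fV S.a (T.x, T.y) - fV S.a (S.x, S.y) = S.v (T.x, T.y) := by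
          simp only [fV, Sq.v]
          ring
        rwa [e1, e2] at h1
      obtain ⟨hcpos, hp, hh0, hhr⟩ := C1_core (T.a - S.a) t (S.u (T.x, T.y)) (S.v (T.x, T.y)) lam r
        hlam0 hsmall.le hth htl hr0 hr1 hu hv
        (fun h => hb (Or.inl ⟨by linarith [h.1], by linarith [h.2]⟩))
        (fun h => hb (Or.inr ⟨by linarith [h.1], by linarith [h.2]⟩)) hsep
      set t' := (t - S.v (T.x, T.y) + 1 / 2 * Real.sin (T.a - S.a)) / Real.cos (T.a - S.a) with ht'def
      set h := S.u (T.x, T.y) - 1 / 2 - 1 / 2 * Real.cos (T.a - S.a) - t' * Real.sin (T.a - S.a)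
        with hdef
      have heq : S.pt (1 / 2 + h) t = T.pt (-1 / 2) t' := (lk_iff hcpos.ne').2 ⟨rfl, rfl⟩
      have hw16S : wst P 16 S ≤ wst P 20 S :=
        wst_le P 16 20 S S (by simp; norm_num) (by simp; norm_num)
      have hw16T : wst P 16 T ≤ wst P 20 S :=
        wst_le P 16 20 T S (by linarith [hnear.1]) (by linarith [hnear.2])
      have hCS : C * wst P 16 S ≤ lam := mul_le_mul_of_nonneg_left hw16S hC0
      have hCT : C * wst P 16 T ≤ lam := mul_le_mul_of_nonneg_left hw16T hC0
      have hh1 : 0 ≤ h := by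
        by_contra hneg
        have hneg' := not_le.1 hneg
        have hp' := abs_lt.1 hp
        have hdis := hP S hS T hTP hTS.symm
        -- the point at distance `h / 2`
        have q1 : S.pt (1 / 2 + h / 2) t ∈ S.op := by
          constructor
          · rw [pt_u, abs_lt]
            norm_num at hsmall
            constructor <;> linarith
          · rw [pt_v]
            exact ht
        have hsin : |Real.sin (T.a - S.a)| ≤ 52 / 100 * lam := Real.abs_sin_le_abs.trans hth
        have hsin' := abs_le.1 hsin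
        have hcos1 := Real.cos_le_one (T.a - S.a)
        have q2 : S.pt (1 / 2 + h / 2) t ∈ T.op := by
          have f1 : T.u (S.pt (1 / 2 + h) t) = -1 / 2 := by rw [heq, pt_u]
          have f2 : T.v (S.pt (1 / 2 + h) t) = t' := by rw [heq, pt_v]
          rw [C1_u] at f1
          rw [C1_v] at f2
          have hlam1 : lam ≤ 1 / 100000 := by norm_num at hsmall ⊢; linarith
          constructor
          · rw [C1_u]
            have e1 : (1 / 2 + h / 2 - S.u (T.x, T.y)) * Real.cos (T.a - S.a) +
                (t - S.v (T.x, T.y)) * Real.sin (T.a - S.a) =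
                -1 / 2 + (-(h / 2)) * Real.cos (T.a - S.a) := by
              linear_combination f1
            rw [e1, abs_lt]
            have e2 : 0 < (-(h / 2)) * Real.cos (T.a - S.a) := mul_pos (by linarith) hcpos
            have e3 : (-(h / 2)) * Real.cos (T.a - S.a) ≤ (-(h / 2)) * 1 :=
              mul_le_mul_of_nonneg_left hcos1 (by linarith)
            constructor <;> linarith
          · rw [C1_v]
            have e1 : (t - S.v (T.x, T.y)) * Real.cos (T.a - S.a) -
                (1 / 2 + h / 2 - S.u (T.x, T.y)) * Real.sin (T.a - S.a) =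
                t' + (h / 2) * Real.sin (T.a - S.a) := by
              linear_combination f2
            rw [e1]
            have e2 : |(h / 2) * Real.sin (T.a - S.a)| ≤ lam * 1 := by
              rw [abs_mul]
              apply mul_le_mul _ _ (abs_nonneg _) hlam0
              · rw [abs_le]
                constructor <;> linarith
              · linarith
            have e2' := abs_le.1 e2
            rw [abs_lt]
            constructor
            · by_cases hl : lam = 0
              · rw [hl] at hh0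
                linarith
              · have : 0 < lam := lt_of_le_of_ne hlam0 (Ne.symm hl)
                linarith
            · by_cases hl : lam = 0
              · rw [hl] at hh0
                linarith
              · have : 0 < lam := lt_of_le_of_ne hlam0 (Ne.symm hl)
                linarith
        exact Set.disjoint_left.1 hdis q1 q2
      have hsm : lam ≤ 1 / 100000 := by norm_num at hsmall ⊢; linarith
      have hTa : |T.a| ≤ 1 / 10 := by
        have h1 := abs_le.1 hth
        have h2 := abs_le.1 ha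
        rw [abs_le]
        constructor <;> linarith
      refine ⟨T, t', h, ⟨hS, hTP, by linarith, hTa, by linarith, by linarith,
        by linarith, by linarith, hh1, by linarith, heq⟩, ?_⟩
      exact (ENNReal.ofReal_le_ofReal hhr).trans hrh

end SqLo
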