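import Pool.Agent.Lib.MP_e85462_co.L.A2

/-! C2: the predecessor of a state is unique. -/

open MeasureTheory Set

namespace SqLo

private theorem C2_fU (w : ℝ) (S : Sq) (s t : ℝ) :
    fU w (S.pt s t) = fU w (S.x, S.y) + s * Real.cos (S.a - w) - t * Real.sin (S.a - w) := by
  simp only [fU, Sq.pt, Real.cos_sub, Real.sin_sub]
  ring

private theorem C2_fV (w : ℝ) (S : Sq) (s t : ℝ) :
    fV w (S.pt s t) = fV w (S.x, S.y) + s * Real.sin (S.a - w) + t * Real.cos (S.a - w) := by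
  simp only [fV, Sq.pt, Real.cos_sub, Real.sin_sub]
  ring

private theorem C2_sin {θ τ : ℝ} (h : |θ| ≤ τ) : |Real.sin θ| ≤ τ :=
  (Real.abs_sin_le_abs).trans h

private theorem C2_cos {θ τ : ℝ} (h : |θ| ≤ τ) (h1 : τ ≤ 1) : 1 - τ ≤ Real.cos θ := by
  have h2 := Real.one_sub_sq_div_two_le_cos (x := θ)
  have h3 : θ ^ 2 ≤ τ := by
    have h4 := abs_nonneg θ
    rw [← sq_abs]
    nlinarith
  linarith [sq_nonneg θ]

theorem link_inj (C : ℝ) (hC : 1 ≤ C) (P : Finset Sq) (hP : Packing P) (hN : Normd P)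
    (hT : TC P C) {S1 S2 T : Sq} {t1 t2 t' h1 h2 : ℝ} (L1 : Link C P S1 t1 T t' h1)
    (L2 : Link C P S2 t2 T t' h2) : S1 = S2 ∧ t1 = t2 ∧ h1 = h2 := by
  have key : S1 = S2 := by
    by_contra hne
    obtain ⟨x1, y1⟩ := lk_ctr hC L1
    obtain ⟨x2, y2⟩ := lk_ctr hC L2
    have x1' : |T.x - S1.x| ≤ 3 / 2 := by rw [abs_sub_comm]; exact x1
    have y1' : |T.y - S1.y| ≤ 3 / 2 := by rw [abs_sub_comm]; exact y1
    have x2' : |T.x - S2.x| ≤ 3 / 2 := by rw [abs_sub_comm]; exact x2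
    have y2' : |T.y - S2.y| ≤ 3 / 2 := by rw [abs_sub_comm]; exact y2
    have W0 : 0 ≤ C * wst P 13 T := mul_nonneg (by linarith) (wst_nn P 13 T)
    have WT : C * wst P 13 T ≤ C * wst P 16 T := by
      refine mul_le_mul_of_nonneg_left (wst_le P 13 16 T T ?_ ?_) (by linarith)
      · rw [sub_self, abs_zero]; norm_num
      · rw [sub_self, abs_zero]; norm_num
    have W1 : C * wst P 13 T ≤ C * wst P 16 S1 := by
      refine mul_le_mul_of_nonneg_left (wst_le P 13 16 T S1 ?_ ?_) (by linarith)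
      · linarith
      · linarith
    have W2 : C * wst P 13 T ≤ C * wst P 16 S2 := by
      refine mul_le_mul_of_nonneg_left (wst_le P 13 16 T S2 ?_ ?_) (by linarith)
      · linarith
      · linarith
    have wT := L1.wT
    have a1 := tilt_near hN hT L1.hT L1.hS L1.aT (by linarith) (by linarith) (by linarith)
    have a2 := tilt_near hN hT L1.hT L2.hS L1.aT (by linarith) (by linarith) (by linarith)
    have m1 := L1.mS
    have m2 := L2.mS
    have g1 := L1.h0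
    have g2 := L2.h0
    have k1 := L1.h1
    have k2 := L2.h1
    have eU := congrArg (fU T.a) (L1.eq.trans L2.eq.symm)
    have eV := congrArg (fV T.a) (L1.eq.trans L2.eq.symm)
    rw [C2_fU, C2_fU] at eU
    rw [C2_fV, C2_fV] at eV
    generalize hW : C * wst P 13 T = W at *
    generalize hA1 : C * wst P 16 S1 = A1 at *
    generalize hA2 : C * wst P 16 S2 = A2 at *
    have τ1 : 52 / 100 * W ≤ 1 := by linarith
    have s1 := C2_sin a1
    have s2 := C2_sin a2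
    have c1 := C2_cos a1 τ1
    have c2 := C2_cos a2 τ1
    have d1 := Real.cos_le_one (S1.a - T.a)
    have d2 := Real.cos_le_one (S2.a - T.a)
    generalize Real.sin (S1.a - T.a) = σ1 at *
    generalize Real.sin (S2.a - T.a) = σ2 at *
    generalize Real.cos (S1.a - T.a) = κ1 at *
    generalize Real.cos (S2.a - T.a) = κ2 at *
    have tt1 : |t1| ≤ 1 / 2 := by linarith
    have tt2 : |t2| ≤ 1 / 2 := by linarith
    have bound : ∀ t σ : ℝ, |t| ≤ 1 / 2 → |σ| ≤ 52 / 100 * W → |t * σ| ≤ 26 / 100 * W := by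
      intro t σ ht hσ
      rw [abs_mul]
      have := mul_le_mul ht hσ (abs_nonneg _) (by norm_num)
      linarith
    have bound2 : ∀ t κ : ℝ, 1 - 52 / 100 * W ≤ κ → κ ≤ 1 → |t * κ| ≤ |t| := by
      intro t κ h1 h2
      rw [abs_mul, abs_of_nonneg (by linarith : (0 : ℝ) ≤ κ)]
      exact mul_le_of_le_one_right (abs_nonneg _) h2
    have bound3 : ∀ h σ : ℝ, 0 ≤ h → h ≤ 1 / 100 → |σ| ≤ 52 / 100 * W →
        |(1 / 2 + h) * σ| ≤ 27 / 100 * W := by
      intro h σ h1 h2 hσ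
      rw [abs_mul, abs_of_nonneg (by linarith : (0 : ℝ) ≤ 1 / 2 + h)]
      have h3 : (1 / 2 + h) * |σ| ≤ (51 / 100) * (52 / 100 * W) :=
        mul_le_mul (by linarith) hσ (abs_nonneg _) (by norm_num)
      linarith
    have bound4 : ∀ h κ : ℝ, 0 ≤ h → h ≤ 1 / 100 → 1 - 52 / 100 * W ≤ κ → κ ≤ 1 →
        (1 / 2 + h) * κ ≤ 1 / 2 + h ∧ 1 / 2 + h - 52 / 100 * W ≤ (1 / 2 + h) * κ := by
      intro h κ h1 h2 h3 h4
      constructor
      · exact mul_le_of_le_one_right (by linarith) h4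
      · nlinarith
    obtain ⟨e1, e2⟩ := abs_le.1 (bound t1 σ1 tt1 s1)
    obtain ⟨e3, e4⟩ := abs_le.1 (bound t2 σ2 tt2 s2)
    obtain ⟨e5, e6⟩ := abs_le.1 (bound2 t1 κ1 c1 d1)
    obtain ⟨e7, e8⟩ := abs_le.1 (bound2 t2 κ2 c2 d2)
    obtain ⟨e9, e10⟩ := abs_le.1 (bound3 h1 σ1 g1 k1 s1)
    obtain ⟨e11, e12⟩ := abs_le.1 (bound3 h2 σ2 g2 k2 s2)
    obtain ⟨e13, e14⟩ := bound4 h1 κ1 g1 k1 c1 d1
    obtain ⟨e15, e16⟩ := bound4 h2 κ2 g2 k2 c2 d2
    rcases sep T.a (52 / 100 * W) S1 S2 (by linarith) τ1 a1 a2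
      (hP S1 L1.hS S2 L2.hS hne) with h | h
    · have : |fU T.a (S2.x, S2.y) - fU T.a (S1.x, S1.y)| < 1 - 52 / 100 * W := by
        rw [abs_lt]
        constructor <;> linarith
      linarith
    · have : |fV T.a (S2.x, S2.y) - fV T.a (S1.x, S1.y)| < 1 - 52 / 100 * W := by
        rw [abs_lt]
        constructor <;> linarith
      linarith
  subst key
  have e := L1.eq.trans L2.eq.symm
  have e1 := congrArg S1.u e
  have e2 := congrArg S1.v e
  rw [pt_u, pt_u] at e1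
  rw [pt_v, pt_v] at e2
  exact ⟨rfl, e2, by linarith⟩

end SqLo
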