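import Pool.Agent.Lib.MP_e85462_co.L.A2

/-! C4: lines do not leave the region between the left bar and the right bar. -/

open MeasureTheory Set

namespace SqLo

theorem C4_mem (S : Sq) {s t : ℝ} (hs : |s| ≤ 1 / 2) (ht : |t| ≤ 1 / 2) : S.pt s t ∈ S.cl := by
  show |S.u (S.pt s t)| ≤ 1 / 2 ∧ |S.v (S.pt s t)| ≤ 1 / 2
  rw [pt_u, pt_v]
  exact ⟨hs, ht⟩

theorem wall (C : ℝ) (hC : 1 ≤ C) (X : ℝ) (P : Finset Sq) (hF : Framed X P) (hT : TC P C)
    {S T : Sq} {t t' h : ℝ} (L : Link C P S t T t' h) (hS : In X S ∨ LC X S ∨ RB X S) :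
    In X T ∨ RB X T := by
  have hX := hF.X1
  have hw16 : 0 ≤ wst P 16 S := wst_nn _ _ _
  have hw16T : 0 ≤ wst P 16 T := wst_nn _ _ _
  have hCw : 0 ≤ C * wst P 16 S := mul_nonneg (by linarith) hw16
  have hCwT : 0 ≤ C * wst P 16 T := mul_nonneg (by linarith) hw16T
  have hw13 : wst P 13 S ≤ wst P 16 S :=
    wst_le P 13 16 S S (by rw [sub_self]; norm_num) (by rw [sub_self]; norm_num)
  have hCw13 : C * wst P 13 S ≤ C * wst P 16 S := mul_le_mul_of_nonneg_left hw13 (by linarith)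
  have hwS := L.wS
  have hmS := L.mS
  have hmT := L.mT
  have h0 := L.h0
  have h1 := L.h1
  have haS := abs_le.1 L.aS
  obtain ⟨ht1, ht2⟩ := abs_lt.1 hmS
  obtain ⟨ht1', ht2'⟩ := abs_lt.1 hmT
  have hcos : 99 / 100 ≤ Real.cos S.a := by
    have := Real.one_sub_sq_div_two_le_cos (x := S.a)
    nlinarith [haS.1, haS.2]
  have hcos1 := Real.cos_le_one S.a
  have hctr := lk_ctr hC L
  -- tilt of `S` when `T` is axis parallel
  have htilt : T.a = 0 → |S.a| ≤ 52 / 100 * (C * wst P 16 S) := by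
    intro hTa
    have := tilt_near hF.nm hT L.hS L.hT L.aS (by linarith [hctr.1]) (by linarith [hctr.2])
      (by linarith)
    rw [hTa, zero_sub, abs_neg] at this
    linarith
  have hsin : |Real.sin S.a| ≤ |S.a| := Real.abs_sin_le_abs
  -- the common point
  have hp1 : (S.pt (1 / 2 + h) t).1 = S.x + (1 / 2 + h) * Real.cos S.a - t * Real.sin S.a := rfl
  have hp2 : (S.pt (1 / 2 + h) t).2 = S.y + (1 / 2 + h) * Real.sin S.a + t * Real.cos S.a := rfl
  have hq : T.a = 0 → S.pt (1 / 2 + h) t = (T.x - 1 / 2, T.y + t') := by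
    intro hTa
    rw [L.eq]
    unfold Sq.pt
    rw [hTa, Real.cos_zero, Real.sin_zero]
    ext <;> simp
    ring
  have hq1 : T.a = 0 → S.x + (1 / 2 + h) * Real.cos S.a - t * Real.sin S.a = T.x - 1 / 2 := by
    intro hTa
    rw [← hp1, hq hTa]
  have hq2 : T.a = 0 → S.y + (1 / 2 + h) * Real.sin S.a + t * Real.cos S.a = T.y + t' := by
    intro hTa
    rw [← hp2, hq hTa]
  -- exit point
  have he : In X S → 0 ≤ S.x + 1 / 2 * Real.cos S.a - t * Real.sin S.a := by
    intro hI
    exact (hI (C4_mem S (s := 1 / 2) (t := t) (by norm_num [abs_of_pos]) (by linarith))).1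
  have hv1 : In X S → S.y + 1 / 2 * Real.sin S.a + 1 / 2 * Real.cos S.a ≤ X := by
    intro hI
    exact (hI (C4_mem S (s := 1 / 2) (t := 1 / 2) (by norm_num [abs_of_pos])
      (by norm_num [abs_of_pos]))).2.2.2
  have hv2 : In X S → 0 ≤ S.y + 1 / 2 * Real.sin S.a + (-1 / 2) * Real.cos S.a := by
    intro hI
    exact (hI (C4_mem S (s := 1 / 2) (t := -1 / 2) (by norm_num [abs_of_pos])
      (by rw [abs_le]; constructor <;> norm_num))).2.2.1
  have hLCe : LC X S → Real.cos S.a = 1 ∧ Real.sin S.a = 0 := by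
    intro hL
    rw [hL.1, Real.cos_zero, Real.sin_zero]
    exact ⟨rfl, rfl⟩
  have hRBe : RB X S → Real.cos S.a = 1 ∧ Real.sin S.a = 0 := by
    intro hL
    rw [hL.1, Real.cos_zero, Real.sin_zero]
    exact ⟨rfl, rfl⟩
  -- no transition from the right bar to a square with small abscissa
  have hRB : RB X S → T.a = 0 → T.x ≤ X - 1 / 2 → False := by
    intro hR hTa hTx
    obtain ⟨hc, hs⟩ := hRBe hR
    have h3 := hq1 hTa
    obtain ⟨-, -, -, j, hj⟩ := hR
    rw [hc, hs] at h3
    have : (0 : ℝ) ≤ j := Nat.cast_nonneg j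
    linarith
  rcases hF.pos T L.hT with hI | hLB | hRBT | hBB | hTB
  · exact Or.inl hI
  · exfalso
    obtain ⟨hTa, -, -, j, hj⟩ := hLB
    have hj0 : (0 : ℝ) ≤ j := Nat.cast_nonneg j
    have h3 := hq1 hTa
    rcases hS with hI | hL | hR
    · have h4 := he hI
      have h5 : 0 ≤ h * Real.cos S.a := mul_nonneg h0 (by linarith)
      nlinarith
    · obtain ⟨hc, hs⟩ := hLCe hL
      rw [hc, hs, hL.2.2.2] at h3
      linarith
    · exact hRB hR hTa (by linarith)
  · exact Or.inr hRBT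
  · exfalso
    obtain ⟨hTa, -, hTx, j, hj⟩ := hBB
    have hj0 : (0 : ℝ) ≤ j := Nat.cast_nonneg j
    have h3 := hq2 hTa
    rcases hS with hI | hL | hR
    · have h4 := hv2 hI
      have h5 := htilt hTa
      have h6 := abs_le.1 (hsin.trans h5)
      have h7 : (1 / 2 + t) * (99 / 100) ≤ (1 / 2 + t) * Real.cos S.a :=
        mul_le_mul_of_nonneg_left hcos (by linarith)
      have h8 : -(52 / 100 * (C * wst P 16 S)) / 100 ≤ h * Real.sin S.a := by
        have : |h * Real.sin S.a| ≤ 1 / 100 * (52 / 100 * (C * wst P 16 S)) := by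
          rw [abs_mul, abs_of_nonneg h0]
          exact mul_le_mul h1 (hsin.trans h5) (abs_nonneg _) (by norm_num)
        have := (abs_le.1 this).1
        linarith
      nlinarith
    · obtain ⟨hc, hs⟩ := hLCe hL
      rw [hc, hs] at h3
      have := hL.2.1
      linarith
    · exact hRB hR hTa hTx
  · exfalso
    obtain ⟨hTa, -, hTx, j, hj⟩ := hTB
    have hj0 : (0 : ℝ) ≤ j := Nat.cast_nonneg j
    have h3 := hq2 hTa
    rcases hS with hI | hL | hR
    · have h4 := hv1 hI
      have h5 := htilt hTa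
      have h7 : (1 / 2 - t) * (99 / 100) ≤ (1 / 2 - t) * Real.cos S.a :=
        mul_le_mul_of_nonneg_left hcos (by linarith)
      have h8 : h * Real.sin S.a ≤ (52 / 100 * (C * wst P 16 S)) / 100 := by
        have : |h * Real.sin S.a| ≤ 1 / 100 * (52 / 100 * (C * wst P 16 S)) := by
          rw [abs_mul, abs_of_nonneg h0]
          exact mul_le_mul h1 (hsin.trans h5) (abs_nonneg _) (by norm_num)
        have := (abs_le.1 this).2
        linarith
      nlinarith
    · obtain ⟨hc, hs⟩ := hLCe hL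
      rw [hc, hs] at h3
      have := hL.2.2.1
      linarith
    · exact hRB hR hTa hTx

end SqLo
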