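import Mathlib

/-! D1: abstract network lemma. States are pairs (node, offset in (-1/2,1/2)). The transfer from
`(S,t)`, `t ∈ M S T`, to `(T, s S T * t + c S T)` is expanding and globally injective.
The total cost of all orbits which start in the nodes of `A` and never come back to `A`
is at most the integral of the cost over all states. -/

open MeasureTheory Set

namespace SqLo

/-- one step of the transfer of a family of sets -/
private def D1_F {α : Type} (P : Finset α) (M : α → α → Set ℝ) (s c : α → α → ℝ)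
    (E : α → Set ℝ) : α → Set ℝ :=
  fun T => ⋃ S ∈ P, (fun t => s S T * t + c S T) '' (E S ∩ M S T)

private theorem D1_mem {α : Type} (P : Finset α) (M : α → α → Set ℝ) (s c : α → α → ℝ)
    (E : α → Set ℝ) (T : α) (t : ℝ) :
    t ∈ D1_F P M s c E T ↔ ∃ S ∈ P, ∃ t' ∈ E S, t' ∈ M S T ∧ t = s S T * t' + c S T := by
  unfold D1_F
  simp only [mem_iUnion, mem_image, mem_inter_iff, exists_prop]
  constructor
  · rintro ⟨S, hS, t', ⟨h1, h2⟩, h3⟩
    exact ⟨S, hS, t', h1, h2, h3.symm⟩
  · rintro ⟨S, hS, t', h1, h2, h3⟩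
    exact ⟨S, hS, t', ⟨h1, h2⟩, h3.symm⟩

private theorem D1_cv (s c : ℝ) (hs : 1 ≤ s) (E : Set ℝ) (hE : MeasurableSet E)
    (f : ℝ → ENNReal) :
    ∫⁻ t in E, f (s * t + c) ≤ ∫⁻ t in (fun t => s * t + c) '' E, f t := by
  have hinj : InjOn (fun t : ℝ => s * t + c) E := by
    intro a _ b _ hab
    simp only at hab
    have h0 : s ≠ 0 := by linarith
    exact mul_left_cancel₀ h0 (by linarith)
  have hder : ∀ x ∈ E, HasDerivWithinAt (fun t : ℝ => s * t + c) ((fun _ => s) x) E x := by
    intro x _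
    have h := ((hasDerivAt_id x).const_mul s).add_const c
    simp only [mul_one, id] at h
    exact h.hasDerivWithinAt
  rw [lintegral_image_eq_lintegral_abs_deriv_mul hE hder hinj f]
  apply lintegral_mono
  intro x
  have h1 : (1 : ENNReal) ≤ ENNReal.ofReal |s| := by
    rw [ENNReal.one_le_ofReal]
    exact le_trans hs (le_abs_self s)
  calc f (s * x + c) = 1 * f (s * x + c) := by rw [one_mul]
    _ ≤ ENNReal.ofReal |s| * f (s * x + c) := by gcongr

private theorem D1_meas_image (s c : ℝ) (hs : 1 ≤ s) (E : Set ℝ) (hE : MeasurableSet E) :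
    MeasurableSet ((fun t => s * t + c) '' E) := by
  have h0 : s ≠ 0 := by linarith
  have : (fun t => s * t + c) '' E = (fun t => s⁻¹ * (t - c)) ⁻¹' E := by
    ext t
    simp only [mem_image, mem_preimage]
    constructor
    · rintro ⟨x, hx, rfl⟩
      have : s⁻¹ * (s * x + c - c) = x := by
        field_simp
        ring
      rw [this]
      exact hx
    · intro h
      refine ⟨_, h, ?_⟩
      field_simp
      ring
  rw [this]
  exact hE.preimage (by fun_prop)

private theorem D1_meas {α : Type} (P : Finset α) (M : α → α → Set ℝ) (s c : α → α → ℝ)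
    (hM : ∀ S T, MeasurableSet (M S T)) (hs : ∀ S T, 1 ≤ s S T)
    (E : α → Set ℝ) (hE : ∀ S, MeasurableSet (E S)) (T : α) :
    MeasurableSet (D1_F P M s c E T) := by
  unfold D1_F
  exact Finset.measurableSet_biUnion P
    (fun S _ => D1_meas_image (s S T) (c S T) (hs S T) _ ((hE S).inter (hM S T)))

private theorem D1_claim1 {α : Type} (P : Finset α)
    (M : α → α → Set ℝ) (s c : α → α → ℝ)
    (hM : ∀ S T, MeasurableSet (M S T))
    (hs : ∀ S T, 1 ≤ s S T)
    (hinj : ∀ S S' T t t', S ∈ P → S' ∈ P → T ∈ P → t ∈ M S T → t' ∈ M S' T →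
      s S T * t + c S T = s S' T * t' + c S' T → S = S')
    (f : α → ℝ → ENNReal) (hf : ∀ S, Measurable (f S))
    (E : α → Set ℝ) (hE : ∀ S, MeasurableSet (E S)) :
    ∑ S ∈ P, ∫⁻ t in E S, ∑ T ∈ P, (M S T).indicator (fun t => f T (s S T * t + c S T)) t ≤
      ∑ T ∈ P, ∫⁻ t in D1_F P M s c E T, f T t := by
  have h1 : ∀ S ∈ P, ∫⁻ t in E S, ∑ T ∈ P,
      (M S T).indicator (fun t => f T (s S T * t + c S T)) t =
      ∑ T ∈ P, ∫⁻ t in E S ∩ M S T, f T (s S T * t + c S T) := by
    intro S _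
    rw [lintegral_finset_sum]
    · apply Finset.sum_congr rfl
      intro T _
      rw [lintegral_indicator (hM S T), Measure.restrict_restrict (hM S T), inter_comm]
    · intro T _
      exact (((hf T).comp (by fun_prop)).indicator (hM S T))
  rw [Finset.sum_congr rfl h1, Finset.sum_comm]
  apply Finset.sum_le_sum
  intro T hT
  unfold D1_F
  rw [lintegral_biUnion_finset]
  · apply Finset.sum_le_sum
    intro S _
    exact D1_cv _ _ (hs S T) _ ((hE S).inter (hM S T)) _
  · intro S hS S' hS' hne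
    rw [Function.onFun, Set.disjoint_left]
    rintro x ⟨t, ht, hx⟩ ⟨t', ht', hx'⟩
    exact hne (hinj S S' T t t' hS hS' hT ht.2 ht'.2 (by simp only at hx hx'; rw [hx, hx']))
  · intro S _
    exact D1_meas_image (s S T) (c S T) (hs S T) _ ((hE S).inter (hM S T))

private theorem D1_claim2 {α : Type} (P : Finset α)
    (M : α → α → Set ℝ) (s c : α → α → ℝ)
    (hM : ∀ S T, MeasurableSet (M S T))
    (hs : ∀ S T, 1 ≤ s S T)
    (hinj : ∀ S S' T t t', S ∈ P → S' ∈ P → T ∈ P → t ∈ M S T → t' ∈ M S' T →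
      s S T * t + c S T = s S' T * t' + c S' T → S = S')
    (g : α → ℝ → ENNReal) (hg : ∀ S, Measurable (g S))
    (U : ℕ → α → ℝ → ENNReal) (hU0 : ∀ S t, U 0 S t = 0)
    (hU : ∀ n S t, U (n + 1) S t =
      g S t + ∑ T ∈ P, (M S T).indicator (fun t => U n T (s S T * t + c S T)) t)
    (hUm : ∀ n S, Measurable (U n S)) (n : ℕ) :
    ∀ (E : α → Set ℝ), (∀ S, MeasurableSet (E S)) →
    ∑ S ∈ P, ∫⁻ t in E S, U n S t ≤
      ∑ k ∈ Finset.range n, ∑ S ∈ P, ∫⁻ t in ((D1_F P M s c)^[k] E) S, g S t := by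
  induction n with
  | zero =>
    intro E hE
    simp [hU0]
  | succ n ih =>
    intro E hE
    have h1 : ∀ S ∈ P, ∫⁻ t in E S, U (n + 1) S t = (∫⁻ t in E S, g S t) +
        ∫⁻ t in E S, ∑ T ∈ P, (M S T).indicator (fun t => U n T (s S T * t + c S T)) t := by
      intro S _
      rw [← lintegral_add_left (hg S)]
      apply lintegral_congr
      intro t
      exact hU n S t
    rw [Finset.sum_congr rfl h1, Finset.sum_add_distrib, Finset.sum_range_succ', add_comm]
    simp only [Function.iterate_zero, id, Function.iterate_succ_apply]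
    gcongr
    refine le_trans (D1_claim1 P M s c hM hs hinj (U n) (hUm n) E hE) ?_
    exact ih _ (fun T => D1_meas P M s c hM hs E hE T)

private theorem D1_reach {α : Type} (P A : Finset α) (hAP : A ⊆ P)
    (M : α → α → Set ℝ) (s c : α → α → ℝ) (E : α → Set ℝ)
    (hEA : ∀ S t, t ∈ E S → S ∈ A) (k : ℕ) :
    ∀ T ∈ P, ∀ t, t ∈ ((D1_F P M s c)^[k + 1] E) T → ∃ S ∈ A, ∃ t0,
      Relation.TransGen (fun a b : α × ℝ => a.1 ∈ P ∧ b.1 ∈ P ∧ a.2 ∈ M a.1 b.1 ∧
        b.2 = s a.1 b.1 * a.2 + c a.1 b.1) (S, t0) (T, t) := by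
  induction k with
  | zero =>
    intro T hT t ht
    rw [Function.iterate_succ_apply', D1_mem] at ht
    obtain ⟨S, hS, t', h1, h2, h3⟩ := ht
    exact ⟨S, hEA S t' h1, t', Relation.TransGen.single ⟨hS, hT, h2, h3⟩⟩
  | succ k ih =>
    intro T hT t ht
    rw [Function.iterate_succ_apply', D1_mem] at ht
    obtain ⟨S, hS, t', h1, h2, h3⟩ := ht
    obtain ⟨S0, hS0, t0, h⟩ := ih S hS t' h1
    exact ⟨S0, hS0, t0, h.tail ⟨hS, hT, h2, h3⟩⟩

theorem net {α : Type} [DecidableEq α] (P A : Finset α) (hAP : A ⊆ P)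
    (M : α → α → Set ℝ) (s c : α → α → ℝ)
    (hM : ∀ S T, MeasurableSet (M S T))
    (hMI : ∀ S T, M S T ⊆ Ioo (-1 / 2) (1 / 2))
    (hs : ∀ S T, 1 ≤ s S T)
    (hI : ∀ S T, ∀ t ∈ M S T, s S T * t + c S T ∈ Ioo (-1 / 2 : ℝ) (1 / 2))
    (hinj : ∀ S S' T t t', S ∈ P → S' ∈ P → T ∈ P → t ∈ M S T → t' ∈ M S' T →
      s S T * t + c S T = s S' T * t' + c S' T → S = S')
    (g : α → ℝ → ENNReal) (hg : ∀ S, Measurable (g S))
    (hNR : ∀ S T t t', S ∈ A → T ∈ A →
      ¬ Relation.TransGen (fun a b : α × ℝ => a.1 ∈ P ∧ b.1 ∈ P ∧ a.2 ∈ M a.1 b.1 ∧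
        b.2 = s a.1 b.1 * a.2 + c a.1 b.1) (S, t) (T, t'))
    (U : ℕ → α → ℝ → ENNReal) (hU0 : ∀ S t, U 0 S t = 0)
    (hU : ∀ n S t, U (n + 1) S t =
      g S t + ∑ T ∈ P, (M S T).indicator (fun t => U n T (s S T * t + c S T)) t) (n : ℕ) :
    ∑ S ∈ A, ∫⁻ t in Ioo (-1 / 2 : ℝ) (1 / 2), U n S t ≤
      ∑ S ∈ P, ∫⁻ t in Ioo (-1 / 2 : ℝ) (1 / 2), g S t := by
  have hUm : ∀ n S, Measurable (U n S) := by
    intro n
    induction n with
    | zero =>
      intro S
      have : U 0 S = fun _ => 0 := by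
        funext t
        exact hU0 S t
      rw [this]
      exact measurable_const
    | succ n ih =>
      intro S
      have : U (n + 1) S = fun t => g S t + ∑ T ∈ P,
          (M S T).indicator (fun t => U n T (s S T * t + c S T)) t := by
        funext t
        exact hU n S t
      rw [this]
      refine (hg S).add ?_
      apply Finset.measurable_fun_sum
      intro T _
      exact (((ih T).comp (by fun_prop)).indicator (hM S T))
  set E0 : α → Set ℝ := fun S => if S ∈ A then Ioo (-1 / 2 : ℝ) (1 / 2) else ∅ with hE0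
  have hE0m : ∀ S, MeasurableSet (E0 S) := by
    intro S
    simp only [hE0]
    split_ifs
    · exact measurableSet_Ioo
    · exact MeasurableSet.empty
  have hE0A : ∀ S t, t ∈ E0 S → S ∈ A := by
    intro S t ht
    simp only [hE0] at ht
    split_ifs at ht with h
    · exact h
    · exact absurd ht (by simp)
  have hsub : ∀ k S, S ∈ P → ((D1_F P M s c)^[k] E0) S ⊆ Ioo (-1 / 2 : ℝ) (1 / 2) := by
    intro k
    cases k with
    | zero =>
      intro S _ t ht
      simp only [Function.iterate_zero, id, hE0] at ht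
      split_ifs at ht with h
      · exact ht
      · exact absurd ht (by simp)
    | succ k =>
      intro S _ t ht
      rw [Function.iterate_succ_apply', D1_mem] at ht
      obtain ⟨S', _, t', _, h2, h3⟩ := ht
      rw [h3]
      exact hI S' S t' h2
  have hmeas : ∀ k S, MeasurableSet (((D1_F P M s c)^[k] E0) S) := by
    intro k
    induction k with
    | zero => exact hE0m
    | succ k ih =>
      intro S
      rw [Function.iterate_succ_apply']
      exact D1_meas P M s c hM hs _ ih S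
  have hdis : ∀ k l, k < l → ∀ T ∈ P, ∀ t, t ∈ ((D1_F P M s c)^[k] E0) T →
      t ∈ ((D1_F P M s c)^[l] E0) T → False := by
    intro k
    induction k with
    | zero =>
      intro l hl T hT t h1 h2
      obtain ⟨l', rfl⟩ : ∃ l', l = l' + 1 := ⟨l - 1, by omega⟩
      obtain ⟨S, hS, t0, h⟩ := D1_reach P A hAP M s c E0 hE0A l' T hT t h2
      exact hNR S T t0 t hS (hE0A T t h1) h
    | succ k ih =>
      intro l hl T hT t h1 h2
      obtain ⟨l', rfl⟩ : ∃ l', l = l' + 1 := ⟨l - 1, by omega⟩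
      rw [Function.iterate_succ_apply', D1_mem] at h1 h2
      obtain ⟨S, hS, t', h11, h12, h13⟩ := h1
      obtain ⟨S', hS', t'', h21, h22, h23⟩ := h2
      have hSS := hinj S S' T t' t'' hS hS' hT h12 h22 (by rw [← h13, ← h23])
      subst hSS
      have htt : t' = t'' := by
        have h0 : s S T ≠ 0 := by linarith [hs S T]
        exact mul_left_cancel₀ h0 (by linarith)
      subst htt
      exact ih l' (by omega) S hS t' h11 h21
  have hL : ∑ S ∈ A, ∫⁻ t in Ioo (-1 / 2 : ℝ) (1 / 2), U n S t =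
      ∑ S ∈ P, ∫⁻ t in E0 S, U n S t := by
    rw [← Finset.sum_subset hAP]
    · apply Finset.sum_congr rfl
      intro S hS
      simp only [hE0, hS, if_true]
    · intro S _ hS
      simp only [hE0, hS, if_false, Measure.restrict_empty, lintegral_zero_measure]
  rw [hL]
  refine le_trans (D1_claim2 P M s c hM hs hinj g hg U hU0 hU hUm n E0 hE0m) ?_
  rw [Finset.sum_comm]
  apply Finset.sum_le_sum
  intro S hS
  rw [← lintegral_biUnion_finset]
  · apply lintegral_mono_set
    intro t ht
    simp only [mem_iUnion] at ht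
    obtain ⟨k, _, hk⟩ := ht
    exact hsub k S hS hk
  · intro k _ l _ hne
    rw [Function.onFun, Set.disjoint_left]
    intro t h1 h2
    rcases lt_or_gt_of_ne hne with h | h
    · exact hdis k l h S hS t h1 h2
    · exact hdis l k h S hS t h2 h1
  · intro k _
    exact hmeas k S

end SqLo
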