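import Pool.Agent.Lib.MP_e85462_co.L.D1
import Pool.Agent.Lib.MP_e85462_co.L.C1
import Pool.Agent.Lib.MP_e85462_co.L.C2
import Pool.Agent.Lib.MP_e85462_co.L.C3

/-! D2: existence of cheap lines. -/

open MeasureTheory Set

namespace SqLo

/-- prepend a value to a sequence -/
private def D2_pre {β : Type} (a : β) (f : ℕ → β) : ℕ → β
  | 0 => a
  | n + 1 => f n

private theorem D2_ln {C : ℝ} {P : Finset Sq} {n : ℕ} {S : ℕ → Sq} {t h : ℕ → ℝ}
    (L : Ln C P n S t h) {S0 : Sq} {t0 h0 : ℝ} (L0 : Link C P S0 t0 (S 0) (t 0) h0) :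
    Ln C P (n + 1) (D2_pre S0 S) (D2_pre t0 t) (D2_pre h0 h) := by
  intro i hi
  match i with
  | 0 => exact L0
  | i + 1 => exact L i (by omega)

/-- a path in the state graph is a line -/
private theorem D2_path (C : ℝ) (P : Finset Sq) (act : Sq → Prop) (M : Sq → Sq → Set ℝ)
    (s c : Sq → Sq → ℝ)
    (hM : ∀ S T t, t ∈ M S T → act S ∧ ∃ h, Link C P S t T (s S T * t + c S T) h)
    {x y : Sq × ℝ}
    (hxy : Relation.TransGen (fun a b : Sq × ℝ => a.1 ∈ P ∧ b.1 ∈ P ∧ a.2 ∈ M a.1 b.1 ∧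
        b.2 = s a.1 b.1 * a.2 + c a.1 b.1) x y) :
    ∃ (n : ℕ) (S : ℕ → Sq) (t h : ℕ → ℝ), 1 ≤ n ∧ Ln C P n S t h ∧ (∀ i < n, act (S i)) ∧
      S 0 = x.1 ∧ t 0 = x.2 ∧ S n = y.1 := by
  induction hxy using Relation.TransGen.head_induction_on with
  | @single a h =>
    obtain ⟨-, -, h3, h4⟩ := h
    obtain ⟨ha, hh, L⟩ := hM _ _ _ h3
    rw [← h4] at L
    refine ⟨1, D2_pre a.1 (fun _ => y.1), D2_pre a.2 (fun _ => y.2), fun _ => hh, le_rfl,
      ?_, ?_, rfl, rfl, rfl⟩
    · intro i hi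
      obtain rfl : i = 0 := by omega
      exact L
    · intro i hi
      obtain rfl : i = 0 := by omega
      exact ha
  | @head a b h' h ih =>
    obtain ⟨-, -, h3, h4⟩ := h'
    obtain ⟨ha, hh, L⟩ := hM _ _ _ h3
    rw [← h4] at L
    obtain ⟨n, S, t, h, hn, hL, hact, e1, e2, e3⟩ := ih
    rw [← e1, ← e2] at L
    refine ⟨n + 1, D2_pre a.1 S, D2_pre a.2 t, D2_pre hh h, by omega, D2_ln hL L, ?_, rfl, rfl, e3⟩
    intro i hi
    match i with
    | 0 => exact ha
    | i + 1 => exact hact i (by omega)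

/-- the cost function of the orbits -/
private noncomputable def D2_U (P : Finset Sq) (M : Sq → Sq → Set ℝ) (s c : Sq → Sq → ℝ)
    (g : Sq → ℝ → ENNReal) : ℕ → Sq → ℝ → ENNReal
  | 0, _, _ => 0
  | n + 1, S, t => g S t +
      ∑ T ∈ P, (M S T).indicator (fun t => D2_U P M s c g n T (s S T * t + c S T)) t

private theorem D2_meas (P : Finset Sq) (M : Sq → Sq → Set ℝ) (s c : Sq → Sq → ℝ)
    (g : Sq → ℝ → ENNReal) (hM : ∀ S T, MeasurableSet (M S T)) (hg : ∀ S, Measurable (g S))
    (n : ℕ) : ∀ S, Measurable (D2_U P M s c g n S) := by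
  induction n with
  | zero =>
    intro S
    exact measurable_const
  | succ n ih =>
    intro S
    have e : D2_U P M s c g (n + 1) S = fun t => g S t +
      ∑ T ∈ P, (M S T).indicator (fun t => D2_U P M s c g n T (s S T * t + c S T)) t := rfl
    rw [e]
    refine (hg S).add ?_
    refine Finset.measurable_sum _ fun T _ => ?_
    refine Measurable.indicator ?_ (hM S T)
    exact (ih T).comp (by fun_prop)

private theorem D2_ext (C : ℝ) (hC : 1 ≤ C) (P : Finset Sq) (hN : Normd P)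
    (hT : TC P C) (act : Sq → Prop) (M : Sq → Sq → Set ℝ) (s c : Sq → Sq → ℝ)
    (hM : ∀ S T t t' h, act S → Link C P S t T t' h → t ∈ M S T ∧ t' = s S T * t + c S T)
    (g : Sq → ℝ → ENNReal)
    (hg : ∀ S ∈ P, act S → |S.a| ≤ 1 / 20 → ∀ t, |t| < 1 / 2 → g S t < 1 →
      ∃ T t' h, Link C P S t T t' h ∧
        ENNReal.ofReal (C * wst P 20 S) + ENNReal.ofReal h ≤ g S t)
    (k : ℕ) : ∀ (S0 : Sq) (t0 b : ℝ), S0 ∈ P → |t0| < 1 / 2 → 0 ≤ b → |S0.a| + b ≤ 1 / 20 →
      D2_U P M s c g k S0 t0 ≤ ENNReal.ofReal b →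
      ∃ (m : ℕ) (S : ℕ → Sq) (t h : ℕ → ℝ), m ≤ k ∧ S 0 = S0 ∧ t 0 = t0 ∧ Ln C P m S t h ∧
        cst C P S h m ≤ b ∧ (∀ i < m, act (S i)) ∧ (m = k ∨ ¬ act (S m)) := by
  induction k with
  | zero =>
    intro S0 t0 b _ _ hb _ _
    refine ⟨0, fun _ => S0, fun _ => t0, fun _ => 0, le_rfl, rfl, rfl, ?_, ?_, ?_, Or.inl rfl⟩
    · intro i hi
      omega
    · simpa [cst] using hb
    · intro i hi
      omega
  | succ k ih =>
    intro S0 t0 b hS0 ht0 hb hab hU
    by_cases hact : act S0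
    · have e : D2_U P M s c g (k + 1) S0 t0 = g S0 t0 +
        ∑ T ∈ P, (M S0 T).indicator (fun t => D2_U P M s c g k T (s S0 T * t + c S0 T)) t0 := rfl
      rw [e] at hU
      have hg1 : g S0 t0 < 1 := by
        refine lt_of_le_of_lt (le_self_add.trans hU) ?_
        rw [ENNReal.ofReal_lt_one]
        linarith [abs_nonneg S0.a]
      obtain ⟨T, t', h, L, hle⟩ := hg S0 hS0 hact (by linarith) t0 ht0 hg1
      obtain ⟨hm1, hm2⟩ := hM S0 T t0 t' h hact L
      have hT1 : D2_U P M s c g k T t' ≤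
          ∑ T ∈ P, (M S0 T).indicator (fun t => D2_U P M s c g k T (s S0 T * t + c S0 T)) t0 := by
        have h1 := Finset.single_le_sum
          (f := fun T => (M S0 T).indicator
            (fun t => D2_U P M s c g k T (s S0 T * t + c S0 T)) t0)
          (fun _ _ => zero_le) L.hT
        have h2 : (M S0 T).indicator
            (fun t => D2_U P M s c g k T (s S0 T * t + c S0 T)) t0 = D2_U P M s c g k T t' := by
          rw [indicator_of_mem hm1, ← hm2]
        simpa only [h2] using h1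
      have hw : 0 ≤ C * wst P 20 S0 := mul_nonneg (by linarith) (wst_nn P 20 S0)
      have hh : 0 ≤ h := L.h0
      have hsum : ENNReal.ofReal (C * wst P 20 S0 + h) + D2_U P M s c g k T t' ≤
          ENNReal.ofReal b := by
        rw [ENNReal.ofReal_add hw hh]
        exact (add_le_add hle hT1).trans hU
      have hb' : C * wst P 20 S0 + h ≤ b := by
        have := le_self_add.trans hsum
        exact (ENNReal.ofReal_le_ofReal_iff hb).1 this
      have hUT : D2_U P M s c g k T t' ≤ ENNReal.ofReal (b - (C * wst P 20 S0 + h)) := by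
        have e2 : ENNReal.ofReal b = ENNReal.ofReal (C * wst P 20 S0 + h) +
            ENNReal.ofReal (b - (C * wst P 20 S0 + h)) := by
          rw [← ENNReal.ofReal_add (by linarith) (by linarith)]
          congr 1
          ring
        rw [e2] at hsum
        exact (ENNReal.add_le_add_iff_left ENNReal.ofReal_ne_top).1 hsum
      have htl := lk_tilt hC hN hT L
      have h13 : C * wst P 13 S0 ≤ C * wst P 20 S0 := by
        refine mul_le_mul_of_nonneg_left (wst_le P 13 20 S0 S0 ?_ ?_) (by linarith)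
        · rw [sub_self]; norm_num
        · rw [sub_self]; norm_num
      have h13' : 0 ≤ C * wst P 13 S0 := mul_nonneg (by linarith) (wst_nn P 13 S0)
      have hTa : |T.a| ≤ |T.a - S0.a| + |S0.a| := by
        have := abs_add_le (T.a - S0.a) S0.a
        simpa using this
      have ht' : |t'| < 1 / 2 := by
        have h1 := L.mT
        have h2 : 0 ≤ C * wst P 16 T := mul_nonneg (by linarith) (wst_nn P 16 T)
        linarith
      obtain ⟨m, S, t, hs, hm, s0, e0, hL, hcst, hacts, hend⟩ :=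
        ih T t' (b - (C * wst P 20 S0 + h)) L.hT ht' (by linarith) (by linarith) hUT
      rw [← s0, ← e0] at L
      refine ⟨m + 1, D2_pre S0 S, D2_pre t0 t, D2_pre h hs, by omega, rfl, rfl, D2_ln hL L,
        ?_, ?_, ?_⟩
      · have e3 : cst C P (D2_pre S0 S) (D2_pre h hs) (m + 1) =
            cst C P S hs m + (C * wst P 20 S0 + h) := by
          unfold cst
          rw [Finset.sum_range_succ']
          rfl
        rw [e3]
        linarith
      · intro i hi
        match i with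
        | 0 => exact hact
        | i + 1 => exact hacts i (by omega)
      · rcases hend with h1 | h1
        · left; omega
        · right; exact h1
    · refine ⟨0, fun _ => S0, fun _ => t0, fun _ => 0, by omega, rfl, rfl, ?_, ?_, ?_,
        Or.inr hact⟩
      · intro i hi
        omega
      · simpa [cst] using hb
      · intro i hi
        omega

/-- a point with small value in the middle half of the interval -/
private theorem D2_pt (f : ℝ → ENNReal) (hf : Measurable f) :
    ∃ t : ℝ, |t| ≤ 1 / 4 ∧ f t ≤ 2 * ∫⁻ t in Ioo (-1 / 2 : ℝ) (1 / 2), f t := by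
  have hv : volume (Icc (-1 / 4 : ℝ) (1 / 4)) = ENNReal.ofReal (1 / 2) := by
    rw [Real.volume_Icc]
    congr 1
    norm_num
  have hv0 : volume (Icc (-1 / 4 : ℝ) (1 / 4)) ≠ 0 := by
    rw [hv]
    simp
  have hv1 : volume (Icc (-1 / 4 : ℝ) (1 / 4)) ≠ ⊤ := by
    rw [hv]
    exact ENNReal.ofReal_ne_top
  obtain ⟨t, ht, hle⟩ := exists_le_setLAverage hv0 hv1 hf.aemeasurable
  refine ⟨t, ?_, hle.trans ?_⟩
  · rw [abs_le]
    constructor <;> linarith [ht.1, ht.2]
  · rw [setLAverage_eq, hv]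
    have h1 : ∫⁻ x in Icc (-1 / 4 : ℝ) (1 / 4), f x ≤ ∫⁻ t in Ioo (-1 / 2 : ℝ) (1 / 2), f t := by
      refine lintegral_mono_set ?_
      intro x hx
      constructor <;> linarith [hx.1, hx.2]
    have h2 : ENNReal.ofReal (1 / 2) = 2⁻¹ := by
      rw [ENNReal.ofReal_div_of_pos (by norm_num)]
      simp
    rw [h2, div_eq_mul_inv, inv_inv, mul_comm]
    gcongr

theorem lines (C : ℝ) (hC : 1 ≤ C) (P : Finset Sq) (hP : Packing P) (hN : Normd P)
    (hT : TC P C) (A : Finset Sq) (hA : A ⊆ P) (hAa : ∀ S ∈ A, |S.a| ≤ 1 / 100)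
    (act : Sq → Prop)
    (hNR : ∀ (n : ℕ) (S : ℕ → Sq) (t h : ℕ → ℝ), 1 ≤ n → Ln C P n S t h →
      (∀ i < n, act (S i)) → S 0 ∈ A → S n ∈ A → False)
    (n : ℕ) :
    ∃ w : Sq → ℝ, (∀ S, 0 ≤ w S) ∧
      (∀ R : ℝ, (∀ Q : Finset Sq, Q ⊆ P → (∀ S ∈ Q, act S) → ∑ S ∈ Q, wst P 20 S ≤ R) →
        ∑ S ∈ A, w S ≤ 10 ^ 6 * (C * R)) ∧
      ∀ S0 ∈ A, w S0 < 1 / 100 → ∃ (m : ℕ) (S : ℕ → Sq) (t h : ℕ → ℝ), m ≤ n ∧ S 0 = S0 ∧
        |t 0| ≤ 1 / 4 ∧ Ln C P m S t h ∧ cst C P S h m ≤ w S0 ∧ (∀ i < m, act (S i)) ∧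
        (m = n ∨ ¬ act (S m)) := by
  classical
  choose s c hs1 hsm hsc using fun S T => lk_meas C P S T
  have hBex : ∀ S : Sq, ∃ B : Set ℝ, MeasurableSet B ∧
      volume B ≤ ENNReal.ofReal (10 ^ 5 * (C * wst P 20 S)) ∧
      (S ∈ P → |S.a| ≤ 1 / 20 → ∀ t, |t| < 1 / 2 → t ∉ B →
        ∃ T t' h, Link C P S t T t' h ∧ ENNReal.ofReal h ≤ hlen P S t) := by
    intro S
    by_cases h : S ∈ P ∧ |S.a| ≤ 1 / 20
    · obtain ⟨B, h1, h2, h3⟩ := dead C hC P hP hN hT S h.1 h.2
      exact ⟨B, h1, h2, fun _ _ => h3⟩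
    · refine ⟨∅, MeasurableSet.empty, by simp, fun h1 h2 => absurd ⟨h1, h2⟩ h⟩
  choose B hBm hBv hBd using hBex
  set M : Sq → Sq → Set ℝ := fun S T => {t | act S ∧ ∃ t' h, Link C P S t T t' h} with hMdef
  set g : Sq → ℝ → ENNReal := fun S t => if act S then
    ENNReal.ofReal (C * wst P 20 S) + hlen P S t + (B S).indicator 1 t else 0 with hgdef
  have hMm : ∀ S T, MeasurableSet (M S T) := by
    intro S T
    by_cases h : act S
    · have e : M S T = {t | ∃ t' h, Link C P S t T t' h} := by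
        ext t
        simp [hMdef, h]
      rw [e]
      exact hsm S T
    · have e : M S T = ∅ := by
        ext t
        simp [hMdef, h]
      rw [e]
      exact MeasurableSet.empty
  have hgm : ∀ S, Measurable (g S) := by
    intro S
    by_cases h : act S
    · have e : g S = fun t => ENNReal.ofReal (C * wst P 20 S) + hlen P S t +
          (B S).indicator 1 t := by
        funext t
        simp [hgdef, h]
      rw [e]
      refine (measurable_const.add (hlen_meas P S)).add ?_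
      exact measurable_one.indicator (hBm S)
    · have e : g S = fun _ => 0 := by
        funext t
        simp [hgdef, h]
      rw [e]
      exact measurable_const
  have hM1 : ∀ S T t, t ∈ M S T → act S ∧ ∃ h, Link C P S t T (s S T * t + c S T) h := by
    rintro S T t ⟨h1, t', h, L⟩
    refine ⟨h1, h, ?_⟩
    rw [← hsc S T t t' h L]
    exact L
  have hM2 : ∀ S T t t' h, act S → Link C P S t T t' h → t ∈ M S T ∧ t' = s S T * t + c S T :=
    fun S T t t' h h1 L => ⟨⟨h1, t', h, L⟩, hsc S T t t' h L⟩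
  have hwn : ∀ (r : ℝ) (S : Sq), 0 ≤ C * wst P r S :=
    fun r S => mul_nonneg (by linarith) (wst_nn P r S)
  have hMI : ∀ S T, M S T ⊆ Ioo (-1 / 2) (1 / 2) := by
    intro S T t ht
    obtain ⟨-, h, L⟩ := hM1 S T t ht
    have h1 := L.mS
    have h2 := hwn 16 S
    rw [abs_lt] at h1
    constructor <;> linarith [h1.1, h1.2]
  have hI : ∀ S T, ∀ t ∈ M S T, s S T * t + c S T ∈ Ioo (-1 / 2 : ℝ) (1 / 2) := by
    intro S T t ht
    obtain ⟨-, h, L⟩ := hM1 S T t ht
    have h1 := L.mT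
    have h2 := hwn 16 T
    rw [abs_lt] at h1
    constructor <;> linarith [h1.1, h1.2]
  have hinj : ∀ S S' T t t', S ∈ P → S' ∈ P → T ∈ P → t ∈ M S T → t' ∈ M S' T →
      s S T * t + c S T = s S' T * t' + c S' T → S = S' := by
    intro S S' T t t' _ _ _ ht ht' he
    obtain ⟨-, h, L⟩ := hM1 S T t ht
    obtain ⟨-, h', L'⟩ := hM1 S' T t' ht'
    rw [← he] at L'
    exact (link_inj C hC P hP hN hT L L').1
  have hnet := net P A hA M s c hMm hMI hs1 hI hinj g hgm (by
    intro S T t t' hS hT' hpath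
    obtain ⟨k, S', t', h', hk, hL, hact, e1, e2, e3⟩ := D2_path C P act M s c hM1 hpath
    exact hNR k S' t' h' hk hL hact (by rw [e1]; exact hS) (by rw [e3]; exact hT'))
    (D2_U P M s c g) (fun _ _ => rfl) (fun _ _ _ => rfl) n
  -- integral of the cost
  have hint : ∀ S, ∫⁻ t in Ioo (-1 / 2 : ℝ) (1 / 2), g S t ≤
      if act S then ENNReal.ofReal ((10 ^ 5 + 2) * (C * wst P 20 S)) else 0 := by
    intro S
    by_cases h : act S
    · rw [if_pos h]
      have e : g S = fun t => ENNReal.ofReal (C * wst P 20 S) + hlen P S t +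
          (B S).indicator 1 t := by
        funext t
        simp [hgdef, h]
      rw [e, lintegral_add_right _ (measurable_one.indicator (hBm S)),
        lintegral_add_right _ (hlen_meas P S), setLIntegral_const]
      have hv : volume (Ioo (-1 / 2 : ℝ) (1 / 2)) = 1 := by
        rw [Real.volume_Ioo]
        norm_num
      have h1 : ∫⁻ t in Ioo (-1 / 2 : ℝ) (1 / 2), (B S).indicator 1 t ≤
          ENNReal.ofReal (10 ^ 5 * (C * wst P 20 S)) := by
        rw [lintegral_indicator_one (hBm S)]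
        exact (Measure.restrict_apply_le _ _).trans (hBv S)
      have h2 := hlen_int P S
      have h3 : ENNReal.ofReal (wst P 20 S) ≤ ENNReal.ofReal (C * wst P 20 S) := by
        refine ENNReal.ofReal_le_ofReal ?_
        have := wst_nn P 20 S
        nlinarith
      rw [hv, mul_one]
      refine (add_le_add (add_le_add le_rfl (h2.trans h3)) h1).trans ?_
      rw [← ENNReal.ofReal_add (hwn 20 S) (hwn 20 S), ← ENNReal.ofReal_add
        (by linarith [hwn 20 S]) (by have := hwn 20 S; positivity)]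
      refine ENNReal.ofReal_le_ofReal ?_
      linarith
    · rw [if_neg h]
      have e : g S = fun _ => 0 := by
        funext t
        simp [hgdef, h]
      rw [e]
      simp
  have hsumg : ∑ S ∈ P, ∫⁻ t in Ioo (-1 / 2 : ℝ) (1 / 2), g S t ≤
      ENNReal.ofReal ((10 ^ 5 + 2) * (C * ∑ S ∈ P.filter act, wst P 20 S)) := by
    refine (Finset.sum_le_sum fun S _ => hint S).trans ?_
    rw [← Finset.sum_filter, ← ENNReal.ofReal_sum_of_nonneg, Finset.mul_sum, Finset.mul_sum]
    intro S _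
    have := hwn 20 S
    positivity
  have hAfin : ∀ S ∈ A, ∫⁻ t in Ioo (-1 / 2 : ℝ) (1 / 2), D2_U P M s c g n S t ≠ ⊤ := by
    intro S hS
    have h1 := Finset.single_le_sum
      (f := fun S => ∫⁻ t in Ioo (-1 / 2 : ℝ) (1 / 2), D2_U P M s c g n S t)
      (fun _ _ => zero_le) hS
    exact ne_top_of_le_ne_top ENNReal.ofReal_ne_top ((h1.trans hnet).trans hsumg)
  refine ⟨fun S => (2 * ∫⁻ t in Ioo (-1 / 2 : ℝ) (1 / 2), D2_U P M s c g n S t).toReal,
    fun S => ENNReal.toReal_nonneg, ?_, ?_⟩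
  · intro R hR
    have hR0 : 0 ≤ R := by
      have := hR ∅ (Finset.empty_subset _) (by simp)
      simpa using this
    have hRa := hR (P.filter act) (Finset.filter_subset _ _)
      (fun S hS => (Finset.mem_filter.1 hS).2)
    have hsum0 : 0 ≤ ∑ S ∈ P.filter act, wst P 20 S :=
      Finset.sum_nonneg fun S _ => wst_nn P 20 S
    rw [← ENNReal.toReal_sum (fun S hS => ENNReal.mul_ne_top (by simp) (hAfin S hS)),
      ← Finset.mul_sum]
    have h1 : (2 : ENNReal) * ∑ S ∈ A, ∫⁻ t in Ioo (-1 / 2 : ℝ) (1 / 2), D2_U P M s c g n S t ≤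
        ENNReal.ofReal (2 * ((10 ^ 5 + 2) * (C * ∑ S ∈ P.filter act, wst P 20 S))) := by
      rw [ENNReal.ofReal_mul (by norm_num : (0 : ℝ) ≤ 2)]
      have e2 : ENNReal.ofReal 2 = 2 := by simp
      rw [e2]
      gcongr
      exact hnet.trans hsumg
    refine (ENNReal.toReal_mono ENNReal.ofReal_ne_top h1).trans ?_
    rw [ENNReal.toReal_ofReal (by positivity)]
    have h2 : C * ∑ S ∈ P.filter act, wst P 20 S ≤ C * R :=
      mul_le_mul_of_nonneg_left hRa (by linarith)
    have h3 : 0 ≤ C * R := by positivity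
    linarith
  · intro S0 hS0 hw
    obtain ⟨t0, ht0, hle⟩ := D2_pt (D2_U P M s c g n S0) (D2_meas P M s c g hMm hgm n S0)
    have hfin : (2 * ∫⁻ t in Ioo (-1 / 2 : ℝ) (1 / 2), D2_U P M s c g n S0 t) ≠ ⊤ :=
      ENNReal.mul_ne_top (by simp) (hAfin S0 hS0)
    rw [← ENNReal.ofReal_toReal hfin] at hle
    have hg : ∀ S ∈ P, act S → |S.a| ≤ 1 / 20 → ∀ t, |t| < 1 / 2 → g S t < 1 →
        ∃ T t' h, Link C P S t T t' h ∧
          ENNReal.ofReal (C * wst P 20 S) + ENNReal.ofReal h ≤ g S t := by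
      intro S hS hact ha t ht hg1
      have e : g S t = ENNReal.ofReal (C * wst P 20 S) + hlen P S t + (B S).indicator 1 t := by
        simp [hgdef, hact]
      have hnB : t ∉ B S := by
        intro hmem
        rw [e, indicator_of_mem hmem] at hg1
        exact absurd hg1 (not_lt.2 le_add_self)
      obtain ⟨T, t', h, L, hh⟩ := hBd S hS ha t ht hnB
      refine ⟨T, t', h, L, ?_⟩
      rw [e]
      exact (add_le_add le_rfl hh).trans le_self_add
    obtain ⟨m, S, t, h, hm, s0, e0, hL, hcst, hacts, hend⟩ :=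
      D2_ext C hC P hN hT act M s c hM2 g hg n S0 t0 _ (hA hS0) (by linarith)
        ENNReal.toReal_nonneg (by linarith [hAa S0 hS0]) hle
    exact ⟨m, S, t, h, hm, s0, by rw [e0]; exact ht0, hL, hcst, hacts, hend⟩

end SqLo
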