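import Pool.Agent.Lib.MP_e85462_co.L.A1m

/-! E2: the sum of the local wastes of the active squares. -/

open MeasureTheory Set

namespace SqLo

theorem total (X : ℝ) (hX : 1 ≤ X) (P : Finset Sq) (hP : Packing P) (Q : Finset Sq) (hQ : Q ⊆ P)
    (hA : ∀ S ∈ Q, Act X S) : ∑ S ∈ Q, wst P 20 S ≤ 2000 * tw X P := by
  classical
  set B : Set (ℝ × ℝ) := bx (X / 2, X / 2) (X / 2 + 35) with hB
  have hsub : ∀ S ∈ Q, bx (S.x, S.y) 20 ⊆ B := by
    intro S hS p hp
    obtain ⟨h1, h2, h3, h4⟩ := hA S hS
    obtain ⟨h5, h6⟩ := hp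
    rw [abs_le] at h5 h6
    dsimp only at h5 h6
    refine ⟨?_, ?_⟩
    · rw [abs_le]; dsimp only
      constructor <;> linarith [h5.1, h5.2]
    · rw [abs_le]; dsimp only
      constructor <;> linarith [h6.1, h6.2]
  have hHm : MeasurableSet (Hole P ∩ B) := (hole_open P).measurableSet.inter (bx_meas _ _)
  have h1 : ∀ S ∈ Q, volume (Hole P ∩ bx (S.x, S.y) 20) =
      ∫⁻ p in Hole P ∩ B, (bx (S.x, S.y) 20).indicator (fun _ => (1 : ENNReal)) p := by
    intro S hS
    rw [lintegral_indicator (bx_meas _ _), lintegral_one,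
      Measure.restrict_apply MeasurableSet.univ, univ_inter,
      Measure.restrict_apply (bx_meas _ _)]
    congr 1
    ext p
    constructor
    · rintro ⟨a, b⟩; exact ⟨b, a, hsub S hS b⟩
    · rintro ⟨a, b, _⟩; exact ⟨b, a⟩
  have h2 : ∑ S ∈ Q, volume (Hole P ∩ bx (S.x, S.y) 20) ≤ 2000 * volume (Hole P ∩ B) := by
    rw [Finset.sum_congr rfl h1, ← lintegral_finsetSum]
    · calc ∫⁻ p in Hole P ∩ B, ∑ S ∈ Q, (bx (S.x, S.y) 20).indicator (fun _ => (1 : ENNReal)) p
          ≤ ∫⁻ _ in Hole P ∩ B, (2000 : ENNReal) := by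
            refine lintegral_mono fun p => ?_
            have h3 : ∑ S ∈ Q, (bx (S.x, S.y) 20).indicator (fun _ => (1 : ENNReal)) p =
                ((Q.filter (fun S => p ∈ bx (S.x, S.y) 20)).card : ENNReal) := by
              rw [Finset.card_filter, Nat.cast_sum]
              refine Finset.sum_congr rfl fun S _ => ?_
              by_cases hp : p ∈ bx (S.x, S.y) 20
              · rw [indicator_of_mem hp, if_pos hp, Nat.cast_one]
              · rw [indicator_of_notMem hp, if_neg hp, Nat.cast_zero]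
            rw [h3]
            have h4 := count_bx P hP p 20 (by norm_num) (Q.filter (fun S => p ∈ bx (S.x, S.y) 20))
              ((Finset.filter_subset _ _).trans hQ) (fun S hS => by
                obtain ⟨_, hb1, hb2⟩ := Finset.mem_filter.1 hS
                dsimp only at hb1 hb2
                rw [abs_sub_comm S.x, abs_sub_comm S.y]
                exact ⟨hb1, hb2⟩)
            have h5 : (((Q.filter (fun S => p ∈ bx (S.x, S.y) 20)).card : ℕ) : ℝ) ≤ ((2000 : ℕ) : ℝ) := by
              refine h4.trans ?_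
              norm_num
            have h6 : (Q.filter (fun S => p ∈ bx (S.x, S.y) 20)).card ≤ 2000 := by exact_mod_cast h5
            have h9 : (((Q.filter (fun S => p ∈ bx (S.x, S.y) 20)).card : ℕ) : ENNReal) ≤
                ((2000 : ℕ) : ENNReal) := Nat.cast_le.2 h6
            rw [Nat.cast_ofNat] at h9
            exact h9
        _ = 2000 * volume (Hole P ∩ B) := by
            rw [setLIntegral_const]
    · intro S _
      exact (measurable_const.indicator (bx_meas _ _))
  have hfin : ∀ S ∈ Q, volume (Hole P ∩ bx (S.x, S.y) 20) ≠ ⊤ := fun S _ => (hb_fin P _ _).ne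
  have h7 : ∑ S ∈ Q, wst P 20 S = (∑ S ∈ Q, volume (Hole P ∩ bx (S.x, S.y) 20)).toReal := by
    rw [ENNReal.toReal_sum hfin]
    rfl
  rw [h7]
  have h8 : (2000 * volume (Hole P ∩ B)).toReal = 2000 * tw X P := by
    rw [ENNReal.toReal_mul]
    rfl
  rw [← h8]
  exact ENNReal.toReal_mono (ENNReal.mul_ne_top (by norm_num) (hb_fin P _ _).ne) h2

end SqLo
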