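import Pool.Agent.Lib.MP_e85462_co.L.D2
import Pool.Agent.Lib.MP_e85462_co.L.C4
import Pool.Agent.Lib.MP_e85462_co.L.E2

/-! D3: existence of cheap lines to the right wall. -/

open MeasureTheory Set

namespace SqLo

private theorem D3_cos {a : ℝ} (h : |a| ≤ 1 / 10) : 99 / 100 ≤ Real.cos a := by
  have h1 := Real.one_sub_sq_div_two_le_cos (x := a)
  have h2 : a ^ 2 ≤ (1 / 10) ^ 2 := by
    rw [← sq_abs]
    exact pow_le_pow_left₀ (abs_nonneg _) h 2
  norm_num at h2
  linarith

private theorem D3_mem {S : Sq} {s t : ℝ} (hs : |s| ≤ 1 / 2) (ht : |t| ≤ 1 / 2) : S.pt s t ∈ S.cl := by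
  refine ⟨?_, ?_⟩
  · rw [pt_u]; exact hs
  · rw [pt_v]; exact ht

private theorem D3_pt {S : Sq} {t : ℝ} (ht : |t| ≤ 1 / 2) :
    |(S.pt (-1 / 2) t).1 - S.x| ≤ 1 := by
  have h1 : (S.pt (-1 / 2) t).1 - S.x = -1 / 2 * Real.cos S.a - t * Real.sin S.a := by
    simp only [Sq.pt]
    ring
  rw [h1]
  have h2 := Real.abs_cos_le_one S.a
  have h3 := Real.abs_sin_le_one S.a
  have h4 : |t * Real.sin S.a| ≤ 1 / 2 := by
    rw [abs_mul]
    calc |t| * |Real.sin S.a| ≤ 1 / 2 * 1 := mul_le_mul ht h3 (abs_nonneg _) (by norm_num)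
      _ = 1 / 2 := by norm_num
  have h5 : |-1 / 2 * Real.cos S.a| ≤ 1 / 2 := by
    rw [abs_mul]
    have : |(-1 / 2 : ℝ)| = 1 / 2 := by norm_num
    rw [this]
    linarith
  rw [abs_le] at h4 h5 ⊢
  constructor <;> linarith [h4.1, h4.2, h5.1, h5.2]

private theorem D3_In {X : ℝ} {S : Sq} (h : In X S) : 0 ≤ S.x ∧ S.x ≤ X ∧ 0 ≤ S.y ∧ S.y ≤ X :=
  h (op_sub_cl S (ctr_mem S))

private theorem D3_RB {X : ℝ} {S : Sq} {t : ℝ} (h : RB X S) :
    S.a = 0 ∧ 0 ≤ S.y ∧ S.y ≤ X ∧ X < S.x ∧ (S.pt (-1 / 2) t).1 = S.x - 1 / 2 ∧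
      ∃ j : ℕ, (S.pt (-1 / 2) t).1 = X + j := by
  obtain ⟨h1, h2, h3, j, h4⟩ := h
  have h5 : (S.pt (-1 / 2) t).1 = S.x - 1 / 2 := by
    simp only [Sq.pt, h1, Real.cos_zero, Real.sin_zero]
    ring
  have hj : (0 : ℝ) ≤ j := Nat.cast_nonneg j
  exact ⟨h1, by linarith, by linarith, by rw [h4]; linarith, h5, j, by rw [h5, h4]; ring⟩

private theorem D3_wst {C : ℝ} (hC : 1 ≤ C) (P : Finset Sq) (r : ℝ) (S : Sq) :
    0 ≤ C * wst P r S := mul_nonneg (by linarith) (wst_nn P r S)

private theorem D3_tS {C : ℝ} (hC : 1 ≤ C) {P : Finset Sq} {S T : Sq} {t t' h : ℝ}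
    (L : Link C P S t T t' h) : |t| ≤ 1 / 2 ∧ |t'| ≤ 1 / 2 := by
  have h1 := L.mS
  have h2 := L.mT
  have h3 := D3_wst hC P 16 S
  have h4 := D3_wst hC P 16 T
  constructor <;> linarith

theorem glines (C : ℝ) (hC : 1 ≤ C) (X : ℝ) (P : Finset Sq) (hF : Framed X P)
    (hT : TC P C) (A : Finset Sq) (hA : A ⊆ P) (hAa : ∀ S ∈ A, |S.a| ≤ 1 / 100)
    (hAI : ∀ S ∈ A, In X S ∨ LC X S)
    (hNR : ∀ (n : ℕ) (S : ℕ → Sq) (t h : ℕ → ℝ), 1 ≤ n → Ln C P n S t h →
      S 0 ∈ A → S n ∈ A → False) :
    ∃ w : Sq → ℝ, (∀ S, 0 ≤ w S) ∧ ∑ S ∈ A, w S ≤ 10 ^ 10 * (C * tw X P) ∧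
      ∀ S0 ∈ A, w S0 < 1 / 100 → ∃ (n : ℕ) (S : ℕ → Sq) (t h : ℕ → ℝ),
        GLine C X P S0 n S t h ∧ cst C P S h (n + 8) ≤ w S0 := by
  have hX1 := hF.X1
  obtain ⟨n, hn⟩ := exists_nat_gt (2 * X + 60)
  obtain ⟨w, hw0, hwR, hw⟩ := lines C hC P hF.pk hF.nm hT A hA hAa (Act X)
    (fun n S t h h1 h2 _ h4 h5 => hNR n S t h h1 h2 h4 h5) n
  have htw : 0 ≤ tw X P := ENNReal.toReal_nonneg
  refine ⟨w, hw0, ?_, ?_⟩
  · refine (hwR (2000 * tw X P) (fun Q hQ hQA => total X hX1 P hF.pk Q hQ hQA)).trans ?_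
    have : 0 ≤ C * tw X P := mul_nonneg (by linarith) htw
    nlinarith
  · intro S0 hS0 hwS0
    obtain ⟨m, S, t, h, hmn, hs0, ht0, hLn, hcst, hact, hend⟩ := hw S0 hS0 hwS0
    have hn0 : 0 < n := by
      rcases Nat.eq_zero_or_pos n with h0 | h0
      · rw [h0] at hn
        norm_num at hn
        linarith
      · exact h0
    have h0type : In X (S 0) ∨ LC X (S 0) := by rw [hs0]; exact hAI S0 hS0
    have h0x : -1 ≤ (S 0).x ∧ (S 0).x ≤ X ∧ 0 ≤ (S 0).y ∧ (S 0).y ≤ X := by
      rcases h0type with hI | hL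
      · obtain ⟨h1, h2, h3, h4⟩ := D3_In hI
        exact ⟨by linarith, h2, h3, h4⟩
      · obtain ⟨_, h2, h3, h4⟩ := hL
        rw [h4]
        exact ⟨by norm_num, by linarith, by linarith, by linarith⟩
    -- types
    have htype : ∀ i, i ≤ m → (In X (S i) ∨ LC X (S i) ∨ RB X (S i)) ∧
        (1 ≤ i → In X (S i) ∨ RB X (S i)) := by
      intro i
      induction i with
      | zero =>
        intro _
        refine ⟨?_, fun h => absurd h (by norm_num)⟩
        rcases h0type with h1 | h1
        · exact Or.inl h1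
        · exact Or.inr (Or.inl h1)
      | succ i ih =>
        intro hi
        have h1 := wall C hC X P hF hT (hLn i (by omega)) (ih (by omega)).1
        refine ⟨?_, fun _ => h1⟩
        rcases h1 with h1 | h1
        · exact Or.inl h1
        · exact Or.inr (Or.inr h1)
    have hpos : ∀ i, i ≤ m → -1 ≤ (S i).x ∧ 0 ≤ (S i).y ∧ (S i).y ≤ X := by
      intro i hi
      rcases (htype i hi).1 with hI | hL | hR
      · obtain ⟨h1, h2, h3, h4⟩ := D3_In hI
        exact ⟨by linarith, h3, h4⟩
      · obtain ⟨_, h2, h3, h4⟩ := hL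
        rw [h4]
        exact ⟨by norm_num, by linarith, by linarith⟩
      · obtain ⟨_, h2, h3, h4, _⟩ := D3_RB (t := 0) hR
        exact ⟨by linarith, h2, h3⟩
    have hentstep : ∀ i, i < m → (ent S t (i + 1)).1 =
        (ent S t i).1 + (1 + h i) * Real.cos (S i).a := by
      intro i hi
      unfold ent
      rw [lk_ent (hLn i hi)]
    have hti : ∀ i, i < m → |t i| ≤ 1 / 2 := fun i hi => (D3_tS hC (hLn i hi)).1
    -- m is positive
    have hm1 : 1 ≤ m := by
      by_contra hm0
      have hm0' : m = 0 := by omega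
      rcases hend with h1 | h1
      · omega
      · apply h1
        rw [hm0']
        exact ⟨h0x.1, by linarith [h0x.2.1], h0x.2.2.1, h0x.2.2.2⟩
    have ht0' : |t 0| ≤ 1 / 2 := by linarith
    have hent0 : -2 ≤ (ent S t 0).1 := by
      have h1 := D3_pt (S := S 0) ht0'
      rw [abs_le] at h1
      unfold ent
      linarith [h1.1, h0x.1]
    have hgrow : ∀ i, i ≤ m → -2 + 99 / 100 * (i : ℝ) ≤ (ent S t i).1 := by
      intro i
      induction i with
      | zero =>
        intro _
        norm_num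
        linarith
      | succ i ih =>
        intro hi
        have h1 := ih (by omega)
        rw [hentstep i (by omega)]
        have hL := hLn i (by omega)
        have h2 := D3_cos hL.aS
        have h3 := hL.h0
        have h4 : 99 / 100 ≤ (1 + h i) * Real.cos (S i).a := by nlinarith
        push_cast
        linarith
    have hnact : ¬ Act X (S m) := by
      rcases hend with h1 | h1
      · exfalso
        have hact' := hact (m - 1) (by omega)
        have h2 := hgrow (m - 1) (by omega)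
        have h3 := D3_pt (S := S (m - 1)) (hti (m - 1) (by omega))
        rw [abs_le] at h3
        have h4 : (ent S t (m - 1)).1 = ((S (m - 1)).pt (-1 / 2) (t (m - 1))).1 := rfl
        have h5 : ((m - 1 : ℕ) : ℝ) = (m : ℝ) - 1 := by
          rw [Nat.cast_sub hm1, Nat.cast_one]
        rw [h5, h4] at h2
        have h6 : (m : ℝ) = n := by rw [h1]
        have h7 := hact'.2.1
        rw [h6] at h2
        linarith [h3.2]
      · exact h1
    have hxm : X + 10 < (S m).x := by
      by_contra hcon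
      push Not at hcon
      obtain ⟨h1, h2, h3⟩ := hpos m le_rfl
      exact hnact ⟨h1, hcon, h2, h3⟩
    have hRBm : RB X (S m) := by
      rcases (htype m le_rfl).2 hm1 with h1 | h1
      · have := (D3_In h1).2.1
        linarith
      · exact h1
    classical
    have hex : ∃ i, RB X (S i) := ⟨m, hRBm⟩
    set n' := Nat.find hex with hn'
    have hRBn : RB X (S n') := Nat.find_spec hex
    have hn'm : n' ≤ m := Nat.find_min' hex hRBm
    have hmin : ∀ i, i < n' → ¬ RB X (S i) := fun i hi => Nat.find_min hex hi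
    have hn'1 : 1 ≤ n' := by
      by_contra hcon
      have h1 : n' = 0 := by omega
      rw [h1] at hRBn
      have := (D3_RB (t := 0) hRBn).2.2.2.1
      linarith [h0x.2.1]
    have hbase : (ent S t n').1 = X := by
      have hL := hLn (n' - 1) (by omega)
      have he : n' - 1 + 1 = n' := by omega
      rw [he] at hL
      have h1 : (ent S t n').1 = ((S (n' - 1)).pt (1 / 2 + h (n' - 1)) (t (n' - 1))).1 := by
        unfold ent
        rw [hL.eq]
      have h2 : ((S (n' - 1)).pt (1 / 2 + h (n' - 1)) (t (n' - 1))).1 =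
          ((S (n' - 1)).pt (1 / 2) (t (n' - 1))).1 + h (n' - 1) * Real.cos (S (n' - 1)).a := by
        simp only [Sq.pt]
        ring
      have hts := (D3_tS hC hL).1
      have h3 : ((S (n' - 1)).pt (1 / 2) (t (n' - 1))).1 ≤ X := by
        rcases (htype (n' - 1) (by omega)).1 with hI | hLC | hR
        · exact (hI (D3_mem (by norm_num) hts)).2.1
        · obtain ⟨g1, g2, g3, g4⟩ := hLC
          simp only [Sq.pt, g1, g4, Real.cos_zero, Real.sin_zero]
          linarith
        · exact absurd hR (hmin _ (by omega))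
      have h4 : h (n' - 1) * Real.cos (S (n' - 1)).a ≤ 1 / 100 := by
        have g1 := hL.h0
        have g2 := hL.h1
        have g3 := Real.cos_le_one (S (n' - 1)).a
        nlinarith
      obtain ⟨_, _, _, g4, g5, j, g6⟩ := D3_RB (t := t n') hRBn
      have h5 : (ent S t n').1 = X + j := g6
      have h6 : (j : ℝ) ≤ 1 / 100 := by linarith
      have h7 : j = 0 := by
        by_contra hj
        have : (1 : ℝ) ≤ j := by exact_mod_cast Nat.one_le_iff_ne_zero.mpr hj
        linarith
      rw [h5, h7]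
      simp
    have hbar : ∀ k, n' + k ≤ m → RB X (S (n' + k)) ∧ (ent S t (n' + k)).1 = X + k := by
      intro k
      induction k with
      | zero =>
        intro _
        refine ⟨hRBn, ?_⟩
        rw [Nat.add_zero, hbase]
        simp
      | succ k ih =>
        intro hk
        obtain ⟨hR, hE⟩ := ih (by omega)
        have hL := hLn (n' + k) (by omega)
        have ha := (D3_RB (t := 0) hR).1
        have hstep := hentstep (n' + k) (by omega)
        rw [ha, Real.cos_zero, hE] at hstep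
        have g0 := hL.h0
        have g1 := hL.h1
        have hk0 : (0 : ℝ) ≤ k := Nat.cast_nonneg k
        have hw' := wall C hC X P hF hT hL (Or.inr (Or.inr hR))
        have hadd : n' + (k + 1) = n' + k + 1 := by ring
        rw [hadd]
        rcases hw' with hI | hR'
        · exfalso
          have h2 := (hI (D3_mem (s := -1 / 2) (by norm_num) (D3_tS hC hL).2)).2.1
          have h3 : (ent S t (n' + k + 1)).1 =
            ((S (n' + k + 1)).pt (-1 / 2) (t (n' + k + 1))).1 := rfl
          rw [← h3, hstep] at h2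
          linarith
        · refine ⟨hR', ?_⟩
          obtain ⟨_, _, _, _, _, j, g6⟩ := D3_RB (t := t (n' + k + 1)) hR'
          have h3 : (ent S t (n' + k + 1)).1 = X + j := g6
          have h4 : (j : ℝ) = k + 1 + h (n' + k) := by linarith
          have h5 : j = k + 1 := by
            have h6 : (j : ℝ) < ((k + 2 : ℕ) : ℝ) := by push_cast; linarith
            have h7 : ((k : ℕ) : ℝ) < (j : ℝ) := by linarith
            have h8 : j < k + 2 := by exact_mod_cast h6
            have h9 : k < j := by exact_mod_cast h7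
            omega
          rw [h3, h5]
    have hm8 : n' + 8 ≤ m := by
      obtain ⟨k, hk⟩ := Nat.exists_eq_add_of_le hn'm
      obtain ⟨_, hE⟩ := hbar k (by omega)
      rw [← hk] at hE
      have g5 := (D3_RB (t := t m) hRBm).2.2.2.2.1
      have h1 : (ent S t m).1 = ((S m).pt (-1 / 2) (t m)).1 := rfl
      rw [h1, g5] at hE
      have h2 : (8 : ℝ) < (k : ℝ) := by linarith
      have h3 : 8 < k := by exact_mod_cast h2
      omega
    refine ⟨n', S, t, h, ⟨hs0, ht0, hn'1, fun i hi => hLn i (by omega), ?_, ?_⟩, ?_⟩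
    · intro i hi1 hi2
      rcases (htype i (by omega)).2 hi1 with h1 | h1
      · exact h1
      · exact absurd h1 (hmin i hi2)
    · intro i hi1 hi2
      obtain ⟨k, hk⟩ := Nat.exists_eq_add_of_le hi1
      obtain ⟨g1, g2⟩ := hbar k (by omega)
      rw [← hk] at g1 g2
      refine ⟨g1, ?_⟩
      rw [g2, hk]
      push_cast
      ring
    · refine le_trans ?_ hcst
      unfold cst
      apply Finset.sum_le_sum_of_subset_of_nonneg
      · intro i hi
        rw [Finset.mem_range] at hi ⊢
        omega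
      · intro i hi _
        rw [Finset.mem_range] at hi
        exact add_nonneg (D3_wst hC P 20 (S i)) (hLn i hi).h0

end SqLo
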