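import Mathlib

/-!
# MP_e85462_co, lower bound: every packing of unit squares in a square of side `k + 1/2`
wastes at least `c (k + 1/2)^(3/5)`. Definitions.
-/

open MeasureTheory Set

namespace SqLo

/-- A unit square: centre `(x, y)`, one side direction is `(cos a, sin a)`. -/
structure Sq where
  x : ℝ
  y : ℝ
  a : ℝ

noncomputable instance : DecidableEq Sq := Classical.decEq _

namespace Sq

/-- first coordinate of `p` in the frame of `S` (origin at the centre of `S`) -/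
noncomputable def u (S : Sq) (p : ℝ × ℝ) : ℝ :=
  (p.1 - S.x) * Real.cos S.a + (p.2 - S.y) * Real.sin S.a

/-- second coordinate of `p` in the frame of `S` -/
noncomputable def v (S : Sq) (p : ℝ × ℝ) : ℝ :=
  (p.2 - S.y) * Real.cos S.a - (p.1 - S.x) * Real.sin S.a

/-- the closed unit square -/
def cl (S : Sq) : Set (ℝ × ℝ) := {p | |S.u p| ≤ 1 / 2 ∧ |S.v p| ≤ 1 / 2}

/-- the open unit square -/
def op (S : Sq) : Set (ℝ × ℝ) := {p | |S.u p| < 1 / 2 ∧ |S.v p| < 1 / 2}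

/-- the point with frame coordinates `(s, t)` -/
noncomputable def pt (S : Sq) (s t : ℝ) : ℝ × ℝ :=
  (S.x + s * Real.cos S.a - t * Real.sin S.a, S.y + s * Real.sin S.a + t * Real.cos S.a)

/-- the centre -/
def ctr (S : Sq) : ℝ × ℝ := (S.x, S.y)

end Sq

/-- a packing: the open squares are pairwise disjoint -/
def Packing (P : Finset Sq) : Prop := ∀ S ∈ P, ∀ T ∈ P, S ≠ T → Disjoint S.op T.op

/-- the angles are normalised -/
def Normd (P : Finset Sq) : Prop := ∀ S ∈ P, |S.a| ≤ Real.pi / 4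

/-- the uncovered part of the plane -/
def Hole (P : Finset Sq) : Set (ℝ × ℝ) := {p | ∀ S ∈ P, p ∉ S.cl}

/-- closed box with centre `c` and half side `r` -/
def bx (c : ℝ × ℝ) (r : ℝ) : Set (ℝ × ℝ) := {p | |p.1 - c.1| ≤ r ∧ |p.2 - c.2| ≤ r}

/-- local waste: uncovered area in the box of half side `r` around the centre of `S` -/
noncomputable def wst (P : Finset Sq) (r : ℝ) (S : Sq) : ℝ :=
  (volume (Hole P ∩ bx (S.x, S.y) r)).toReal

/-- tilt control: squares with centres at distance at most `3` have (mod `π/2`) tilts which differ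
by at most `C` times the local waste -/
def TC (P : Finset Sq) (C : ℝ) : Prop :=
  ∀ S ∈ P, ∀ T ∈ P, |S.x - T.x| ≤ 3 → |S.y - T.y| ≤ 3 →
    |Real.sin (2 * (S.a - T.a))| ≤ C * wst P 13 S

/-- The state `(S, t)` is linked to the state `(T, t')` with gap `h`: the ray which leaves the
right side of `S` at offset `t` in the direction of the axis of `S` meets the left side of `T`
at offset `t'` after the distance `h`. Offsets close to the corners are not allowed. -/
structure Link (C : ℝ) (P : Finset Sq) (S : Sq) (t : ℝ) (T : Sq) (t' h : ℝ) : Prop where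
  hS : S ∈ P
  hT : T ∈ P
  aS : |S.a| ≤ 1 / 10
  aT : |T.a| ≤ 1 / 10
  wS : 10 * (C * wst P 16 S) ≤ 1 / 100
  wT : 10 * (C * wst P 16 T) ≤ 1 / 100
  mS : |t| < 1 / 2 - 10 * (C * wst P 16 S)
  mT : |t'| < 1 / 2 - 10 * (C * wst P 16 T)
  h0 : 0 ≤ h
  h1 : h ≤ 1 / 100
  eq : S.pt (1 / 2 + h) t = T.pt (-1 / 2) t'

/-- length of the uncovered part of the first `1/100` of the ray which leaves `S` at offset `t` -/
noncomputable def hlen (P : Finset Sq) (S : Sq) (t : ℝ) : ENNReal :=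
  volume {r : ℝ | 0 < r ∧ r ≤ 1 / 100 ∧ S.pt (1 / 2 + r) t ∈ Hole P}

/-- a line with `n` steps -/
def Ln (C : ℝ) (P : Finset Sq) (n : ℕ) (S : ℕ → Sq) (t h : ℕ → ℝ) : Prop :=
  ∀ i < n, Link C P (S i) (t i) (S (i + 1)) (t (i + 1)) (h i)

/-- cost of the first `n` steps of a line -/
noncomputable def cst (C : ℝ) (P : Finset Sq) (S : ℕ → Sq) (h : ℕ → ℝ) (n : ℕ) : ℝ :=
  ∑ i ∈ Finset.range n, (C * wst P 20 (S i) + h i)

/-- entry point of the line in its `i`-th square -/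
noncomputable def ent (S : ℕ → Sq) (t : ℕ → ℝ) (i : ℕ) : ℝ × ℝ := (S i).pt (-1 / 2) (t i)

/-- rotation by 90 degrees about the centre of the square `[0,X]^2`: downwards becomes rightwards -/
def rot (X : ℝ) (S : Sq) : Sq := ⟨X - S.y, S.x, S.a⟩

/-- rotated packing -/
noncomputable def rotP (X : ℝ) (P : Finset Sq) : Finset Sq := P.image (rot X)

/-- the square `S` lies in `[0,X]^2` -/
def In (X : ℝ) (S : Sq) : Prop := S.cl ⊆ {p | 0 ≤ p.1 ∧ p.1 ≤ X ∧ 0 ≤ p.2 ∧ p.2 ≤ X}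

/-- `S` is an axis parallel square of the bar to the left of `[0,X]^2` -/
def LB (X : ℝ) (S : Sq) : Prop :=
  S.a = 0 ∧ 1 / 2 ≤ S.y ∧ S.y ≤ X - 1 / 2 ∧ ∃ j : ℕ, S.x = -1 / 2 - j

/-- right bar -/
def RB (X : ℝ) (S : Sq) : Prop :=
  S.a = 0 ∧ 1 / 2 ≤ S.y ∧ S.y ≤ X - 1 / 2 ∧ ∃ j : ℕ, S.x = X + 1 / 2 + j

/-- bottom bar -/
def BB (X : ℝ) (S : Sq) : Prop :=
  S.a = 0 ∧ 1 / 2 ≤ S.x ∧ S.x ≤ X - 1 / 2 ∧ ∃ j : ℕ, S.y = -1 / 2 - j

/-- top bar -/
def TB (X : ℝ) (S : Sq) : Prop :=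
  S.a = 0 ∧ 1 / 2 ≤ S.x ∧ S.x ≤ X - 1 / 2 ∧ ∃ j : ℕ, S.y = X + 1 / 2 + j

/-- `S` is a square of the first column of the left bar -/
def LC (X : ℝ) (S : Sq) : Prop :=
  S.a = 0 ∧ 1 / 2 ≤ S.y ∧ S.y ≤ X - 1 / 2 ∧ S.x = -1 / 2

/-- The packing `P` of the plane is framed: each square lies in `[0,X]^2`, or is an axis parallel
square of one of the four bars left, right, below and above `[0,X]^2`, which are tiled in columns
(rows) starting at the wall. -/
structure Framed (X : ℝ) (P : Finset Sq) : Prop where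
  X1 : 1 ≤ X
  pk : Packing P
  nm : Normd P
  pos : ∀ S ∈ P, In X S ∨ LB X S ∨ RB X S ∨ BB X S ∨ TB X S

/-- total waste of a framed packing -/
noncomputable def tw (X : ℝ) (P : Finset Sq) : ℝ :=
  (volume (Hole P ∩ bx (X / 2, X / 2) (X / 2 + 35))).toReal

/-- the active squares: centre in `[-1, X+10] × [0, X]` -/
def Act (X : ℝ) (S : Sq) : Prop := -1 ≤ S.x ∧ S.x ≤ X + 10 ∧ 0 ≤ S.y ∧ S.y ≤ X

/-- A line which starts at `S0` and reaches the right wall after `n` steps. -/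
structure GLine (C X : ℝ) (P : Finset Sq) (S0 : Sq) (n : ℕ) (S : ℕ → Sq) (t h : ℕ → ℝ) : Prop where
  s0 : S 0 = S0
  t0 : |t 0| ≤ 1 / 4
  n1 : 1 ≤ n
  ln : Ln C P (n + 8) S t h
  ins : ∀ i, 1 ≤ i → i < n → In X (S i)
  bar : ∀ i, n ≤ i → i ≤ n + 8 → RB X (S i) ∧ (ent S t i).1 = X + ((i : ℝ) - n)

/-- A family of `M + 1` horizontal lines which start at unit spacing in the first column of the
left bar and have total cost at most `D`. -/
structure Fam (C X : ℝ) (P : Finset Sq) (M n : ℕ) (y0 : ℝ) (S : ℕ → ℕ → Sq) (t h : ℕ → ℕ → ℝ)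
    (D : ℝ) : Prop where
  ln : ∀ j ≤ M, GLine C X P ⟨-1 / 2, y0 + j, 0⟩ n (S j) (t j) (h j)
  cost : ∑ j ∈ Finset.range (M + 1), cst C P (S j) (h j) (n + 8) ≤ D
  D1 : D ≤ 1 / 1000

/-- distance to the nearest integer -/
noncomputable def dz (x : ℝ) : ℝ := |x - round x|

/-- coordinates in the frame with angle `w` -/
noncomputable def fU (w : ℝ) (p : ℝ × ℝ) : ℝ := p.1 * Real.cos w + p.2 * Real.sin w

noncomputable def fV (w : ℝ) (p : ℝ × ℝ) : ℝ := p.2 * Real.cos w - p.1 * Real.sin w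

/-- the standard unit square -/
def std : Sq := ⟨0, 0, 0⟩

/-- the square `T` in the frame of `O` -/
noncomputable def mv (O T : Sq) : Sq := ⟨O.u (T.x, T.y), O.v (T.x, T.y), T.a - O.a⟩

end SqLo
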