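import Pool.Agent.Lib.MP_e85462_co.L.A2

/-! E1: positions and tilts along a line; two lines in formation. -/

open MeasureTheory Set

namespace SqLo

private theorem E1_term (C : ℝ) (hC : 1 ≤ C) (P : Finset Sq) {n : ℕ} {S : ℕ → Sq} {t h : ℕ → ℝ}
    (L : Ln C P n S t h) {i : ℕ} (hi : i < n) : 0 ≤ C * wst P 20 (S i) + h i := by
  have h1 := (L i hi).h0
  have h3 : 0 ≤ C * wst P 20 (S i) := mul_nonneg (by linarith) (wst_nn P 20 (S i))
  linarith

theorem cst_mono (C : ℝ) (hC : 1 ≤ C) (P : Finset Sq) {n : ℕ} {S : ℕ → Sq} {t h : ℕ → ℝ}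
    (L : Ln C P n S t h) {i j : ℕ} (hij : i ≤ j) (hj : j ≤ n) :
    0 ≤ cst C P S h i ∧ cst C P S h i ≤ cst C P S h j := by
  refine ⟨Finset.sum_nonneg fun l hl =>
    E1_term C hC P L (by rw [Finset.mem_range] at hl; omega), ?_⟩
  unfold cst
  refine Finset.sum_le_sum_of_subset_of_nonneg (Finset.range_mono hij) ?_
  intro l hl _
  exact E1_term C hC P L (by rw [Finset.mem_range] at hl; omega)

/-- position of the entry points -/
theorem ent_sum {C : ℝ} {P : Finset Sq} {n : ℕ} {S : ℕ → Sq} {t h : ℕ → ℝ}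
    (L : Ln C P n S t h) (i j : ℕ) (hij : i ≤ j) (hj : j ≤ n) :
    (ent S t j).1 = (ent S t i).1 +
        ∑ l ∈ Finset.Ico i j, (1 + h l) * Real.cos (S l).a ∧
    (ent S t j).2 = (ent S t i).2 +
        ∑ l ∈ Finset.Ico i j, (1 + h l) * Real.sin (S l).a := by
  induction j, hij using Nat.le_induction with
  | base => simp
  | succ m hm ih =>
    obtain ⟨e1, e2⟩ := ih (by omega)
    have hl := lk_ent (L m (by omega))
    have hl1 : (ent S t (m + 1)).1 = (ent S t m).1 + (1 + h m) * Real.cos (S m).a :=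
      congrArg Prod.fst hl
    have hl2 : (ent S t (m + 1)).2 = (ent S t m).2 + (1 + h m) * Real.sin (S m).a :=
      congrArg Prod.snd hl
    rw [Finset.sum_Ico_succ_top hm, Finset.sum_Ico_succ_top hm]
    constructor
    · rw [hl1, e1]; ring
    · rw [hl2, e2]; ring

/-- centre and entry point -/
theorem ctr_ent (S : ℕ → Sq) (t : ℕ → ℝ) (i : ℕ) :
    (S i).x = (ent S t i).1 + 1 / 2 * Real.cos (S i).a + t i * Real.sin (S i).a ∧
    (S i).y = (ent S t i).2 + 1 / 2 * Real.sin (S i).a - t i * Real.cos (S i).a := by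
  constructor
  · simp only [ent, Sq.pt]; ring
  · simp only [ent, Sq.pt]; ring

/-- total variation of the tilt along a line -/
theorem ln_tilt (C : ℝ) (hC : 1 ≤ C) (P : Finset Sq) (hN : Normd P) (hT : TC P C) {n : ℕ}
    {S : ℕ → Sq} {t h : ℕ → ℝ} (L : Ln C P n S t h) (i j : ℕ) (hij : i ≤ j) (hj : j ≤ n) :
    |(S j).a - (S i).a| ≤ ∑ l ∈ Finset.Ico i j, C * wst P 13 (S l) := by
  induction j, hij using Nat.le_induction with
  | base => simp
  | succ m hm ih =>
    have h1 := ih (by omega)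
    have h2 := lk_tilt hC hN hT (L m (by omega))
    have h3 : 0 ≤ C * wst P 13 (S m) := mul_nonneg (by linarith) (wst_nn P 13 (S m))
    rw [Finset.sum_Ico_succ_top hm]
    have h4 : |(S (m + 1)).a - (S i).a| ≤ |(S (m + 1)).a - (S m).a| + |(S m).a - (S i).a| :=
      abs_sub_le _ _ _
    linarith

private theorem E1_w13 (C : ℝ) (hC : 1 ≤ C) (P : Finset Sq) (S : Sq) :
    C * wst P 13 S ≤ C * wst P 20 S := by
  refine mul_le_mul_of_nonneg_left (wst_le P 13 20 S S ?_ ?_) (by linarith)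
  · rw [sub_self]; norm_num
  · rw [sub_self]; norm_num

private theorem E1_w1316 (C : ℝ) (hC : 1 ≤ C) (P : Finset Sq) (S : Sq) :
    C * wst P 13 S ≤ C * wst P 16 S := by
  refine mul_le_mul_of_nonneg_left (wst_le P 13 16 S S ?_ ?_) (by linarith)
  · rw [sub_self]; norm_num
  · rw [sub_self]; norm_num

theorem wst_cst (C : ℝ) (hC : 1 ≤ C) (P : Finset Sq) {n : ℕ} {S : ℕ → Sq} {t h : ℕ → ℝ}
    (L : Ln C P n S t h) (i j : ℕ) (hij : i ≤ j) (hj : j ≤ n) :
    ∑ l ∈ Finset.Ico i j, C * wst P 13 (S l) ≤ cst C P S h j - cst C P S h i ∧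
    ∑ l ∈ Finset.Ico i j, h l ≤ cst C P S h j - cst C P S h i := by
  have e : cst C P S h j - cst C P S h i =
      ∑ l ∈ Finset.Ico i j, (C * wst P 20 (S l) + h l) := by
    unfold cst
    rw [Finset.sum_Ico_eq_sub _ hij]
  rw [e]
  constructor
  · refine Finset.sum_le_sum fun l hl => ?_
    rw [Finset.mem_Ico] at hl
    have h1 := E1_w13 C hC P (S l)
    have h2 := (L l (by omega)).h0
    linarith
  · refine Finset.sum_le_sum fun l hl => ?_
    have h1 : 0 ≤ C * wst P 20 (S l) := mul_nonneg (by linarith) (wst_nn P 20 (S l))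
    linarith

private theorem E1_cos_le {a : ℝ} (ha : |a| ≤ 1 / 10) : |Real.sin a| ≤ 1 / 10 :=
  Real.abs_sin_le_abs.trans ha

/-- tilt of the second line, from the distance of the entry points -/
private theorem E1_near (C : ℝ) (hC : 1 ≤ C) (P : Finset Sq) (hN : Normd P) (hT : TC P C)
    (S S' : ℕ → Sq) (t t' : ℕ → ℝ) (i : ℕ)
    (hS : S i ∈ P) (hS' : S' i ∈ P) (aS : |(S i).a| ≤ 1 / 10) (aS' : |(S' i).a| ≤ 1 / 10)
    (wS : 10 * (C * wst P 16 (S i)) ≤ 1 / 100) (ht : |t i| ≤ 1 / 2) (ht' : |t' i| ≤ 1 / 2)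
    (h1 : |(ent S' t' i).1 - (ent S t i).1| ≤ 17 / 10)
    (h2 : |(ent S' t' i).2 - (ent S t i).2| ≤ 17 / 10) :
    |(S' i).a - (S i).a| ≤ C * wst P 13 (S i) := by
  obtain ⟨x1, y1⟩ := ctr_ent S t i
  obtain ⟨x2, y2⟩ := ctr_ent S' t' i
  have s1 : |Real.sin (S i).a| ≤ 1 / 10 := Real.abs_sin_le_abs.trans aS
  have s2 : |Real.sin (S' i).a| ≤ 1 / 10 := Real.abs_sin_le_abs.trans aS'
  have c1 := Real.cos_le_one (S i).a
  have c2 := Real.cos_le_one (S' i).a
  have c3 := Real.neg_one_le_cos (S i).a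
  have c4 := Real.neg_one_le_cos (S' i).a
  have p1 : |t i * Real.sin (S i).a| ≤ 1 / 20 := by
    rw [abs_mul]
    have := mul_le_mul ht s1 (abs_nonneg _) (by norm_num : (0 : ℝ) ≤ 1 / 2)
    linarith
  have p2 : |t' i * Real.sin (S' i).a| ≤ 1 / 20 := by
    rw [abs_mul]
    have := mul_le_mul ht' s2 (abs_nonneg _) (by norm_num : (0 : ℝ) ≤ 1 / 2)
    linarith
  have q1 : |t i * Real.cos (S i).a| ≤ 1 / 2 := by
    rw [abs_mul]
    have := mul_le_mul ht (abs_le.2 ⟨c3, c1⟩) (abs_nonneg _) (by norm_num : (0 : ℝ) ≤ 1 / 2)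
    linarith
  have q2 : |t' i * Real.cos (S' i).a| ≤ 1 / 2 := by
    rw [abs_mul]
    have := mul_le_mul ht' (abs_le.2 ⟨c4, c2⟩) (abs_nonneg _) (by norm_num : (0 : ℝ) ≤ 1 / 2)
    linarith
  rw [abs_le] at h1 h2 s1 s2 p1 p2 q1 q2
  have dx : |(S i).x - (S' i).x| ≤ 3 := by
    rw [x1, x2, abs_le]
    constructor <;> linarith [h1.1, h1.2, p1.1, p1.2, p2.1, p2.2]
  have dy : |(S i).y - (S' i).y| ≤ 3 := by
    rw [y1, y2, abs_le]
    constructor <;> linarith [h2.1, h2.2, q1.1, q1.2, q2.1, q2.2, s1.1, s1.2, s2.1, s2.2]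
  have w1 := E1_w1316 C hC P (S i)
  have w0 : 0 ≤ C * wst P 13 (S i) := mul_nonneg (by linarith) (wst_nn P 13 (S i))
  have := tilt_near hN hT hS hS' aS dx dy (by linarith)
  linarith

/-- Two lines whose starting points have distance at most `8/5` (in both coordinates) and whose
cost is small stay in formation. -/
theorem formation (C : ℝ) (hC : 1 ≤ C) (P : Finset Sq) (hN : Normd P) (hT : TC P C)
    {n : ℕ} {S S' : ℕ → Sq} {t h t' h' : ℕ → ℝ} (hn : 1 ≤ n)
    (L : Ln C P n S t h) (L' : Ln C P n S' t' h')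
    (h1 : |(ent S' t' 0).1 - (ent S t 0).1| ≤ 8 / 5)
    (h2 : |(ent S' t' 0).2 - (ent S t 0).2| ≤ 8 / 5)
    (hc : cst C P S h n + cst C P S' h' n ≤ 1 / 50) (i : ℕ) (hi : i ≤ n) :
    |((ent S' t' i).1 - (ent S t i).1) - ((ent S' t' 0).1 - (ent S t 0).1)| ≤
      cst C P S h i + cst C P S' h' i ∧
    |((ent S' t' i).2 - (ent S t i).2) - ((ent S' t' 0).2 - (ent S t 0).2)| ≤
      cst C P S h i + cst C P S' h' i ∧
    |(S' i).a - (S i).a| ≤ C * wst P 13 (S i) := by
  -- data of the two squares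
  have hdat : ∀ {S : ℕ → Sq} {t h : ℕ → ℝ}, Ln C P n S t h → ∀ i ≤ n,
      S i ∈ P ∧ |(S i).a| ≤ 1 / 10 ∧ 10 * (C * wst P 16 (S i)) ≤ 1 / 100 ∧ |t i| ≤ 1 / 2 := by
    intro S t h L i hi
    rcases lt_or_eq_of_le hi with hlt | heq
    · have K := L i hlt
      have w0 : 0 ≤ C * wst P 16 (S i) := mul_nonneg (by linarith) (wst_nn P 16 (S i))
      exact ⟨K.hS, K.aS, K.wS, by linarith [K.mS]⟩
    · obtain ⟨m, rfl⟩ : ∃ m, i = m + 1 := ⟨i - 1, by omega⟩
      have K := L m (by omega)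
      have w0 : 0 ≤ C * wst P 16 (S (m + 1)) :=
        mul_nonneg (by linarith) (wst_nn P 16 (S (m + 1)))
      exact ⟨K.hT, K.aT, K.wT, by linarith [K.mT]⟩
  -- positions imply tilts
  have htilt : ∀ i ≤ n,
      |((ent S' t' i).1 - (ent S t i).1) - ((ent S' t' 0).1 - (ent S t 0).1)| ≤
        cst C P S h i + cst C P S' h' i →
      |((ent S' t' i).2 - (ent S t i).2) - ((ent S' t' 0).2 - (ent S t 0).2)| ≤
        cst C P S h i + cst C P S' h' i →
      |(S' i).a - (S i).a| ≤ C * wst P 13 (S i) := by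
    intro i hi g1 g2
    obtain ⟨a1, a2, a3, a4⟩ := hdat L i hi
    obtain ⟨b1, b2, b3, b4⟩ := hdat L' i hi
    have m1 := (cst_mono C hC P L hi le_rfl).2
    have m2 := (cst_mono C hC P L' hi le_rfl).2
    refine E1_near C hC P hN hT S S' t t' i a1 b1 a2 b2 a3 a4 b4 ?_ ?_
    · rw [abs_le] at g1 h1 ⊢
      constructor <;> linarith [g1.1, g1.2, h1.1, h1.2]
    · rw [abs_le] at g2 h2 ⊢
      constructor <;> linarith [g2.1, g2.2, h2.1, h2.2]
  induction i with
  | zero =>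
    have g1 : |((ent S' t' 0).1 - (ent S t 0).1) - ((ent S' t' 0).1 - (ent S t 0).1)| ≤
        cst C P S h 0 + cst C P S' h' 0 := by
      rw [sub_self, abs_zero]
      exact add_nonneg (cst_mono C hC P L le_rfl hi).1 (cst_mono C hC P L' le_rfl hi).1
    have g2 : |((ent S' t' 0).2 - (ent S t 0).2) - ((ent S' t' 0).2 - (ent S t 0).2)| ≤
        cst C P S h 0 + cst C P S' h' 0 := by
      rw [sub_self, abs_zero]
      exact add_nonneg (cst_mono C hC P L le_rfl hi).1 (cst_mono C hC P L' le_rfl hi).1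
    exact ⟨g1, g2, htilt 0 hi g1 g2⟩
  | succ m ih =>
    obtain ⟨i1, i2, i3⟩ := ih (by omega)
    have k1 := lk_ent (L m (by omega))
    have k2 := lk_ent (L' m (by omega))
    have e1 : (ent S t (m + 1)).1 = (ent S t m).1 + (1 + h m) * Real.cos (S m).a :=
      congrArg Prod.fst k1
    have e2 : (ent S t (m + 1)).2 = (ent S t m).2 + (1 + h m) * Real.sin (S m).a :=
      congrArg Prod.snd k1
    have e1' : (ent S' t' (m + 1)).1 = (ent S' t' m).1 + (1 + h' m) * Real.cos (S' m).a :=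
      congrArg Prod.fst k2
    have e2' : (ent S' t' (m + 1)).2 = (ent S' t' m).2 + (1 + h' m) * Real.sin (S' m).a :=
      congrArg Prod.snd k2
    have c1 : cst C P S h (m + 1) = cst C P S h m + (C * wst P 20 (S m) + h m) :=
      Finset.sum_range_succ _ _
    have c2 : cst C P S' h' (m + 1) = cst C P S' h' m + (C * wst P 20 (S' m) + h' m) :=
      Finset.sum_range_succ _ _
    have w1 := E1_w13 C hC P (S m)
    have w2 : 0 ≤ C * wst P 20 (S' m) := mul_nonneg (by linarith) (wst_nn P 20 (S' m))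
    have n1 : 0 ≤ h m := (L m (by omega)).h0
    have n2 : 0 ≤ h' m := (L' m (by omega)).h0
    have dc : |Real.cos (S' m).a - Real.cos (S m).a| ≤ |(S' m).a - (S m).a| :=
      Real.abs_cos_sub_cos_le _ _
    have ds : |Real.sin (S' m).a - Real.sin (S m).a| ≤ |(S' m).a - (S m).a| :=
      Real.abs_sin_sub_sin_le _ _
    have bnd : ∀ x : ℝ, |x| ≤ 1 → ∀ y : ℝ, 0 ≤ y → |y * x| ≤ y := by
      intro x hx y hy
      rw [abs_mul, abs_of_nonneg hy]
      nlinarith
    have b1 := bnd _ (Real.abs_cos_le_one (S m).a) _ n1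
    have b2 := bnd _ (Real.abs_cos_le_one (S' m).a) _ n2
    have b3 := bnd _ (Real.abs_sin_le_one (S m).a) _ n1
    have b4 := bnd _ (Real.abs_sin_le_one (S' m).a) _ n2
    have g1 : |((ent S' t' (m + 1)).1 - (ent S t (m + 1)).1) -
        ((ent S' t' 0).1 - (ent S t 0).1)| ≤
        cst C P S h (m + 1) + cst C P S' h' (m + 1) := by
      rw [e1, e1', c1, c2]
      rw [abs_le] at i1 dc b1 b2 ⊢
      constructor <;>
        nlinarith [i1.1, i1.2, dc.1, dc.2, b1.1, b1.2, b2.1, b2.2, i3, w1, w2]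
    have g2 : |((ent S' t' (m + 1)).2 - (ent S t (m + 1)).2) -
        ((ent S' t' 0).2 - (ent S t 0).2)| ≤
        cst C P S h (m + 1) + cst C P S' h' (m + 1) := by
      rw [e2, e2', c1, c2]
      rw [abs_le] at i2 ds b3 b4 ⊢
      constructor <;>
        nlinarith [i2.1, i2.2, ds.1, ds.2, b3.1, b3.2, b4.1, b4.2, i3, w1, w2]
    exact ⟨g1, g2, htilt (m + 1) hi g1 g2⟩

/-- difference of cosines -/
theorem cos_diff (a b m : ℝ) (ha : |a| ≤ m) (hb : |b| ≤ m) :
    |Real.cos a - Real.cos b| ≤ m * |a - b| := by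
  rw [Real.cos_sub_cos, abs_mul, abs_mul, abs_neg, abs_two]
  have h1 : |Real.sin ((a + b) / 2)| ≤ m := by
    refine Real.abs_sin_le_abs.trans ?_
    rw [abs_le] at ha hb ⊢
    constructor <;> linarith [ha.1, ha.2, hb.1, hb.2]
  have h2 : |Real.sin ((a - b) / 2)| ≤ |a - b| / 2 := by
    refine Real.abs_sin_le_abs.trans ?_
    rw [abs_div, abs_two]
  have hm : 0 ≤ m := (abs_nonneg a).trans ha
  have := mul_le_mul h1 h2 (abs_nonneg _) hm
  linarith

end SqLo
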