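import Pool.Agent.Lib.MP_e85462_co.L.A1m

/-! E3: putting a frame around a packing of the square of side `k + 1/2`. -/

open MeasureTheory Set

namespace SqLo

/-- coordinate of the `m`-th row (column) of the frame -/
noncomputable def E3_g (k : ℕ) (m : ℤ) : ℝ := if m < (k : ℤ) then 1 / 2 + (m : ℝ) else (m : ℝ) + 1

theorem E3_gap (k : ℕ) {m m' : ℤ} (h : m < m') : E3_g k m + 1 ≤ E3_g k m' := by
  have h1 : (m : ℝ) + 1 ≤ m' := by exact_mod_cast h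
  unfold E3_g
  split_ifs <;> first | linarith | omega

theorem E3_abs (k : ℕ) {m m' : ℤ} (h : m ≠ m') : 1 ≤ |E3_g k m - E3_g k m'| := by
  rcases lt_or_gt_of_ne h with h1 | h1
  · have h2 := E3_gap k h1
    rw [le_abs]; right; linarith
  · have h2 := E3_gap k h1
    rw [le_abs]; left; linarith

theorem E3_lt {k : ℕ} {m : ℤ} (h : m < (k : ℤ)) : E3_g k m = 1 / 2 + (m : ℝ) := if_pos h

theorem E3_ge {k : ℕ} {m : ℤ} (h : (k : ℤ) ≤ m) : E3_g k m = (m : ℝ) + 1 := if_neg (not_lt.2 h)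

theorem E3_op {S : Sq} (h : S.a = 0) {p : ℝ × ℝ} (hp : p ∈ S.op) :
    |p.1 - S.x| < 1 / 2 ∧ |p.2 - S.y| < 1 / 2 := by
  obtain ⟨h1, h2⟩ := hp
  simp only [Sq.u, Sq.v, h, Real.cos_zero, Real.sin_zero, mul_one, mul_zero, add_zero,
    sub_zero] at h1 h2
  exact ⟨h1, h2⟩

theorem E3_cl {S : Sq} (h : S.a = 0) {p : ℝ × ℝ} (h1 : |p.1 - S.x| ≤ 1 / 2)
    (h2 : |p.2 - S.y| ≤ 1 / 2) : p ∈ S.cl := by
  refine ⟨?_, ?_⟩
  · simp only [Sq.u, h, Real.cos_zero, Real.sin_zero, mul_one, mul_zero, add_zero]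
    exact h1
  · simp only [Sq.v, h, Real.cos_zero, Real.sin_zero, mul_one, mul_zero, sub_zero]
    exact h2

/-- positions of the frame -/
def E3_ok (k : ℕ) (m i : ℤ) : Prop :=
  (0 ≤ i ∧ i < k ∧ (m < 0 ∨ (k : ℤ) ≤ m)) ∨ (0 ≤ m ∧ m < k ∧ (i < 0 ∨ (k : ℤ) ≤ i))

open Classical in
/-- the frame -/
noncomputable def E3_FR (k : ℕ) : Finset Sq :=
  (((Finset.Ico (-40 : ℤ) (k + 40)) ×ˢ (Finset.Ico (-40 : ℤ) (k + 40))).filter
    (fun p => E3_ok k p.1 p.2)).image (fun p => (⟨E3_g k p.1, E3_g k p.2, 0⟩ : Sq))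

theorem E3_mem (k : ℕ) (S : Sq) : S ∈ E3_FR k ↔ ∃ m i : ℤ, -40 ≤ m ∧ m < k + 40 ∧ -40 ≤ i ∧
    i < k + 40 ∧ E3_ok k m i ∧ (⟨E3_g k m, E3_g k i, 0⟩ : Sq) = S := by
  unfold E3_FR
  simp only [Finset.mem_image, Finset.mem_filter, Finset.mem_product, Finset.mem_Ico, Prod.exists]
  constructor
  · rintro ⟨m, i, ⟨⟨⟨h1, h2⟩, h3, h4⟩, h5⟩, h6⟩
    exact ⟨m, i, h1, h2, h3, h4, h5, h6⟩
  · rintro ⟨m, i, h1, h2, h3, h4, h5, h6⟩
    exact ⟨m, i, ⟨⟨⟨h1, h2⟩, h3, h4⟩, h5⟩, h6⟩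

theorem E3_disj_fr (k : ℕ) {S T : Sq} (hS : S ∈ E3_FR k) (hT : T ∈ E3_FR k) (hne : S ≠ T) :
    Disjoint S.op T.op := by
  obtain ⟨m, i, _, _, _, _, _, rfl⟩ := (E3_mem k S).1 hS
  obtain ⟨m', i', _, _, _, _, _, rfl⟩ := (E3_mem k T).1 hT
  rw [Set.disjoint_left]
  intro p hp hp'
  obtain ⟨h1, h2⟩ := E3_op rfl hp
  obtain ⟨h3, h4⟩ := E3_op rfl hp'
  dsimp only at h1 h2 h3 h4
  rw [abs_lt] at h1 h2 h3 h4
  by_cases hm : m = m'
  · by_cases hi : i = i'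
    · exact hne (by rw [hm, hi])
    · have h5 := E3_abs k hi
      rw [le_abs] at h5
      rcases h5 with h5 | h5 <;> linarith [h2.1, h2.2, h4.1, h4.2]
  · have h5 := E3_abs k hm
    rw [le_abs] at h5
    rcases h5 with h5 | h5 <;> linarith [h1.1, h1.2, h3.1, h3.2]

theorem E3_disj_in (k : ℕ) {S T : Sq} (hS : S ∈ E3_FR k) (hT : In ((k : ℝ) + 1 / 2) T) :
    Disjoint S.op T.op := by
  obtain ⟨m, i, _, _, _, _, hok, rfl⟩ := (E3_mem k S).1 hS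
  rw [Set.disjoint_left]
  intro p hp hp'
  obtain ⟨h1, h2⟩ := E3_op rfl hp
  obtain ⟨a1, a2, a3, a4⟩ := hT (op_sub_cl T hp')
  dsimp only at h1 h2
  rw [abs_lt] at h1 h2
  rcases hok with ⟨_, _, h | h⟩ | ⟨_, _, h | h⟩
  · rw [E3_lt (by omega)] at h1
    have h3 : (m : ℝ) + 1 ≤ 0 := by exact_mod_cast h
    linarith [h1.1, h1.2]
  · rw [E3_ge h] at h1
    have h3 : (k : ℝ) ≤ m := by exact_mod_cast h
    linarith [h1.1, h1.2]
  · rw [E3_lt (by omega)] at h2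
    have h3 : (i : ℝ) + 1 ≤ 0 := by exact_mod_cast h
    linarith [h2.1, h2.2]
  · rw [E3_ge h] at h2
    have h3 : (k : ℝ) ≤ i := by exact_mod_cast h
    linarith [h2.1, h2.2]

theorem E3_pos1 (k : ℕ) {m : ℤ} (h : m < 0) : ∃ j : ℕ, E3_g k m = -1 / 2 - j := by
  refine ⟨(-m - 1).toNat, ?_⟩
  rw [E3_lt (by omega)]
  have h1 : (((-m - 1).toNat : ℤ) : ℝ) = ((-m - 1 : ℤ) : ℝ) := by
    rw [Int.toNat_of_nonneg (by omega)]
  have h2 : (((-m - 1).toNat : ℕ) : ℝ) = ((-m - 1 : ℤ) : ℝ) := by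
    rw [← h1]; norm_cast
  rw [h2]; push_cast; ring

theorem E3_pos2 (k : ℕ) {m : ℤ} (h : (k : ℤ) ≤ m) : ∃ j : ℕ, E3_g k m = (k : ℝ) + 1 / 2 + 1 / 2 + j := by
  refine ⟨(m - k).toNat, ?_⟩
  rw [E3_ge h]
  have h1 : (((m - k).toNat : ℤ) : ℝ) = ((m - k : ℤ) : ℝ) := by
    rw [Int.toNat_of_nonneg (by omega)]
  have h2 : (((m - k).toNat : ℕ) : ℝ) = ((m - k : ℤ) : ℝ) := by
    rw [← h1]; norm_cast
  rw [h2]; push_cast; ring

theorem E3_pos3 (k : ℕ) {i : ℤ} (h0 : 0 ≤ i) (h : i < (k : ℤ)) :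
    1 / 2 ≤ E3_g k i ∧ E3_g k i ≤ (k : ℝ) + 1 / 2 - 1 / 2 := by
  rw [E3_lt h]
  have h1 : (0 : ℝ) ≤ i := by exact_mod_cast h0
  have h2 : (i : ℝ) + 1 ≤ k := by exact_mod_cast h
  constructor <;> linarith

theorem E3_pos (k : ℕ) {S : Sq} (hS : S ∈ E3_FR k) :
    LB ((k : ℝ) + 1 / 2) S ∨ RB ((k : ℝ) + 1 / 2) S ∨ BB ((k : ℝ) + 1 / 2) S ∨
      TB ((k : ℝ) + 1 / 2) S := by
  obtain ⟨m, i, _, _, _, _, hok, rfl⟩ := (E3_mem k S).1 hS
  rcases hok with ⟨h1, h2, h | h⟩ | ⟨h1, h2, h | h⟩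
  · exact Or.inl ⟨rfl, (E3_pos3 k h1 h2).1, (E3_pos3 k h1 h2).2, E3_pos1 k h⟩
  · exact Or.inr (Or.inl ⟨rfl, (E3_pos3 k h1 h2).1, (E3_pos3 k h1 h2).2, E3_pos2 k h⟩)
  · exact Or.inr (Or.inr (Or.inl ⟨rfl, (E3_pos3 k h1 h2).1, (E3_pos3 k h1 h2).2, E3_pos1 k h⟩))
  · exact Or.inr (Or.inr (Or.inr ⟨rfl, (E3_pos3 k h1 h2).1, (E3_pos3 k h1 h2).2, E3_pos2 k h⟩))

/-- inner coordinates are covered -/
theorem E3_cov_in (k : ℕ) (hk : 1 ≤ k) {x : ℝ} (h0 : 0 ≤ x) (h1 : x ≤ k) :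
    ∃ i : ℤ, 0 ≤ i ∧ i < k ∧ |x - E3_g k i| ≤ 1 / 2 := by
  rcases lt_or_eq_of_le h1 with h | h
  · refine ⟨⌊x⌋, Int.floor_nonneg.2 h0, ?_, ?_⟩
    · exact Int.floor_lt.2 (by exact_mod_cast h)
    · rw [E3_lt (Int.floor_lt.2 (by exact_mod_cast h)), abs_le]
      have a1 := Int.floor_le x
      have a2 := Int.lt_floor_add_one x
      constructor <;> linarith
  · refine ⟨(k : ℤ) - 1, by omega, by omega, ?_⟩
    rw [E3_lt (by omega), abs_le, h]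
    push_cast
    constructor <;> linarith

theorem E3_cov_out (k : ℕ) {x : ℝ} (h : x < 0 ∨ (k : ℝ) + 1 / 2 < x) (h1 : -35 ≤ x)
    (h2 : x ≤ (k : ℝ) + 1 / 2 + 35) :
    ∃ m : ℤ, -40 ≤ m ∧ m < k + 40 ∧ (m < 0 ∨ (k : ℤ) ≤ m) ∧ |x - E3_g k m| ≤ 1 / 2 := by
  rcases h with h | h
  · have b1 : ⌊x⌋ < 0 := Int.floor_lt.2 (by exact_mod_cast h)
    refine ⟨⌊x⌋, ?_, ?_, Or.inl b1, ?_⟩
    · exact Int.le_floor.2 (by push_cast; linarith)
    · omega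
    · rw [E3_lt (by omega), abs_le]
      have a1 := Int.floor_le x
      have a2 := Int.lt_floor_add_one x
      constructor <;> linarith
  · have b1 : (k : ℤ) ≤ ⌊x - 1 / 2⌋ := Int.le_floor.2 (by push_cast; linarith)
    refine ⟨⌊x - 1 / 2⌋, by omega, ?_, Or.inr b1, ?_⟩
    · exact Int.floor_lt.2 (by push_cast; linarith)
    · rw [E3_ge b1, abs_le]
      have a1 := Int.floor_le (x - 1 / 2)
      have a2 := Int.lt_floor_add_one (x - 1 / 2)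
      constructor <;> linarith

/-- a point outside the big square and on the level of the bars is covered -/
theorem E3_cov (k : ℕ) (hk : 1 ≤ k) {x y : ℝ} (h : x < 0 ∨ (k : ℝ) + 1 / 2 < x) (h1 : -35 ≤ x)
    (h2 : x ≤ (k : ℝ) + 1 / 2 + 35) (h3 : 0 ≤ y) (h4 : y ≤ k) :
    (∃ S ∈ E3_FR k, (x, y) ∈ S.cl) ∧ ∃ S ∈ E3_FR k, (y, x) ∈ S.cl := by
  obtain ⟨m, m1, m2, m3, m4⟩ := E3_cov_out k h h1 h2
  obtain ⟨i, i1, i2, i3⟩ := E3_cov_in k hk h3 h4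
  constructor
  · exact ⟨⟨E3_g k m, E3_g k i, 0⟩, (E3_mem k _).2 ⟨m, i, m1, m2, by omega, by omega,
      Or.inl ⟨i1, i2, m3⟩, rfl⟩, E3_cl rfl m4 i3⟩
  · exact ⟨⟨E3_g k i, E3_g k m, 0⟩, (E3_mem k _).2 ⟨i, m, by omega, by omega, m1, m2,
      Or.inr ⟨i1, i2, m3⟩, rfl⟩, E3_cl rfl i3 m4⟩

/-- coordinates of the corners and strips -/
def E3_K (k : ℕ) : Set ℝ := Icc (-35) 0 ∪ Icc (k : ℝ) ((k : ℝ) + 1 / 2 + 35)

theorem E3_K_vol (k : ℕ) : volume (E3_K k) ≤ ENNReal.ofReal (141 / 2) := by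
  unfold E3_K
  refine (measure_union_le _ _).trans ?_
  rw [Real.volume_Icc, Real.volume_Icc, ← ENNReal.ofReal_add (by norm_num) (by linarith)]
  apply ENNReal.ofReal_le_ofReal
  linarith

theorem E3_K_mem {k : ℕ} {x : ℝ} (h1 : -35 ≤ x) (h2 : x ≤ (k : ℝ) + 1 / 2 + 35)
    (h : ¬ (0 ≤ x ∧ x ≤ k)) : x ∈ E3_K k := by
  by_cases h0 : 0 ≤ x
  · right
    exact ⟨(not_le.1 fun h3 => h ⟨h0, h3⟩).le, h2⟩
  · left
    exact ⟨h1, (not_le.1 h0).le⟩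

theorem frame (k : ℕ) (hk : 1 ≤ k) (Q : Finset Sq) (hQ : Packing Q) (hn : Normd Q)
    (hI : ∀ S ∈ Q, In ((k : ℝ) + 1 / 2) S) :
    ∃ P : Finset Sq, Framed ((k : ℝ) + 1 / 2) P ∧
      (∀ j : ℕ, j < k → (⟨-1 / 2, 1 / 2 + j, 0⟩ : Sq) ∈ P) ∧
      tw ((k : ℝ) + 1 / 2) P ≤ ((k : ℝ) + 1 / 2) ^ 2 - Q.card + 5000 := by
  classical
  have hk1 : (1 : ℝ) ≤ k := by exact_mod_cast hk
  refine ⟨Q ∪ E3_FR k, ⟨by linarith, ?_, ?_, ?_⟩, ?_, ?_⟩
  · intro S hS T hT hne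
    rcases Finset.mem_union.1 hS with hS | hS <;> rcases Finset.mem_union.1 hT with hT | hT
    · exact hQ S hS T hT hne
    · exact (E3_disj_in k hT (hI S hS)).symm
    · exact E3_disj_in k hS (hI T hT)
    · exact E3_disj_fr k hS hT hne
  · intro S hS
    rcases Finset.mem_union.1 hS with hS | hS
    · exact hn S hS
    · obtain ⟨m, i, _, _, _, _, _, rfl⟩ := (E3_mem k S).1 hS
      dsimp only
      rw [abs_zero]
      positivity
  · intro S hS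
    rcases Finset.mem_union.1 hS with hS | hS
    · exact Or.inl (hI S hS)
    · exact Or.inr (E3_pos k hS)
  · intro j hj
    refine Finset.mem_union_right _ ((E3_mem k _).2 ⟨-1, j, by norm_num, by omega, by omega,
      by omega, Or.inl ⟨by omega, by omega, Or.inl (by norm_num)⟩, ?_⟩)
    rw [E3_lt (by omega), E3_lt (by omega)]
    congr 1
    push_cast
    norm_num
  · set X : ℝ := (k : ℝ) + 1 / 2 with hX
    set Bx : Set (ℝ × ℝ) := Icc 0 X ×ˢ Icc 0 X with hBx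
    set U : Set (ℝ × ℝ) := ⋃ S ∈ Q, S.op with hU
    have hUm : MeasurableSet U :=
      Finset.measurableSet_biUnion _ fun S _ => (op_open S).measurableSet
    have hUB : U ⊆ Bx := by
      intro p hp
      simp only [hU, mem_iUnion, exists_prop] at hp
      obtain ⟨S, hS, hp⟩ := hp
      obtain ⟨a1, a2, a3, a4⟩ := hI S hS (op_sub_cl S hp)
      exact ⟨⟨a1, a2⟩, a3, a4⟩
    have hUv : volume U = Q.card := by
      rw [hU, measure_biUnion_finset (fun S hS T hT hne => hQ S hS T hT hne)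
        (fun S _ => (op_open S).measurableSet)]
      simp only [vol_op, Finset.sum_const, nsmul_eq_mul, mul_one]
    have hBv : volume Bx = ENNReal.ofReal (X ^ 2) := by
      rw [hBx, Measure.volume_eq_prod, Measure.prod_prod, Real.volume_Icc, sub_zero,
        ← ENNReal.ofReal_mul (by linarith), sq]
    have hcard : (Q.card : ℝ) ≤ X ^ 2 := by
      have h1 := measure_mono (μ := volume) hUB
      rw [hUv, hBv, ← ENNReal.ofReal_natCast, ENNReal.ofReal_le_ofReal_iff (sq_nonneg _)] at h1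
      exact h1
    have hD : volume (Bx \ U) = ENNReal.ofReal (X ^ 2 - Q.card) := by
      rw [measure_sdiff hUB hUm.nullMeasurableSet (by rw [hUv]; exact ENNReal.natCast_ne_top _),
        hUv, hBv, ENNReal.ofReal_sub _ (Nat.cast_nonneg _), ENNReal.ofReal_natCast]
    have hsub : Hole (Q ∪ E3_FR k) ∩ bx (X / 2, X / 2) (X / 2 + 35) ⊆
        (Bx \ U) ∪ (E3_K k ×ˢ E3_K k) := by
      rintro ⟨x, y⟩ ⟨hH, hx, hy⟩
      rw [abs_le] at hx hy
      dsimp only at hx hy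
      have x1 : -35 ≤ x := by linarith [hx.1]
      have x2 : x ≤ X + 35 := by linarith [hx.2]
      have y1 : -35 ≤ y := by linarith [hy.1]
      have y2 : y ≤ X + 35 := by linarith [hy.2]
      have hFR : ∀ S ∈ E3_FR k, (x, y) ∉ S.cl := fun S hS => hH S (Finset.mem_union_right _ hS)
      by_cases hxX : x < 0 ∨ X < x
      · right
        refine ⟨E3_K_mem x1 x2 fun h => ?_, E3_K_mem y1 y2 fun h => ?_⟩
        · rcases hxX with h3 | h3 <;> linarith [h.1, h.2]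
        · obtain ⟨⟨S, hS, hp⟩, _⟩ := E3_cov k hk hxX x1 x2 h.1 h.2
          exact hFR S hS hp
      · by_cases hyX : y < 0 ∨ X < y
        · right
          refine ⟨E3_K_mem x1 x2 fun h => ?_, E3_K_mem y1 y2 fun h => ?_⟩
          · obtain ⟨_, S, hS, hp⟩ := E3_cov k hk hyX y1 y2 h.1 h.2
            exact hFR S hS hp
          · rcases hyX with h3 | h3 <;> linarith [h.1, h.2]
        · left
          push Not at hxX hyX
          refine ⟨⟨⟨hxX.1, hxX.2⟩, hyX.1, hyX.2⟩, ?_⟩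
          intro hp
          simp only [hU, mem_iUnion, exists_prop] at hp
          obtain ⟨S, hS, hp⟩ := hp
          exact hH S (Finset.mem_union_left _ hS) (op_sub_cl S hp)
    have hKK : volume (E3_K k ×ˢ E3_K k) ≤ ENNReal.ofReal 5000 := by
      rw [Measure.volume_eq_prod, Measure.prod_prod]
      calc volume (E3_K k) * volume (E3_K k)
          ≤ ENNReal.ofReal (141 / 2) * ENNReal.ofReal (141 / 2) :=
            mul_le_mul' (E3_K_vol k) (E3_K_vol k)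
        _ = ENNReal.ofReal (141 / 2 * (141 / 2)) := by rw [← ENNReal.ofReal_mul (by norm_num)]
        _ ≤ ENNReal.ofReal 5000 := ENNReal.ofReal_le_ofReal (by norm_num)
    have h1 : volume (Hole (Q ∪ E3_FR k) ∩ bx (X / 2, X / 2) (X / 2 + 35)) ≤
        ENNReal.ofReal (X ^ 2 - Q.card + 5000) := by
      rw [ENNReal.ofReal_add (by linarith) (by norm_num)]
      calc _ ≤ volume ((Bx \ U) ∪ (E3_K k ×ˢ E3_K k)) := measure_mono hsub
        _ ≤ volume (Bx \ U) + volume (E3_K k ×ˢ E3_K k) := measure_union_le _ _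
        _ ≤ _ := add_le_add hD.le hKK
    unfold tw
    exact ENNReal.toReal_le_of_le_ofReal (by linarith) h1

end SqLo
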