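import Pool.Agent.Lib.MP_e85462_co.L.A1m

/-! E4: rotation by 90 degrees. -/

open MeasureTheory Set

namespace SqLo

private lemma E4_u (X : ℝ) (S : Sq) (p : ℝ × ℝ) : (rot X S).u (X - p.2, p.1) = - S.v p := by
  simp only [rot, Sq.u, Sq.v]
  ring

private lemma E4_v (X : ℝ) (S : Sq) (p : ℝ × ℝ) : (rot X S).v (X - p.2, p.1) = S.u p := by
  simp only [rot, Sq.u, Sq.v]
  ring

theorem rot_cl (X : ℝ) (S : Sq) (p : ℝ × ℝ) : p ∈ S.cl ↔ (X - p.2, p.1) ∈ (rot X S).cl := by
  simp only [Sq.cl, mem_ofPred_eq, E4_u, E4_v, abs_neg]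
  exact and_comm

theorem rot_op (X : ℝ) (S : Sq) (p : ℝ × ℝ) : p ∈ S.op ↔ (X - p.2, p.1) ∈ (rot X S).op := by
  simp only [Sq.op, mem_ofPred_eq, E4_u, E4_v, abs_neg]
  exact and_comm

theorem rot_inj (X : ℝ) : Function.Injective (rot X) := by
  rintro ⟨x, y, a⟩ ⟨x', y', a'⟩ h
  simp only [rot, Sq.mk.injEq] at h ⊢
  obtain ⟨h1, h2, h3⟩ := h
  exact ⟨h2, by linarith, h3⟩

theorem rot_mem (X : ℝ) (P : Finset Sq) (S : Sq) : rot X S ∈ rotP X P ↔ S ∈ P := by
  unfold rotP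
  rw [Finset.mem_image]
  constructor
  · rintro ⟨T, hT, hTS⟩
    rw [← rot_inj X hTS]
    exact hT
  · intro h
    exact ⟨S, h, rfl⟩

theorem rot_hole (X : ℝ) (P : Finset Sq) (p : ℝ × ℝ) :
    p ∈ Hole P ↔ (X - p.2, p.1) ∈ Hole (rotP X P) := by
  simp only [Hole, mem_ofPred_eq, rotP, Finset.mem_image]
  constructor
  · rintro h S ⟨T, hT, rfl⟩
    rw [← rot_cl]
    exact h T hT
  · intro h S hS
    rw [rot_cl X]
    exact h _ ⟨S, hS, rfl⟩

private noncomputable def E4_rho (X : ℝ) : (ℝ × ℝ) ≃ₜ (ℝ × ℝ) :=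
  (Homeomorph.prodComm ℝ ℝ).trans ((Homeomorph.subLeft X).prodCongr (Homeomorph.refl ℝ))

private lemma E4_rho_apply (X : ℝ) (p : ℝ × ℝ) : E4_rho X p = (X - p.2, p.1) := rfl

private lemma E4_mp (X : ℝ) : MeasurePreserving (E4_rho X) volume volume := by
  have h1 : MeasurePreserving (fun x : ℝ => X - x) volume volume := Measure.measurePreserving_sub_left _ X
  have h2 := h1.prod (MeasurePreserving.id (volume : Measure ℝ))
  have h3 : MeasurePreserving (Prod.swap : ℝ × ℝ → ℝ × ℝ) volume volume :=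
    Measure.measurePreserving_swap
  exact h2.comp h3

private lemma E4_vol (X : ℝ) (A : Set (ℝ × ℝ)) :
    volume {p : ℝ × ℝ | (X - p.2, p.1) ∈ A} = volume A :=
  (E4_mp X).measure_preimage_emb (E4_rho X).measurableEmbedding A

theorem rot_wst (X : ℝ) (P : Finset Sq) (r : ℝ) (S : Sq) :
    wst (rotP X P) r (rot X S) = wst P r S := by
  unfold wst
  rw [← E4_vol X]
  congr 2
  ext p
  simp only [mem_ofPred_eq, mem_inter_iff, ← rot_hole X P p, bx, rot]
  have e : X - p.2 - (X - S.y) = -(p.2 - S.y) := by ring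
  rw [e, abs_neg]
  tauto

theorem rot_tw (X : ℝ) (P : Finset Sq) : tw X (rotP X P) = tw X P := by
  unfold tw
  rw [← E4_vol X]
  congr 2
  ext p
  simp only [mem_ofPred_eq, mem_inter_iff, ← rot_hole X P p, bx]
  have e : X - p.2 - X / 2 = -(p.2 - X / 2) := by ring
  rw [e, abs_neg]
  tauto

theorem rot_In (X : ℝ) (S : Sq) : In X (rot X S) ↔ In X S := by
  unfold In
  constructor
  · intro h p hp
    have := h ((rot_cl X S p).1 hp)
    simp only [mem_ofPred_eq] at this ⊢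
    obtain ⟨h1, h2, h3, h4⟩ := this
    exact ⟨h3, h4, by linarith, by linarith⟩
  · intro h p hp
    have e : p = (X - (p.2, X - p.1).2, (p.2, X - p.1).1) := by simp
    rw [e] at hp
    rw [← rot_cl] at hp
    have := h hp
    simp only [mem_ofPred_eq] at this ⊢
    obtain ⟨h1, h2, h3, h4⟩ := this
    exact ⟨by linarith, by linarith, h1, h2⟩

theorem rot_framed (X : ℝ) (P : Finset Sq) (hF : Framed X P) : Framed X (rotP X P) := by
  obtain ⟨X1, pk, nm, pos⟩ := hF
  refine ⟨X1, ?_, ?_, ?_⟩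
  · intro S' hS' T' hT' hne
    simp only [rotP, Finset.mem_image] at hS' hT'
    obtain ⟨S, hS, rfl⟩ := hS'
    obtain ⟨T, hT, rfl⟩ := hT'
    have hne' : S ≠ T := fun h => hne (by rw [h])
    have hd := pk S hS T hT hne'
    rw [Set.disjoint_left] at hd ⊢
    intro p hp hq
    have e : p = (X - (p.2, X - p.1).2, (p.2, X - p.1).1) := by simp
    rw [e, ← rot_op] at hp hq
    exact hd hp hq
  · intro S' hS'
    simp only [rotP, Finset.mem_image] at hS'
    obtain ⟨S, hS, rfl⟩ := hS'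
    exact nm S hS
  · intro S' hS'
    simp only [rotP, Finset.mem_image] at hS'
    obtain ⟨S, hS, rfl⟩ := hS'
    rcases pos S hS with h | h | h | h | h
    · exact Or.inl ((rot_In X S).2 h)
    · obtain ⟨ha, h1, h2, j, hj⟩ := h
      refine Or.inr (Or.inr (Or.inr (Or.inl ⟨ha, ?_, ?_, j, hj⟩)))
      · simp only [rot]; linarith
      · simp only [rot]; linarith
    · obtain ⟨ha, h1, h2, j, hj⟩ := h
      refine Or.inr (Or.inr (Or.inr (Or.inr ⟨ha, ?_, ?_, j, hj⟩)))
      · simp only [rot]; linarith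
      · simp only [rot]; linarith
    · obtain ⟨ha, h1, h2, j, hj⟩ := h
      refine Or.inr (Or.inr (Or.inl ⟨ha, h1, h2, j, ?_⟩))
      simp only [rot]; linarith
    · obtain ⟨ha, h1, h2, j, hj⟩ := h
      refine Or.inr (Or.inl ⟨ha, h1, h2, j, ?_⟩)
      simp only [rot]; linarith

theorem rot_tc (X C : ℝ) (P : Finset Sq) (hT : TC P C) : TC (rotP X P) C := by
  intro S' hS' T' hT' hx hy
  simp only [rotP, Finset.mem_image] at hS' hT'
  obtain ⟨S, hS, rfl⟩ := hS'
  obtain ⟨T, hT2, rfl⟩ := hT'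
  rw [rot_wst]
  refine hT S hS T hT2 ?_ ?_
  · simpa only [rot] using hy
  · simp only [rot] at hx
    have e : X - S.y - (X - T.y) = -(S.y - T.y) := by ring
    rwa [e, abs_neg] at hx

end SqLo
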