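import Pool.Agent.Lib.MP_e85462_co.L.E1
import Pool.Agent.Lib.MP_e85462_co.L.E4

/-! G1: a vertical line which starts in a square of a horizontal line never comes back to a square
of the horizontal line; the same for horizontal lines which start in the first column. -/

open MeasureTheory Set

namespace SqLo

private theorem G1_cos {a : ℝ} (h : |a| ≤ 1 / 10) : 0.995 ≤ Real.cos a ∧ |Real.sin a| ≤ 1 / 10 := by
  constructor
  · have h1 := Real.one_sub_sq_div_two_le_cos (x := a)
    have h2 : a ^ 2 ≤ (1 / 10) ^ 2 := sq_le_sq' (by linarith [(abs_le.1 h).1]) (abs_le.1 h).2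
    norm_num at h2 ⊢
    linarith
  · exact (Real.abs_sin_le_abs).trans h

private theorem G1_disp {C : ℝ} (hC : 1 ≤ C) {P : Finset Sq} {N : ℕ} {Z : ℕ → Sq}
    {t h : ℕ → ℝ} (L : Ln C P N Z t h) {p q : ℕ} (hpq : p < q) (hq : q ≤ N) :
    0.995 * ((q : ℝ) - p) - 0.11 ≤ (Z q).x - (Z p).x ∧
    |(Z q).y - (Z p).y| ≤ 0.101 * ((q : ℝ) - p) + 1.11 := by
  obtain ⟨e1, e2⟩ := ent_sum L p q hpq.le hq
  obtain ⟨cq1, cq2⟩ := ctr_ent Z t q
  obtain ⟨cp1, cp2⟩ := ctr_ent Z t p
  have Lp := L p (by omega)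
  have Lq := L (q - 1) (by omega)
  rw [Nat.sub_add_cancel (by omega : 1 ≤ q)] at Lq
  obtain ⟨cosp, sinp⟩ := G1_cos Lp.aS
  obtain ⟨cosq, sinq⟩ := G1_cos Lq.aT
  have wp := wst_nn P 16 (Z p)
  have wq := wst_nn P 16 (Z q)
  have tp : |t p| ≤ 1 / 2 := by
    have := Lp.mS
    have h0 : 0 ≤ C * wst P 16 (Z p) := by positivity
    linarith
  have tq : |t q| ≤ 1 / 2 := by
    have := Lq.mT
    have h0 : 0 ≤ C * wst P 16 (Z q) := by positivity
    linarith
  have hs1 : 0.995 * ((q : ℝ) - p) ≤ ∑ l ∈ Finset.Ico p q, (1 + h l) * Real.cos (Z l).a := by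
    calc 0.995 * ((q : ℝ) - p) = ∑ l ∈ Finset.Ico p q, (0.995 : ℝ) := by
          rw [Finset.sum_const, Nat.card_Ico, nsmul_eq_mul, Nat.cast_sub hpq.le]; ring
      _ ≤ _ := by
          refine Finset.sum_le_sum fun l hl => ?_
          rw [Finset.mem_Ico] at hl
          have Ll := L l (by omega)
          obtain ⟨c1, _⟩ := G1_cos Ll.aS
          nlinarith [Ll.h0]
  have hs2 : |∑ l ∈ Finset.Ico p q, (1 + h l) * Real.sin (Z l).a| ≤ 0.101 * ((q : ℝ) - p) := by
    refine (Finset.abs_sum_le_sum_abs _ _).trans ?_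
    calc ∑ l ∈ Finset.Ico p q, |(1 + h l) * Real.sin (Z l).a|
        ≤ ∑ l ∈ Finset.Ico p q, (0.101 : ℝ) := by
          refine Finset.sum_le_sum fun l hl => ?_
          rw [Finset.mem_Ico] at hl
          have Ll := L l (by omega)
          obtain ⟨_, s1⟩ := G1_cos Ll.aS
          have h0 := Ll.h0
          have h1 := Ll.h1
          rw [abs_mul, abs_of_nonneg (by linarith)]
          nlinarith [abs_nonneg (Real.sin (Z l).a)]
      _ = 0.101 * ((q : ℝ) - p) := by
          rw [Finset.sum_const, Nat.card_Ico, nsmul_eq_mul, Nat.cast_sub hpq.le]; ring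
  have m1 : |t p * Real.sin (Z p).a| ≤ 0.05 := by
    rw [abs_mul]; nlinarith [abs_nonneg (t p), abs_nonneg (Real.sin (Z p).a)]
  have m2 : |t q * Real.sin (Z q).a| ≤ 0.05 := by
    rw [abs_mul]; nlinarith [abs_nonneg (t q), abs_nonneg (Real.sin (Z q).a)]
  have m3 : |t p * Real.cos (Z p).a| ≤ 1 / 2 := by
    rw [abs_mul]
    have := Real.abs_cos_le_one (Z p).a
    nlinarith [abs_nonneg (t p), abs_nonneg (Real.cos (Z p).a)]
  have m4 : |t q * Real.cos (Z q).a| ≤ 1 / 2 := by
    rw [abs_mul]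
    have := Real.abs_cos_le_one (Z q).a
    nlinarith [abs_nonneg (t q), abs_nonneg (Real.cos (Z q).a)]
  have b1 := Real.cos_le_one (Z p).a
  have b2 := Real.cos_le_one (Z q).a
  rw [abs_le] at m1 m2 m3 m4 sinp sinq hs2
  refine ⟨?_, ?_⟩
  · rw [cq1, cp1, e1]; norm_num at *; linarith
  · rw [cq2, cp2, e2, abs_le]
    constructor <;> · norm_num at *; linarith

theorem nr_col (C : ℝ) (hC : 1 ≤ C) (X : ℝ) (P : Finset Sq) (n : ℕ) (S : ℕ → Sq)
    (t h : ℕ → ℝ) (hn : 1 ≤ n) (L : Ln C P n S t h) (h0 : LC X (S 0)) (h1 : LC X (S n)) :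
    False := by
  obtain ⟨e1, _⟩ := G1_disp hC L (p := 0) (q := n) (by omega) le_rfl
  have a1 := h0.2.2.2
  have a2 := h1.2.2.2
  rw [a1, a2] at e1
  have : (1 : ℝ) ≤ n := by exact_mod_cast hn
  norm_num at e1
  linarith

/-- final contradiction for a horizontal and a vertical link between the same two squares -/
private theorem G1_final {θ t0 t1 σ1 g h ω τ F : ℝ} (hω : 0 ≤ ω)
    (hτ : τ ≤ 52 / 100 * ω) (hθ : |θ| ≤ τ) (hτ1 : τ ≤ 1 / 10)
    (ht0 : |t0| < 1 / 2 - 10 * ω) (ht1 : |t1| < 1 / 2) (hσ : |σ1| ≤ 1 / 2) (hg : 0 ≤ g)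
    (hh0 : 0 ≤ h) (hh1 : h ≤ 1 / 100)
    (hF : F = t0 + 1 / 2 * Real.sin θ - t1 * Real.cos θ ∨
      F = t0 - (1 / 2 + h) * Real.sin θ - t1 * Real.cos θ)
    (hF2 : F = -(1 / 2 + g) - 1 / 2 * Real.cos θ - σ1 * Real.sin θ) : False := by
  have hs : |Real.sin θ| ≤ τ := Real.abs_sin_le_abs.trans hθ
  have hτ0 : 0 ≤ τ := (abs_nonneg _).trans hθ
  have hc : 1 - τ ^ 2 / 2 ≤ Real.cos θ := by
    have h1 := Real.one_sub_sq_div_two_le_cos (x := θ)
    have h2 : θ ^ 2 ≤ τ ^ 2 := sq_le_sq' (by linarith [(abs_le.1 hθ).1]) (abs_le.1 hθ).2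
    linarith
  have hc1 := Real.abs_cos_le_one θ
  have m1 : |t1 * Real.cos θ| ≤ |t1| := by
    rw [abs_mul]; nlinarith [abs_nonneg t1, abs_nonneg (Real.cos θ)]
  have m2 : |σ1 * Real.sin θ| ≤ 1 / 2 * τ := by
    rw [abs_mul]; nlinarith [abs_nonneg σ1, abs_nonneg (Real.sin θ)]
  have m3 : |(1 / 2 + h) * Real.sin θ| ≤ 51 / 100 * τ := by
    rw [abs_mul, abs_of_nonneg (by linarith)]; nlinarith [abs_nonneg (Real.sin θ)]
  have up : -F ≤ |t0| + |t1| + 51 / 100 * τ := by
    rcases hF with hF | hF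
    · rw [hF]
      have := neg_abs_le t0
      rw [abs_le] at m1 hs
      linarith
    · rw [hF]
      have := neg_abs_le t0
      rw [abs_le] at m1 m3
      linarith
  have lo : 1 - τ ≤ -F := by
    rw [hF2]
    rw [abs_le] at m2
    nlinarith
  nlinarith

theorem nr_row (C : ℝ) (hC : 1 ≤ C) (X : ℝ) (P : Finset Sq) (hF : Framed X P) (hT : TC P C)
    (n : ℕ) (S : ℕ → Sq) (t h : ℕ → ℝ) (L : Ln C P n S t h) (i j : ℕ) (hi : i ≤ n) (hj : j ≤ n)
    (m : ℕ) (Y : ℕ → Sq) (s g : ℕ → ℝ) (hm : 1 ≤ m) (LY : Ln C (rotP X P) m Y s g)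
    (h0 : Y 0 = rot X (S i)) (h1 : Y m = rot X (S j)) : False := by
  obtain ⟨y1, y2⟩ := G1_disp hC LY (p := 0) (q := m) (by omega) le_rfl
  rw [h0, h1] at y1 y2
  simp only [rot, Nat.cast_zero, sub_zero] at y1 y2
  have hm1 : (1 : ℝ) ≤ m := by exact_mod_cast hm
  rcases eq_or_ne i j with hij | hij
  · subst hij
    norm_num at y1
    linarith
  -- displacement along the horizontal line
  have key : ∃ d : ℝ, d = |(i : ℝ) - j| ∧ 0.995 * d - 0.11 ≤ |(S j).x - (S i).x| ∧
      |(S j).y - (S i).y| ≤ 0.101 * d + 1.11 := by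
    rcases lt_or_gt_of_ne hij with hlt | hgt
    · obtain ⟨a1, a2⟩ := G1_disp hC L hlt hj
      refine ⟨(j : ℝ) - i, ?_, a1.trans (le_abs_self _), a2⟩
      have : (i : ℝ) < j := by exact_mod_cast hlt
      rw [abs_of_neg (by linarith)]; ring
    · obtain ⟨a1, a2⟩ := G1_disp hC L hgt hi
      refine ⟨(i : ℝ) - j, ?_, ?_, ?_⟩
      · have : (j : ℝ) < i := by exact_mod_cast hgt
        rw [abs_of_pos (by linarith)]
      · rw [abs_sub_comm]; exact a1.trans (le_abs_self _)
      · rw [abs_sub_comm]; exact a2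
  obtain ⟨d, hd, k1, k2⟩ := key
  have k3 : (S i).y - (S j).y ≤ |(S j).y - (S i).y| := by
    rw [abs_sub_comm]; exact le_abs_self _
  have hmle : (m : ℝ) < 2 := by linarith
  have hm' : m = 1 := by
    have : m < 2 := by exact_mod_cast hmle
    omega
  subst hm'
  have hdle : d < 2 := by
    rw [Nat.cast_one] at y2
    linarith
  have hadj : j = i + 1 ∨ i = j + 1 := by
    rw [hd] at hdle
    have h2 : |(i : ℤ) - j| < 2 := by exact_mod_cast hdle
    rw [abs_lt] at h2
    omega
  -- the vertical link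
  have LV := LY 0 (by omega)
  rw [zero_add, h0, h1] at LV
  have hSi : S i ∈ P := (rot_mem X P (S i)).1 LV.hS
  have hSj : S j ∈ P := (rot_mem X P (S j)).1 LV.hT
  set ω := C * wst P 16 (S i) with hω
  have hω0 : 0 ≤ ω := by have := wst_nn P 16 (S i); positivity
  have hω1 : 10 * ω ≤ 1 / 100 := by
    have := LV.wS; rw [rot_wst] at this; exact this
  have hw13 : C * wst P 13 (S i) ≤ ω := by
    have := wst_le P 13 16 (S i) (S i) (by norm_num) (by norm_num)
    rw [hω]; gcongr
  have haSi : |(S i).a| ≤ 1 / 10 := LV.aS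
  have hdx : |(S i).x - (S j).x| ≤ 3 ∧ |(S i).y - (S j).y| ≤ 3 := by
    rcases hadj with hadj | hadj
    · have LH := L i (by omega)
      rw [← hadj] at LH
      obtain ⟨c1, c2⟩ := lk_ctr hC LH
      exact ⟨by linarith, by linarith⟩
    · have LH := L j (by omega)
      rw [← hadj] at LH
      obtain ⟨c1, c2⟩ := lk_ctr hC LH
      rw [abs_sub_comm] at c1 c2
      exact ⟨by linarith, by linarith⟩
  have htilt := tilt_near hF.nm hT hSi hSj haSi hdx.1 hdx.2 (by linarith)
  set w := (S i).a with hw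
  set θ := (S j).a - w with hθ
  have hSja : (S j).a = w + θ := by rw [hθ]; ring
  have cs : Real.cos (S j).a = Real.cos w * Real.cos θ - Real.sin w * Real.sin θ := by
    rw [hSja, Real.cos_add]
  have sn : Real.sin (S j).a = Real.sin w * Real.cos θ + Real.cos w * Real.sin θ := by
    rw [hSja, Real.sin_add]
  have pw := Real.sin_sq_add_cos_sq w
  -- vertical equation
  have ev := LV.eq
  simp only [Sq.pt, rot, Prod.mk.injEq] at ev
  obtain ⟨ev1, ev2⟩ := ev
  rw [cs, sn] at ev1 ev2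
  have hσ : |s 1| ≤ 1 / 2 := by
    have := LV.mT
    have h0 : 0 ≤ C * wst (rotP X P) 16 (rot X (S j)) := by
      have := wst_nn (rotP X P) 16 (rot X (S j)); positivity
    linarith
  set F := ((S j).y - (S i).y) * Real.cos w - ((S j).x - (S i).x) * Real.sin w with hFdef
  have F2 : F = -(1 / 2 + g 0) - 1 / 2 * Real.cos θ - s 1 * Real.sin θ := by
    have e1 : (S j).y - (S i).y = -((1 / 2 + g 0) * Real.cos w - s 0 * Real.sin w
        + 1 / 2 * (Real.cos w * Real.cos θ - Real.sin w * Real.sin θ)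
        + s 1 * (Real.sin w * Real.cos θ + Real.cos w * Real.sin θ)) := by
      linear_combination ev1
    have e2 : (S j).x - (S i).x = (1 / 2 + g 0) * Real.sin w + s 0 * Real.cos w
        + 1 / 2 * (Real.sin w * Real.cos θ + Real.cos w * Real.sin θ)
        - s 1 * (Real.cos w * Real.cos θ - Real.sin w * Real.sin θ) := by
      linear_combination -ev2
    rw [hFdef, e1, e2]
    linear_combination (-(1 / 2 + g 0) - 1 / 2 * Real.cos θ - s 1 * Real.sin θ) * pw
  rcases hadj with hadj | hadj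
  · have LH := L i (by omega)
    rw [← hadj] at LH
    have eh := LH.eq
    simp only [Sq.pt, Prod.mk.injEq] at eh
    obtain ⟨eh1, eh2⟩ := eh
    rw [cs, sn] at eh1 eh2
    have F1 : F = t i + 1 / 2 * Real.sin θ - t j * Real.cos θ := by
      have e1 : (S j).x - (S i).x = (1 / 2 + h i) * Real.cos w - t i * Real.sin w
          + 1 / 2 * (Real.cos w * Real.cos θ - Real.sin w * Real.sin θ)
          + t j * (Real.sin w * Real.cos θ + Real.cos w * Real.sin θ) := by
        linear_combination -eh1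
      have e2 : (S j).y - (S i).y = (1 / 2 + h i) * Real.sin w + t i * Real.cos w
          + 1 / 2 * (Real.sin w * Real.cos θ + Real.cos w * Real.sin θ)
          - t j * (Real.cos w * Real.cos θ - Real.sin w * Real.sin θ) := by
        linear_combination -eh2
      rw [hFdef, e1, e2]
      linear_combination (t i + 1 / 2 * Real.sin θ - t j * Real.cos θ) * pw
    have mt1 : |t j| < 1 / 2 := by
      have := LH.mT
      have h0 : 0 ≤ C * wst P 16 (S j) := by have := wst_nn P 16 (S j); positivity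
      linarith
    exact G1_final (τ := 52 / 100 * (C * wst P 13 (S i))) hω0 (by linarith) htilt
      (by linarith) LH.mS mt1 hσ LV.h0 LH.h0 LH.h1 (Or.inl F1) F2
  · have LH := L j (by omega)
    rw [← hadj] at LH
    have eh := LH.eq
    simp only [Sq.pt, Prod.mk.injEq] at eh
    obtain ⟨eh1, eh2⟩ := eh
    rw [cs, sn] at eh1 eh2
    have F1 : F = t i - (1 / 2 + h j) * Real.sin θ - t j * Real.cos θ := by
      have e1 : (S j).x - (S i).x = -((1 / 2 + h j) *
            (Real.cos w * Real.cos θ - Real.sin w * Real.sin θ))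
          + t j * (Real.sin w * Real.cos θ + Real.cos w * Real.sin θ)
          - 1 / 2 * Real.cos w - t i * Real.sin w := by
        linear_combination eh1
      have e2 : (S j).y - (S i).y = -((1 / 2 + h j) *
            (Real.sin w * Real.cos θ + Real.cos w * Real.sin θ))
          - t j * (Real.cos w * Real.cos θ - Real.sin w * Real.sin θ)
          - 1 / 2 * Real.sin w + t i * Real.cos w := by
        linear_combination eh2
      rw [hFdef, e1, e2]
      linear_combination (t i - (1 / 2 + h j) * Real.sin θ - t j * Real.cos θ) * pw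
    have mt1 : |t j| < 1 / 2 := by
      have := LH.mS
      have h0 : 0 ≤ C * wst P 16 (S j) := by have := wst_nn P 16 (S j); positivity
      linarith
    exact G1_final (τ := 52 / 100 * (C * wst P 13 (S i))) hω0 (by linarith) htilt
      (by linarith) LH.mT mt1 hσ LV.h0 LH.h0 LH.h1 (Or.inr F1) F2

end SqLo
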