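import Pool.Agent.Lib.MP_e85462_co.L.Defs

/-! H0: distance to the nearest integer. -/

open MeasureTheory Set

namespace SqLo

theorem H0_le (x : ℝ) (n : ℤ) : dz x ≤ |x - n| := round_le x n

theorem dz_add (x y : ℝ) : dz (x + y) ≤ dz x + dz y := by
  have h := H0_le (x + y) (round x + round y)
  have h2 : x + y - ((round x + round y : ℤ) : ℝ) = (x - round x) + (y - round y) := by
    push_cast
    ring
  rw [h2] at h
  exact h.trans (abs_add_le _ _)

theorem H0_neg (x : ℝ) : dz (-x) ≤ dz x := by
  have h := H0_le (-x) (-round x)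
  have h2 : -x - ((-round x : ℤ) : ℝ) = -(x - round x) := by
    push_cast
    ring
  rw [h2, abs_neg] at h
  exact h

theorem dz_neg (x : ℝ) : dz (-x) = dz x := by
  apply le_antisymm (H0_neg x)
  have := H0_neg (-x)
  rwa [neg_neg] at this

theorem dz_le (x : ℝ) (n : ℤ) : dz x ≤ |x - n| := H0_le x n

end SqLo
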