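import Pool.Agent.Lib.MP_e85462_co.L.A2
import Pool.Agent.Lib.MP_e85462_co.L.B0
import Pool.Agent.Lib.MP_e85462_co.L.H0

/-! H1: two squares which are joined by straight lines of direction `w` through squares of almost the tilt `w`: the distance of the centres is almost an integer. -/

open MeasureTheory Set

namespace SqLo

/-- number of squares of a packing inside a rectangle -/
private theorem H1_card (P : Finset Sq) (hP : Packing P) (Q : Finset Sq) (hQ : Q ⊆ P)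
    (x0 x1 y0 y1 : ℝ) (hx : x0 ≤ x1) (hy : y0 ≤ y1)
    (h : ∀ S ∈ Q, S.op ⊆ Icc x0 x1 ×ˢ Icc y0 y1) :
    (Q.card : ℝ) ≤ (x1 - x0) * (y1 - y0) := by
  have h1 : volume (⋃ S ∈ Q, S.op) = ∑ S ∈ Q, volume S.op := by
    refine measure_biUnion_finset ?_ fun S _ => (op_open S).measurableSet
    intro S hS T hT hST
    exact hP S (hQ hS) T (hQ hT) hST
  have h2 : volume (⋃ S ∈ Q, S.op) ≤ volume (Icc x0 x1 ×ˢ Icc y0 y1) :=
    measure_mono (iUnion₂_subset h)
  rw [h1, Finset.sum_congr rfl (fun S _ => vol_op S), Measure.volume_eq_prod, Measure.prod_prod,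
    Real.volume_Icc, Real.volume_Icc, ← ENNReal.ofReal_mul (by linarith)] at h2
  simp only [Finset.sum_const, nsmul_eq_mul, mul_one] at h2
  rw [← ENNReal.ofReal_natCast] at h2
  exact (ENNReal.ofReal_le_ofReal_iff (mul_nonneg (by linarith) (by linarith))).1 h2

/-- choice of a good height -/
private theorem H1_good (P Q : Finset Sq) (x0 x1 v1 v2 W τ : ℝ) (hx : x0 ≤ x1) (hv : v1 < v2)
    (hW : (volume (Hole P ∩ {p | x0 ≤ p.1 ∧ p.1 ≤ x1 ∧ v1 ≤ p.2 ∧ p.2 ≤ v2})).toReal ≤ W)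
    (h0 : 0 ≤ τ) (hc : 16 * (Q.card : ℝ) * τ ≤ v2 - v1) :
    ∃ v, v1 < v ∧ v < v2 ∧ (∀ S ∈ Q, 2 * τ < |(|v - S.y| - 1 / 2)|) ∧
      volume {x : ℝ | x0 ≤ x ∧ x ≤ x1 ∧ (x, v) ∈ Hole P} ≤ ENNReal.ofReal (2 * W / (v2 - v1)) := by
  have hW0 : 0 ≤ W := le_trans ENNReal.toReal_nonneg hW
  set B : Set ℝ := ⋃ S ∈ Q, (Icc (S.y + 1 / 2 - 2 * τ) (S.y + 1 / 2 + 2 * τ) ∪
    Icc (S.y - 1 / 2 - 2 * τ) (S.y - 1 / 2 + 2 * τ)) with hB
  have hBm : MeasurableSet B :=
    Finset.measurableSet_biUnion _ fun S _ => measurableSet_Icc.union measurableSet_Icc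
  have hBv : volume B ≤ ENNReal.ofReal ((v2 - v1) / 2) := by
    calc volume B ≤ ∑ S ∈ Q, volume (Icc (S.y + 1 / 2 - 2 * τ) (S.y + 1 / 2 + 2 * τ) ∪
          Icc (S.y - 1 / 2 - 2 * τ) (S.y - 1 / 2 + 2 * τ)) := measure_biUnion_finset_le _ _
      _ ≤ ∑ S ∈ Q, ENNReal.ofReal (8 * τ) := by
          refine Finset.sum_le_sum fun S _ => (measure_union_le _ _).trans ?_
          rw [Real.volume_Icc, Real.volume_Icc, ← ENNReal.ofReal_add (by linarith) (by linarith)]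
          exact ENNReal.ofReal_le_ofReal (by linarith)
      _ = ENNReal.ofReal (Q.card * (8 * τ)) := by
          rw [Finset.sum_const, nsmul_eq_mul, ENNReal.ofReal_mul (p := (Q.card : ℝ)) (by positivity),
            ENNReal.ofReal_natCast]
      _ ≤ _ := ENNReal.ofReal_le_ofReal (by linarith)
  set s : Set ℝ := Ioo v1 v2 \ B with hs
  have hsm : MeasurableSet s := measurableSet_Ioo.diff hBm
  have hsv : ENNReal.ofReal ((v2 - v1) / 2) ≤ volume s := by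
    have h1 : volume (Ioo v1 v2) ≤ volume s + volume B := by
      refine (measure_mono ?_).trans (measure_union_le s B)
      intro v hv
      by_cases hvB : v ∈ B
      · exact Or.inr hvB
      · exact Or.inl ⟨hv, hvB⟩
    rw [Real.volume_Ioo] at h1
    have h2 : ENNReal.ofReal (v2 - v1) ≤ volume s + ENNReal.ofReal ((v2 - v1) / 2) :=
      h1.trans (add_le_add le_rfl hBv)
    have h3 : ENNReal.ofReal (v2 - v1) =
        ENNReal.ofReal ((v2 - v1) / 2) + ENNReal.ofReal ((v2 - v1) / 2) := by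
      rw [← ENNReal.ofReal_add (by linarith) (by linarith)]; congr 1; ring
    rw [h3] at h2
    exact (ENNReal.add_le_add_iff_right ENNReal.ofReal_ne_top).1 h2
  have hs0 : volume s ≠ 0 := by
    intro h
    rw [h] at hsv
    have : (v2 - v1) / 2 ≤ 0 := ENNReal.ofReal_eq_zero.1 (le_antisymm hsv bot_le)
    linarith
  have hs1 : volume s ≠ ⊤ := by
    refine ne_top_of_le_ne_top ?_ (measure_mono (sdiff_subset : s ⊆ Ioo v1 v2))
    rw [Real.volume_Ioo]; exact ENNReal.ofReal_ne_top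
  -- the section function
  set E : Set (ℝ × ℝ) := Hole P ∩ (Icc x0 x1 ×ˢ Ioo v1 v2) with hE
  have hEm : MeasurableSet E :=
    (hole_open P).measurableSet.inter (measurableSet_Icc.prod measurableSet_Ioo)
  set R : Set (ℝ × ℝ) := {p | x0 ≤ p.1 ∧ p.1 ≤ x1 ∧ v1 ≤ p.2 ∧ p.2 ≤ v2} with hR
  have hRf : volume (Hole P ∩ R) ≠ ⊤ := by
    have h1 : R ⊆ Icc x0 x1 ×ˢ Icc v1 v2 := fun p hp => ⟨⟨hp.1, hp.2.1⟩, hp.2.2⟩
    refine ne_top_of_le_ne_top ?_ (measure_mono (inter_subset_right.trans h1))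
    rw [Measure.volume_eq_prod, Measure.prod_prod, Real.volume_Icc, Real.volume_Icc]
    exact ENNReal.mul_ne_top ENNReal.ofReal_ne_top ENNReal.ofReal_ne_top
  have hEW : volume E ≤ ENNReal.ofReal W := by
    have h1 : E ⊆ Hole P ∩ R := by
      rintro p ⟨h1, h2, h3⟩
      exact ⟨h1, h2.1, h2.2, h3.1.le, h3.2.le⟩
    refine (measure_mono h1).trans ?_
    rw [← ENNReal.ofReal_toReal hRf]
    exact ENNReal.ofReal_le_ofReal hW
  have hsec : ∫⁻ v, volume ((fun x => (x, v)) ⁻¹' E) = volume E := by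
    rw [Measure.volume_eq_prod, Measure.prod_apply_symm hEm]
  have hmeas : Measurable fun v => volume ((fun x : ℝ => (x, v)) ⁻¹' E) :=
    measurable_measure_prodMk_right hEm
  obtain ⟨v, hvs, hva⟩ := exists_le_setLAverage hs0 hs1 (hmeas.aemeasurable (μ := volume.restrict s))
  refine ⟨v, hvs.1.1, hvs.1.2, ?_, ?_⟩
  · intro S hS
    by_contra hn
    push Not at hn
    refine hvs.2 (mem_biUnion hS ?_)
    rcases abs_cases (v - S.y) with ⟨h1, h2⟩ | ⟨h1, h2⟩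
    · left
      rw [h1] at hn
      have := abs_le.1 hn
      constructor <;> linarith
    · right
      rw [h1] at hn
      have := abs_le.1 hn
      constructor <;> linarith
  · have h1 : {x : ℝ | x0 ≤ x ∧ x ≤ x1 ∧ (x, v) ∈ Hole P} ⊆ (fun x => (x, v)) ⁻¹' E :=
      fun x hx => ⟨hx.2.2, ⟨hx.1, hx.2.1⟩, hvs.1⟩
    refine (measure_mono h1).trans (hva.trans ?_)
    rw [setLAverage_eq]
    calc (∫⁻ v in s, volume ((fun x => (x, v)) ⁻¹' E)) / volume s
        ≤ ENNReal.ofReal W / ENNReal.ofReal ((v2 - v1) / 2) := by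
          refine ENNReal.div_le_div ?_ hsv
          exact (setLIntegral_le_lintegral _ _).trans (hsec.le.trans hEW)
      _ = ENNReal.ofReal (2 * W / (v2 - v1)) := by
          rw [← ENNReal.ofReal_div_of_pos (by linarith)]
          congr 1
          have : v2 - v1 ≠ 0 := by linarith
          field_simp

/-- ends of the chord of `S` at height `v` -/
private noncomputable def H1_l (v : ℝ) (S : Sq) : ℝ :=
  S.x + (-1 / 2 - (v - S.y) * Real.sin S.a) / Real.cos S.a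
private noncomputable def H1_r (v : ℝ) (S : Sq) : ℝ :=
  S.x + (1 / 2 - (v - S.y) * Real.sin S.a) / Real.cos S.a

private theorem H1_cos {a τ : ℝ} (h : |a| ≤ τ) (h1 : τ ≤ 1 / 1000) :
    1 - τ ^ 2 / 2 ≤ Real.cos a ∧ 0 < Real.cos a ∧ Real.cos a ≤ 1 ∧ |Real.sin a| ≤ τ := by
  have h2 := Real.one_sub_sq_div_two_le_cos (x := a)
  have h3 : a ^ 2 ≤ τ ^ 2 := by
    rw [← sq_abs a]; exact pow_le_pow_left₀ (abs_nonneg _) h 2
  have h4 : 0 ≤ τ := (abs_nonneg _).trans h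
  refine ⟨by linarith, by nlinarith, Real.cos_le_one a, ?_⟩
  exact (Real.abs_sin_le_abs).trans h

private theorem H1_cl {S : Sq} {τ x v : ℝ} (h : |S.a| ≤ τ) (h1 : τ ≤ 1 / 1000)
    (hp : (x, v) ∈ S.cl) : H1_l v S ≤ x ∧ x ≤ H1_r v S := by
  obtain ⟨-, hc, -, -⟩ := H1_cos h h1
  obtain ⟨h3, -⟩ := hp
  simp only [Sq.u] at h3
  obtain ⟨h4, h5⟩ := abs_le.1 h3
  unfold H1_l H1_r
  constructor
  · rw [← sub_nonneg, show x - (S.x + (-1 / 2 - (v - S.y) * Real.sin S.a) / Real.cos S.a) =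
      ((x - S.x) * Real.cos S.a - (-1 / 2 - (v - S.y) * Real.sin S.a)) / Real.cos S.a by
        field_simp; ring]
    exact div_nonneg (by linarith) hc.le
  · rw [← sub_nonneg, show S.x + (1 / 2 - (v - S.y) * Real.sin S.a) / Real.cos S.a - x =
      ((1 / 2 - (v - S.y) * Real.sin S.a) - (x - S.x) * Real.cos S.a) / Real.cos S.a by
        field_simp; ring]
    exact div_nonneg (by linarith) hc.le

private theorem H1_op {S : Sq} {τ x v : ℝ} (h : |S.a| ≤ τ) (h1 : τ ≤ 1 / 1000)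
    (hv : |v - S.y| < 1 / 2 - 2 * τ) (hl : H1_l v S < x) (hr : x < H1_r v S) :
    (x, v) ∈ S.op := by
  obtain ⟨hc1, hc, hc2, hs⟩ := H1_cos h h1
  have h0 : 0 ≤ τ := (abs_nonneg _).trans h
  unfold H1_l at hl
  unfold H1_r at hr
  have h3 : -1 / 2 - (v - S.y) * Real.sin S.a < (x - S.x) * Real.cos S.a := by
    rw [← div_lt_iff₀ hc]; linarith
  have h4 : (x - S.x) * Real.cos S.a < 1 / 2 - (v - S.y) * Real.sin S.a := by
    rw [← lt_div_iff₀ hc]; linarith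
  have h5 : |(v - S.y) * Real.sin S.a| ≤ τ / 2 := by
    rw [abs_mul]
    calc |v - S.y| * |Real.sin S.a| ≤ (1 / 2) * τ := by
          apply mul_le_mul (by linarith) hs (abs_nonneg _) (by norm_num)
      _ = _ := by ring
  have h6 : |x - S.x| ≤ 1 := by
    have h7 : |(x - S.x) * Real.cos S.a| ≤ 1 / 2 + τ / 2 := by
      rw [abs_le]; have := abs_le.1 h5; constructor <;> linarith
    rw [abs_mul, abs_of_pos hc] at h7
    by_contra hn
    push Not at hn
    nlinarith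
  constructor
  · simp only [Sq.u]; rw [abs_lt]; constructor <;> linarith
  · simp only [Sq.v]
    have h7 : |(x - S.x) * Real.sin S.a| ≤ τ := by
      rw [abs_mul]
      calc |x - S.x| * |Real.sin S.a| ≤ 1 * τ :=
            mul_le_mul h6 hs (abs_nonneg _) (by norm_num)
        _ = _ := by ring
    have h8 : |(v - S.y) * Real.cos S.a| ≤ |v - S.y| := by
      rw [abs_mul, abs_of_pos hc]
      exact mul_le_of_le_one_right (abs_nonneg _) hc2
    calc |(v - S.y) * Real.cos S.a - (x - S.x) * Real.sin S.a|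
        ≤ |(v - S.y) * Real.cos S.a| + |(x - S.x) * Real.sin S.a| := abs_sub _ _
      _ < 1 / 2 := by linarith

private theorem H1_meet {S : Sq} {τ x v : ℝ} (h : |S.a| ≤ τ) (h1 : τ ≤ 1 / 1000)
    (hp : (x, v) ∈ S.cl) (hb : 2 * τ < |(|v - S.y| - 1 / 2)|) : |v - S.y| < 1 / 2 - 2 * τ := by
  obtain ⟨hc1, hc, hc2, hs⟩ := H1_cos h h1
  have h0 : 0 ≤ τ := (abs_nonneg _).trans h
  have h2 : v - S.y = S.u (x, v) * Real.sin S.a + S.v (x, v) * Real.cos S.a := by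
    simp only [Sq.u, Sq.v]
    have := Real.sin_sq_add_cos_sq S.a
    linear_combination (-(v - S.y)) * this
  have h3 : |v - S.y| ≤ 1 / 2 + τ := by
    rw [h2]
    refine (abs_add_le _ _).trans ?_
    rw [abs_mul, abs_mul, abs_of_pos hc]
    have e1 : |S.u (x, v)| * |Real.sin S.a| ≤ 1 / 2 * τ :=
      mul_le_mul hp.1 hs (abs_nonneg _) (by norm_num)
    have e2 : |S.v (x, v)| * Real.cos S.a ≤ 1 / 2 * 1 :=
      mul_le_mul hp.2 hc2 hc.le (by norm_num)
    linarith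
  rcases lt_abs.1 hb with h4 | h4
  · linarith
  · linarith

private theorem H1_len {S : Sq} {τ v : ℝ} (h : |S.a| ≤ τ) (h1 : τ ≤ 1 / 1000) :
    1 ≤ H1_r v S - H1_l v S ∧ H1_r v S - H1_l v S ≤ 1 + τ ^ 2 := by
  obtain ⟨hc1, hc, hc2, hs⟩ := H1_cos h h1
  have h0 : 0 ≤ τ := (abs_nonneg _).trans h
  have h2 : H1_r v S - H1_l v S = 1 / Real.cos S.a := by
    unfold H1_l H1_r; field_simp; ring
  rw [h2]
  constructor
  · rw [le_div_iff₀ hc]; linarith
  · rw [div_le_iff₀ hc]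
    have h3 : 0 ≤ τ ^ 2 := sq_nonneg _
    have h4 : τ ^ 2 ≤ 1 := by nlinarith
    have h5 : (1 + τ ^ 2) * (1 - τ ^ 2 / 2) ≤ (1 + τ ^ 2) * Real.cos S.a :=
      mul_le_mul_of_nonneg_left hc1 (by linarith)
    nlinarith

private theorem H1_mid {S : Sq} {τ v : ℝ} (h : |S.a| ≤ τ) (h1 : τ ≤ 1 / 1000)
    (hv : |v - S.y| < 1 / 2 - 2 * τ) : |H1_l v S - (S.x - 1 / 2)| ≤ 51 / 100 * τ + τ ^ 2 := by
  obtain ⟨hc1, hc, hc2, hs⟩ := H1_cos h h1
  have h0 : 0 ≤ τ := (abs_nonneg _).trans h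
  have h2 : H1_l v S - (S.x - 1 / 2) =
      (-(1 - Real.cos S.a) / 2 - (v - S.y) * Real.sin S.a) / Real.cos S.a := by
    unfold H1_l; field_simp; ring
  rw [h2, abs_div, abs_of_pos hc, div_le_iff₀ hc]
  have h5 : |(v - S.y) * Real.sin S.a| ≤ τ / 2 := by
    rw [abs_mul]
    calc |v - S.y| * |Real.sin S.a| ≤ (1 / 2) * τ := by
          apply mul_le_mul (by linarith) hs (abs_nonneg _) (by norm_num)
      _ = _ := by ring
  have h6 : |-(1 - Real.cos S.a) / 2| ≤ τ ^ 2 / 4 := by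
    rw [abs_le]; constructor <;> linarith
  refine (abs_sub _ _).trans ?_
  have : 0 ≤ τ ^ 2 := sq_nonneg _
  have h7 : (51 / 100 * τ + τ ^ 2) * (1 - τ ^ 2 / 2) ≤ (51 / 100 * τ + τ ^ 2) * Real.cos S.a :=
    mul_le_mul_of_nonneg_left hc1 (by positivity)
  refine le_trans ?_ h7
  have h8 : τ ^ 2 ≤ 1 / 1000 * τ := by nlinarith
  nlinarith

private theorem H1_core (P : Finset Sq) (hP : Packing P) (τ v1 v2 W L : ℝ) (Z T : Sq) (hZ : Z ∈ P)
    (hT : T ∈ P) (h0 : 0 ≤ τ) (hv : v1 < v2) (hv1 : v2 ≤ v1 + 1) (hL : 1 ≤ L)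
    (hu : Z.x ≤ T.x) (hu' : T.x ≤ Z.x + L)
    (hZv : ∀ v, v1 < v → v < v2 → |v - Z.y| ≤ 1 / 2 - 2 * τ)
    (hTv : ∀ v, v1 < v → v < v2 → |v - T.y| ≤ 1 / 2 - 2 * τ)
    (ht : ∀ S ∈ P, (∃ p ∈ S.cl, Z.x - 1 ≤ p.1 ∧ p.1 ≤ T.x + 1 ∧ v1 ≤ p.2 ∧ p.2 ≤ v2) →
      |S.a| ≤ τ)
    (hW : (volume (Hole P ∩ {p | Z.x - 1 ≤ p.1 ∧ p.1 ≤ T.x + 1 ∧ v1 ≤ p.2 ∧ p.2 ≤ v2})).toReal
      ≤ W)
    (hb : 200 * (L + 5) * τ ≤ v2 - v1) :
    dz (T.x - Z.x) ≤ 2 * W / (v2 - v1) + 5 * τ := by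
  classical
  have hW0 : 0 ≤ W := le_trans ENNReal.toReal_nonneg hW
  have hdiv : 0 ≤ 2 * W / (v2 - v1) := div_nonneg (by linarith) (by linarith)
  have hLt : (L + 5) * τ ≤ 1 / 200 := by linarith
  have hτ : τ ≤ 1 / 1000 := by nlinarith
  set Q := P.filter (fun S => ∃ p ∈ S.cl, Z.x - 1 ≤ p.1 ∧ p.1 ≤ T.x + 1 ∧ v1 ≤ p.2 ∧ p.2 ≤ v2)
    with hQ
  have hQt : ∀ S ∈ Q, |S.a| ≤ τ := fun S hS => ht S (Finset.mem_filter.1 hS).1
    (Finset.mem_filter.1 hS).2
  have hQc : (Q.card : ℝ) ≤ 4 * (L + 5) := by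
    have h1 := H1_card P hP Q (Finset.filter_subset _ _) (Z.x - 1 - 142 / 100)
      (T.x + 1 + 142 / 100) (v1 - 142 / 100) (v2 + 142 / 100) (by linarith) (by linarith) ?_
    · refine h1.trans ?_
      have : (T.x + 1 + 142 / 100 - (Z.x - 1 - 142 / 100)) *
          (v2 + 142 / 100 - (v1 - 142 / 100)) ≤ (L + 484 / 100) * (384 / 100) :=
        mul_le_mul (by linarith) (by linarith) (by linarith) (by linarith)
      linarith
    · intro S hS q hq
      obtain ⟨p, hp, h2, h3, h4, h5⟩ := (Finset.mem_filter.1 hS).2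
      have h6 := cl_bd hp
      have h7 := cl_bd (op_sub_cl S hq)
      obtain ⟨h61, h62⟩ := h6
      obtain ⟨h71, h72⟩ := h7
      rw [abs_le] at h61 h62 h71 h72
      refine ⟨⟨?_, ?_⟩, ⟨?_, ?_⟩⟩ <;> linarith
  obtain ⟨v, hv3, hv4, hgood, hhole⟩ := H1_good P Q (Z.x - 1) (T.x + 1) v1 v2 W τ (by linarith) hv
    hW h0 (by nlinarith)
  -- Z and T are in Q
  have hcen : ∀ S : Sq, |v - S.y| ≤ 1 / 2 → (S.x, v) ∈ S.cl := by
    intro S hS
    constructor
    · simp only [Sq.u, sub_self, zero_mul, zero_add, abs_mul]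
      calc |v - S.y| * |Real.sin S.a| ≤ |v - S.y| * 1 :=
            mul_le_mul_of_nonneg_left (Real.abs_sin_le_one _) (abs_nonneg _)
        _ ≤ 1 / 2 := by linarith
    · simp only [Sq.v, sub_self, zero_mul, sub_zero, abs_mul]
      calc |v - S.y| * |Real.cos S.a| ≤ |v - S.y| * 1 :=
            mul_le_mul_of_nonneg_left (Real.abs_cos_le_one _) (abs_nonneg _)
        _ ≤ 1 / 2 := by linarith
  have hZQ : Z ∈ Q := Finset.mem_filter.2 ⟨hZ, (Z.x, v),
    hcen Z (by have := hZv v hv3 hv4; linarith), by simp, by simp; linarith, hv3.le, hv4.le⟩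
  have hTQ : T ∈ Q := Finset.mem_filter.2 ⟨hT, (T.x, v),
    hcen T (by have := hTv v hv3 hv4; linarith), by simp; linarith, by simp, hv3.le, hv4.le⟩
  have hZf : |v - Z.y| < 1 / 2 - 2 * τ := by
    have h1 := hZv v hv3 hv4
    exact H1_meet (hQt Z hZQ) hτ (hcen Z (by linarith)) (hgood Z hZQ)
  have hTf : |v - T.y| < 1 / 2 - 2 * τ := by
    have h1 := hTv v hv3 hv4
    exact H1_meet (hQt T hTQ) hτ (hcen T (by linarith)) (hgood T hTQ)
  -- chords of different full squares do not overlap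
  have hsep : ∀ S ∈ Q, ∀ S' ∈ Q, S ≠ S' → |v - S.y| < 1 / 2 - 2 * τ →
      |v - S'.y| < 1 / 2 - 2 * τ → H1_r v S ≤ H1_l v S' ∨ H1_r v S' ≤ H1_l v S := by
    intro S hS S' hS' hne hf hf'
    by_contra hn
    push Not at hn
    obtain ⟨h1, h2⟩ := hn
    have h3 := (H1_len (v := v) (hQt S hS) hτ).1
    have h4 := (H1_len (v := v) (hQt S' hS') hτ).1
    obtain ⟨x, hx1, hx2⟩ := exists_between (show max (H1_l v S) (H1_l v S') <
      min (H1_r v S) (H1_r v S') from max_lt (lt_min (by linarith) h2) (lt_min h1 (by linarith)))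
    have h5 := H1_op (hQt S hS) hτ hf (lt_of_le_of_lt (le_max_left _ _) hx1)
      (lt_of_lt_of_le hx2 (min_le_left _ _))
    have h6 := H1_op (hQt S' hS') hτ hf' (lt_of_le_of_lt (le_max_right _ _) hx1)
      (lt_of_lt_of_le hx2 (min_le_right _ _))
    exact Set.disjoint_left.1 (hP S (Finset.mem_filter.1 hS).1 S' (Finset.mem_filter.1 hS').1 hne)
      h5 h6
  have hmZ := H1_mid (hQt Z hZQ) hτ hZf
  have hmT := H1_mid (hQt T hTQ) hτ hTf
  have hττ : τ ^ 2 ≤ 1 / 1000 * τ := by nlinarith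
  rw [abs_le] at hmZ hmT
  by_cases hZT : Z = T
  · subst hZT
    simp only [sub_self]
    have : dz 0 = 0 := by simp [dz]
    rw [this]; positivity
  have hZTl : H1_r v Z ≤ H1_l v T := by
    rcases hsep Z hZQ T hTQ hZT hZf hTf with h | h
    · exact h
    · exfalso
      have := (H1_len (v := v) (hQt T hTQ) hτ).1
      linarith
  set F := Q.filter (fun S => |v - S.y| < 1 / 2 - 2 * τ ∧ H1_l v Z ≤ H1_l v S ∧
    H1_l v S < H1_l v T) with hF
  have hFQ : ∀ S ∈ F, S ∈ Q := fun S hS => (Finset.mem_filter.1 hS).1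
  -- lower bound
  have hlow : ∑ S ∈ F, (H1_r v S - H1_l v S) ≤ H1_l v T - H1_l v Z := by
    have h1 : volume (⋃ S ∈ F, Ioo (H1_l v S) (H1_r v S)) =
        ∑ S ∈ F, volume (Ioo (H1_l v S) (H1_r v S)) := by
      refine measure_biUnion_finset ?_ fun S _ => measurableSet_Ioo
      intro S hS S' hS' hne
      obtain ⟨hSQ, hSf, hS1, hS2⟩ := Finset.mem_filter.1 hS
      obtain ⟨hSQ', hSf', hS1', hS2'⟩ := Finset.mem_filter.1 hS'
      rw [Function.onFun, Set.disjoint_left]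
      intro x hx hx'
      rcases hsep S hSQ S' hSQ' hne hSf hSf' with h | h
      · linarith [hx.2, hx'.1]
      · linarith [hx.1, hx'.2]
    have h2 : volume (⋃ S ∈ F, Ioo (H1_l v S) (H1_r v S)) ≤
        volume (Ioo (H1_l v Z) (H1_l v T)) := by
      refine measure_mono (iUnion₂_subset fun S hS => ?_)
      obtain ⟨hSQ, hSf, hS1, hS2⟩ := Finset.mem_filter.1 hS
      have hne : S ≠ T := by
        rintro rfl; exact lt_irrefl _ hS2
      have h3 : H1_r v S ≤ H1_l v T := by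
        rcases hsep S hSQ T hTQ hne hSf hTf with h | h
        · exact h
        · have := (H1_len (v := v) (hQt T hTQ) hτ).1
          linarith
      exact Ioo_subset_Ioo hS1 h3
    rw [h1, Real.volume_Ioo] at h2
    have h3 : ∑ S ∈ F, volume (Ioo (H1_l v S) (H1_r v S)) =
        ENNReal.ofReal (∑ S ∈ F, (H1_r v S - H1_l v S)) := by
      rw [ENNReal.ofReal_sum_of_nonneg]
      · exact Finset.sum_congr rfl fun S _ => Real.volume_Ioo
      · intro S hS
        have := (H1_len (v := v) (hQt S (hFQ S hS)) hτ).1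
        linarith
    rw [h3] at h2
    have h5 := (H1_len (v := v) (hQt Z hZQ) hτ).1
    exact (ENNReal.ofReal_le_ofReal_iff (by linarith)).1 h2
  -- upper bound
  have hup : H1_l v T - H1_l v Z ≤ ∑ S ∈ F, (H1_r v S - H1_l v S) + 2 * W / (v2 - v1) := by
    have h1 : Ioo (H1_l v Z) (H1_l v T) ⊆ (⋃ S ∈ F, Icc (H1_l v S) (H1_r v S)) ∪
        {x : ℝ | Z.x - 1 ≤ x ∧ x ≤ T.x + 1 ∧ (x, v) ∈ Hole P} := by
      intro x hx
      have hx1 : Z.x - 1 ≤ x := by linarith [hx.1]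
      have hx2 : x ≤ T.x + 1 := by linarith [hx.2]
      by_cases hh : (x, v) ∈ Hole P
      · exact Or.inr ⟨hx1, hx2, hh⟩
      · left
        simp only [Hole, mem_ofPred_eq] at hh
        push Not at hh
        obtain ⟨S, hS, hxS⟩ := hh
        have hSQ : S ∈ Q := Finset.mem_filter.2 ⟨hS, (x, v), hxS, hx1, hx2, hv3.le, hv4.le⟩
        have hSf := H1_meet (hQt S hSQ) hτ hxS (hgood S hSQ)
        have hSl := H1_cl (hQt S hSQ) hτ hxS
        refine mem_biUnion (x := S) (Finset.mem_filter.2 ⟨hSQ, hSf, ?_, lt_of_le_of_lt hSl.1 hx.2⟩) hSl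
        by_cases hSZ : S = Z
        · rw [hSZ]
        · rcases hsep S hSQ Z hZQ hSZ hSf hZf with h | h
          · linarith [hx.1, hSl.2]
          · have := (H1_len (v := v) (hQt Z hZQ) hτ).1
            linarith
    have h2 := (measure_mono h1 : volume _ ≤ volume _)
    have h3 : ∀ S ∈ F, 0 ≤ H1_r v S - H1_l v S := by
      intro S hS
      have := (H1_len (v := v) (hQt S (hFQ S hS)) hτ).1
      linarith
    have h4 : volume (⋃ S ∈ F, Icc (H1_l v S) (H1_r v S)) ≤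
        ENNReal.ofReal (∑ S ∈ F, (H1_r v S - H1_l v S)) := by
      refine (measure_biUnion_finset_le _ _).trans ?_
      rw [ENNReal.ofReal_sum_of_nonneg h3]
      exact (Finset.sum_congr rfl fun S _ => Real.volume_Icc).le
    have h5 := h2.trans ((measure_union_le _ _).trans (add_le_add h4 hhole))
    rw [Real.volume_Ioo, ← ENNReal.ofReal_add (Finset.sum_nonneg h3) hdiv] at h5
    exact (ENNReal.ofReal_le_ofReal_iff (add_nonneg (Finset.sum_nonneg h3) hdiv)).1 h5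
  have hs1 : (F.card : ℝ) ≤ ∑ S ∈ F, (H1_r v S - H1_l v S) := by
    calc (F.card : ℝ) = ∑ S ∈ F, (1 : ℝ) := by simp
      _ ≤ _ := Finset.sum_le_sum fun S hS => (H1_len (hQt S (hFQ S hS)) hτ).1
  have hs2 : ∑ S ∈ F, (H1_r v S - H1_l v S) ≤ F.card * (1 + τ ^ 2) := by
    calc ∑ S ∈ F, (H1_r v S - H1_l v S) ≤ ∑ S ∈ F, (1 + τ ^ 2) :=
          Finset.sum_le_sum fun S hS => (H1_len (hQt S (hFQ S hS)) hτ).2
      _ = _ := by rw [Finset.sum_const, nsmul_eq_mul]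
  have hm : (F.card : ℝ) ≤ L + 1 := by linarith
  have hm2 : (F.card : ℝ) * τ ^ 2 ≤ 1 / 200 * τ := by
    have h1 : (F.card : ℝ) * τ ≤ 1 / 200 := by nlinarith
    nlinarith
  refine (dz_le (T.x - Z.x) (F.card : ℤ)).trans ?_
  rw [abs_le]
  push_cast
  constructor <;> linarith

theorem scl (P : Finset Sq) (hP : Packing P) (w τ v1 v2 W L : ℝ) (Z T : Sq) (hZ : Z ∈ P)
    (hT : T ∈ P) (h0 : 0 ≤ τ) (hv : v1 < v2) (hv1 : v2 ≤ v1 + 1) (hL : 1 ≤ L)
    (hu : fU w (Z.x, Z.y) ≤ fU w (T.x, T.y)) (hu' : fU w (T.x, T.y) ≤ fU w (Z.x, Z.y) + L)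
    (hZv : ∀ v, v1 < v → v < v2 → |v - fV w (Z.x, Z.y)| ≤ 1 / 2 - 2 * τ)
    (hTv : ∀ v, v1 < v → v < v2 → |v - fV w (T.x, T.y)| ≤ 1 / 2 - 2 * τ)
    (ht : ∀ S ∈ P, (∃ p ∈ S.cl, fU w (Z.x, Z.y) - 1 ≤ fU w p ∧ fU w p ≤ fU w (T.x, T.y) + 1 ∧
      v1 ≤ fV w p ∧ fV w p ≤ v2) → |S.a - w| ≤ τ)
    (hW : (volume (Hole P ∩ {p | fU w (Z.x, Z.y) - 1 ≤ fU w p ∧ fU w p ≤ fU w (T.x, T.y) + 1 ∧
      v1 ≤ fV w p ∧ fV w p ≤ v2})).toReal ≤ W)
    (hb : 200 * (L + 5) * τ ≤ v2 - v1) :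
    dz (fU w (T.x, T.y) - fU w (Z.x, Z.y)) ≤ 2 * W / (v2 - v1) + 5 * τ := by
  classical
  set O : Sq := ⟨0, 0, w⟩ with hO
  have hOu : ∀ p, O.u p = fU w p := fun p => by simp [Sq.u, fU, hO]
  have hOv : ∀ p, O.v p = fV w p := fun p => by simp [Sq.v, fV, hO]
  have hx : ∀ S : Sq, (mv O S).x = fU w (S.x, S.y) := fun S => hOu _
  have hy : ∀ S : Sq, (mv O S).y = fV w (S.x, S.y) := fun S => hOv _
  have key := H1_core (P.image (mv O)) (mv_pack O P hP) τ v1 v2 W L (mv O Z) (mv O T)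
    (Finset.mem_image_of_mem _ hZ) (Finset.mem_image_of_mem _ hT) h0 hv hv1 hL
    (by rw [hx, hx]; exact hu) (by rw [hx, hx]; exact hu') (by rw [hy]; exact hZv)
    (by rw [hy]; exact hTv) ?_ ?_ hb
  · rw [hx, hx] at key; exact key
  · intro S' hS' hp
    obtain ⟨S, hS, rfl⟩ := Finset.mem_image.1 hS'
    obtain ⟨p', hp', h1, h2, h3, h4⟩ := hp
    refine ht S hS ⟨O.pt p'.1 p'.2, ?_, ?_⟩
    · rw [mv_cl O S, pt_u, pt_v]; exact hp'
    · rw [← hOu (O.pt p'.1 p'.2), ← hOv (O.pt p'.1 p'.2), pt_u, pt_v, ← hx, ← hx]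
      exact ⟨h1, h2, h3, h4⟩
  · have hA : MeasurableSet {p : ℝ × ℝ | (mv O Z).x - 1 ≤ p.1 ∧ p.1 ≤ (mv O T).x + 1 ∧ v1 ≤ p.2 ∧
        p.2 ≤ v2} := by
      refine IsClosed.measurableSet ?_
      refine IsClosed.inter (isClosed_le continuous_const continuous_fst) (IsClosed.inter
        (isClosed_le continuous_fst continuous_const) (IsClosed.inter
        (isClosed_le continuous_const continuous_snd) (isClosed_le continuous_snd continuous_const)))
    rw [mv_vol O P _ hA]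
    refine le_of_eq_of_le ?_ hW
    simp only [mem_ofPred_eq, hOu, hOv, hx]

end SqLo
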