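import Pool.Agent.Lib.MP_e85462_co.L.H1

/-! H2: block lemma. In a block of squares of almost the tilt `w` with little waste, either the
left and the right vertical chain have almost the same `V` phase, or the `U` phase is almost
constant along the left chain. -/

open MeasureTheory Set

namespace SqLo

private theorem H2_fin (P : Finset Sq) (w u0 u1 v0 v1 : ℝ) :
    volume (Hole P ∩ {p | u0 ≤ fU w p ∧ fU w p ≤ u1 ∧ v0 ≤ fV w p ∧ fV w p ≤ v1}) ≠ ⊤ := by
  have hsub : Hole P ∩ {p | u0 ≤ fU w p ∧ fU w p ≤ u1 ∧ v0 ≤ fV w p ∧ fV w p ≤ v1} ⊆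
      Hole P ∩ bx (0, 0) (|u0| + |u1| + (|v0| + |v1|)) := by
    rintro p ⟨hp, h1, h2, h3, h4⟩
    refine ⟨hp, ?_⟩
    have hc := Real.sin_sq_add_cos_sq w
    have e1 : p.1 = fU w p * Real.cos w - fV w p * Real.sin w := by
      unfold fU fV
      linear_combination (-p.1) * hc
    have e2 : p.2 = fU w p * Real.sin w + fV w p * Real.cos w := by
      unfold fU fV
      linear_combination (-p.2) * hc
    have hU : |fU w p| ≤ |u0| + |u1| := by
      rw [abs_le]
      constructor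
      · linarith [neg_abs_le u0, abs_nonneg u1]
      · linarith [le_abs_self u1, abs_nonneg u0]
    have hV : |fV w p| ≤ |v0| + |v1| := by
      rw [abs_le]
      constructor
      · linarith [neg_abs_le v0, abs_nonneg v1]
      · linarith [le_abs_self v1, abs_nonneg v0]
    have hcos := Real.abs_cos_le_one w
    have hsin := Real.abs_sin_le_one w
    have m1 : |fU w p * Real.cos w| ≤ |u0| + |u1| := by
      rw [abs_mul]
      calc _ ≤ |fU w p| * 1 := by gcongr
        _ ≤ _ := by linarith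
    have m2 : |fV w p * Real.sin w| ≤ |v0| + |v1| := by
      rw [abs_mul]
      calc _ ≤ |fV w p| * 1 := by gcongr
        _ ≤ _ := by linarith
    have m3 : |fU w p * Real.sin w| ≤ |u0| + |u1| := by
      rw [abs_mul]
      calc _ ≤ |fU w p| * 1 := by gcongr
        _ ≤ _ := by linarith
    have m4 : |fV w p * Real.cos w| ≤ |v0| + |v1| := by
      rw [abs_mul]
      calc _ ≤ |fV w p| * 1 := by gcongr
        _ ≤ _ := by linarith
    refine ⟨?_, ?_⟩
    · simp only [sub_zero]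
      rw [e1]
      exact (abs_sub _ _).trans (add_le_add m1 m2)
    · simp only [sub_zero]
      rw [e2]
      exact (abs_add_le _ _).trans (add_le_add m3 m4)
  exact ne_top_of_le_ne_top (hb_fin P _ _).ne (measure_mono hsub)

/-- symmetric form of `scl` inside the block -/
private theorem H2_scl (P : Finset Sq) (hP : Packing P) (w τ W L u0 u1 v0 v1 : ℝ)
    (h0 : 0 ≤ τ) (hL : u1 - u0 ≤ L) (hu : u0 + 10 ≤ u1)
    (ht : ∀ S ∈ P, (∃ p ∈ S.cl, u0 ≤ fU w p ∧ fU w p ≤ u1 ∧ v0 ≤ fV w p ∧ fV w p ≤ v1) →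
      |S.a - w| ≤ τ)
    (hW : (volume (Hole P ∩ {p | u0 ≤ fU w p ∧ fU w p ≤ u1 ∧ v0 ≤ fV w p ∧
      fV w p ≤ v1})).toReal ≤ W)
    (A B : Sq) (hA : A ∈ P) (hB : B ∈ P) (hA1 : u0 + 1 ≤ fU w (A.x, A.y))
    (hA2 : fU w (A.x, A.y) ≤ u1 - 1) (hB1 : u0 + 1 ≤ fU w (B.x, B.y))
    (hB2 : fU w (B.x, B.y) ≤ u1 - 1) (a b : ℝ) (hab : a < b) (hab1 : b ≤ a + 1)
    (ha : v0 ≤ a) (hb : b ≤ v1)
    (hAv : ∀ v, a < v → v < b → |v - fV w (A.x, A.y)| ≤ 1 / 2 - 2 * τ)
    (hBv : ∀ v, a < v → v < b → |v - fV w (B.x, B.y)| ≤ 1 / 2 - 2 * τ)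
    (hbd : 200 * (L + 5) * τ ≤ b - a) :
    dz (fU w (A.x, A.y) - fU w (B.x, B.y)) ≤ 2 * W / (b - a) + 5 * τ := by
  have key : ∀ (A B : Sq), A ∈ P → B ∈ P → u0 + 1 ≤ fU w (A.x, A.y) →
      fU w (A.x, A.y) ≤ u1 - 1 → u0 + 1 ≤ fU w (B.x, B.y) →
      fU w (B.x, B.y) ≤ u1 - 1 →
      (∀ v, a < v → v < b → |v - fV w (A.x, A.y)| ≤ 1 / 2 - 2 * τ) →
      (∀ v, a < v → v < b → |v - fV w (B.x, B.y)| ≤ 1 / 2 - 2 * τ) →
      fU w (A.x, A.y) ≤ fU w (B.x, B.y) →
      dz (fU w (B.x, B.y) - fU w (A.x, A.y)) ≤ 2 * W / (b - a) + 5 * τ := by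
    intro A B hA hB hA1 hA2 hB1 hB2 hAv hBv hle
    apply scl P hP w τ a b W L A B hA hB h0 hab hab1 (by linarith) hle (by linarith) hAv hBv
    · rintro S hS ⟨p, hp, q1, q2, q3, q4⟩
      exact ht S hS ⟨p, hp, by linarith, by linarith, by linarith, by linarith⟩
    · refine le_trans (ENNReal.toReal_mono (H2_fin P w u0 u1 v0 v1) (measure_mono ?_)) hW
      rintro p ⟨hp, q1, q2, q3, q4⟩
      exact ⟨hp, by linarith, by linarith, by linarith, by linarith⟩
    · exact hbd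
  rcases le_total (fU w (A.x, A.y)) (fU w (B.x, B.y)) with h | h
  · have h1 := key A B hA hB hA1 hA2 hB1 hB2 hAv hBv h
    rw [← dz_neg, neg_sub]
    exact h1
  · exact key B A hB hA hB1 hB2 hA1 hA2 hBv hAv h

theorem block (P : Finset Sq) (hP : Packing P) (w τ W L e d g u0 u1 v0 v1 : ℝ) (r : ℕ)
    (Zl Zr : ℕ → Sq) (Z' : Sq) (h0 : 0 ≤ τ) (hL : u1 - u0 ≤ L) (hu : u0 + 10 ≤ u1)
    (ht : ∀ S ∈ P, (∃ p ∈ S.cl, u0 ≤ fU w p ∧ fU w p ≤ u1 ∧ v0 ≤ fV w p ∧ fV w p ≤ v1) →
      |S.a - w| ≤ τ)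
    (hW : (volume (Hole P ∩ {p | u0 ≤ fU w p ∧ fU w p ≤ u1 ∧ v0 ≤ fV w p ∧
      fV w p ≤ v1})).toReal ≤ W)
    (hl : ∀ j ≤ r, Zl j ∈ P ∧ u0 + 1 ≤ fU w ((Zl j).x, (Zl j).y) ∧
      fU w ((Zl j).x, (Zl j).y) ≤ u0 + 4 ∧
      |fV w ((Zl j).x, (Zl j).y) - (fV w ((Zl 0).x, (Zl 0).y) - j)| ≤ e)
    (hr : ∀ j ≤ r, Zr j ∈ P ∧ u1 - 4 ≤ fU w ((Zr j).x, (Zr j).y) ∧
      fU w ((Zr j).x, (Zr j).y) ≤ u1 - 1 ∧
      |fV w ((Zr j).x, (Zr j).y) - (fV w ((Zr 0).x, (Zr 0).y) - j)| ≤ e)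
    (hv0 : v0 ≤ fV w ((Zl 0).x, (Zl 0).y) - r - 2) (hv1 : fV w ((Zl 0).x, (Zl 0).y) + 2 ≤ v1)
    (hlr : |fV w ((Zr 0).x, (Zr 0).y) - fV w ((Zl 0).x, (Zl 0).y)| < 1)
    (hZ : Z' ∈ P) (hZu : u0 + 1 ≤ fU w (Z'.x, Z'.y)) (hZu' : fU w (Z'.x, Z'.y) ≤ u0 + 4)
    (hZv : |fV w ((Zl r).x, (Zl r).y) - fV w (Z'.x, Z'.y)| ≤ 3 / 5)
    (hd0 : 0 < d) (hd : d ≤ dz (fV w ((Zr 0).x, (Zr 0).y) - fV w ((Zl 0).x, (Zl 0).y)))
    (he : e ≤ d / 32) (hτ : 200 * (L + 5) * τ ≤ d / 4)
    (hg : g ≤ dz (fU w ((Zl 0).x, (Zl 0).y) - fU w (Z'.x, Z'.y))) :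
    g ≤ (r + 1) * (16 * W / d + 10 * τ) := by
  set ul : ℕ → ℝ := fun j => fU w ((Zl j).x, (Zl j).y) with hul
  set vl : ℕ → ℝ := fun j => fV w ((Zl j).x, (Zl j).y) with hvl
  set ur : ℕ → ℝ := fun j => fU w ((Zr j).x, (Zr j).y) with hur
  set vr : ℕ → ℝ := fun j => fV w ((Zr j).x, (Zr j).y) with hvr
  set uz : ℝ := fU w (Z'.x, Z'.y) with huz
  set vz : ℝ := fV w (Z'.x, Z'.y) with hvz
  have hW0 : 0 ≤ W := le_trans ENNReal.toReal_nonneg hW
  have hL10 : 10 ≤ L := by linarith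
  have hdh : d ≤ 1 / 2 := hd.trans (abs_sub_round _)
  have hτd : 3000 * τ ≤ d / 4 := by
    refine le_trans ?_ hτ
    nlinarith
  have he0 : 0 ≤ e := le_trans (abs_nonneg _) (hl 0 (Nat.zero_le r)).2.2.2
  have hr0 : (0 : ℝ) ≤ r := Nat.cast_nonneg r
  have hSCL := H2_scl P hP w τ W L u0 u1 v0 v1 h0 hL hu ht hW
  -- step 1
  have step1 : dz (ul r - uz) ≤ 16 * W / d + 10 * τ := by
    obtain ⟨hZlr, q1, q2, q3⟩ := hl r le_rfl
    have hV := abs_le.mp hZv
    have q3' := abs_le.mp q3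
    have h1 : dz (ul r - uz) ≤
        2 * W / ((((vl r + vz) / 2 + 3 / 20)) - ((vl r + vz) / 2 - 3 / 20)) + 5 * τ := by
      apply hSCL (Zl r) Z' hZlr hZ q1 (by linarith) hZu (by linarith)
      · linarith
      · linarith
      · linarith [hV.1, hV.2, q3'.1, q3'.2]
      · linarith [hV.1, hV.2, q3'.1, q3'.2]
      · intro v hv1 hv2
        rw [abs_le]
        change -(1 / 2 - 2 * τ) ≤ v - vl r ∧ v - vl r ≤ 1 / 2 - 2 * τ
        constructor
        · linarith [hV.1, hV.2]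
        · linarith [hV.1, hV.2]
      · intro v hv1 hv2
        rw [abs_le]
        change -(1 / 2 - 2 * τ) ≤ v - vz ∧ v - vz ≤ 1 / 2 - 2 * τ
        constructor
        · linarith [hV.1, hV.2]
        · linarith [hV.1, hV.2]
      · linarith
    have h2 : (((vl r + vz) / 2 + 3 / 20)) - ((vl r + vz) / 2 - 3 / 20) = 3 / 10 := by ring
    rw [h2] at h1
    have h3 : 2 * W / (3 / 10) ≤ 16 * W / d := by
      rw [div_le_div_iff₀ (by norm_num) hd0]
      nlinarith
    linarith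
  -- step 2
  have step2 : ∀ j < r, dz (ul j - ul (j + 1)) ≤ 16 * W / d + 10 * τ := by
    intro j hj
    obtain ⟨hA, a1, a2, a3⟩ := hl j (by omega)
    obtain ⟨hB, b1, b2, b3⟩ := hl (j + 1) (by omega)
    have hjr : (j : ℝ) + 1 ≤ r := by exact_mod_cast hj
    have hj0 : (0 : ℝ) ≤ j := Nat.cast_nonneg j
    push_cast at b3
    change |vl j - (vl 0 - j)| ≤ e at a3
    change |vl (j + 1) - (vl 0 - (j + 1))| ≤ e at b3
    have a3' := abs_le.mp a3
    have b3' := abs_le.mp b3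
    -- the right square
    have hright : ∃ l ≤ r, ∃ dd : ℝ, d ≤ dd ∧ dd ≤ 1 / 2 ∧
        ((vl j - dd - 2 * e ≤ vr l ∧ vr l ≤ vl j - dd + 2 * e) ∨
         (vl j - 1 + dd - 2 * e ≤ vr l ∧ vr l ≤ vl j - 1 + dd + 2 * e)) := by
      set x := vr 0 - vl 0 with hx
      have hx1 := abs_lt.mp hlr
      change -1 < x ∧ x < 1 at hx1
      have hdz : d ≤ |x - round x| := hd
      have hhalf : |x - round x| ≤ 1 / 2 := abs_sub_round x
      rcases lt_trichotomy (x - round x) 0 with hs | hs | hs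
      · rw [abs_of_neg hs] at hdz hhalf
        have hn0 : (-1 : ℝ) < (round x : ℝ) := by linarith [hx1.1]
        have hn1 : (round x : ℝ) < 2 := by linarith [hx1.2]
        have hn0' : (-1 : ℤ) < round x := by exact_mod_cast hn0
        have hn1' : round x < (2 : ℤ) := by exact_mod_cast hn1
        obtain ⟨m, hm⟩ : ∃ m : ℕ, round x = (m : ℤ) := ⟨(round x).toNat, by omega⟩
        have hmr : m + j ≤ r := by omega
        refine ⟨m + j, hmr, -(x - round x), hdz, hhalf, Or.inl ?_⟩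
        have c3 := abs_le.mp (hr (m + j) hmr).2.2.2
        change -e ≤ vr (m + j) - (vr 0 - ((m + j : ℕ) : ℝ)) ∧
          vr (m + j) - (vr 0 - ((m + j : ℕ) : ℝ)) ≤ e at c3
        push_cast at c3
        have hm' : (round x : ℝ) = (m : ℝ) := by rw [hm]; simp
        rw [hm']
        constructor
        · linarith [c3.1, c3.2, a3'.1, a3'.2]
        · linarith [c3.1, c3.2, a3'.1, a3'.2]
      · rw [hs, abs_zero] at hdz
        linarith
      · rw [abs_of_pos hs] at hdz hhalf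
        have hn0 : (-2 : ℝ) < (round x : ℝ) := by linarith [hx1.1]
        have hn1 : (round x : ℝ) < 1 := by linarith [hx1.2]
        have hn0' : (-2 : ℤ) < round x := by exact_mod_cast hn0
        have hn1' : round x < (1 : ℤ) := by exact_mod_cast hn1
        obtain ⟨m, hm⟩ : ∃ m : ℕ, round x + 1 = (m : ℤ) := ⟨(round x + 1).toNat, by omega⟩
        have hmr : m + j ≤ r := by omega
        refine ⟨m + j, hmr, x - round x, hdz, hhalf, Or.inr ?_⟩
        have c3 := abs_le.mp (hr (m + j) hmr).2.2.2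
        change -e ≤ vr (m + j) - (vr 0 - ((m + j : ℕ) : ℝ)) ∧
          vr (m + j) - (vr 0 - ((m + j : ℕ) : ℝ)) ≤ e at c3
        push_cast at c3
        have hm' : (round x : ℝ) = (m : ℝ) - 1 := by
          have : ((round x + 1 : ℤ) : ℝ) = ((m : ℤ) : ℝ) := by rw [hm]
          push_cast at this
          linarith
        rw [hm']
        constructor
        · linarith [c3.1, c3.2, a3'.1, a3'.2]
        · linarith [c3.1, c3.2, a3'.1, a3'.2]
    obtain ⟨l, hlr', dd, hdd1, hdd2, hcase⟩ := hright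
    obtain ⟨hC, c1, c2, -⟩ := hr l hlr'
    have hD4 : (vl j - 1 / 2 + 3 * d / 8) - (vl j - 1 / 2 + d / 8) = d / 4 := by ring
    have hD4' : (vl j - 1 / 2 - d / 8) - (vl j - 1 / 2 - 3 * d / 8) = d / 4 := by ring
    have e8 : 2 * W / (d / 4) = 8 * W / d := by
      field_simp
      ring
    have hfirst : dz (ul j - ur l) ≤ 8 * W / d + 5 * τ := by
      have h1 : dz (ul j - ur l) ≤
          2 * W / ((vl j - 1 / 2 + 3 * d / 8) - (vl j - 1 / 2 + d / 8)) + 5 * τ := by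
        apply hSCL (Zl j) (Zr l) hA hC a1 (by linarith) (by linarith) c2
        · linarith
        · linarith
        · linarith [a3'.1, a3'.2]
        · linarith [a3'.1, a3'.2]
        · intro v hv1 hv2
          rw [abs_le]
          change -(1 / 2 - 2 * τ) ≤ v - vl j ∧ v - vl j ≤ 1 / 2 - 2 * τ
          constructor
          · linarith
          · linarith
        · intro v hv1 hv2
          rw [abs_le]
          change -(1 / 2 - 2 * τ) ≤ v - vr l ∧ v - vr l ≤ 1 / 2 - 2 * τ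
          rcases hcase with ⟨k1, k2⟩ | ⟨k1, k2⟩
          · constructor
            · linarith
            · linarith
          · constructor
            · linarith
            · linarith
        · linarith
      rw [hD4, e8] at h1
      exact h1
    have hsecond : dz (ur l - ul (j + 1)) ≤ 8 * W / d + 5 * τ := by
      have h1 : dz (ur l - ul (j + 1)) ≤
          2 * W / ((vl j - 1 / 2 - d / 8) - (vl j - 1 / 2 - 3 * d / 8)) + 5 * τ := by
        apply hSCL (Zr l) (Zl (j + 1)) hC hB (by linarith) c2 b1 (by linarith)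
        · linarith
        · linarith
        · linarith [a3'.1, a3'.2]
        · linarith [a3'.1, a3'.2]
        · intro v hv1 hv2
          rw [abs_le]
          change -(1 / 2 - 2 * τ) ≤ v - vr l ∧ v - vr l ≤ 1 / 2 - 2 * τ
          rcases hcase with ⟨k1, k2⟩ | ⟨k1, k2⟩
          · constructor
            · linarith
            · linarith
          · constructor
            · linarith
            · linarith
        · intro v hv1 hv2
          rw [abs_le]
          change -(1 / 2 - 2 * τ) ≤ v - vl (j + 1) ∧ v - vl (j + 1) ≤ 1 / 2 - 2 * τ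
          constructor
          · linarith [a3'.1, a3'.2, b3'.1, b3'.2]
          · linarith [a3'.1, a3'.2, b3'.1, b3'.2]
        · linarith
      rw [hD4', e8] at h1
      exact h1
    have h3 : ul j - ul (j + 1) = (ul j - ur l) + (ur l - ul (j + 1)) := by ring
    have h4 : 16 * W / d = 8 * W / d + 8 * W / d := by ring
    rw [h3, h4]
    refine (dz_add _ _).trans ?_
    linarith
  -- step 3
  have step3 : ∀ m ≤ r, dz (ul 0 - ul m) ≤ m * (16 * W / d + 10 * τ) := by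
    intro m
    induction m with
    | zero =>
      intro _
      have h1 := dz_le (ul 0 - ul 0) 0
      simp at h1 ⊢
      exact h1
    | succ m ih =>
      intro hm
      have h1 := ih (by omega)
      have h2 := step2 m (by omega)
      have h3 : ul 0 - ul (m + 1) = (ul 0 - ul m) + (ul m - ul (m + 1)) := by ring
      rw [h3]
      refine (dz_add _ _).trans ?_
      push_cast
      linarith
  have h5 : ul 0 - uz = (ul 0 - ul r) + (ul r - uz) := by ring
  have h6 : g ≤ dz (ul 0 - uz) := hg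
  rw [h5] at h6
  refine h6.trans ((dz_add _ _).trans ?_)
  have h7 := step3 r le_rfl
  linarith

end SqLo
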