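import Pool.Agent.Lib.MP_e85462_co.L.E1
import Pool.Agent.Lib.MP_e85462_co.L.H0

/-! H3: the phase lemma for a family of lines to the right wall in formation. -/

open MeasureTheory Set

namespace SqLo

private lemma H3_tel (q : ℕ) (f g : ℕ → ℝ) (hf : ∀ k < q, |f (k + 1) - f k| ≤ g k + g (k + 1))
    (hg : ∀ k ≤ q, 0 ≤ g k) (k l : ℕ) (hk : k ≤ q) (hl : l ≤ q) :
    |f l - f k| ≤ 2 * ∑ j ∈ Finset.range (q + 1), g j := by
  have key : ∀ k l : ℕ, k ≤ l → l ≤ q → |f l - f k| ≤ 2 * ∑ j ∈ Finset.range (q + 1), g j := by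
    intro k l hkl hl
    have h1 : |f l - f k| ≤
        (2 * ∑ j ∈ Finset.range l, g j + g l) - (2 * ∑ j ∈ Finset.range k, g j + g k) := by
      induction l, hkl using Nat.le_induction with
      | base => simp
      | succ l hkl ih =>
        have h2 := ih (by omega)
        have h3 := hf l (by omega)
        rw [Finset.sum_range_succ]
        have h4 : f (l + 1) - f k = (f (l + 1) - f l) + (f l - f k) := by ring
        rw [h4]
        refine (abs_add_le _ _).trans ?_
        linarith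
    have h2 : 0 ≤ ∑ j ∈ Finset.range k, g j :=
      Finset.sum_nonneg (fun j hj => hg j (by have := Finset.mem_range.1 hj; omega))
    have h3 : ∑ j ∈ Finset.range (l + 1), g j ≤ ∑ j ∈ Finset.range (q + 1), g j := by
      apply Finset.sum_le_sum_of_subset_of_nonneg
      · intro j hj
        rw [Finset.mem_range] at hj ⊢
        omega
      · intro j hj _
        exact hg j (by have := Finset.mem_range.1 hj; omega)
    rw [Finset.sum_range_succ] at h3
    have h4 := hg k (by omega)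
    have h5 := hg l hl
    linarith
  rcases le_total k l with h | h
  · exact key k l h hl
  · rw [abs_sub_comm]
    exact key l k h hk

private lemma H3_ln {C : ℝ} {P : Finset Sq} {n m : ℕ} {S : ℕ → Sq} {t h : ℕ → ℝ}
    (L : Ln C P n S t h) (hm : m ≤ n) : Ln C P m S t h :=
  fun i hi => L i (lt_of_lt_of_le hi hm)

private lemma H3_cos {a : ℝ} (ha : |a| ≤ 1 / 10) : 995 / 1000 ≤ Real.cos a := by
  have h1 := Real.one_sub_sq_div_two_le_cos (x := a)
  have h2 : a ^ 2 ≤ 1 / 100 := by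
    have := abs_nonneg a
    rw [← sq_abs]
    nlinarith
  linarith

theorem phase (C : ℝ) (hC : 1 ≤ C) (X : ℝ) (P : Finset Sq) (hF : Framed X P) (hT : TC P C)
    (q : ℕ) (A : ℕ → Sq) (n : ℕ → ℕ) (S : ℕ → ℕ → Sq) (t h : ℕ → ℕ → ℝ)
    (hL : ∀ k ≤ q, GLine C X P (A k) (n k) (S k) (t k) (h k))
    (hadj : ∀ k < q, |(ent (S (k + 1)) (t (k + 1)) 0).1 - (ent (S k) (t k) 0).1| ≤ 8 / 5 ∧
      |(ent (S (k + 1)) (t (k + 1)) 0).2 - (ent (S k) (t k) 0).2| ≤ 8 / 5)
    (hall : ∀ k ≤ q, ∀ l ≤ q, |(ent (S l) (t l) 0).1 - (ent (S k) (t k) 0).1| ≤ 6 / 5)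
    (hc : ∑ k ∈ Finset.range (q + 1), cst C P (S k) (h k) (n k + 8) ≤ 1 / 100) :
    dz ((ent (S q) (t q) 0).1 - (ent (S 0) (t 0) 0).1) ≤
      2 * (cst C P (S 0) (h 0) (n 0 + 8) + cst C P (S q) (h q) (n q + 8)) := by
  obtain ⟨c, hcd⟩ : ∃ c : ℕ → ℝ, ∀ k, c k = cst C P (S k) (h k) (n k + 8) := ⟨_, fun _ => rfl⟩
  have hc0 : ∀ k ≤ q, 0 ≤ c k := fun k hk => by
    rw [hcd]; exact (cst_mono C hC P (hL k hk).ln le_rfl le_rfl).1
  have hcS : ∑ k ∈ Finset.range (q + 1), c k ≤ 1 / 100 := by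
    rw [Finset.sum_congr rfl (fun k _ => hcd k)]; exact hc
  have hcle : ∀ k ≤ q, ∀ i ≤ n k + 8, 0 ≤ cst C P (S k) (h k) i ∧ cst C P (S k) (h k) i ≤ c k := by
    intro k hk i hi
    rw [hcd]
    exact cst_mono C hC P (hL k hk).ln hi le_rfl
  rw [← hcd, ← hcd]
  -- the minimum
  obtain ⟨ks, hks, hmin⟩ := Finset.exists_min_image (Finset.range (q + 1)) n ⟨0, by simp⟩
  have hks' : ks ≤ q := by have := Finset.mem_range.1 hks; omega
  have hmin' : ∀ k ≤ q, n ks ≤ n k := fun k hk => hmin k (Finset.mem_range.2 (by omega))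
  -- formation
  have hform : ∀ k < q, ∀ i ≤ n ks + 8,
      |((ent (S (k + 1)) (t (k + 1)) i).1 - (ent (S k) (t k) i).1) -
        ((ent (S (k + 1)) (t (k + 1)) 0).1 - (ent (S k) (t k) 0).1)| ≤ c k + c (k + 1) ∧
      |(S (k + 1) i).a - (S k i).a| ≤ C * wst P 13 (S k i) := by
    intro k hk i hi
    have n1 := hmin' k hk.le
    have n2 := hmin' (k + 1) hk
    have c1 := hcle k hk.le (n ks + 8) (by omega)
    have c2 := hcle (k + 1) hk (n ks + 8) (by omega)
    have hsum : c k + c (k + 1) ≤ 1 / 50 := by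
      have h1 : ∑ j ∈ ({k, k + 1} : Finset ℕ), c j ≤ ∑ j ∈ Finset.range (q + 1), c j := by
        apply Finset.sum_le_sum_of_subset_of_nonneg
        · intro j hj
          rw [Finset.mem_insert, Finset.mem_singleton] at hj
          rw [Finset.mem_range]
          omega
        · intro j hj _
          exact hc0 j (by have := Finset.mem_range.1 hj; omega)
      rw [Finset.sum_pair (by omega)] at h1
      linarith
    have hf := formation C hC P hF.nm hT (n := n ks + 8) (by omega)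
      (H3_ln (hL k hk.le).ln (by omega)) (H3_ln (hL (k + 1) hk).ln (by omega))
      (hadj k hk).1 (hadj k hk).2 (by linarith [c1.2, c2.2]) i hi
    refine ⟨hf.1.trans ?_, hf.2.2⟩
    have d1 := hcle k hk.le i (by omega)
    have d2 := hcle (k + 1) hk i (by omega)
    linarith [d1.2, d2.2]
  have hD : ∀ k ≤ q, ∀ l ≤ q, ∀ i ≤ n ks + 8,
      |((ent (S l) (t l) i).1 - (ent (S l) (t l) 0).1) -
        ((ent (S k) (t k) i).1 - (ent (S k) (t k) 0).1)| ≤ 1 / 50 := by
    intro k hk l hl i hi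
    have h1 := H3_tel q (fun k => (ent (S k) (t k) i).1 - (ent (S k) (t k) 0).1) c (by
      intro k hk
      have h2 := (hform k hk i hi).1
      have h3 : (ent (S (k + 1)) (t (k + 1)) i).1 - (ent (S (k + 1)) (t (k + 1)) 0).1 -
          ((ent (S k) (t k) i).1 - (ent (S k) (t k) 0).1) =
          ((ent (S (k + 1)) (t (k + 1)) i).1 - (ent (S k) (t k) i).1) -
          ((ent (S (k + 1)) (t (k + 1)) 0).1 - (ent (S k) (t k) 0).1) := by ring
      show |(ent (S (k + 1)) (t (k + 1)) i).1 - (ent (S (k + 1)) (t (k + 1)) 0).1 -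
          ((ent (S k) (t k) i).1 - (ent (S k) (t k) 0).1)| ≤ _
      rw [h3]
      exact h2) hc0 k l hk hl
    exact h1.trans (by linarith)
  -- all lines have arrived after `m` steps
  obtain ⟨m, hm⟩ : ∃ m, m = n ks + 3 := ⟨_, rfl⟩
  have hXs : (ent (S ks) (t ks) (n ks)).1 = X := by
    have := ((hL ks hks').bar (n ks) le_rfl (by omega)).2
    rw [this]; ring
  have hgt : ∀ k ≤ q, X < (ent (S k) (t k) m).1 := by
    intro k hk
    have n1 := hmin' k hk
    have h1 := hD k hk ks hks' (n ks) (by omega)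
    have h2 := hall k hk ks hks'
    rw [hXs] at h1
    have h3 := (abs_le.1 h1).2
    have h4 := (abs_le.1 h2).2
    have h5 : X - 6 / 5 - 1 / 50 ≤ (ent (S k) (t k) (n ks)).1 := by linarith
    have h6 := (ent_sum (hL k hk).ln (n ks) m (by omega) (by omega)).1
    have h7 : ∀ l ∈ Finset.Ico (n ks) m, (995 / 1000 : ℝ) ≤ (1 + h k l) * Real.cos (S k l).a := by
      intro l hl
      have hl' := Finset.mem_Ico.1 hl
      have Lk := (hL k hk).ln l (by omega)
      have e1 := H3_cos Lk.aS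
      have e2 := Lk.h0
      nlinarith
    have h8 := Finset.card_nsmul_le_sum _ _ _ h7
    rw [Nat.card_Ico, hm] at h8
    have h9 : n ks + 3 - n ks = 3 := by omega
    rw [h9] at h8
    rw [hm] at h6
    rw [hm, h6]
    simp only [nsmul_eq_mul, Nat.cast_ofNat] at h8
    linarith
  have hle : ∀ k ≤ q, n k ≤ m := by
    intro k hk
    by_contra hcon
    have hIn := (hL k hk).ins m (by omega) (by omega)
    have Lk := (hL k hk).ln m (by omega)
    have h1 : ent (S k) (t k) m ∈ (S k m).cl := by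
      show |(S k m).u ((S k m).pt (-1 / 2) (t k m))| ≤ 1 / 2 ∧
        |(S k m).v ((S k m).pt (-1 / 2) (t k m))| ≤ 1 / 2
      rw [pt_u, pt_v]
      refine ⟨by norm_num [abs_le], ?_⟩
      have h2 := Lk.mS
      have h3 : 0 ≤ C * wst P 16 (S k m) := mul_nonneg (by linarith) (wst_nn _ _ _)
      linarith
    have h2 := (hIn h1).2.1
    exact absurd h2 (not_le.2 (hgt k hk))
  have hbar : ∀ k ≤ q, (ent (S k) (t k) m).1 = X + ((m : ℝ) - n k) := fun k hk =>
    ((hL k hk).bar m (hle k hk) (by have := hmin' k hk; omega)).2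
  -- tilts
  have htilt : ∀ k ≤ q, ∀ i ≤ n k + 8, |(S k i).a| ≤ c k := by
    intro k hk i hi
    rcases le_total i (n k) with h1 | h1
    · have h2 := ln_tilt C hC P hF.nm hT (hL k hk).ln i (n k) h1 (by omega)
      have h3 := (wst_cst C hC P (hL k hk).ln i (n k) h1 (by omega)).1
      have h4 : (S k (n k)).a = 0 := ((hL k hk).bar (n k) le_rfl (by omega)).1.1
      rw [h4, zero_sub, abs_neg] at h2
      have h5 := hcle k hk (n k) (by omega)
      have h6 := hcle k hk i hi
      linarith [h5.2, h6.1]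
    · have h4 : (S k i).a = 0 := ((hL k hk).bar i h1 hi).1.1
      rw [h4, abs_zero]
      exact hc0 k hk
  have hq0 : (0 : ℕ) ≤ q := Nat.zero_le _
  have hmk : ∀ k ≤ q, m ≤ n k + 8 := fun k hk => by have := hmin' k hk; omega
  -- tilt differences
  have hdiff : ∀ i ≤ n ks + 8, |(S q i).a - (S 0 i).a| ≤
      ∑ k ∈ Finset.range q, C * wst P 13 (S k i) := by
    intro i hi
    have h1 := dist_le_range_sum_of_dist_le (f := fun k => (S k i).a) q
      (d := fun k => C * wst P 13 (S k i)) (by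
        intro k hk
        rw [Real.dist_eq, abs_sub_comm]
        exact (hform k hk i hi).2)
    rw [Real.dist_eq, abs_sub_comm] at h1
    exact h1
  have hw : ∀ k ≤ q, ∑ l ∈ Finset.Ico 0 m, C * wst P 13 (S k l) ≤ c k ∧
      ∑ l ∈ Finset.Ico 0 m, h k l ≤ c k := by
    intro k hk
    have h1 := wst_cst C hC P (hL k hk).ln 0 m (Nat.zero_le _) (hmk k hk)
    have h2 := hcle k hk m (hmk k hk)
    have h3 := hcle k hk 0 (by omega)
    exact ⟨by linarith [h1.1, h2.2, h3.1], by linarith [h1.2, h2.2, h3.1]⟩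
  have hC0 := hc0 0 hq0
  have hCq := hc0 q le_rfl
  have hcosS : ∑ l ∈ Finset.Ico 0 m, |Real.cos (S q l).a - Real.cos (S 0 l).a| ≤
      (c 0 + c q) * (1 / 100) := by
    calc ∑ l ∈ Finset.Ico 0 m, |Real.cos (S q l).a - Real.cos (S 0 l).a|
        ≤ ∑ l ∈ Finset.Ico 0 m, (c 0 + c q) * ∑ k ∈ Finset.range q, C * wst P 13 (S k l) := by
          apply Finset.sum_le_sum
          intro l hl
          have hl' := (Finset.mem_Ico.1 hl).2
          have h1 := htilt 0 hq0 l (by have := hmk 0 hq0; omega)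
          have h2 := htilt q le_rfl l (by have := hmk q le_rfl; omega)
          refine (cos_diff (S q l).a (S 0 l).a (c 0 + c q) (by linarith) (by linarith)).trans ?_
          exact mul_le_mul_of_nonneg_left (hdiff l (by omega)) (by linarith)
      _ = (c 0 + c q) * ∑ k ∈ Finset.range q, ∑ l ∈ Finset.Ico 0 m, C * wst P 13 (S k l) := by
          rw [← Finset.mul_sum, Finset.sum_comm]
      _ ≤ (c 0 + c q) * (1 / 100) := by
          apply mul_le_mul_of_nonneg_left _ (by linarith)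
          calc ∑ k ∈ Finset.range q, ∑ l ∈ Finset.Ico 0 m, C * wst P 13 (S k l)
              ≤ ∑ k ∈ Finset.range q, c k :=
                Finset.sum_le_sum (fun k hk => (hw k (by have := Finset.mem_range.1 hk; omega)).1)
            _ ≤ ∑ k ∈ Finset.range (q + 1), c k := by
                rw [Finset.sum_range_succ]; linarith
            _ ≤ 1 / 100 := hcS
  -- conclusion
  have e1 := (ent_sum (hL q le_rfl).ln 0 m (Nat.zero_le _) (hmk q le_rfl)).1
  have e2 := (ent_sum (hL 0 hq0).ln 0 m (Nat.zero_le _) (hmk 0 hq0)).1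
  have b1 := hbar q le_rfl
  have b2 := hbar 0 hq0
  have hz := dz_le ((ent (S q) (t q) 0).1 - (ent (S 0) (t 0) 0).1) ((n 0 : ℤ) - (n q : ℤ))
  refine hz.trans ?_
  have e3 : (ent (S q) (t q) 0).1 - (ent (S 0) (t 0) 0).1 - (((n 0 : ℤ) - (n q : ℤ) : ℤ) : ℝ) =
      -(∑ l ∈ Finset.Ico 0 m, ((1 + h q l) * Real.cos (S q l).a -
        (1 + h 0 l) * Real.cos (S 0 l).a)) := by
    rw [Finset.sum_sub_distrib]
    push_cast
    linarith
  rw [e3, abs_neg]
  have e4 : ∑ l ∈ Finset.Ico 0 m, |(1 + h q l) * Real.cos (S q l).a -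
        (1 + h 0 l) * Real.cos (S 0 l).a| ≤
      ∑ l ∈ Finset.Ico 0 m, |Real.cos (S q l).a - Real.cos (S 0 l).a| +
        (∑ l ∈ Finset.Ico 0 m, h q l + ∑ l ∈ Finset.Ico 0 m, h 0 l) := by
    rw [← Finset.sum_add_distrib, ← Finset.sum_add_distrib]
    apply Finset.sum_le_sum
    intro l hl
    have hl' := (Finset.mem_Ico.1 hl).2
    have L0 := (hL 0 hq0).ln l (by have := hmk 0 hq0; omega)
    have Lq := (hL q le_rfl).ln l (by have := hmk q le_rfl; omega)
    have g0 := L0.h0
    have gq := Lq.h0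
    have f1 : (1 + h q l) * Real.cos (S q l).a - (1 + h 0 l) * Real.cos (S 0 l).a =
        (Real.cos (S q l).a - Real.cos (S 0 l).a) +
          (h q l * Real.cos (S q l).a - h 0 l * Real.cos (S 0 l).a) := by ring
    rw [f1]
    refine (abs_add_le _ _).trans ?_
    have f2 : |h q l * Real.cos (S q l).a - h 0 l * Real.cos (S 0 l).a| ≤ h q l + h 0 l := by
      refine (abs_sub _ _).trans ?_
      rw [abs_mul, abs_mul, abs_of_nonneg g0, abs_of_nonneg gq]
      have c1 := Real.abs_cos_le_one (S q l).a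
      have c2 := Real.abs_cos_le_one (S 0 l).a
      nlinarith
    linarith
  refine (Finset.abs_sum_le_sum_abs _ _).trans (e4.trans ?_)
  have w0 := (hw 0 hq0).2
  have wq := (hw q le_rfl).2
  linarith

end SqLo
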