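import Pool.Agent.Lib.MP_e85462_co.L.E1

/-! H4: families of horizontal lines in formation. -/

open MeasureTheory Set

namespace SqLo

theorem H4_tel (M : ℕ) (f c : ℕ → ℝ) (hc : ∀ k ≤ M, 0 ≤ c k)
    (hf : ∀ k, k + 1 ≤ M → |f (k + 1) - f k| ≤ c k + c (k + 1)) (j l : ℕ) (hj : j ≤ l)
    (hl : l ≤ M) : |f l - f j| ≤ 2 * ∑ k ∈ Finset.range (M + 1), c k := by
  have h1 : ∀ l, j ≤ l → l ≤ M → |f l - f j| ≤ ∑ k ∈ Finset.Ico j l, (c k + c (k + 1)) := by
    intro l hjl
    induction l, hjl using Nat.le_induction with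
    | base => intro _; simp
    | succ l hjl ih =>
      intro hlM
      rw [Finset.sum_Ico_succ_top hjl]
      calc |f (l + 1) - f j| ≤ |f (l + 1) - f l| + |f l - f j| := abs_sub_le _ _ _
        _ ≤ _ := by linarith [hf l hlM, ih (by omega)]
  refine (h1 l hj hl).trans ?_
  rw [Finset.sum_add_distrib, two_mul]
  apply add_le_add
  · apply Finset.sum_le_sum_of_subset_of_nonneg
    · intro k hk
      rw [Finset.mem_Ico] at hk
      exact Finset.mem_range.2 (by omega)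
    · intro k hk _
      exact hc k (by have := Finset.mem_range.1 hk; omega)
  · rw [Finset.sum_Ico_add' c j l 1]
    apply Finset.sum_le_sum_of_subset_of_nonneg
    · intro k hk
      rw [Finset.mem_Ico] at hk
      exact Finset.mem_range.2 (by omega)
    · intro k hk _
      exact hc k (by have := Finset.mem_range.1 hk; omega)

section

variable {C X : ℝ} {P : Finset Sq} {M n : ℕ} {y0 D : ℝ} {S : ℕ → ℕ → Sq} {t h : ℕ → ℕ → ℝ}

theorem H4_ent0 (G : Fam C X P M n y0 S t h D) (j : ℕ) (hj : j ≤ M) :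
    (ent (S j) (t j) 0).1 = -1 ∧ (ent (S j) (t j) 0).2 = y0 + j + t j 0 := by
  unfold ent
  rw [(G.ln j hj).s0]
  unfold Sq.pt
  simp only [Real.cos_zero, Real.sin_zero]
  constructor <;> ring

theorem H4_cnn (hC : 1 ≤ C) (G : Fam C X P M n y0 S t h D) (j i : ℕ) (hj : j ≤ M)
    (hi : i ≤ n + 8) : 0 ≤ cst C P (S j) (h j) i ∧
      cst C P (S j) (h j) i ≤ cst C P (S j) (h j) (n + 8) :=
  cst_mono C hC P (G.ln j hj).ln hi le_rfl

theorem H4_single (hC : 1 ≤ C) (G : Fam C X P M n y0 S t h D) (j : ℕ) (hj : j ≤ M) :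
    cst C P (S j) (h j) (n + 8) ≤ D := by
  refine le_trans ?_ G.cost
  exact Finset.single_le_sum (f := fun j => cst C P (S j) (h j) (n + 8))
    (fun k hk => (H4_cnn hC G k (n + 8) (by have := Finset.mem_range.1 hk; omega) le_rfl).1)
    (Finset.mem_range.2 (by omega))

theorem H4_pair (hC : 1 ≤ C) (hF : Framed X P) (hT : TC P C) (G : Fam C X P M n y0 S t h D)
    (j i : ℕ) (hj : j + 1 ≤ M) (hi : i ≤ n + 8) :
    |((ent (S (j + 1)) (t (j + 1)) i).1 - (ent (S j) (t j) i).1) -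
        ((ent (S (j + 1)) (t (j + 1)) 0).1 - (ent (S j) (t j) 0).1)| ≤
      cst C P (S j) (h j) (n + 8) + cst C P (S (j + 1)) (h (j + 1)) (n + 8) ∧
    |((ent (S (j + 1)) (t (j + 1)) i).2 - (ent (S j) (t j) i).2) -
        ((ent (S (j + 1)) (t (j + 1)) 0).2 - (ent (S j) (t j) 0).2)| ≤
      cst C P (S j) (h j) (n + 8) + cst C P (S (j + 1)) (h (j + 1)) (n + 8) ∧
    |(S (j + 1) i).a - (S j i).a| ≤ C * wst P 13 (S j i) := by
  obtain ⟨a1, a2⟩ := H4_ent0 G j (by omega)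
  obtain ⟨b1, b2⟩ := H4_ent0 G (j + 1) hj
  have t0 := abs_le.1 (G.ln j (by omega)).t0
  have t1 := abs_le.1 (G.ln (j + 1) hj).t0
  have hD1 := G.D1
  have c1 := H4_single hC G j (by omega)
  have c2 := H4_single hC G (j + 1) hj
  obtain ⟨f1, f2, f3⟩ := formation C hC P hF.nm hT (n := n + 8) (by omega)
    (G.ln j (by omega)).ln (G.ln (j + 1) hj).ln
    (by rw [a1, b1]; norm_num) (by
      rw [a2, b2, abs_le]
      push_cast
      constructor <;> linarith [t0.1, t0.2, t1.1, t1.2]) (by linarith) i hi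
  have m1 := (H4_cnn hC G j i (by omega) hi).2
  have m2 := (H4_cnn hC G (j + 1) i hj hi).2
  exact ⟨by linarith, by linarith, f3⟩

end

theorem fam_pos (C : ℝ) (hC : 1 ≤ C) (X : ℝ) (P : Finset Sq) (hF : Framed X P) (hT : TC P C)
    {M n : ℕ} {y0 D : ℝ} {S : ℕ → ℕ → Sq} {t h : ℕ → ℕ → ℝ} (G : Fam C X P M n y0 S t h D)
    (j l i : ℕ) (hj : j ≤ M) (hl : l ≤ M) (hi : i ≤ n + 8) :
    |(ent (S j) (t j) i).1 - (ent (S l) (t l) i).1| ≤ 2 * D ∧
    |(ent (S j) (t j) i).2 - (ent (S l) (t l) i).2 - ((j : ℝ) - l + t j 0 - t l 0)| ≤ 2 * D := by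
  have hcn : ∀ k ≤ M, 0 ≤ cst C P (S k) (h k) (n + 8) := fun k hk =>
    (H4_cnn hC G k (n + 8) hk le_rfl).1
  have hcost := G.cost
  set f1 : ℕ → ℝ := fun k => (ent (S k) (t k) i).1 - (ent (S k) (t k) 0).1 with hf1
  set f2 : ℕ → ℝ := fun k => (ent (S k) (t k) i).2 - (ent (S k) (t k) 0).2 with hf2
  have e1 : ∀ k, k + 1 ≤ M → |f1 (k + 1) - f1 k| ≤
      cst C P (S k) (h k) (n + 8) + cst C P (S (k + 1)) (h (k + 1)) (n + 8) := by
    intro k hk
    have := (H4_pair hC hF hT G k i hk hi).1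
    convert this using 2
    simp only [hf1]
    ring
  have e2 : ∀ k, k + 1 ≤ M → |f2 (k + 1) - f2 k| ≤
      cst C P (S k) (h k) (n + 8) + cst C P (S (k + 1)) (h (k + 1)) (n + 8) := by
    intro k hk
    have := (H4_pair hC hF hT G k i hk hi).2.1
    convert this using 2
    simp only [hf2]
    ring
  have g1 : |f1 j - f1 l| ≤ 2 * D := by
    rcases le_total j l with hjl | hjl
    · rw [abs_sub_comm]
      have := H4_tel M f1 (fun k => cst C P (S k) (h k) (n + 8)) hcn e1 j l hjl hl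
      linarith
    · have := H4_tel M f1 (fun k => cst C P (S k) (h k) (n + 8)) hcn e1 l j hjl hj
      linarith
  have g2 : |f2 j - f2 l| ≤ 2 * D := by
    rcases le_total j l with hjl | hjl
    · rw [abs_sub_comm]
      have := H4_tel M f2 (fun k => cst C P (S k) (h k) (n + 8)) hcn e2 j l hjl hl
      linarith
    · have := H4_tel M f2 (fun k => cst C P (S k) (h k) (n + 8)) hcn e2 l j hjl hj
      linarith
  obtain ⟨a1, a2⟩ := H4_ent0 G j hj
  obtain ⟨b1, b2⟩ := H4_ent0 G l hl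
  simp only [hf1, a1, b1] at g1
  simp only [hf2, a2, b2] at g2
  constructor
  · convert g1 using 2
    ring
  · convert g2 using 2
    ring

theorem fam_tilt (C : ℝ) (hC : 1 ≤ C) (X : ℝ) (P : Finset Sq) (hF : Framed X P) (hT : TC P C)
    {M n : ℕ} {y0 D : ℝ} {S : ℕ → ℕ → Sq} {t h : ℕ → ℕ → ℝ} (G : Fam C X P M n y0 S t h D)
    (j l i : ℕ) (hj : j ≤ l) (hl : l ≤ M) (hi : i ≤ n + 8) :
    |(S l i).a - (S j i).a| ≤ ∑ k ∈ Finset.Ico j l, C * wst P 13 (S k i) := by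
  induction l, hj using Nat.le_induction with
  | base => simp
  | succ l hjl ih =>
    rw [Finset.sum_Ico_succ_top hjl]
    calc |(S (l + 1) i).a - (S j i).a| ≤ |(S (l + 1) i).a - (S l i).a| + |(S l i).a - (S j i).a| :=
          abs_sub_le _ _ _
      _ ≤ _ := by linarith [(H4_pair hC hF hT G l i hl hi).2.2, ih (by omega)]

/-- the tilts on one line -/
theorem H4_small (C : ℝ) (hC : 1 ≤ C) (X : ℝ) (P : Finset Sq) (hF : Framed X P) (hT : TC P C)
    {M n : ℕ} {y0 D : ℝ} {S : ℕ → ℕ → Sq} {t h : ℕ → ℕ → ℝ} (G : Fam C X P M n y0 S t h D)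
    (j i : ℕ) (hj : j ≤ M) (hi : i ≤ n + 8) :
    |(S j i).a| ≤ cst C P (S j) (h j) (n + 8) := by
  have L := (G.ln j hj).ln
  have h1 := ln_tilt C hC P hF.nm hT L 0 i (Nat.zero_le _) hi
  have h2 := (wst_cst C hC P L 0 i (Nat.zero_le _) hi).1
  have h3 := H4_cnn hC G j i hj hi
  have h4 := (H4_cnn hC G j 0 hj (by omega)).1
  have h5 : (S j 0).a = 0 := by rw [(G.ln j hj).s0]
  rw [h5, sub_zero] at h1
  linarith [h3.2]

theorem H4_phase (C : ℝ) (hC : 1 ≤ C) (X : ℝ) (P : Finset Sq) (hF : Framed X P) (hT : TC P C)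
    {M n : ℕ} {y0 D : ℝ} {S : ℕ → ℕ → Sq} {t h : ℕ → ℕ → ℝ} (G : Fam C X P M n y0 S t h D)
    (κ : ℝ) (j l i : ℕ) (hjl : j ≤ l) (hl : l ≤ M) (hi : i ≤ n + 8)
    (hκj : cst C P (S j) (h j) (n + 8) ≤ κ) (hκl : cst C P (S l) (h l) (n + 8) ≤ κ) :
    |(ent (S j) (t j) i).1 - (ent (S l) (t l) i).1| ≤ 3 * κ := by
  have hj : j ≤ M := hjl.trans hl
  have Lj := (G.ln j hj).ln
  have Ll := (G.ln l hl).ln
  have hκ0 : 0 ≤ κ := (H4_cnn hC G j (n + 8) hj le_rfl).1.trans hκj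
  have s1 := (ent_sum Lj 0 i (Nat.zero_le _) hi).1
  have s2 := (ent_sum Ll 0 i (Nat.zero_le _) hi).1
  rw [(H4_ent0 G j hj).1] at s1
  rw [(H4_ent0 G l hl).1] at s2
  rw [s1, s2]
  have hj1 := (wst_cst C hC P Lj 0 i (Nat.zero_le _) hi).2
  have hl1 := (wst_cst C hC P Ll 0 i (Nat.zero_le _) hi).2
  have hj2 := (H4_cnn hC G j i hj hi).2
  have hl2 := (H4_cnn hC G l i hl hi).2
  have hj3 := (H4_cnn hC G j 0 hj (by omega)).1
  have hl3 := (H4_cnn hC G l 0 hl (by omega)).1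
  have hterm : ∀ q ∈ Finset.Ico 0 i, |(1 + h j q) * Real.cos (S j q).a -
      (1 + h l q) * Real.cos (S l q).a| ≤
      κ * ∑ k ∈ Finset.Ico j l, C * wst P 13 (S k q) + h j q + h l q := by
    intro q hq
    rw [Finset.mem_Ico] at hq
    have hq8 : q ≤ n + 8 := by omega
    have c1 := cos_diff (S j q).a (S l q).a κ
      ((H4_small C hC X P hF hT G j q hj hq8).trans hκj)
      ((H4_small C hC X P hF hT G l q hl hq8).trans hκl)
    have c2 := fam_tilt C hC X P hF hT G j l q hjl hl hq8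
    have hh1 : 0 ≤ h j q := (Lj q (by omega)).h0
    have hh2 : 0 ≤ h l q := (Ll q (by omega)).h0
    have c3 : |h j q * Real.cos (S j q).a| ≤ h j q := by
      rw [abs_mul, abs_of_nonneg hh1]
      exact mul_le_of_le_one_right hh1 (Real.abs_cos_le_one _)
    have c4 : |h l q * Real.cos (S l q).a| ≤ h l q := by
      rw [abs_mul, abs_of_nonneg hh2]
      exact mul_le_of_le_one_right hh2 (Real.abs_cos_le_one _)
    have c5 : |Real.cos (S j q).a - Real.cos (S l q).a| ≤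
        κ * ∑ k ∈ Finset.Ico j l, C * wst P 13 (S k q) := by
      refine c1.trans (mul_le_mul_of_nonneg_left ?_ hκ0)
      rw [abs_sub_comm]
      exact c2
    have c6 := abs_le.1 c3
    have c7 := abs_le.1 c4
    have c8 := abs_le.1 c5
    rw [abs_le]
    constructor <;> linarith [c6.1, c6.2, c7.1, c7.2, c8.1, c8.2]
  have hsum : ∑ q ∈ Finset.Ico 0 i, ∑ k ∈ Finset.Ico j l, C * wst P 13 (S k q) ≤ 1 := by
    rw [Finset.sum_comm]
    calc ∑ k ∈ Finset.Ico j l, ∑ q ∈ Finset.Ico 0 i, C * wst P 13 (S k q)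
        ≤ ∑ k ∈ Finset.Ico j l, cst C P (S k) (h k) (n + 8) := by
          apply Finset.sum_le_sum
          intro k hk
          rw [Finset.mem_Ico] at hk
          have hkM : k ≤ M := by omega
          have w1 := (wst_cst C hC P (G.ln k hkM).ln 0 i (Nat.zero_le _) hi).1
          have w2 := (H4_cnn hC G k i hkM hi).2
          have w3 := (H4_cnn hC G k 0 hkM (by omega)).1
          linarith
      _ ≤ ∑ k ∈ Finset.range (M + 1), cst C P (S k) (h k) (n + 8) := by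
          apply Finset.sum_le_sum_of_subset_of_nonneg
          · intro k hk
            rw [Finset.mem_Ico] at hk
            exact Finset.mem_range.2 (by omega)
          · intro k hk _
            exact (H4_cnn hC G k (n + 8) (by have := Finset.mem_range.1 hk; omega) le_rfl).1
      _ ≤ D := G.cost
      _ ≤ 1 := by linarith [G.D1]
  have hmain : |∑ q ∈ Finset.Ico 0 i, ((1 + h j q) * Real.cos (S j q).a -
      (1 + h l q) * Real.cos (S l q).a)| ≤ 3 * κ := by
    calc _ ≤ ∑ q ∈ Finset.Ico 0 i, |(1 + h j q) * Real.cos (S j q).a -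
          (1 + h l q) * Real.cos (S l q).a| := Finset.abs_sum_le_sum_abs _ _
      _ ≤ ∑ q ∈ Finset.Ico 0 i, (κ * ∑ k ∈ Finset.Ico j l, C * wst P 13 (S k q) + h j q + h l q) :=
          Finset.sum_le_sum hterm
      _ = κ * ∑ q ∈ Finset.Ico 0 i, ∑ k ∈ Finset.Ico j l, C * wst P 13 (S k q) +
          ∑ q ∈ Finset.Ico 0 i, h j q + ∑ q ∈ Finset.Ico 0 i, h l q := by
          rw [Finset.sum_add_distrib, Finset.sum_add_distrib, Finset.mul_sum]
      _ ≤ κ * 1 + κ + κ := by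
          gcongr
          · linarith
          · linarith
      _ = 3 * κ := by ring
  rw [Finset.sum_sub_distrib] at hmain
  convert hmain using 2
  ring

/-- entry points with the same index on two cheap lines have almost the same abscissa -/
theorem fam_phase (C : ℝ) (hC : 1 ≤ C) (X : ℝ) (P : Finset Sq) (hF : Framed X P) (hT : TC P C)
    {M n : ℕ} {y0 D : ℝ} {S : ℕ → ℕ → Sq} {t h : ℕ → ℕ → ℝ} (G : Fam C X P M n y0 S t h D)
    (κ : ℝ) (j l i : ℕ) (hj : j ≤ M) (hl : l ≤ M) (hi : i ≤ n + 8)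
    (hκj : cst C P (S j) (h j) (n + 8) ≤ κ) (hκl : cst C P (S l) (h l) (n + 8) ≤ κ) :
    |(ent (S j) (t j) i).1 - (ent (S l) (t l) i).1| ≤ 3 * κ := by
  rcases le_total j l with hjl | hjl
  · exact H4_phase C hC X P hF hT G κ j l i hjl hl hi hκj hκl
  · rw [abs_sub_comm]
    exact H4_phase C hC X P hF hT G κ l j i hjl hj hi hκl hκj

/-- the tilts on one line -/
theorem fam_small (C : ℝ) (hC : 1 ≤ C) (X : ℝ) (P : Finset Sq) (hF : Framed X P) (hT : TC P C)
    {M n : ℕ} {y0 D : ℝ} {S : ℕ → ℕ → Sq} {t h : ℕ → ℕ → ℝ} (G : Fam C X P M n y0 S t h D)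
    (j i : ℕ) (hj : j ≤ M) (hi : i ≤ n + 8) :
    |(S j i).a| ≤ cst C P (S j) (h j) (n + 8) :=
  H4_small C hC X P hF hT G j i hj hi

end SqLo
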