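import Pool.Agent.Lib.MP_e85462_co.L.H4

/-! H4b: the block of a family. -/

open MeasureTheory Set

namespace SqLo

/-- discrete intermediate values -/
private theorem H4b_ivt (f : ℕ → ℝ) (v : ℝ) (i0 : ℕ) : ∀ d : ℕ, 0 < d → f i0 ≤ v →
    v ≤ f (i0 + d) → ∃ i, i0 ≤ i ∧ i < i0 + d ∧ f i ≤ v ∧ v ≤ f (i + 1) := by
  intro d
  induction d with
  | zero => intro h; exact absurd h (lt_irrefl 0)
  | succ d ih =>
    intro _ h0 h1
    by_cases hd : d = 0
    · subst hd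
      exact ⟨i0, le_rfl, by omega, h0, h1⟩
    · by_cases hv : v ≤ f (i0 + d)
      · obtain ⟨i, a1, a2, a3, a4⟩ := ih (by omega) h0 hv
        exact ⟨i, a1, by omega, a3, a4⟩
      · exact ⟨i0 + d, by omega, by omega, (not_le.1 hv).le, h1⟩

private theorem H4b_wst (P : Finset Sq) {r r' : ℝ} (h : r ≤ r') (S : Sq) :
    wst P r S ≤ wst P r' S :=
  wst_le P r r' S S (by simpa using h) (by simpa using h)

/-- basic data of the squares of the family -/
private theorem H4b_data {C X : ℝ} {P : Finset Sq} {M n : ℕ} {y0 D : ℝ} {S : ℕ → ℕ → Sq}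
    {t h : ℕ → ℕ → ℝ} (hC : 1 ≤ C) (G : Fam C X P M n y0 S t h D) {j i : ℕ} (hj : j ≤ M)
    (hi : i < n + 8) :
    S j i ∈ P ∧ |(S j i).a| ≤ 1 / 10 ∧ |t j i| ≤ 1 / 2 ∧ C * wst P 13 (S j i) ≤ 1 / 50 ∧
      0 ≤ h j i ∧ h j i ≤ 1 / 100 := by
  have L := (G.ln j hj).ln i hi
  have h0 : 0 ≤ C * wst P 16 (S j i) := mul_nonneg (by linarith) (wst_nn _ _ _)
  have h1 := L.wS
  have h2 := L.mS
  have h3 : C * wst P 13 (S j i) ≤ C * wst P 16 (S j i) :=
    mul_le_mul_of_nonneg_left (H4b_wst P (by norm_num) _) (by linarith)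
  exact ⟨L.hS, L.aS, by linarith, by linarith, L.h0, L.h1⟩

private theorem H4b_cos {a : ℝ} (ha : |a| ≤ 1 / 10) :
    99 / 100 ≤ Real.cos a ∧ Real.cos a ≤ 1 ∧ |Real.sin a| ≤ 1 / 10 := by
  refine ⟨?_, Real.cos_le_one a, ?_⟩
  · have h1 := Real.one_sub_sq_div_two_le_cos (x := a)
    have h2 : a ^ 2 ≤ (1 / 10) ^ 2 := by
      rw [← sq_abs]
      exact pow_le_pow_left₀ (abs_nonneg _) ha 2
    linarith
  · exact (Real.abs_sin_le_abs).trans ha

/-- the centre of a square relative to its entry point -/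
private theorem H4b_ctr {S : ℕ → Sq} {t : ℕ → ℝ} {i : ℕ} (ha : |(S i).a| ≤ 1 / 10)
    (ht : |t i| ≤ 1 / 2) :
    44 / 100 ≤ (S i).x - (ent S t i).1 ∧ (S i).x - (ent S t i).1 ≤ 55 / 100 ∧
      |(S i).y - (ent S t i).2| ≤ 55 / 100 := by
  obtain ⟨hx, hy⟩ := ctr_ent S t i
  obtain ⟨h1, h2, h3⟩ := H4b_cos ha
  have h4 : |t i * Real.sin (S i).a| ≤ 1 / 20 := by
    rw [abs_mul]
    calc |t i| * |Real.sin (S i).a| ≤ 1 / 2 * (1 / 10) :=
          mul_le_mul ht h3 (abs_nonneg _) (by norm_num)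
      _ = 1 / 20 := by norm_num
  have h5 : |t i * Real.cos (S i).a| ≤ 1 / 2 := by
    rw [abs_mul]
    have h6 : |Real.cos (S i).a| ≤ 1 := Real.abs_cos_le_one _
    calc |t i| * |Real.cos (S i).a| ≤ 1 / 2 * 1 :=
          mul_le_mul ht h6 (abs_nonneg _) (by norm_num)
      _ = 1 / 2 := by norm_num
  rw [abs_le] at h3 h4 h5
  refine ⟨by linarith, by linarith, ?_⟩
  rw [abs_le]
  constructor <;> linarith

/-- the step between neighbouring lines -/
private theorem H4b_line (C : ℝ) (hC : 1 ≤ C) (X : ℝ) (P : Finset Sq) (hF : Framed X P)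
    (hT : TC P C) {M n : ℕ} {y0 D : ℝ} {S : ℕ → ℕ → Sq} {t h : ℕ → ℕ → ℝ}
    (G : Fam C X P M n y0 S t h D) {j i : ℕ} (hj : j + 1 ≤ M) (hi : i ≤ n + 8) :
    |(ent (S (j + 1)) (t (j + 1)) i).1 - (ent (S j) (t j) i).1| ≤ 1 / 500 ∧
    49 / 100 ≤ (ent (S (j + 1)) (t (j + 1)) i).2 - (ent (S j) (t j) i).2 ∧
    (ent (S (j + 1)) (t (j + 1)) i).2 - (ent (S j) (t j) i).2 ≤ 151 / 100 := by
  obtain ⟨h1, h2⟩ := fam_pos C hC X P hF hT G (j + 1) j i hj (by omega) hi
  have hD := G.D1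
  have t0 := (G.ln j (by omega)).t0
  have t1 := (G.ln (j + 1) hj).t0
  rw [abs_le] at h2 t0 t1
  push_cast at h2
  refine ⟨by linarith, by linarith, by linarith⟩

/-- the boxes around the squares of the family cover the region between the first and the last
line -/
theorem fam_cover (C : ℝ) (hC : 1 ≤ C) (X : ℝ) (P : Finset Sq) (hF : Framed X P) (hT : TC P C)
    {M n : ℕ} {y0 D : ℝ} {S : ℕ → ℕ → Sq} {t h : ℕ → ℕ → ℝ} (G : Fam C X P M n y0 S t h D)
    (i0 i1 : ℕ) (hi : i0 < i1) (hi1 : i1 ≤ n + 8) (z : ℝ × ℝ)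
    (hx0 : (ent (S 0) (t 0) i0).1 + 1 ≤ z.1) (hx1 : z.1 ≤ (ent (S 0) (t 0) i1).1 - 1)
    (hy : ∀ i, i0 ≤ i → i ≤ i1 → (ent (S 0) (t 0) i).2 + 1 ≤ z.2 ∧
      z.2 ≤ (ent (S M) (t M) i).2 - 1) :
    ∃ i j : ℕ, i0 ≤ i ∧ i < i1 ∧ j ≤ M ∧ |z.1 - (S j i).x| ≤ 21 / 10 ∧
      |z.2 - (S j i).y| ≤ 21 / 10 := by
  obtain ⟨d, rfl⟩ : ∃ d, i1 = i0 + d := ⟨i1 - i0, by omega⟩
  obtain ⟨i, hi0, hid, hzi, hzi'⟩ := H4b_ivt (fun i => (ent (S 0) (t 0) i).1) z.1 i0 d (by omega)
    (by linarith) (by linarith)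
  have hin : i < n + 8 := by omega
  -- the step on line 0
  have hstep : (ent (S 0) (t 0) (i + 1)).1 ≤ (ent (S 0) (t 0) i).1 + 101 / 100 := by
    obtain ⟨h1, _⟩ := ent_sum (G.ln 0 (Nat.zero_le M)).ln i (i + 1) (by omega) (by omega)
    rw [Nat.Ico_succ_singleton, Finset.sum_singleton] at h1
    obtain ⟨_, h2, _, _, h3, h4⟩ := H4b_data hC G (Nat.zero_le M) hin
    obtain ⟨h5, h6, _⟩ := H4b_cos h2
    rw [h1]
    nlinarith
  obtain ⟨hy0, hy1⟩ := hy i hi0 hid.le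
  have hM : 0 < M := by
    rcases Nat.eq_zero_or_pos M with h0 | h0
    · exfalso
      rw [h0] at hy1
      linarith
    · exact h0
  obtain ⟨j, _, hjM, hzj, hzj'⟩ := H4b_ivt (fun j => (ent (S j) (t j) i).2) z.2 0 M hM
    (by linarith) (by rw [zero_add]; linarith)
  rw [zero_add] at hjM
  have hjM' : j ≤ M := hjM.le
  refine ⟨i, j, hi0, hid, hjM', ?_, ?_⟩
  · obtain ⟨_, h2, h3, _⟩ := H4b_data hC G hjM' hin
    obtain ⟨a1, a2, _⟩ := H4b_ctr h2 h3
    obtain ⟨b1, _⟩ := fam_pos C hC X P hF hT G j 0 i hjM' (Nat.zero_le M) hin.le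
    have hD := G.D1
    rw [abs_le] at b1 ⊢
    constructor <;> linarith
  · obtain ⟨_, h2, h3, _⟩ := H4b_data hC G hjM' hin
    obtain ⟨_, _, a3⟩ := H4b_ctr h2 h3
    obtain ⟨_, _, b3⟩ := H4b_line C hC X P hF hT G (j := j) (i := i) hjM hin.le
    rw [abs_le] at a3 ⊢
    constructor <;> linarith

/-- tilts along a line, with the factor 52/100 -/
private theorem H4b_ln_tilt (C : ℝ) (hC : 1 ≤ C) (P : Finset Sq) (hN : Normd P) (hT : TC P C)
    {n : ℕ} {S : ℕ → Sq} {t h : ℕ → ℝ} (L : Ln C P n S t h) (i : ℕ) : ∀ d : ℕ, i + d ≤ n →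
    |(S (i + d)).a - (S i).a| ≤ 52 / 100 * ∑ l ∈ Finset.Ico i (i + d), C * wst P 13 (S l) := by
  intro d
  induction d with
  | zero => intro _; simp
  | succ d ih =>
    intro hd
    have h1 := ih (by omega)
    have h2 := lk_tilt hC hN hT (L (i + d) (by omega))
    have h3 : (S (i + (d + 1))).a - (S i).a =
        ((S (i + d + 1)).a - (S (i + d)).a) + ((S (i + d)).a - (S i).a) := by
      rw [← add_assoc]
      ring
    rw [h3, ← add_assoc, Finset.sum_Ico_succ_top (by omega)]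
    refine (abs_add_le _ _).trans ?_
    linarith

/-- tilts in a column, with the factor 52/100 -/
private theorem H4b_fam_tilt (C : ℝ) (hC : 1 ≤ C) (X : ℝ) (P : Finset Sq) (hF : Framed X P)
    (hT : TC P C) {M n : ℕ} {y0 D : ℝ} {S : ℕ → ℕ → Sq} {t h : ℕ → ℕ → ℝ}
    (G : Fam C X P M n y0 S t h D) (j i : ℕ) (hi : i < n + 8) : ∀ d : ℕ, j + d ≤ M →
    |(S (j + d) i).a - (S j i).a| ≤
      52 / 100 * ∑ k ∈ Finset.Ico j (j + d), C * wst P 13 (S k i) := by
  intro d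
  induction d with
  | zero => intro _; simp
  | succ d ih =>
    intro hd
    have h1 := ih (by omega)
    obtain ⟨a1, a2, a3, a4, _⟩ := H4b_data hC G (j := j + d) (by omega) hi
    obtain ⟨b1, b2, b3, _⟩ := H4b_data hC G (j := j + d + 1) (by omega) hi
    obtain ⟨c1, c2, c3⟩ := H4b_ctr a2 a3
    obtain ⟨d1, d2, d3⟩ := H4b_ctr b2 b3
    obtain ⟨e1, e2, e3⟩ := H4b_line C hC X P hF hT G (j := j + d) (i := i) (by omega) hi.le
    have h2 : |(S (j + d + 1) i).a - (S (j + d) i).a| ≤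
        52 / 100 * (C * wst P 13 (S (j + d) i)) := by
      refine tilt_near hF.nm hT a1 b1 a2 ?_ ?_ a4
      · rw [abs_le] at e1 ⊢
        constructor <;> linarith
      · rw [abs_le] at c3 d3 ⊢
        constructor <;> linarith
    have h3 : (S (j + (d + 1)) i).a - (S j i).a =
        ((S (j + d + 1) i).a - (S (j + d) i).a) + ((S (j + d) i).a - (S j i).a) := by
      rw [← add_assoc]
      ring
    rw [h3, ← add_assoc, Finset.sum_Ico_succ_top (by omega)]
    refine (abs_add_le _ _).trans ?_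
    linarith

/-- all squares close to the block have almost the same tilt -/
theorem block_tilt (C : ℝ) (hC : 1 ≤ C) (X : ℝ) (P : Finset Sq) (hF : Framed X P) (hT : TC P C)
    {M n : ℕ} {y0 D : ℝ} {S : ℕ → ℕ → Sq} {t h : ℕ → ℕ → ℝ} (G : Fam C X P M n y0 S t h D)
    (i0 i1 : ℕ) (hi1 : i1 ≤ n + 8) (b : ℝ) (hb : b ≤ 1 / 50)
    (hs : ∑ j ∈ Finset.range (M + 1), ∑ i ∈ Finset.Ico i0 i1, C * wst P 20 (S j i) ≤ b)
    (ir jr : ℕ) (hir0 : i0 ≤ ir) (hir1 : ir < i1) (hjr : jr ≤ M)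
    (T : Sq) (hTP : T ∈ P)
    (hx : ∃ i j : ℕ, i0 ≤ i ∧ i < i1 ∧ j ≤ M ∧ |T.x - (S j i).x| ≤ 3 ∧ |T.y - (S j i).y| ≤ 3) :
    |T.a - (S jr ir).a| ≤ 11 / 10 * b := by
  obtain ⟨i, j, hii0, hii1, hjM, hTx, hTy⟩ := hx
  -- the weights
  obtain ⟨E, hE⟩ : ∃ E : ℕ × ℕ → ℝ, ∀ p, E p = C * wst P 13 (S p.1 p.2) := ⟨_, fun _ => rfl⟩
  have hE0 : ∀ p, 0 ≤ E p := fun p => by
    rw [hE]
    exact mul_nonneg (by linarith) (wst_nn _ _ _)
  -- the sum of the weights over any set of pairs is at most `b`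
  have hsum : ∀ A : Finset (ℕ × ℕ), A ⊆ Finset.range (M + 1) ×ˢ Finset.Ico i0 i1 →
      ∑ p ∈ A, E p ≤ b := by
    intro A hA
    calc ∑ p ∈ A, E p ≤ ∑ p ∈ Finset.range (M + 1) ×ˢ Finset.Ico i0 i1, E p :=
          Finset.sum_le_sum_of_subset_of_nonneg hA (fun p _ _ => hE0 p)
      _ = ∑ j ∈ Finset.range (M + 1), ∑ i ∈ Finset.Ico i0 i1, E (j, i) := Finset.sum_product _ _ _
      _ ≤ ∑ j ∈ Finset.range (M + 1), ∑ i ∈ Finset.Ico i0 i1, C * wst P 20 (S j i) := by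
          refine Finset.sum_le_sum fun j _ => Finset.sum_le_sum fun i _ => ?_
          rw [hE]
          exact mul_le_mul_of_nonneg_left (H4b_wst P (by norm_num) _) (by linarith)
      _ ≤ b := hs
  have hin : i < n + 8 := by omega
  obtain ⟨a1, a2, a3, a4, _⟩ := H4b_data hC G hjM hin
  -- part 1
  have p1 : |T.a - (S j i).a| ≤ 52 / 100 * E (j, i) := by
    rw [hE]
    refine tilt_near hF.nm hT a1 hTP a2 ?_ ?_ a4
    · rw [abs_sub_comm]; exact hTx
    · rw [abs_sub_comm]; exact hTy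
  -- part 3: row `jr`
  have p3 : |(S jr i).a - (S jr ir).a| ≤
      52 / 100 * ∑ p ∈ (Finset.Ico (min i ir) (max i ir)).image (fun l => (jr, l)), E p := by
    have hinj : ∀ s : Finset ℕ, ∑ p ∈ s.image (fun l => (jr, l)), E p =
        ∑ l ∈ s, C * wst P 13 (S jr l) := by
      intro s
      rw [Finset.sum_image (fun _ _ _ _ h => (Prod.mk.inj h).2)]
      exact Finset.sum_congr rfl fun l _ => hE _
    rw [hinj]
    rcases le_total i ir with hle | hle
    · rw [min_eq_left hle, max_eq_right hle, abs_sub_comm]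
      have := H4b_ln_tilt C hC P hF.nm hT (G.ln jr hjr).ln i (ir - i) (by omega)
      rwa [Nat.add_sub_cancel' hle] at this
    · rw [min_eq_right hle, max_eq_left hle]
      have := H4b_ln_tilt C hC P hF.nm hT (G.ln jr hjr).ln ir (i - ir) (by omega)
      rwa [Nat.add_sub_cancel' hle] at this
  -- part 2: column `i`
  have p2 : |(S j i).a - (S jr i).a| ≤
      52 / 100 * ∑ p ∈ (Finset.Ico (min j jr) (max j jr)).image (fun k => (k, i)), E p := by
    have hinj : ∀ s : Finset ℕ, ∑ p ∈ s.image (fun k => (k, i)), E p =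
        ∑ k ∈ s, C * wst P 13 (S k i) := by
      intro s
      rw [Finset.sum_image (fun _ _ _ _ h => (Prod.mk.inj h).1)]
      exact Finset.sum_congr rfl fun l _ => hE _
    rw [hinj]
    rcases le_total j jr with hle | hle
    · rw [min_eq_left hle, max_eq_right hle, abs_sub_comm]
      have := H4b_fam_tilt C hC X P hF hT G j i hin (jr - j) (by omega)
      rwa [Nat.add_sub_cancel' hle] at this
    · rw [min_eq_right hle, max_eq_left hle]
      have := H4b_fam_tilt C hC X P hF hT G jr i hin (j - jr) (by omega)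
      rwa [Nat.add_sub_cancel' hle] at this
  have hji : (j, i) ∈ Finset.range (M + 1) ×ˢ Finset.Ico i0 i1 := by
    rw [Finset.mem_product, Finset.mem_range, Finset.mem_Ico]
    exact ⟨by omega, hii0, hii1⟩
  have hrow : (Finset.Ico (min i ir) (max i ir)).image (fun l => (jr, l)) ⊆
      Finset.range (M + 1) ×ˢ Finset.Ico i0 i1 := by
    intro p hp
    rw [Finset.mem_image] at hp
    obtain ⟨l, hl, rfl⟩ := hp
    rw [Finset.mem_Ico] at hl
    rw [Finset.mem_product, Finset.mem_range, Finset.mem_Ico]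
    refine ⟨by omega, ?_, ?_⟩ <;> omega
  have hcol : (Finset.Ico (min j jr) (max j jr)).image (fun k => (k, i)) ⊆
      Finset.range (M + 1) ×ˢ Finset.Ico i0 i1 := by
    intro p hp
    rw [Finset.mem_image] at hp
    obtain ⟨l, hl, rfl⟩ := hp
    rw [Finset.mem_Ico] at hl
    rw [Finset.mem_product, Finset.mem_range, Finset.mem_Ico]
    refine ⟨?_, hii0, hii1⟩
    omega
  have hb0 : 0 ≤ b := by
    have := hsum ∅ (Finset.empty_subset _)
    simpa using this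
  -- total
  have htot : E (j, i) + ∑ p ∈ (Finset.Ico (min j jr) (max j jr)).image (fun k => (k, i)), E p +
      ∑ p ∈ (Finset.Ico (min i ir) (max i ir)).image (fun l => (jr, l)), E p ≤ 2 * b := by
    rcases lt_or_ge j jr with hlt | hle
    · have h1 : E (j, i) ≤ b := by
        have := hsum {(j, i)} (by simpa using hji)
        simpa using this
      have hdisj : Disjoint ((Finset.Ico (min j jr) (max j jr)).image (fun k => (k, i)))
          ((Finset.Ico (min i ir) (max i ir)).image (fun l => (jr, l))) := by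
        rw [Finset.disjoint_left]
        intro p hp hp'
        rw [Finset.mem_image] at hp hp'
        obtain ⟨k, hk, rfl⟩ := hp
        obtain ⟨l, _, hl⟩ := hp'
        rw [Finset.mem_Ico, max_eq_right hlt.le] at hk
        have := (Prod.mk.inj hl).1
        omega
      have h2 := hsum _ (Finset.union_subset hcol hrow)
      rw [Finset.sum_union hdisj] at h2
      linarith
    · have hdisj : Disjoint ({(j, i)} : Finset (ℕ × ℕ))
          ((Finset.Ico (min j jr) (max j jr)).image (fun k => (k, i))) := by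
        rw [Finset.disjoint_singleton_left, Finset.mem_image]
        rintro ⟨k, hk, hk'⟩
        rw [Finset.mem_Ico, max_eq_left hle] at hk
        have := (Prod.mk.inj hk').1
        omega
      have h1 := hsum _ (Finset.union_subset (by simpa using hji : ({(j, i)} : Finset (ℕ × ℕ)) ⊆ _)
        hcol)
      rw [Finset.sum_union hdisj, Finset.sum_singleton] at h1
      have h2 := hsum _ hrow
      linarith
  have h3 : T.a - (S jr ir).a = (T.a - (S j i).a) + ((S j i).a - (S jr i).a) +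
      ((S jr i).a - (S jr ir).a) := by ring
  rw [h3]
  have h4 := abs_add_le ((T.a - (S j i).a) + ((S j i).a - (S jr i).a)) ((S jr i).a - (S jr ir).a)
  have h5 := abs_add_le (T.a - (S j i).a) ((S j i).a - (S jr i).a)
  linarith

/-- the waste of the block -/
theorem block_hole (C : ℝ) (hC : 1 ≤ C) (P : Finset Sq) (S : ℕ → ℕ → Sq) (M i0 i1 : ℕ) (b : ℝ)
    (hs : ∑ j ∈ Finset.range (M + 1), ∑ i ∈ Finset.Ico i0 i1, C * wst P 20 (S j i) ≤ b)
    (R : Set (ℝ × ℝ))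
    (hR : ∀ z ∈ R, ∃ i j : ℕ, i0 ≤ i ∧ i < i1 ∧ j ≤ M ∧ |z.1 - (S j i).x| ≤ 3 ∧
      |z.2 - (S j i).y| ≤ 3) :
    (volume (Hole P ∩ R)).toReal ≤ b := by
  classical
  obtain ⟨I, hI⟩ : ∃ I : Finset (ℕ × ℕ), I = Finset.range (M + 1) ×ˢ Finset.Ico i0 i1 := ⟨_, rfl⟩
  have hsub : Hole P ∩ R ⊆ ⋃ p ∈ I, Hole P ∩ bx ((S p.1 p.2).x, (S p.1 p.2).y) 20 := by
    rintro z ⟨hz, hzR⟩
    obtain ⟨i, j, h1, h2, h3, h4, h5⟩ := hR z hzR
    rw [Set.mem_iUnion₂]
    refine ⟨(j, i), ?_, hz, ?_, ?_⟩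
    · rw [hI, Finset.mem_product, Finset.mem_range, Finset.mem_Ico]
      exact ⟨by omega, h1, h2⟩
    · exact h4.trans (by norm_num)
    · exact h5.trans (by norm_num)
  have h1 : volume (Hole P ∩ R) ≤ ∑ p ∈ I, volume (Hole P ∩ bx ((S p.1 p.2).x, (S p.1 p.2).y) 20) :=
    (measure_mono hsub).trans (measure_biUnion_finset_le _ _)
  have hfin : ∀ p ∈ I, volume (Hole P ∩ bx ((S p.1 p.2).x, (S p.1 p.2).y) 20) ≠ ⊤ :=
    fun p _ => (hb_fin P _ 20).ne
  have h2 : (volume (Hole P ∩ R)).toReal ≤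
      (∑ p ∈ I, volume (Hole P ∩ bx ((S p.1 p.2).x, (S p.1 p.2).y) 20)).toReal :=
    ENNReal.toReal_mono (ENNReal.sum_ne_top.2 hfin) h1
  rw [ENNReal.toReal_sum hfin] at h2
  refine h2.trans (le_trans ?_ hs)
  rw [hI, Finset.sum_product]
  refine Finset.sum_le_sum fun j _ => Finset.sum_le_sum fun i _ => ?_
  show wst P 20 (S j i) ≤ C * wst P 20 (S j i)
  have := wst_nn P 20 (S j i)
  nlinarith

end SqLo
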