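import Pool.Agent.Lib.MP_e85462_co.L.E1

/-! H5: positions of the squares of a line in a frame of almost the same tilt. -/

open MeasureTheory Set

namespace SqLo

private lemma H5_step {C : ℝ} {P : Finset Sq} {S T : Sq} {t t' h : ℝ} (L : Link C P S t T t' h)
    (w : ℝ) :
    fU w (T.x, T.y) - fU w (S.x, S.y) = (1 / 2 + h) * Real.cos (S.a - w) - t * Real.sin (S.a - w) +
      Real.cos (T.a - w) / 2 + t' * Real.sin (T.a - w) ∧
    fV w (T.x, T.y) - fV w (S.x, S.y) = (1 / 2 + h) * Real.sin (S.a - w) + t * Real.cos (S.a - w) +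
      Real.sin (T.a - w) / 2 - t' * Real.cos (T.a - w) := by
  have e := L.eq
  rw [Sq.pt, Sq.pt, Prod.mk.injEq] at e
  obtain ⟨e1, e2⟩ := e
  rw [Real.cos_sub, Real.cos_sub, Real.sin_sub, Real.sin_sub, fU, fU, fV, fV]
  simp only
  constructor
  · linear_combination (-(Real.cos w)) * e1 + (-(Real.sin w)) * e2
  · linear_combination (Real.sin w) * e1 + (-(Real.cos w)) * e2

private lemma H5_sum {C : ℝ} {P : Finset Sq} {m : ℕ} {S : ℕ → Sq} {t h : ℕ → ℝ}
    (L : Ln C P m S t h) (w : ℝ) (j : ℕ) (hj : j ≤ m) :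
    fU w ((S j).x, (S j).y) - fU w ((S 0).x, (S 0).y) =
      (∑ l ∈ Finset.range j, (1 + h l) * Real.cos ((S l).a - w)) +
      (Real.cos ((S j).a - w) - Real.cos ((S 0).a - w)) / 2 + t j * Real.sin ((S j).a - w) -
      t 0 * Real.sin ((S 0).a - w) ∧
    fV w ((S j).x, (S j).y) - fV w ((S 0).x, (S 0).y) =
      (∑ l ∈ Finset.range j, (1 + h l) * Real.sin ((S l).a - w)) +
      (Real.sin ((S j).a - w) - Real.sin ((S 0).a - w)) / 2 - t j * Real.cos ((S j).a - w) +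
      t 0 * Real.cos ((S 0).a - w) := by
  induction j with
  | zero => simp
  | succ j ih =>
    obtain ⟨h1, h2⟩ := ih (by omega)
    obtain ⟨k1, k2⟩ := H5_step (L j (by omega)) w
    rw [Finset.sum_range_succ, Finset.sum_range_succ]
    constructor
    · linear_combination h1 + k1
    · linear_combination h2 + k2

private lemma H5_wst (P : Finset Sq) (r : ℝ) (S : Sq) : 0 ≤ wst P r S := ENNReal.toReal_nonneg

private lemma H5_t {C : ℝ} (hC : 1 ≤ C) {P : Finset Sq} {m : ℕ} {S : ℕ → Sq} {t h : ℕ → ℝ}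
    (L : Ln C P m S t h) (hm : 1 ≤ m) (j : ℕ) (hj : j ≤ m) : |t j| ≤ 1 / 2 := by
  rcases Nat.lt_or_ge j m with h1 | h1
  · have h2 := (L j h1).mS
    have h3 : 0 ≤ C * wst P 16 (S j) := mul_nonneg (by linarith) (H5_wst _ _ _)
    linarith
  · obtain ⟨i, rfl⟩ : ∃ i, j = i + 1 := ⟨j - 1, by omega⟩
    have h2 := (L i (by omega)).mT
    have h3 : 0 ≤ C * wst P 16 (S (i + 1)) := mul_nonneg (by linarith) (H5_wst _ _ _)
    linarith

private lemma H5_sin {x τ : ℝ} (h : |x| ≤ τ) : |Real.sin x| ≤ τ := Real.abs_sin_le_abs.trans h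

private lemma H5_cos {x τ : ℝ} (h : |x| ≤ τ) : 1 - τ ^ 2 / 2 ≤ Real.cos x ∧ Real.cos x ≤ 1 := by
  refine ⟨?_, Real.cos_le_one x⟩
  have h1 := Real.one_sub_sq_div_two_le_cos (x := x)
  have h2 : x ^ 2 ≤ τ ^ 2 := by
    rw [← sq_abs]
    exact pow_le_pow_left₀ (abs_nonneg x) h 2
  linarith

private lemma H5_mul {a b A B : ℝ} (ha : |a| ≤ A) (hb : |b| ≤ B) : |a * b| ≤ A * B := by
  rw [abs_mul]
  exact mul_le_mul ha hb (abs_nonneg b) ((abs_nonneg a).trans ha)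

theorem chain_pos (C : ℝ) (hC : 1 ≤ C) (P : Finset Sq) {m : ℕ} {S : ℕ → Sq} {t h : ℕ → ℝ}
    (L : Ln C P m S t h) (w τ : ℝ) (h0 : 0 ≤ τ) (h1 : τ ≤ 1 / 10) (r : ℕ) (hr : r ≤ m)
    (ht : ∀ i ≤ r, |(S i).a - w| ≤ τ) (j : ℕ) (hj : j ≤ r) (hm : 1 ≤ m) :
    |fU w ((S j).x, (S j).y) - fU w ((S 0).x, (S 0).y) - j| ≤
      (∑ l ∈ Finset.range j, h l) + 2 * τ + j * τ ^ 2 ∧
    |fV w ((S j).x, (S j).y) - fV w ((S 0).x, (S 0).y)| ≤ 1 + 2 * (j + 1) * τ ∧
    |fV w ((S j).x, (S j).y) - fV w ((S 0).x, (S 0).y) - (t 0 - t j)| ≤ 2 * (j + 1) * τ := by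
  obtain ⟨eU, eV⟩ := H5_sum L w j (hj.trans hr)
  rw [eU, eV]
  have hj0 : (0 : ℝ) ≤ j := Nat.cast_nonneg j
  have htj := H5_t hC L hm j (hj.trans hr)
  have ht0 := H5_t hC L hm 0 (Nat.zero_le m)
  have hθj := ht j hj
  have hθ0 := ht 0 (Nat.zero_le r)
  have hhl : ∀ l ∈ Finset.range j, 0 ≤ h l ∧ h l ≤ 1 / 100 := by
    intro l hl
    have := Finset.mem_range.1 hl
    exact ⟨(L l (by omega)).h0, (L l (by omega)).h1⟩
  have hθl : ∀ l ∈ Finset.range j, |(S l).a - w| ≤ τ := by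
    intro l hl
    have := Finset.mem_range.1 hl
    exact ht l (by omega)
  -- the cosine sum
  have c1 : (∑ l ∈ Finset.range j, (1 + h l) * Real.cos ((S l).a - w)) ≤
      (∑ l ∈ Finset.range j, h l) + j := by
    have e : (∑ l ∈ Finset.range j, h l) + (j : ℝ) = ∑ l ∈ Finset.range j, (h l + 1) := by
      rw [Finset.sum_add_distrib, Finset.sum_const, Finset.card_range, nsmul_eq_mul, mul_one]
    rw [e]
    apply Finset.sum_le_sum
    intro l hl
    have k1 := (H5_cos (hθl l hl)).2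
    have k2 := (hhl l hl).1
    nlinarith
  have c2 : (j : ℝ) - j * (51 / 100 * τ ^ 2) ≤
      ∑ l ∈ Finset.range j, (1 + h l) * Real.cos ((S l).a - w) := by
    have e : (j : ℝ) - j * (51 / 100 * τ ^ 2) = ∑ _l ∈ Finset.range j, (1 - 51 / 100 * τ ^ 2) := by
      rw [Finset.sum_const, Finset.card_range, nsmul_eq_mul]; ring
    rw [e]
    apply Finset.sum_le_sum
    intro l hl
    have k1 := (H5_cos (hθl l hl)).1
    obtain ⟨k2, k3⟩ := hhl l hl
    have k4 : 0 ≤ τ ^ 2 := sq_nonneg τ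
    have k5 : (1 + h l) * (1 - τ ^ 2 / 2) ≤ (1 + h l) * Real.cos ((S l).a - w) :=
      mul_le_mul_of_nonneg_left k1 (by linarith)
    nlinarith
  have c3 := H5_cos hθj
  have c4 := H5_cos hθ0
  have c5 := abs_le.1 (H5_mul htj (H5_sin hθj))
  have c6 := abs_le.1 (H5_mul ht0 (H5_sin hθ0))
  have c7 : τ ^ 2 ≤ τ / 10 := by nlinarith
  have c8 : 0 ≤ ∑ l ∈ Finset.range j, h l := Finset.sum_nonneg fun l hl => (hhl l hl).1
  have c9 : 0 ≤ j * τ ^ 2 := by positivity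
  -- the sine sum
  have s1 : |∑ l ∈ Finset.range j, (1 + h l) * Real.sin ((S l).a - w)| ≤ j * (101 / 100 * τ) := by
    refine (Finset.abs_sum_le_sum_abs _ _).trans ?_
    have e : (j : ℝ) * (101 / 100 * τ) = ∑ _l ∈ Finset.range j, (101 / 100 * τ) := by
      rw [Finset.sum_const, Finset.card_range, nsmul_eq_mul]
    rw [e]
    apply Finset.sum_le_sum
    intro l hl
    obtain ⟨k2, k3⟩ := hhl l hl
    refine H5_mul ?_ (H5_sin (hθl l hl))
    rw [abs_of_nonneg (by linarith)]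
    linarith
  have s2 := abs_le.1 s1
  have s3 := abs_le.1 (H5_sin hθj)
  have s4 := abs_le.1 (H5_sin hθ0)
  have s5 : 0 ≤ j * τ := by positivity
  have s6 := abs_le.1 (H5_mul htj (Real.abs_cos_le_one ((S j).a - w)))
  have s7 := abs_le.1 (H5_mul ht0 (Real.abs_cos_le_one ((S 0).a - w)))
  have s8 : |1 - Real.cos ((S j).a - w)| ≤ τ ^ 2 / 2 := by
    rw [abs_of_nonneg (by linarith)]; linarith
  have s9 : |1 - Real.cos ((S 0).a - w)| ≤ τ ^ 2 / 2 := by
    rw [abs_of_nonneg (by linarith)]; linarith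
  have s10 := abs_le.1 (H5_mul htj s8)
  have s11 := abs_le.1 (H5_mul ht0 s9)
  refine ⟨?_, ?_, ?_⟩
  · rw [abs_le]
    constructor <;> linarith
  · rw [abs_le]
    constructor <;> linarith
  · rw [abs_le]
    constructor <;> linarith

/-- the two frames: before and after the rotation by 90 degrees -/
theorem rot_UV (X w : ℝ) (S : Sq) :
    fU w ((rot X S).x, (rot X S).y) = X * Real.cos w - fV w (S.x, S.y) ∧
    fV w ((rot X S).x, (rot X S).y) = fU w (S.x, S.y) - X * Real.sin w := by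
  simp only [fU, fV, rot]
  constructor <;> ring

end SqLo
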