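import Pool.Agent.Lib.MP_e85462_co.L.H6p

/-! H6: the vertical lines which start in a window of tilt `φ` cost at least `N^2 φ / 4000`. -/

open MeasureTheory Set

namespace SqLo

theorem window (C : ℝ) (hC : 1 ≤ C) (X : ℝ) (P : Finset Sq) (hF : Framed X P) (hT : TC P C)
    {N M n : ℕ} {y0 D φ b : ℝ} {S : ℕ → ℕ → Sq} {t h : ℕ → ℕ → ℝ} {j1 i0 : ℕ}
    (V : Win C X P N M n y0 S t h D j1 i0 φ b)
    (hφ' : ∃ i, i0 ≤ i ∧ i < i0 + N ∧ |(S j1 i).a| = φ)
    (j0 : ℕ) (hj0 : 20 ≤ j0) (hj0' : j0 ≤ N + 20) (κ : ℝ)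
    (hκ0 : cst C P (S j0) (h j0) (n + 8) ≤ κ) (hκ1 : cst C P (S j1) (h j1) (n + 8) ≤ κ)
    (hκφ : 60 * κ / N ≤ φ) (hκ : κ ≤ 1 / 1000)
    (w : ℕ → ℝ) (hw0 : ∀ i, 0 ≤ w i)
    (hw : ∀ i, i0 ≤ i → i < i0 + N → w i < 1 / 100 →
      ∃ (m : ℕ) (Y : ℕ → Sq) (s g : ℕ → ℝ), GLine C X (rotP X P) (rot X (S j1 i)) m Y s g ∧
        cst C (rotP X P) Y g (m + 8) ≤ w i) :
    (N : ℝ) ^ 2 * φ / 4000 ≤ ∑ i ∈ Finset.Ico i0 (i0 + N), w i := by
  have hφ0 : 0 ≤ φ := by obtain ⟨i, _, _, h⟩ := hφ'; rw [← h]; exact abs_nonneg _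
  obtain ⟨hN, hNφ, hφs, hb0, hbs, hφN, hNb⟩ := H6_num hC V hφ0
  have hi1 := V.hi1
  have hi0 := V.hi0
  have hj1 := V.hj1
  have hj1' := V.hj1'
  have hM := V.hM
  have hNn := V.hN
  have hwnn : 0 ≤ ∑ i ∈ Finset.Ico i0 (i0 + N), w i := Finset.sum_nonneg fun i _ => hw0 i
  by_contra hcon
  push Not at hcon
  have hφpos : 0 < φ := by
    rcases hφ0.eq_or_lt with h | h
    · rw [← h] at hcon; simp at hcon; linarith
    · exact h
  have hδ : (N:ℝ) ^ 2 * φ / 4000 ≤ 1 / 4000 := by linarith [V.hφN]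
  obtain ⟨k0, k1, hk0, hk0', hk1, hk1', m0, Y0, s0, g0, m1, Y1, s1, g1, L0, c0, L1, c1, hdz⟩ :=
    vert C hC X P hF hT _ n (S j1) (t j1) (h j1) (V.G.ln j1 (by omega)) (hκ1.trans hκ) N i0
      hNn hi0 hi1 φ V.hφ V.hφN _ hδ w hw0 hw hcon
  set a : ℝ := N * φ with ha
  have hapos : 0 < a := by rw [ha]; positivity
  have e6 : 6 * ((N:ℝ) ^ 2 * φ / 4000) / N = 3 / 2000 * a := by
    rw [ha]; field_simp; ring
  have e24 : 24 * ((N:ℝ) ^ 2 * φ / 4000) / N = 6 / 1000 * a := by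
    rw [ha]; field_simp; ring
  rw [e6] at c0 c1
  rw [e24] at hdz
  have c0' : cst C (rotP X P) Y0 g0 (m0 + 8) ≤ 1 / 1000 := by linarith
  have c1' : cst C (rotP X P) Y1 g1 (m1 + 8) ≤ 1 / 1000 := by linarith
  have hkk : k0 ≤ k1 := by omega
  -- the angle
  set ω := (S j1 k0).a with hωd
  have hω : |ω| ≤ φ := V.hφ k0 (by omega) (by omega)
  have hA' : |(S j1 k1).a| ≤ φ := V.hφ k1 (by omega) (by omega)
  have hbt := fun (T : Sq) (hTP : T ∈ P) hx =>
    H6_bt hC hF hT V hφ0 (kr := k0) (by omega) (by omega) T hTP hx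
  have hω' : 99 / 100 * φ ≤ |ω| := by
    obtain ⟨i, h1, h2, h3⟩ := hφ'
    have h4 := hbt (S j1 i) (H6_mem V (by omega) (by omega))
      ⟨i, j1, h1, h2, by omega, by simp, by simp⟩
    rw [← hωd] at h4
    have h5 : |(S j1 i).a| ≤ |(S j1 i).a - ω| + |ω| := by
      have : (S j1 i).a = ((S j1 i).a - ω) + ω := by ring
      calc |(S j1 i).a| = |((S j1 i).a - ω) + ω| := by rw [← this]
        _ ≤ _ := abs_add_le _ _
    rw [h3] at h5
    linarith
  -- positions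
  obtain ⟨px, py, pV⟩ := win_pos C hC X P hF hT V k0 k1 (by omega) hkk (by omega)
  rw [← hωd] at pV
  have t0 := H6_t hC V (j := j1) (i := k0) (by omega) (by omega)
  have t1 := H6_t hC V (j := j1) (i := k1) (by omega) (by omega)
  have hkR : (5:ℝ) * k0 + 3 * N ≤ 5 * k1 := by
    have : 5 * k0 + 3 * N ≤ 5 * k1 := by omega
    exact_mod_cast this
  have hkR' : (k1:ℝ) + 40 ≤ k0 + N := by
    have : k1 + 40 ≤ k0 + N := by omega
    exact_mod_cast this
  obtain ⟨zx, zy⟩ := H6_z hC hF hT V hφ0 (k := k0) (by omega) (by omega) j0 hj0 hj0' κ hκ0 hκ1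
  have hj1R : (2:ℝ) * N + 20 ≤ j1 := by exact_mod_cast hj1
  have hj1R' : (j1:ℝ) ≤ 3 * N + 20 := by exact_mod_cast hj1'
  have hj0R : (20:ℝ) ≤ j0 := by exact_mod_cast hj0
  have hj0R' : (j0:ℝ) ≤ N + 20 := by exact_mod_cast hj0'
  have p1 := abs_le.mp px
  have p2 := abs_le.mp py
  have p3 := abs_le.mp pV
  have p4 := abs_le.mp t0
  have p5 := abs_le.mp t1
  have p6 := abs_le.mp zx
  have p7 := abs_le.mp zy
  -- the ordinates of the ends of the window
  have hY : |(S j1 k1).y - (S j1 k0).y| ≤ 101 / 100 := by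
    rw [abs_le]; constructor <;> linarith
  have hX0 : 59 / 100 * (N:ℝ) + 1 ≤ (S j1 k1).x - (S j1 k0).x := by linarith
  have hX1 : (S j1 k1).x - (S j1 k0).x ≤ N := by linarith
  -- V phase
  have n1 := H6_ent L0 hφs hω
  have n2 := H6_ent L1 hφs hA'
  have hdV : 57 / 100 * a ≤ dz (fV ω ((S j1 k1).x, (S j1 k1).y) -
      fV ω ((S j1 k0).x, (S j1 k0).y)) := by
    have e1 : fV ω ((S j1 k1).x, (S j1 k1).y) - fV ω ((S j1 k0).x, (S j1 k0).y) =
        ((S j1 k1).y - (S j1 k0).y) * Real.cos ω - ((S j1 k1).x - (S j1 k0).x) * Real.sin ω := by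
      simp only [fV]; ring
    rw [e1]
    have e2 : |((S j1 k1).y - (S j1 k0).y) -
        ((-round ((ent Y1 s1 0).1 - (ent Y0 s0 0).1) : ℤ) : ℝ)| ≤ 61 / 10000 * (N * φ) := by
      have q : dz ((ent Y1 s1 0).1 - (ent Y0 s0 0).1) =
        |(ent Y1 s1 0).1 - (ent Y0 s0 0).1 - round ((ent Y1 s1 0).1 - (ent Y0 s0 0).1)| := rfl
      rw [q] at hdz
      rw [abs_le] at hdz n1 n2 ⊢
      rw [Int.cast_neg]
      constructor <;> linarith
    exact H6_V _ hN hω hω' hφs hNφ hX0 hX1 hY e2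
  have hVlt : |fV ω ((S j1 k1).x, (S j1 k1).y) - fV ω ((S j1 k0).x, (S j1 k0).y)| < 1 := by
    by_contra hge
    push Not at hge
    set v := fV ω ((S j1 k1).x, (S j1 k1).y) - fV ω ((S j1 k0).x, (S j1 k0).y) with hv
    rcases le_total 0 v with h | h
    · rw [abs_of_nonneg h] at hge
      have q := dz_le v 1
      have q' : |v - ((1:ℤ):ℝ)| ≤ 3 * N * b := by
        rw [Int.cast_one, abs_le]; constructor <;> linarith
      linarith
    · rw [abs_of_nonpos h] at hge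
      have q := dz_le v (-1)
      have q' : |v - ((-1:ℤ):ℝ)| ≤ 3 * N * b := by
        rw [Int.cast_neg, Int.cast_one, abs_le]; constructor <;> linarith
      linarith
  -- U phase
  have hU := H6_U (N := N) (φ := φ) (ω := ω) (X := (S j1 k0).x - (S j0 k0).x)
    (Y := (S j1 k0).y - (S j0 k0).y) (κ := κ) hN hω hω' hφs hNφ (by
      rw [div_le_iff₀ (by linarith)] at hκφ; linarith) zx (by linarith) (by linarith)
  have eU : fU ω ((S j1 k0).x, (S j1 k0).y) - fU ω ((S j0 k0).x, (S j0 k0).y) =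
      ((S j1 k0).x - (S j0 k0).x) * Real.cos ω + ((S j1 k0).y - (S j0 k0).y) * Real.sin ω := by
    simp only [fU]; ring
  rw [← eU] at hU
  have hdU : 9 / 10 * a ≤ dz (fU ω ((S j1 k0).x, (S j1 k0).y) -
      fU ω ((S j0 k0).x, (S j0 k0).y)) := by
    have := H6_dz (d := 9 / 10 * a) (0 : ℤ) hU.1 (by linarith [hU.2])
    simpa using this
  -- the number of steps
  obtain ⟨s1', s2', cc1, cc2⟩ := H6_trig hω hφs
  set vz := fV ω ((S j1 k0).x, (S j1 k0).y) - fV ω ((S j0 k0).x, (S j0 k0).y) with hvz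
  have hVz : |vz - ((S j1 k0).y - (S j0 k0).y)| ≤ 1 / 100 := by
    have e1 : vz - ((S j1 k0).y - (S j0 k0).y) = -(((S j1 k0).y - (S j0 k0).y) *
        (1 - Real.cos ω)) - ((S j1 k0).x - (S j0 k0).x) * Real.sin ω := by
      rw [hvz]; simp only [fV]; ring
    have e2 : |((S j1 k0).y - (S j0 k0).y) * (1 - Real.cos ω)| ≤ 1 / 1000 := by
      have e3 : |(S j1 k0).y - (S j0 k0).y| ≤ 4 * N := by rw [abs_le]; constructor <;> linarith
      rw [abs_mul, abs_of_nonneg (by linarith : 0 ≤ 1 - Real.cos ω)]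
      have := mul_le_mul e3 cc1 (by linarith) (by linarith)
      linarith
    have e4 : |((S j1 k0).x - (S j0 k0).x) * Real.sin ω| ≤ 4 / 1000 := by
      rw [abs_mul]
      have e5 : |Real.sin ω| ≤ 1 := Real.abs_sin_le_one ω
      have := mul_le_mul zx e5 (abs_nonneg _) ((abs_nonneg _).trans zx)
      linarith
    rw [e1]
    rw [abs_le] at e2 e4 ⊢
    constructor <;> linarith
  have hVz' := abs_le.mp hVz
  have hrd := abs_le.mp (abs_sub_round vz)
  obtain ⟨r, hr⟩ : ∃ r : ℕ, ((r:ℤ)) = round vz := by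
    refine ⟨(round vz).toNat, Int.toNat_of_nonneg ?_⟩
    have : (0:ℝ) ≤ (round vz : ℝ) := by linarith
    exact_mod_cast this
  have hrR : ((round vz : ℤ):ℝ) = (r:ℝ) := by rw [← hr]; simp
  rw [hrR] at hrd
  have hr15 : r + 15 ≤ j1 := by
    have : (r:ℝ) + 15 ≤ j1 := by linarith
    exact_mod_cast this
  have hIn : 0 ≤ (S j0 k0).y := by
    have h1 := (V.G.ln j0 (by omega)).ins k0 (by omega) (by omega)
    exact (h1 (op_sub_cl _ (ctr_mem _))).2.2.1
  have q0 := H6_m hC L0 hφs hω c0'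
  have q1 := H6_m hC L1 hφs hA' c1'
  have hY' := abs_le.mp hY
  have hrm0 : r ≤ m0 + 8 := by
    have : (r:ℝ) ≤ m0 + 8 := by linarith
    exact_mod_cast this
  have hrm1 : r ≤ m1 + 8 := by
    have : (r:ℝ) ≤ m1 + 8 := by linarith
    exact_mod_cast this
  -- the chains
  have hτ0 : 0 ≤ 11 / 10 * b := by linarith
  have hτ1 : 11 / 10 * b ≤ 1 / 10 := by linarith
  have ht0 : ∀ i ≤ r, |(Y0 i).a - ω| ≤ 11 / 10 * b := fun i hi =>
    win_chain C hC X P hF hT V k0 k0 hk0 (by omega) (by omega) (by omega) m0 Y0 s0 g0 L0 c0'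
      r hr15 hrm0 i hi
  have ht1 : ∀ i ≤ r, |(Y1 i).a - ω| ≤ 11 / 10 * b := fun i hi =>
    win_chain C hC X P hF hT V k1 k0 (by omega) (by omega) (by omega) (by omega) m1 Y1 s1 g1 L1
      c1' r hr15 hrm1 i hi
  have ch0 := fun j hj => H6_chain hC L0 hrm0 c0 hτ0 hτ1 ht0 j hj
  have ch1 := fun j hj => H6_chain hC L1 hrm1 c1 hτ0 hτ1 ht1 j hj
  have hrN : (r:ℝ) ≤ 3 * N + 5 := by linarith
  have hr0 : (0:ℝ) ≤ r := by positivity
  have hrτ : ((r:ℝ) + 1) * (11 / 10 * b) ≤ a / 10 ^ 11 := by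
    have := mul_le_mul_of_nonneg_right (by linarith : (r:ℝ) + 1 ≤ 4 * N) hτ0
    linarith
  have he : 3 / 2000 * a + 2 * (11 / 10 * b) + r * (11 / 10 * b) ^ 2 ≤ 16 / 10000 * a := by
    have h1 : (r:ℝ) * (11 / 10 * b) ^ 2 ≤ a / 10 ^ 11 := by
      have h2 : (r:ℝ) * (11 / 10 * b) ≤ a / 10 ^ 11 := by linarith
      have h3 : (r:ℝ) * (11 / 10 * b) ^ 2 = (r:ℝ) * (11 / 10 * b) * (11 / 10 * b) := by ring
      have h4 : 0 ≤ (r:ℝ) * (11 / 10 * b) := by positivity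
      rw [h3]
      calc (r:ℝ) * (11 / 10 * b) * (11 / 10 * b) ≤ (r:ℝ) * (11 / 10 * b) * 1 :=
            mul_le_mul_of_nonneg_left (by linarith) h4
        _ ≤ _ := by linarith
    linarith
  have he' : 1 + 2 * ((r:ℝ) + 1) * (11 / 10 * b) ≤ 101 / 100 := by linarith
  have z0 : H6_ir X (Y0 0) = S j1 k0 := by rw [L0.s0, H6_irr]
  have z1 : H6_ir X (Y1 0) = S j1 k1 := by rw [L1.s0, H6_irr]
  have hxy := fun (p : ℝ × ℝ) => H6_xy (N := N) (φ := φ) (ω := ω) (r := r)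
    (xA := (S j1 k0).x) (yA := (S j1 k0).y) (x' := (S j1 k1).x) (y' := (S j1 k1).y)
    (px := p.1) (py := p.2) hN hω hφs hNφ hrN hr0 (by linarith) hX1 hY
  have hr15R : (r:ℝ) + 15 ≤ j1 := by exact_mod_cast hr15
  have hcov : ∀ p : ℝ × ℝ, (fU ω ((S j1 k0).x, (S j1 k0).y) - 5 / 2 ≤ fU ω p ∧
      fU ω p ≤ fU ω ((S j1 k1).x, (S j1 k1).y) + 5 / 2 ∧
      fV ω ((S j1 k0).x, (S j1 k0).y) - r - 2 ≤ fV ω p ∧
      fV ω p ≤ fV ω ((S j1 k0).x, (S j1 k0).y) + 2) →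
      ∃ i j : ℕ, i0 ≤ i ∧ i < i0 + N ∧ j ≤ M ∧ |p.1 - (S j i).x| ≤ 21 / 10 ∧
        |p.2 - (S j i).y| ≤ 21 / 10 := by
    rintro p ⟨a1, a2, a3, a4⟩
    obtain ⟨b1, b2, b3, b4⟩ := hxy p a1 a2 a3 a4
    exact win_cover C hC X P hF hT V k0 k1 hk0 hkk (by omega) p b1 b2 (by linarith) b4
  have hUU : |fU ω ((S j1 k1).x, (S j1 k1).y) - fU ω ((S j1 k0).x, (S j1 k0).y) -
      ((S j1 k1).x - (S j1 k0).x)| ≤ 1 / 100 := by
    have e1 : fU ω ((S j1 k1).x, (S j1 k1).y) - fU ω ((S j1 k0).x, (S j1 k0).y) -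
        ((S j1 k1).x - (S j1 k0).x) = -(((S j1 k1).x - (S j1 k0).x) * (1 - Real.cos ω)) +
        ((S j1 k1).y - (S j1 k0).y) * Real.sin ω := by
      simp only [fU]; ring
    have e2 : |((S j1 k1).x - (S j1 k0).x) * (1 - Real.cos ω)| ≤ 1 / 1000 := by
      have e3 : |(S j1 k1).x - (S j1 k0).x| ≤ N := by rw [abs_le]; constructor <;> linarith
      rw [abs_mul, abs_of_nonneg (by linarith : 0 ≤ 1 - Real.cos ω)]
      have := mul_le_mul e3 cc1 (by linarith) (by linarith)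
      linarith
    have e4 : |((S j1 k1).y - (S j1 k0).y) * Real.sin ω| ≤ 1 / 1000 := by
      rw [abs_mul]
      have e5 : |Real.sin ω| ≤ φ := s1'.trans hω
      have := mul_le_mul hY e5 (abs_nonneg _) (by norm_num)
      linarith
    rw [e1]
    rw [abs_le] at e2 e4 ⊢
    constructor <;> linarith
  have hUU' := abs_le.mp hUU
  have hfin := block P hF.pk ω (11 / 10 * b) b (N + 6) (16 / 10000 * a) (57 / 100 * a)
    (9 / 10 * a) (fU ω ((S j1 k0).x, (S j1 k0).y) - 5 / 2)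
    (fU ω ((S j1 k1).x, (S j1 k1).y) + 5 / 2) (fV ω ((S j1 k0).x, (S j1 k0).y) - r - 2)
    (fV ω ((S j1 k0).x, (S j1 k0).y) + 2) r (fun j => H6_ir X (Y0 j))
    (fun j => H6_ir X (Y1 j)) (S j0 k0) hτ0 (by linarith) (by linarith)
    (by
      rintro T hTP ⟨p, hpT, hp⟩
      obtain ⟨i, j, d1, d2, d3, d4, d5⟩ := hcov p hp
      obtain ⟨f1, f2⟩ := cl_bd hpT
      refine hbt T hTP ⟨i, j, d1, d2, d3, ?_, ?_⟩
      · rw [abs_le] at d4 f1 ⊢; constructor <;> linarith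
      · rw [abs_le] at d5 f2 ⊢; constructor <;> linarith)
    (by
      refine block_hole C hC P S M i0 (i0 + N) b V.hb _ ?_
      intro z hz
      obtain ⟨i, j, d1, d2, d3, d4, d5⟩ := hcov z hz
      exact ⟨i, j, d1, d2, d3, d4.trans (by norm_num), d5.trans (by norm_num)⟩)
    (by
      intro j hj
      obtain ⟨f1, f2⟩ := ch0 j hj
      rw [z0]
      have f2' := abs_le.mp f2
      refine ⟨H6_memY L0 (by omega), by linarith, by linarith, f1.trans he⟩)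
    (by
      intro j hj
      obtain ⟨f1, f2⟩ := ch1 j hj
      rw [z1]
      have f2' := abs_le.mp f2
      refine ⟨H6_memY L1 (by omega), by linarith, by linarith, f1.trans he⟩)
    (by rw [z0]) (by rw [z0]) (by rw [z0, z1]; exact hVlt)
    (H6_mem V (by omega) (by omega))
    (by have := abs_le.mp (hU.2.trans (by linarith : 32 / 10 * a ≤ 1)); linarith)
    (by have := abs_le.mp (hU.2.trans (by linarith : 32 / 10 * a ≤ 1)); linarith)
    (by
      have f1 := abs_le.mp ((ch0 r le_rfl).1.trans he)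
      show |fV ω ((H6_ir X (Y0 r)).x, (H6_ir X (Y0 r)).y) -
        fV ω ((S j0 k0).x, (S j0 k0).y)| ≤ 3 / 5
      rw [abs_le]; constructor <;> linarith)
    (by positivity) (by rw [z0, z1]; exact hdV) (by linarith)
    (by
      have h1 : 200 * ((N:ℝ) + 6 + 5) * (11 / 10 * b) = 220 * (N * b) + 2420 * b := by ring
      linarith)
    (by rw [z0]; exact hdU)
  have h9 : ((r:ℝ) + 1) * (16 * b / (57 / 100 * a) + 10 * (11 / 10 * b)) ≤ a / 10 := by
    have h1 : ((r:ℝ) + 1) * (10 * (11 / 10 * b)) ≤ a / 100 := by linarith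
    have h2 : ((r:ℝ) + 1) * (16 * b / (57 / 100 * a)) ≤ a / 100 := by
      have h3 : 16 * b / (57 / 100 * a) ≤ φ / (200 * N) := by
        rw [div_le_div_iff₀ (by positivity) (by positivity), ha]
        have := V.hbφ
        have h4 : 16 * b * (200 * N) ≤ 16 * (φ ^ 2 / 10000) * (200 * N) := by
          apply mul_le_mul_of_nonneg_right (by linarith); positivity
        have h5 : 0 ≤ φ ^ 2 * N := by positivity
        linarith
      have h6 : ((r:ℝ) + 1) * (φ / (200 * N)) ≤ (4 * N) * (φ / (200 * N)) := by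
        apply mul_le_mul_of_nonneg_right (by linarith); positivity
      have h7 : (4 * (N:ℝ)) * (φ / (200 * N)) = φ / 50 := by field_simp; ring
      have h8 := mul_le_mul_of_nonneg_left h3 (by linarith : 0 ≤ (r:ℝ) + 1)
      linarith
    rw [mul_add]; linarith
  linarith

end SqLo
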