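import Pool.Agent.Lib.MP_e85462_co.L.H3
import Pool.Agent.Lib.MP_e85462_co.L.E4

/-! H6a: if the vertical lines which start in a window of a horizontal line are cheap, there are two very cheap ones, one in the left part and one in the right part, and they are in phase. -/

open MeasureTheory Set

namespace SqLo

/-- one index of a large set has a small weight -/
private theorem H6a_pick (N : ℕ) (hN : 10000 ≤ N) (δ : ℝ) (I K : Finset ℕ) (w : ℕ → ℝ)
    (hw0 : ∀ i, 0 ≤ w i) (hK : K ⊆ I) (hc : (N : ℝ) / 6 ≤ K.card)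
    (hsum : ∑ i ∈ I, w i < δ) : ∃ k ∈ K, w k ≤ 6 * δ / N := by
  have hNpos : (0 : ℝ) < N := by
    have : (10000 : ℝ) ≤ N := by exact_mod_cast hN
    linarith
  have hδ : 0 < δ := lt_of_le_of_lt (Finset.sum_nonneg fun i _ => hw0 i) hsum
  have hne : K.Nonempty := by
    rw [← Finset.card_pos]
    have : (0 : ℝ) < K.card := by linarith
    exact_mod_cast this
  refine Finset.exists_le_of_sum_le hne ?_
  have h1 : ∑ i ∈ K, w i ≤ ∑ i ∈ I, w i :=
    Finset.sum_le_sum_of_subset_of_nonneg hK fun i _ _ => hw0 i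
  have h2 : ∑ _i ∈ K, 6 * δ / N = K.card * (6 * δ / N) := by
    rw [Finset.sum_const, nsmul_eq_mul]
  have h3 : (N : ℝ) / 6 * (6 * δ / N) = δ := by field_simp
  have h4 : (N : ℝ) / 6 * (6 * δ / N) ≤ K.card * (6 * δ / N) :=
    mul_le_mul_of_nonneg_right hc (by positivity)
  linarith

private theorem H6a_ent (X : ℝ) (S : Sq) (Y : ℕ → Sq) (s : ℕ → ℝ) (h : Y 0 = rot X S) :
    (ent Y s 0).1 = X - S.y - Real.cos S.a / 2 - s 0 * Real.sin S.a ∧
    (ent Y s 0).2 = S.x - Real.sin S.a / 2 + s 0 * Real.cos S.a := by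
  simp only [ent, h, rot, Sq.pt]
  constructor <;> ring

private theorem H6a_trig {a φ : ℝ} (h : |a| ≤ φ) (h1 : φ ≤ 1 / 1000) :
    999 / 1000 ≤ Real.cos a ∧ Real.cos a ≤ 1 ∧ |Real.sin a| ≤ φ := by
  have h2 := Real.one_sub_sq_div_two_le_cos (x := a)
  have h3 : a ^ 2 ≤ φ ^ 2 := by
    rw [← sq_abs a]; exact pow_le_pow_left₀ (abs_nonneg _) h 2
  have h4 : 0 ≤ φ := (abs_nonneg _).trans h
  refine ⟨by nlinarith, Real.cos_le_one a, Real.abs_sin_le_abs.trans h⟩

theorem vert (C : ℝ) (hC : 1 ≤ C) (X : ℝ) (P : Finset Sq) (hF : Framed X P) (hT : TC P C)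
    (S0 : Sq) (n : ℕ) (S : ℕ → Sq) (t h : ℕ → ℝ) (L : GLine C X P S0 n S t h)
    (hcost : cst C P S h (n + 8) ≤ 1 / 1000)
    (N i0 : ℕ) (hN : 10000 ≤ N) (hi0 : 1 ≤ i0) (hi1 : i0 + N ≤ n)
    (φ : ℝ) (hφ : ∀ i, i0 ≤ i → i < i0 + N → |(S i).a| ≤ φ) (hφN : (N : ℝ) ^ 2 * φ ≤ 1)
    (δ : ℝ) (hδ : δ ≤ 1 / 4000) (w : ℕ → ℝ) (hw0 : ∀ i, 0 ≤ w i)
    (hw : ∀ i, i0 ≤ i → i < i0 + N → w i < 1 / 100 →
      ∃ (m : ℕ) (Y : ℕ → Sq) (s g : ℕ → ℝ), GLine C X (rotP X P) (rot X (S i)) m Y s g ∧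
        cst C (rotP X P) Y g (m + 8) ≤ w i)
    (hsum : ∑ i ∈ Finset.Ico i0 (i0 + N), w i < δ) :
    ∃ k0 k1 : ℕ, i0 + 20 ≤ k0 ∧ 5 * k0 ≤ 5 * i0 + N ∧ 5 * i0 + 4 * N ≤ 5 * k1 ∧
      k1 + 20 ≤ i0 + N ∧
      ∃ (m0 : ℕ) (Y0 : ℕ → Sq) (s0 g0 : ℕ → ℝ) (m1 : ℕ) (Y1 : ℕ → Sq) (s1 g1 : ℕ → ℝ),
        GLine C X (rotP X P) (rot X (S k0)) m0 Y0 s0 g0 ∧
        cst C (rotP X P) Y0 g0 (m0 + 8) ≤ 6 * δ / N ∧
        GLine C X (rotP X P) (rot X (S k1)) m1 Y1 s1 g1 ∧
        cst C (rotP X P) Y1 g1 (m1 + 8) ≤ 6 * δ / N ∧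
        dz ((ent Y1 s1 0).1 - (ent Y0 s0 0).1) ≤ 24 * δ / N := by
  have hNR : (10000 : ℝ) ≤ N := by exact_mod_cast hN
  have hNpos : (0 : ℝ) < N := by linarith
  -- the two cheap indices
  obtain ⟨k0, hk0, hwk0⟩ := H6a_pick N hN δ (Finset.Ico i0 (i0 + N))
    (Finset.Icc (i0 + 20) (i0 + N / 5)) w hw0 (by
      intro k hk
      rw [Finset.mem_Icc] at hk
      rw [Finset.mem_Ico]
      omega) (by
      rw [Nat.card_Icc]
      have h1 : N ≤ 6 * (i0 + N / 5 + 1 - (i0 + 20)) := by omega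
      have h2 : (N : ℝ) ≤ 6 * ((i0 + N / 5 + 1 - (i0 + 20) : ℕ) : ℝ) := by exact_mod_cast h1
      linarith) hsum
  obtain ⟨k1, hk1, hwk1⟩ := H6a_pick N hN δ (Finset.Ico i0 (i0 + N))
    (Finset.Icc (i0 + (4 * N + 4) / 5) (i0 + N - 20)) w hw0 (by
      intro k hk
      rw [Finset.mem_Icc] at hk
      rw [Finset.mem_Ico]
      omega) (by
      rw [Nat.card_Icc]
      have h1 : N ≤ 6 * (i0 + N - 20 + 1 - (i0 + (4 * N + 4) / 5)) := by omega
      have h2 : (N : ℝ) ≤ 6 * ((i0 + N - 20 + 1 - (i0 + (4 * N + 4) / 5) : ℕ) : ℝ) := by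
        exact_mod_cast h1
      linarith) hsum
  rw [Finset.mem_Icc] at hk0 hk1
  have hk0a : i0 + 20 ≤ k0 := hk0.1
  have hk0b : 5 * k0 ≤ 5 * i0 + N := by omega
  have hk1a : 5 * i0 + 4 * N ≤ 5 * k1 := by omega
  have hk1b : k1 + 20 ≤ i0 + N := by omega
  have hk01 : k0 ≤ k1 := by omega
  -- the vertical lines
  have hwin : ∀ k, i0 ≤ k → k < i0 + N → w k < 1 / 100 := by
    intro k hk hk'
    have : w k ≤ ∑ i ∈ Finset.Ico i0 (i0 + N), w i :=
      Finset.single_le_sum (fun i _ => hw0 i) (Finset.mem_Ico.2 ⟨hk, hk'⟩)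
    linarith
  have hex : ∀ k, ∃ (m : ℕ) (Y : ℕ → Sq) (s g : ℕ → ℝ), i0 ≤ k → k < i0 + N →
      GLine C X (rotP X P) (rot X (S k)) m Y s g ∧ cst C (rotP X P) Y g (m + 8) ≤ w k := by
    intro k
    by_cases hk : i0 ≤ k ∧ k < i0 + N
    · obtain ⟨m, Y, s, g, h1⟩ := hw k hk.1 hk.2 (hwin k hk.1 hk.2)
      exact ⟨m, Y, s, g, fun _ _ => h1⟩
    · exact ⟨0, S, t, h, fun h1 h2 => absurd ⟨h1, h2⟩ hk⟩
  choose m Y s g hG using hex
  -- facts on the horizontal line
  have hφ0 : 0 ≤ φ := (abs_nonneg _).trans (hφ i0 le_rfl (by omega))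
  have hNφ : (N : ℝ) * φ ≤ 1 / 10000 := by
    have : (10000 : ℝ) * (N * φ) ≤ N ^ 2 * φ := by nlinarith [mul_nonneg hNpos.le hφ0]
    linarith
  have hφ1 : φ ≤ 1 / 10000000 := by nlinarith
  have hφ2 : φ ≤ 1 / 1000 := by linarith
  have hlk : ∀ i, i < n + 8 → Link C P (S i) (t i) (S (i + 1)) (t (i + 1)) (h i) := L.ln
  have htt : ∀ i, i < n + 8 → |t i| < 1 / 2 := by
    intro i hi
    have h1 := (hlk i hi).mS
    have h2 : 0 ≤ 10 * (C * wst P 16 (S i)) := by
      have := wst_nn P 16 (S i); positivity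
    linarith
  have hy : ∀ k l, i0 ≤ k → k ≤ l → l < i0 + N → |(S l).y - (S k).y| ≤ 101 / 100 := by
    intro k l hk hkl hl
    obtain ⟨-, e1⟩ := ent_sum L.ln k l hkl (by omega)
    have e2 := (ctr_ent S t k).2
    have e3 := (ctr_ent S t l).2
    have hsumle : |∑ i ∈ Finset.Ico k l, (1 + h i) * Real.sin (S i).a| ≤ 1 / 1000 := by
      calc |∑ i ∈ Finset.Ico k l, (1 + h i) * Real.sin (S i).a|
          ≤ ∑ i ∈ Finset.Ico k l, |(1 + h i) * Real.sin (S i).a| :=
            Finset.abs_sum_le_sum_abs _ _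
        _ ≤ ∑ i ∈ Finset.Ico k l, 2 * φ := by
            refine Finset.sum_le_sum fun i hi => ?_
            rw [Finset.mem_Ico] at hi
            have l1 := hlk i (by omega)
            have l2 := (H6a_trig (hφ i (by omega) (by omega)) hφ2).2.2
            rw [abs_mul, abs_of_nonneg (by linarith [l1.h0])]
            exact mul_le_mul (by linarith [l1.h1]) l2 (abs_nonneg _) (by norm_num)
        _ = ((l - k : ℕ) : ℝ) * (2 * φ) := by
            rw [Finset.sum_const, nsmul_eq_mul, Nat.card_Ico]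
        _ ≤ N * (2 * φ) := by
            refine mul_le_mul_of_nonneg_right ?_ (by linarith)
            have : l - k ≤ N := by omega
            exact_mod_cast this
        _ ≤ _ := by linarith
    have c1 := H6a_trig (hφ k (by omega) (by omega)) hφ2
    have c2 := H6a_trig (hφ l (by omega) (by omega)) hφ2
    have t1 := htt k (by omega)
    have t2 := htt l (by omega)
    have p1 : |t k * Real.cos (S k).a| ≤ 1 / 2 := by
      rw [abs_mul, abs_of_nonneg (by linarith : (0:ℝ) ≤ Real.cos (S k).a)]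
      calc |t k| * Real.cos (S k).a ≤ 1 / 2 * 1 :=
            mul_le_mul t1.le c1.2.1 (by linarith) (by norm_num)
        _ = _ := by norm_num
    have p2 : |t l * Real.cos (S l).a| ≤ 1 / 2 := by
      rw [abs_mul, abs_of_nonneg (by linarith : (0:ℝ) ≤ Real.cos (S l).a)]
      calc |t l| * Real.cos (S l).a ≤ 1 / 2 * 1 :=
            mul_le_mul t2.le c2.2.1 (by linarith) (by norm_num)
        _ = _ := by norm_num
    obtain ⟨-, -, s1⟩ := c1
    obtain ⟨-, -, s2⟩ := c2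
    rw [abs_le] at hsumle p1 p2 s1 s2 ⊢
    constructor <;> linarith
  have hy' : ∀ k l, i0 ≤ k → k < i0 + N → i0 ≤ l → l < i0 + N →
      |(S l).y - (S k).y| ≤ 101 / 100 := by
    intro k l hk hk' hl hl'
    rcases le_total k l with hkl | hkl
    · exact hy k l hk hkl hl'
    · rw [abs_sub_comm]; exact hy l k hl hkl hk'
  have hx : ∀ k, i0 ≤ k → k + 1 < i0 + N → |(S (k + 1)).x - (S k).x| ≤ 102 / 100 := by
    intro k hk hk'
    obtain ⟨e1, -⟩ := ent_sum L.ln k (k + 1) (by omega) (by omega)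
    rw [Nat.Ico_succ_singleton, Finset.sum_singleton] at e1
    have e2 := (ctr_ent S t k).1
    have e3 := (ctr_ent S t (k + 1)).1
    have c1 := H6a_trig (hφ k (by omega) (by omega)) hφ2
    have c2 := H6a_trig (hφ (k + 1) (by omega) (by omega)) hφ2
    have t1 := htt k (by omega)
    have t2 := htt (k + 1) (by omega)
    have l1 := hlk k (by omega)
    have p1 : |t k * Real.sin (S k).a| ≤ 1 / 1000 := by
      rw [abs_mul]
      calc |t k| * |Real.sin (S k).a| ≤ 1 * (1 / 1000) :=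
            mul_le_mul (by linarith) (by linarith [c1.2.2]) (abs_nonneg _) (by norm_num)
        _ = _ := by norm_num
    have p2 : |t (k + 1) * Real.sin (S (k + 1)).a| ≤ 1 / 1000 := by
      rw [abs_mul]
      calc |t (k + 1)| * |Real.sin (S (k + 1)).a| ≤ 1 * (1 / 1000) :=
            mul_le_mul (by linarith) (by linarith [c2.2.2]) (abs_nonneg _) (by norm_num)
        _ = _ := by norm_num
    have p3 : (1 + h k) * Real.cos (S k).a ≤ 101 / 100 * 1 :=
      mul_le_mul (by linarith [l1.h1]) c1.2.1 (by linarith) (by norm_num)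
    have p4 : 0 ≤ (1 + h k) * Real.cos (S k).a :=
      mul_nonneg (by linarith [l1.h0]) (by linarith)
    rw [abs_le] at p1 p2 ⊢
    constructor <;> linarith
  -- apply the phase lemma
  have hs0 : ∀ k, i0 ≤ k → k < i0 + N → |s k 0| ≤ 1 / 4 := fun k hk hk' => (hG k hk hk').1.t0
  have hent : ∀ k, i0 ≤ k → k < i0 + N →
      (ent (Y k) (s k) 0).1 = X - (S k).y - Real.cos (S k).a / 2 - s k 0 * Real.sin (S k).a ∧
      (ent (Y k) (s k) 0).2 = (S k).x - Real.sin (S k).a / 2 + s k 0 * Real.cos (S k).a :=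
    fun k hk hk' => H6a_ent X (S k) (Y k) (s k) (hG k hk hk').1.s0
  have hfirst : ∀ k l, i0 ≤ k → k < i0 + N → i0 ≤ l → l < i0 + N →
      |(ent (Y l) (s l) 0).1 - (ent (Y k) (s k) 0).1| ≤ 6 / 5 := by
    intro k l hk hk' hl hl'
    have c1 := H6a_trig (hφ k hk hk') hφ2
    have c2 := H6a_trig (hφ l hl hl') hφ2
    have p1 : |s k 0 * Real.sin (S k).a| ≤ 1 / 1000 := by
      rw [abs_mul]
      calc |s k 0| * |Real.sin (S k).a| ≤ 1 * (1 / 1000) :=
            mul_le_mul (by linarith [hs0 k hk hk']) (by linarith [c1.2.2]) (abs_nonneg _)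
              (by norm_num)
        _ = _ := by norm_num
    have p2 : |s l 0 * Real.sin (S l).a| ≤ 1 / 1000 := by
      rw [abs_mul]
      calc |s l 0| * |Real.sin (S l).a| ≤ 1 * (1 / 1000) :=
            mul_le_mul (by linarith [hs0 l hl hl']) (by linarith [c2.2.2]) (abs_nonneg _)
              (by norm_num)
        _ = _ := by norm_num
    have p3 := hy' k l hk hk' hl hl'
    rw [(hent k hk hk').1, (hent l hl hl').1]
    rw [abs_le] at p1 p2 p3 ⊢
    constructor <;> linarith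
  have key := phase C hC X (rotP X P) (rot_framed X P hF) (rot_tc X C P hT) (k1 - k0)
    (fun k => rot X (S (k0 + k))) (fun k => m (k0 + k)) (fun k => Y (k0 + k))
    (fun k => s (k0 + k)) (fun k => g (k0 + k))
    (fun k hk => (hG (k0 + k) (by omega) (by omega)).1) ?_ ?_ ?_
  · have ek : k0 + (k1 - k0) = k1 := by omega
    simp only [ek, Nat.add_zero] at key
    have g0 := hG k0 (by omega) (by omega)
    have g1 := hG k1 (by omega) (by omega)
    refine ⟨k0, k1, hk0a, hk0b, hk1a, hk1b, m k0, Y k0, s k0, g k0, m k1, Y k1, s k1, g k1,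
      g0.1, g0.2.trans hwk0, g1.1, g1.2.trans hwk1, key.trans ?_⟩
    have h1 := g0.2.trans hwk0
    have h2 := g1.2.trans hwk1
    have h3 : 24 * δ / N = 2 * (6 * δ / N + 6 * δ / N) := by ring
    rw [h3]
    linarith
  · intro k hk
    refine ⟨(hfirst (k0 + k) (k0 + (k + 1)) (by omega) (by omega) (by omega)
      (by omega)).trans (by norm_num), ?_⟩
    have r1 := hent (k0 + k) (by omega) (by omega)
    have r2 := hent (k0 + k + 1) (by omega) (by omega)
    have c1 := H6a_trig (hφ (k0 + k) (by omega) (by omega)) hφ2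
    have c2 := H6a_trig (hφ (k0 + k + 1) (by omega) (by omega)) hφ2
    have q1 := hs0 (k0 + k) (by omega) (by omega)
    have q2 := hs0 (k0 + k + 1) (by omega) (by omega)
    have p1 : |s (k0 + k) 0 * Real.cos (S (k0 + k)).a| ≤ 1 / 4 := by
      rw [abs_mul, abs_of_nonneg (by linarith : (0:ℝ) ≤ Real.cos (S (k0 + k)).a)]
      calc |s (k0 + k) 0| * Real.cos (S (k0 + k)).a ≤ 1 / 4 * 1 :=
            mul_le_mul q1 c1.2.1 (by linarith) (by norm_num)
        _ = _ := by norm_num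
    have p2 : |s (k0 + k + 1) 0 * Real.cos (S (k0 + k + 1)).a| ≤ 1 / 4 := by
      rw [abs_mul, abs_of_nonneg (by linarith : (0:ℝ) ≤ Real.cos (S (k0 + k + 1)).a)]
      calc |s (k0 + k + 1) 0| * Real.cos (S (k0 + k + 1)).a ≤ 1 / 4 * 1 :=
            mul_le_mul q2 c2.2.1 (by linarith) (by norm_num)
        _ = _ := by norm_num
    have p3 := hx (k0 + k) (by omega) (by omega)
    have s1 := c1.2.2
    have s2 := c2.2.2
    change |(ent (Y (k0 + k + 1)) (s (k0 + k + 1)) 0).2 - (ent (Y (k0 + k)) (s (k0 + k)) 0).2| ≤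
      8 / 5
    rw [r1.2, r2.2]
    rw [abs_le] at p1 p2 p3 s1 s2 ⊢
    constructor <;> linarith
  · intro k hk l hl
    exact hfirst (k0 + k) (k0 + l) (by omega) (by omega) (by omega) (by omega)
  · calc ∑ k ∈ Finset.range (k1 - k0 + 1), cst C (rotP X P) (Y (k0 + k)) (g (k0 + k))
          (m (k0 + k) + 8) ≤ ∑ k ∈ Finset.range (k1 - k0 + 1), w (k0 + k) := by
          refine Finset.sum_le_sum fun k hk => ?_
          rw [Finset.mem_range] at hk
          exact (hG (k0 + k) (by omega) (by omega)).2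
      _ = ∑ i ∈ Finset.Ico k0 (k1 + 1), w i := by
          rw [Finset.sum_Ico_eq_sum_range]
          congr 2
          omega
      _ ≤ ∑ i ∈ Finset.Ico i0 (i0 + N), w i :=
          Finset.sum_le_sum_of_subset_of_nonneg
            (Finset.Ico_subset_Ico (by omega) (by omega)) fun i _ _ => hw0 i
      _ ≤ 1 / 100 := by linarith

end SqLo
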