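import Pool.Agent.Lib.MP_e85462_co.L.H4b

/-! H6b: each point of a large region around the window is close to a square of the block. -/

open MeasureTheory Set

namespace SqLo

/-- hypotheses on a window `[i0, i0+N)` of the line `j1` of a family -/
structure Win (C X : ℝ) (P : Finset Sq) (N M n : ℕ) (y0 : ℝ) (S : ℕ → ℕ → Sq) (t h : ℕ → ℕ → ℝ)
    (D : ℝ) (j1 i0 : ℕ) (φ b : ℝ) : Prop where
  G : Fam C X P M n y0 S t h D
  hM : M = 3 * N + 60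
  hN : 10000 ≤ N
  hj1 : 2 * N + 20 ≤ j1
  hj1' : j1 ≤ 3 * N + 20
  hi0 : 1 ≤ i0
  hi1 : i0 + N ≤ n
  hφ : ∀ i, i0 ≤ i → i < i0 + N → |(S j1 i).a| ≤ φ
  hφN : (N : ℝ) ^ 2 * φ ≤ 1
  hb : ∑ j ∈ Finset.range (M + 1), ∑ i ∈ Finset.Ico i0 (i0 + N), C * wst P 20 (S j i) ≤ b
  hbφ : b ≤ φ ^ 2 / 10000

private theorem H6b_wst (P : Finset Sq) {r r' : ℝ} (h : r ≤ r') (S : Sq) :
    wst P r S ≤ wst P r' S :=
  wst_le P r r' S S (by simpa using h) (by simpa using h)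

private theorem H6b_data {C X : ℝ} {P : Finset Sq} {M n : ℕ} {y0 D : ℝ} {S : ℕ → ℕ → Sq}
    {t h : ℕ → ℕ → ℝ} (hC : 1 ≤ C) (G : Fam C X P M n y0 S t h D) {j i : ℕ} (hj : j ≤ M)
    (hi : i < n + 8) :
    |(S j i).a| ≤ 1 / 10 ∧ |t j i| ≤ 1 / 2 ∧ 0 ≤ h j i ∧ h j i ≤ 1 / 100 := by
  have L := (G.ln j hj).ln i hi
  have h0 : 0 ≤ C * wst P 16 (S j i) := mul_nonneg (by linarith) (wst_nn _ _ _)
  have h2 := L.mS
  exact ⟨L.aS, by linarith, L.h0, L.h1⟩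

private theorem H6b_cos {a : ℝ} (ha : |a| ≤ 1 / 10) :
    99 / 100 ≤ Real.cos a ∧ Real.cos a ≤ 1 ∧ |Real.sin a| ≤ 1 / 10 := by
  refine ⟨?_, Real.cos_le_one a, ?_⟩
  · have h1 := Real.one_sub_sq_div_two_le_cos (x := a)
    have h2 : a ^ 2 ≤ (1 / 10) ^ 2 := by
      rw [← sq_abs]
      exact pow_le_pow_left₀ (abs_nonneg _) ha 2
    linarith
  · exact (Real.abs_sin_le_abs).trans ha

/-- the centre of a square relative to its entry point -/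
private theorem H6b_ctr {S : ℕ → Sq} {t : ℕ → ℝ} {i : ℕ} (ha : |(S i).a| ≤ 1 / 10)
    (ht : |t i| ≤ 1 / 2) :
    44 / 100 ≤ (S i).x - (ent S t i).1 ∧ (S i).x - (ent S t i).1 ≤ 55 / 100 ∧
      |(S i).y - (ent S t i).2| ≤ 55 / 100 := by
  obtain ⟨hx, hy⟩ := ctr_ent S t i
  obtain ⟨h1, h2, h3⟩ := H6b_cos ha
  have h4 : |t i * Real.sin (S i).a| ≤ 1 / 20 := by
    rw [abs_mul]
    calc |t i| * |Real.sin (S i).a| ≤ 1 / 2 * (1 / 10) :=
          mul_le_mul ht h3 (abs_nonneg _) (by norm_num)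
      _ = 1 / 20 := by norm_num
  have h5 : |t i * Real.cos (S i).a| ≤ 1 / 2 := by
    rw [abs_mul]
    have h6 : |Real.cos (S i).a| ≤ 1 := Real.abs_cos_le_one _
    calc |t i| * |Real.cos (S i).a| ≤ 1 / 2 * 1 :=
          mul_le_mul ht h6 (abs_nonneg _) (by norm_num)
      _ = 1 / 2 := by norm_num
  rw [abs_le] at h3 h4 h5
  refine ⟨by linarith, by linarith, ?_⟩
  rw [abs_le]
  constructor <;> linarith

/-- growth of the abscissas -/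
private theorem H6b_grow {C X : ℝ} {P : Finset Sq} {M n : ℕ} {y0 D : ℝ} {S : ℕ → ℕ → Sq}
    {t h : ℕ → ℕ → ℝ} (hC : 1 ≤ C) (G : Fam C X P M n y0 S t h D) {j : ℕ} (hj : j ≤ M)
    (i i' : ℕ) (hi : i ≤ i') (hi' : i' ≤ n + 8) :
    (ent (S j) (t j) i).1 + 99 / 100 * ((i' : ℝ) - i) ≤ (ent (S j) (t j) i').1 := by
  obtain ⟨h1, _⟩ := ent_sum (G.ln j hj).ln i i' hi hi'
  rw [h1]
  have h2 : ∑ l ∈ Finset.Ico i i', (99 / 100 : ℝ) ≤
      ∑ l ∈ Finset.Ico i i', (1 + h j l) * Real.cos (S j l).a := by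
    refine Finset.sum_le_sum fun l hl => ?_
    rw [Finset.mem_Ico] at hl
    obtain ⟨a1, _, a3, a4⟩ := H6b_data hC G hj (i := l) (by omega)
    obtain ⟨b1, b2, _⟩ := H6b_cos a1
    nlinarith
  rw [Finset.sum_const, Nat.card_Ico, nsmul_eq_mul, Nat.cast_sub hi] at h2
  linarith

/-- variation of the ordinates in the window -/
private theorem H6b_var {C X : ℝ} {P : Finset Sq} {M n : ℕ} {y0 D : ℝ} {S : ℕ → ℕ → Sq}
    {t h : ℕ → ℕ → ℝ} (hC : 1 ≤ C) (G : Fam C X P M n y0 S t h D) {j : ℕ} (hj : j ≤ M)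
    (i0 N : ℕ) (φ : ℝ) (hN : i0 + N ≤ n + 8) (hφ : ∀ i, i0 ≤ i → i < i0 + N → |(S j i).a| ≤ φ)
    (hφ0 : 0 ≤ φ)
    (i i' : ℕ) (h0 : i0 ≤ i) (hi : i ≤ i') (hi' : i' ≤ i0 + N) :
    |(ent (S j) (t j) i').2 - (ent (S j) (t j) i).2| ≤ 101 / 100 * (N * φ) := by
  obtain ⟨_, h1⟩ := ent_sum (G.ln j hj).ln i i' hi (by omega)
  rw [h1, add_sub_cancel_left]
  have h2 : |∑ l ∈ Finset.Ico i i', (1 + h j l) * Real.sin (S j l).a| ≤
      ∑ l ∈ Finset.Ico i i', (101 / 100 * φ) := by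
    refine (Finset.abs_sum_le_sum_abs _ _).trans (Finset.sum_le_sum fun l hl => ?_)
    rw [Finset.mem_Ico] at hl
    obtain ⟨a1, _, a3, a4⟩ := H6b_data hC G hj (i := l) (by omega)
    have b1 : |Real.sin (S j l).a| ≤ φ := (Real.abs_sin_le_abs).trans (hφ l (by omega) (by omega))
    rw [abs_mul, abs_of_nonneg (by linarith : (0 : ℝ) ≤ 1 + h j l)]
    exact mul_le_mul (by linarith) b1 (abs_nonneg _) (by norm_num)
  refine h2.trans ?_
  rw [Finset.sum_const, Nat.card_Ico, nsmul_eq_mul]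
  have h3 : ((i' - i : ℕ) : ℝ) ≤ N := by
    have : i' - i ≤ N := by omega
    exact_mod_cast this
  nlinarith

/-- each point of a large region around the window is close to a square of the block -/
theorem win_cover (C : ℝ) (hC : 1 ≤ C) (X : ℝ) (P : Finset Sq) (hF : Framed X P) (hT : TC P C)
    {N M n : ℕ} {y0 D φ b : ℝ} {S : ℕ → ℕ → Sq} {t h : ℕ → ℕ → ℝ} {j1 i0 : ℕ}
    (V : Win C X P N M n y0 S t h D j1 i0 φ b)
    (k0 k1 : ℕ) (hk0 : i0 + 20 ≤ k0) (hk : k0 ≤ k1) (hk1 : k1 + 20 ≤ i0 + N) (z : ℝ × ℝ)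
    (hx0 : (S j1 k0).x - 10 ≤ z.1) (hx1 : z.1 ≤ (S j1 k1).x + 10)
    (hy0 : (S j1 k0).y - (j1 - 5) ≤ z.2) (hy1 : z.2 ≤ (S j1 k0).y + 10) :
    ∃ i j : ℕ, i0 ≤ i ∧ i < i0 + N ∧ j ≤ M ∧ |z.1 - (S j i).x| ≤ 21 / 10 ∧
      |z.2 - (S j i).y| ≤ 21 / 10 := by
  have G := V.G
  have hMv := V.hM
  have hNv := V.hN
  have hj1v := V.hj1
  have hj1v' := V.hj1'
  have hi1 := V.hi1
  have hj1M : j1 ≤ M := by omega
  have hD := G.D1
  have hNr : (10000 : ℝ) ≤ N := by exact_mod_cast hNv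
  have hφ0 : 0 ≤ φ := (abs_nonneg _).trans (V.hφ i0 le_rfl (by omega))
  have hNφ : (N : ℝ) * φ ≤ 1 / 10000 := by
    have h1 := V.hφN
    have h2 : 10000 * ((N : ℝ) * φ) ≤ N * (N * φ) :=
      mul_le_mul_of_nonneg_right hNr (by positivity)
    have h3 : (N : ℝ) * (N * φ) = (N : ℝ) ^ 2 * φ := by ring
    linarith
  obtain ⟨a1, a2, _, _⟩ := H6b_data hC G hj1M (i := k0) (by omega)
  obtain ⟨b1, b2, _, _⟩ := H6b_data hC G hj1M (i := k1) (by omega)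
  obtain ⟨c1, c2, c3⟩ := H6b_ctr a1 a2
  obtain ⟨d1, d2, d3⟩ := H6b_ctr b1 b2
  rw [abs_le] at c3
  have e0 : (i0 : ℝ) + 20 ≤ k0 := by exact_mod_cast hk0
  have e1 : (k1 : ℝ) + 20 ≤ i0 + N := by exact_mod_cast hk1
  have e2 : (j1 : ℝ) + 40 ≤ M := by
    have : j1 + 40 ≤ M := by omega
    exact_mod_cast this
  have g0 := H6b_grow hC G hj1M i0 k0 (by omega) (by omega)
  have g1 := H6b_grow hC G hj1M k1 (i0 + N) (by omega) (by omega)
  push_cast at g1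
  refine fam_cover C hC X P hF hT G i0 (i0 + N) (by omega) (by omega) z ?_ ?_ ?_
  · obtain ⟨p1, _⟩ := fam_pos C hC X P hF hT G j1 0 i0 hj1M (Nat.zero_le M) (by omega)
    rw [abs_le] at p1
    linarith [p1.1, p1.2]
  · obtain ⟨p1, _⟩ := fam_pos C hC X P hF hT G j1 0 (i0 + N) hj1M (Nat.zero_le M) (by omega)
    rw [abs_le] at p1
    linarith [p1.1, p1.2]
  · intro i hi hi'
    have v : |(ent (S j1) (t j1) i).2 - (ent (S j1) (t j1) k0).2| ≤ 101 / 100 * (N * φ) := by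
      rcases le_total i k0 with hle | hle
      · rw [abs_sub_comm]
        exact H6b_var hC G hj1M i0 N φ (by omega) V.hφ hφ0 i k0 hi hle (by omega)
      · exact H6b_var hC G hj1M i0 N φ (by omega) V.hφ hφ0 k0 i (by omega) hle hi'
    rw [abs_le] at v
    obtain ⟨_, p2⟩ := fam_pos C hC X P hF hT G j1 0 i hj1M (Nat.zero_le M) (by omega)
    obtain ⟨_, q2⟩ := fam_pos C hC X P hF hT G M j1 i le_rfl hj1M (by omega)
    have t0 := (G.ln 0 (Nat.zero_le M)).t0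
    have t1 := (G.ln j1 hj1M).t0
    have tM := (G.ln M le_rfl).t0
    rw [abs_le] at p2 q2 t0 t1 tM
    push_cast at p2
    refine ⟨?_, ?_⟩
    · linarith [p2.1, p2.2, t0.1, t0.2, t1.1, t1.2, v.1, v.2, c3.1, c3.2]
    · linarith [q2.1, q2.2, tM.1, tM.2, t1.1, t1.2, v.1, v.2, c3.1, c3.2]

end SqLo
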