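import Pool.Agent.Lib.MP_e85462_co.L.H6b
import Pool.Agent.Lib.MP_e85462_co.L.H5
import Pool.Agent.Lib.MP_e85462_co.L.E4

/-! H6c: the squares of the vertical lines have almost the tilt of the block. -/

open MeasureTheory Set

namespace SqLo

/-- from frame coordinates of a difference back to the difference -/
private theorem H6c_back (w φ A B dx dy i : ℝ) (hw : |w| ≤ φ) (hφ : φ ≤ 1 / 10 ^ 8)
    (hi0 : 0 ≤ i) (hi : i * φ ≤ 4 / 10 ^ 4)
    (hA : dx * Real.cos w + dy * Real.sin w = A) (hB : dy * Real.cos w - dx * Real.sin w = B)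
    (hA1 : |A - i| ≤ 1 / 500) (hB1 : |B| ≤ 101 / 100) :
    |dx - i| ≤ 1 / 50 ∧ |dy| ≤ 102 / 100 := by
  have hφ0 : 0 ≤ φ := le_trans (abs_nonneg _) hw
  have sc := Real.sin_sq_add_cos_sq w
  have hs : |Real.sin w| ≤ φ := le_trans Real.abs_sin_le_abs hw
  have hc1 : Real.cos w ≤ 1 := Real.cos_le_one w
  have hc2 : 1 - w ^ 2 / 2 ≤ Real.cos w := Real.one_sub_sq_div_two_le_cos
  have hw2 : w ^ 2 ≤ φ := by
    rw [← sq_abs]
    nlinarith [abs_nonneg w]
  have edx : dx = A * Real.cos w - B * Real.sin w := by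
    rw [← hA, ← hB]
    linear_combination (-dx) * sc
  have edy : dy = A * Real.sin w + B * Real.cos w := by
    rw [← hA, ← hB]
    linear_combination (-dy) * sc
  have hcpos : 0 ≤ Real.cos w := by nlinarith
  have hAabs : |A| ≤ i + 1 / 500 := by
    have : A = (A - i) + i := by ring
    rw [this]
    refine le_trans (abs_add_le _ _) ?_
    rw [abs_of_nonneg hi0]
    linarith
  have hBs : |B * Real.sin w| ≤ 101 / 100 * φ := by
    rw [abs_mul]
    exact mul_le_mul hB1 hs (abs_nonneg _) (by norm_num)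
  have hAs : |A * Real.sin w| ≤ (i + 1 / 500) * φ := by
    rw [abs_mul]
    exact mul_le_mul hAabs hs (abs_nonneg _) (by linarith)
  constructor
  · have e : dx - i = (A - i) * Real.cos w + (-(i * (1 - Real.cos w))) + (-(B * Real.sin w)) := by
      rw [edx]; ring
    rw [e]
    refine le_trans (abs_add_le _ _) ?_
    have h1 : |(A - i) * Real.cos w + (-(i * (1 - Real.cos w)))| ≤ 1 / 500 + i * φ := by
      refine le_trans (abs_add_le _ _) ?_
      rw [abs_mul, abs_neg, abs_mul, abs_of_nonneg hi0, abs_of_nonneg hcpos,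
        abs_of_nonneg (by linarith : (0 : ℝ) ≤ 1 - Real.cos w)]
      have a1 : |A - i| * Real.cos w ≤ 1 / 500 * 1 :=
        mul_le_mul hA1 hc1 hcpos (by norm_num)
      have a2 : i * (1 - Real.cos w) ≤ i * φ :=
        mul_le_mul_of_nonneg_left (by linarith) hi0
      linarith
    rw [abs_neg]
    linarith
  · rw [edy]
    refine le_trans (abs_add_le _ _) ?_
    have h2 : |B * Real.cos w| ≤ 101 / 100 * 1 := by
      rw [abs_mul, abs_of_nonneg hcpos]
      exact mul_le_mul hB1 hc1 hcpos (by norm_num)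
    nlinarith

/-- the squares of the vertical lines have almost the tilt of the block -/
theorem win_chain (C : ℝ) (hC : 1 ≤ C) (X : ℝ) (P : Finset Sq) (hF : Framed X P) (hT : TC P C)
    {N M n : ℕ} {y0 D φ b : ℝ} {S : ℕ → ℕ → Sq} {t h : ℕ → ℕ → ℝ} {j1 i0 : ℕ}
    (V : Win C X P N M n y0 S t h D j1 i0 φ b)
    (k kr : ℕ) (hk0 : i0 + 20 ≤ k) (hk1 : k + 20 ≤ i0 + N) (hkr : i0 ≤ kr) (hkr1 : kr < i0 + N)
    (m : ℕ) (Y : ℕ → Sq) (s g : ℕ → ℝ) (hY : GLine C X (rotP X P) (rot X (S j1 k)) m Y s g)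
    (hYc : cst C (rotP X P) Y g (m + 8) ≤ 1 / 1000)
    (r : ℕ) (hr : r + 15 ≤ j1) (hrm : r ≤ m + 8) (i : ℕ) (hi : i ≤ r) :
    |(Y i).a - (S j1 kr).a| ≤ 11 / 10 * b := by
  have hM := V.hM
  have hN := V.hN
  have hj1 := V.hj1
  have hj1' := V.hj1'
  have hin := V.hi1
  have hj1M : j1 ≤ M := by omega
  have hNr : (10000 : ℝ) ≤ N := by exact_mod_cast hN
  have hφk := V.hφ kr hkr hkr1
  have hφ0 : 0 ≤ φ := le_trans (abs_nonneg _) hφk
  have hφN := V.hφN
  have hNφ : (N : ℝ) * φ ≤ 1 / 10 ^ 4 := by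
    have h1 : (N : ℝ) * (N * φ) ≤ 1 := by nlinarith
    have h2 : (10000 : ℝ) * (N * φ) ≤ N * (N * φ) :=
      mul_le_mul_of_nonneg_right hNr (by positivity)
    linarith
  have hφs : φ ≤ 1 / 10 ^ 8 := by
    have h2 : (10000 : ℝ) * φ ≤ N * φ := mul_le_mul_of_nonneg_right hNr hφ0
    linarith
  have hb0 : 0 ≤ b := by
    refine le_trans ?_ V.hb
    exact Finset.sum_nonneg fun j _ => Finset.sum_nonneg fun i _ =>
      mul_nonneg (by linarith) (wst_nn P 20 _)
  have hbφ := V.hbφ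
  have hφφ : φ ^ 2 ≤ φ := by nlinarith
  have hτφ : 11 / 10 * b ≤ φ := by linarith
  have hb50 : b ≤ 1 / 50 := by linarith
  -- tilt of squares of P close to the block
  have tilt : ∀ T ∈ P, (∃ i j : ℕ, i0 ≤ i ∧ i < i0 + N ∧ j ≤ M ∧ |T.x - (S j i).x| ≤ 3 ∧
      |T.y - (S j i).y| ≤ 3) → |T.a - (S j1 kr).a| ≤ 11 / 10 * b := fun T hTP hx =>
    block_tilt C hC X P hF hT V.G i0 (i0 + N) (by omega) b hb50 V.hb kr j1 hkr hkr1 hj1M T hTP hx
  have hLk := (V.G.ln j1 hj1M).ln
  have hSk : S j1 k ∈ P := (hLk k (by omega)).hS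
  have hY0 : Y 0 = rot X (S j1 k) := hY.s0
  have hYmem : ∀ l, l ≤ m + 8 → Y l ∈ rotP X P := by
    intro l hl
    rcases Nat.lt_or_ge l (m + 8) with h1 | h1
    · exact (hY.ln l h1).hS
    · have e : l = m + 7 + 1 := by omega
      rw [e]
      exact (hY.ln (m + 7) (by omega)).hT
  induction i using Nat.strong_induction_on with
  | _ i ih =>
    rcases Nat.eq_zero_or_pos i with h0 | hpos
    · subst h0
      rw [hY0]
      show |(S j1 k).a - (S j1 kr).a| ≤ 11 / 10 * b
      exact tilt _ hSk ⟨k, j1, by omega, by omega, hj1M, by simp, by simp⟩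
    · obtain ⟨i, rfl⟩ : ∃ i', i = i' + 1 := ⟨i - 1, by omega⟩
      set w : ℝ := (S j1 kr).a with hw
      have hcp := chain_pos C hC (rotP X P) hY.ln w (11 / 10 * b) (by linarith) (by linarith) i
        (by omega) (fun i' hi' => ih i' (by omega) (by omega)) i le_rfl (by omega)
      obtain ⟨c1, c2, -⟩ := hcp
      have hsumg : ∑ l ∈ Finset.range i, g l ≤ 1 / 1000 := by
        have h1 := (wst_cst C hC (rotP X P) hY.ln 0 i (Nat.zero_le _) (by omega)).2
        have h2 := (cst_mono C hC (rotP X P) hY.ln (i := i) (j := m + 8) (by omega) le_rfl).2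
        have h3 : cst C (rotP X P) Y g 0 = 0 := by simp [cst]
        rw [h3, ← Finset.range_eq_Ico] at h1
        linarith
      have hir : (i : ℝ) ≤ 3 * N + 20 := by
        have : i ≤ 3 * N + 20 := by omega
        exact_mod_cast this
      have hi0' : (0 : ℝ) ≤ i := Nat.cast_nonneg i
      have hiφ : (i : ℝ) * φ ≤ 4 / 10 ^ 4 := by
        have : (i : ℝ) * φ ≤ (3 * N + 20) * φ := mul_le_mul_of_nonneg_right hir hφ0
        nlinarith
      have hiτ : (i : ℝ) * (11 / 10 * b) ≤ 4 / 10 ^ 4 :=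
        le_trans (mul_le_mul_of_nonneg_left hτφ hi0') hiφ
      have hτ1 : 11 / 10 * b ≤ 1 / 10 ^ 8 := le_trans hτφ hφs
      have hτ0 : 0 ≤ 11 / 10 * b := by linarith
      have hiτ2 : (i : ℝ) * (11 / 10 * b) ^ 2 ≤ 4 / 10 ^ 4 := by
        have e : (i : ℝ) * (11 / 10 * b) ^ 2 = ((i : ℝ) * (11 / 10 * b)) * (11 / 10 * b) := by ring
        rw [e]
        have : ((i : ℝ) * (11 / 10 * b)) * (11 / 10 * b) ≤ ((i : ℝ) * (11 / 10 * b)) * 1 :=
          mul_le_mul_of_nonneg_left (by linarith) (mul_nonneg hi0' hτ0)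
        linarith
      have hA1 : |fU w ((Y i).x, (Y i).y) - fU w ((Y 0).x, (Y 0).y) - i| ≤ 1 / 500 := by
        refine c1.trans ?_
        norm_num at hτ1 hiτ2 ⊢
        linarith
      have hB1 : |fV w ((Y i).x, (Y i).y) - fV w ((Y 0).x, (Y 0).y)| ≤ 101 / 100 := by
        refine c2.trans ?_
        have e : 1 + 2 * ((i : ℝ) + 1) * (11 / 10 * b) =
          1 + 2 * ((i : ℝ) * (11 / 10 * b)) + 2 * (11 / 10 * b) := by ring
        rw [e]
        norm_num at hτ1 hiτ ⊢
        linarith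
      obtain ⟨d1, d2⟩ := H6c_back w φ _ _ ((Y i).x - (Y 0).x) ((Y i).y - (Y 0).y) i hφk
        hφs hi0' hiφ
        (by simp only [fU]; ring) (by simp only [fV]; ring) hA1 hB1
      have hlk := lk_ctr hC (hY.ln i (by omega))
      obtain ⟨l1, l2⟩ := hlk
      have hY0x : (Y 0).x = X - (S j1 k).y := by rw [hY0]; rfl
      have hY0y : (Y 0).y = (S j1 k).x := by rw [hY0]; rfl
      -- the square before the rotation
      set T : Sq := ⟨(Y (i + 1)).y, X - (Y (i + 1)).x, (Y (i + 1)).a⟩ with hTd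
      have hrotT : rot X T = Y (i + 1) := by
        rw [hTd]
        unfold rot
        simp only [sub_sub_cancel]
      have hTP : T ∈ P := (rot_mem X P T).1 (by rw [hrotT]; exact hYmem _ (by omega))
      rw [abs_le] at d1 d2 l1 l2
      have hj1r : (i : ℝ) + 1 + 15 ≤ j1 := by
        have : i + 1 + 15 ≤ j1 := by omega
        exact_mod_cast this
      have hzx : T.x = (Y (i + 1)).y := rfl
      have hzy : T.y = X - (Y (i + 1)).x := rfl
      obtain ⟨i', j', q1, q2, q3, q4, q5⟩ := win_cover C hC X P hF hT V k k hk0 le_rfl hk1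
        (T.x, T.y)
        (by show (S j1 k).x - 10 ≤ T.x; rw [hzx]; linarith)
        (by show T.x ≤ (S j1 k).x + 10; rw [hzx]; linarith)
        (by show (S j1 k).y - (j1 - 5) ≤ T.y; rw [hzy]; linarith)
        (by show T.y ≤ (S j1 k).y + 10; rw [hzy]; linarith)
      have := tilt T hTP ⟨i', j', q1, q2, q3, le_trans q4 (by norm_num), le_trans q5 (by norm_num)⟩
      exact this

end SqLo
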