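import Pool.Agent.Lib.MP_e85462_co.L.H6b

/-! H6d: positions of the squares of the window. -/

open MeasureTheory Set

namespace SqLo

private lemma H6d_sum (k0 k1 N : ℕ) (hN : k1 - k0 ≤ N) (f g : ℕ → ℝ) (c : ℝ)
    (hc : 0 ≤ c) (hf : ∀ l ∈ Finset.Ico k0 k1, |f l| ≤ g l + c) :
    |∑ l ∈ Finset.Ico k0 k1, f l| ≤ ∑ l ∈ Finset.Ico k0 k1, g l + N * c := by
  refine (Finset.abs_sum_le_sum_abs _ _).trans ((Finset.sum_le_sum hf).trans ?_)
  rw [Finset.sum_add_distrib, Finset.sum_const, Nat.card_Ico, nsmul_eq_mul]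
  have h1 : ((k1 - k0 : ℕ) : ℝ) ≤ N := by exact_mod_cast hN
  have := mul_le_mul_of_nonneg_right h1 hc
  linarith

private lemma H6d_cos {a φ : ℝ} (h : |a| ≤ φ) : 1 - φ ^ 2 / 2 ≤ Real.cos a := by
  have h1 := Real.one_sub_sq_div_two_le_cos (x := a)
  have h2 : a ^ 2 ≤ φ ^ 2 := by
    rw [← sq_abs]
    exact pow_le_pow_left₀ (abs_nonneg _) h 2
  linarith

private lemma H6d_sin {a φ : ℝ} (h : |a| ≤ φ) : |Real.sin a| ≤ φ := Real.abs_sin_le_abs.trans h

/-- positions of the squares of the window -/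
theorem win_pos (C : ℝ) (hC : 1 ≤ C) (X : ℝ) (P : Finset Sq) (hF : Framed X P) (hT : TC P C)
    {N M n : ℕ} {y0 D φ b : ℝ} {S : ℕ → ℕ → Sq} {t h : ℕ → ℕ → ℝ} {j1 i0 : ℕ}
    (V : Win C X P N M n y0 S t h D j1 i0 φ b)
    (k0 k1 : ℕ) (hk0 : i0 ≤ k0) (hk : k0 ≤ k1) (hk1 : k1 < i0 + N) :
    |(S j1 k1).x - (S j1 k0).x - ((k1 : ℝ) - k0)| ≤ 1 / 100 ∧
    |(S j1 k1).y - (S j1 k0).y - (t j1 k0 - t j1 k1)| ≤ 2 * N * φ ∧
    |fV (S j1 k0).a ((S j1 k1).x, (S j1 k1).y) - fV (S j1 k0).a ((S j1 k0).x, (S j1 k0).y)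
      - (t j1 k0 - t j1 k1)| ≤ 3 * N * b := by
  have hM := V.hM
  have hj1' := V.hj1'
  have hi1 := V.hi1
  have hN := V.hN
  have hj1M : j1 ≤ M := by omega
  have hC0 : 0 ≤ C := by linarith
  have L : Ln C P (n + 8) (S j1) (t j1) (h j1) := (V.G.ln j1 hj1M).ln
  have hk1n : k1 ≤ n + 8 := by omega
  have hkN : k1 - k0 ≤ N := by omega
  have hNr : (10000 : ℝ) ≤ N := by exact_mod_cast hN
  have hφ0 : 0 ≤ φ := (abs_nonneg _).trans (V.hφ i0 le_rfl (by omega))
  have hφN := V.hφN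
  have hNφ : (N : ℝ) * φ ≤ 1 / 10000 := by
    have h0 : (0 : ℝ) ≤ N * φ := mul_nonneg (by linarith) hφ0
    have h1 := mul_le_mul_of_nonneg_right hNr h0
    have h2 : (N : ℝ) ^ 2 * φ = N * (N * φ) := by ring
    linarith
  have hφs : φ ≤ 1 / 100000 := by
    have h1 := mul_le_mul_of_nonneg_right hNr hφ0
    linarith
  have hφ2 : (N : ℝ) * φ ^ 2 ≤ 1 / 1000 := by
    have h1 := mul_le_mul_of_nonneg_right hNφ hφ0
    have h2 : (N : ℝ) * φ ^ 2 = N * φ * φ := by ring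
    linarith
  have hφ3 : φ ^ 2 ≤ φ := by
    have h1 := mul_le_mul_of_nonneg_right (hφs.trans (by norm_num : (1 : ℝ) / 100000 ≤ 1)) hφ0
    have h2 : φ ^ 2 = φ * φ := by ring
    linarith
  have hdat : ∀ l, k0 ≤ l → l ≤ k1 → |(S j1 l).a| ≤ φ ∧ |t j1 l| ≤ 1 / 2 ∧ 0 ≤ h j1 l ∧
      h j1 l ≤ 1 / 100 := by
    intro l hl hl'
    have Ll := L l (by omega)
    have h0 : 0 ≤ C * wst P 16 (S j1 l) := mul_nonneg hC0 (wst_nn _ _ _)
    have h2 := Ll.mS
    exact ⟨V.hφ l (by omega) (by omega), by linarith, Ll.h0, Ll.h1⟩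
  -- the sum of the gaps
  have hcst : ∀ j ≤ M, 0 ≤ cst C P (S j) (h j) (n + 8) := fun j hj =>
    (cst_mono C hC P (V.G.ln j hj).ln le_rfl le_rfl).1
  have hD : cst C P (S j1) (h j1) (n + 8) ≤ 1 / 1000 := by
    have h1 : cst C P (S j1) (h j1) (n + 8) ≤
        ∑ j ∈ Finset.range (M + 1), cst C P (S j) (h j) (n + 8) :=
      Finset.single_le_sum (f := fun j => cst C P (S j) (h j) (n + 8))
        (fun j hj => hcst j (by have := Finset.mem_range.1 hj; omega))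
        (Finset.mem_range.2 (by omega))
    linarith [V.G.cost, V.G.D1]
  have hsum : ∑ l ∈ Finset.Ico k0 k1, h j1 l ≤ 1 / 1000 := by
    have h1 := (wst_cst C hC P L k0 k1 hk hk1n).2
    have h2 := cst_mono C hC P L hk1n le_rfl
    have h3 := cst_mono C hC P L (le_refl k0) (by omega)
    linarith [h2.2, h3.1]
  have hsum0 : 0 ≤ ∑ l ∈ Finset.Ico k0 k1, h j1 l := Finset.sum_nonneg (fun l hl => by
    have := Finset.mem_Ico.1 hl
    exact (hdat l this.1 this.2.le).2.2.1)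
  -- tilts relative to `S j1 k0`
  have hb : ∀ l, k0 ≤ l → l ≤ k1 → |(S j1 l).a - (S j1 k0).a| ≤ b := by
    intro l hl hl'
    have h1 := ln_tilt C hC P hF.nm hT L k0 l hl (by omega)
    have h2 : ∑ i ∈ Finset.Ico k0 l, C * wst P 13 (S j1 i) ≤
        ∑ i ∈ Finset.Ico i0 (i0 + N), C * wst P 20 (S j1 i) := by
      refine (Finset.sum_le_sum (fun i _ => mul_le_mul_of_nonneg_left
        (wst_le P 13 20 (S j1 i) (S j1 i) (by norm_num) (by norm_num)) hC0)).trans ?_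
      apply Finset.sum_le_sum_of_subset_of_nonneg
      · intro i hi
        rw [Finset.mem_Ico] at hi ⊢
        omega
      · intro i _ _
        exact mul_nonneg hC0 (wst_nn _ _ _)
    have h3 : ∑ i ∈ Finset.Ico i0 (i0 + N), C * wst P 20 (S j1 i) ≤
        ∑ j ∈ Finset.range (M + 1), ∑ i ∈ Finset.Ico i0 (i0 + N), C * wst P 20 (S j i) :=
      Finset.single_le_sum (f := fun j => ∑ i ∈ Finset.Ico i0 (i0 + N), C * wst P 20 (S j i))
        (fun j _ => Finset.sum_nonneg (fun i _ => mul_nonneg hC0 (wst_nn _ _ _)))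
        (Finset.mem_range.2 (by omega))
    linarith [V.hb]
  have hb0 : 0 ≤ b := (abs_nonneg _).trans (hb k0 le_rfl hk)
  have hb1 : b ≤ 1 := by
    have := V.hbφ
    linarith
  have hes := ent_sum L k0 k1 hk hk1n
  have hc0 := ctr_ent (S j1) (t j1) k0
  have hc1 := ctr_ent (S j1) (t j1) k1
  have d0 := hdat k0 le_rfl hk
  have d1 := hdat k1 hk le_rfl
  have hcard : (k1 : ℝ) - k0 = ∑ l ∈ Finset.Ico k0 k1, (1 : ℝ) := by
    rw [Finset.sum_const, Nat.card_Ico, nsmul_eq_mul, mul_one, Nat.cast_sub hk]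
  have hcos0 := H6d_cos d0.1
  have hcos1 := H6d_cos d1.1
  have hcos0' := Real.cos_le_one (S j1 k0).a
  have hcos1' := Real.cos_le_one (S j1 k1).a
  have hts : ∀ l, |(S j1 l).a| ≤ φ → |t j1 l| ≤ 1 / 2 → |t j1 l * Real.sin (S j1 l).a| ≤ φ / 2 := by
    intro l h1 h2
    rw [abs_mul]
    calc |t j1 l| * |Real.sin (S j1 l).a| ≤ 1 / 2 * φ :=
          mul_le_mul h2 (H6d_sin h1) (abs_nonneg _) (by norm_num)
      _ = φ / 2 := by ring
  refine ⟨?_, ?_, ?_⟩
  · have e : (S j1 k1).x - (S j1 k0).x - ((k1 : ℝ) - k0) =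
        ∑ l ∈ Finset.Ico k0 k1, ((1 + h j1 l) * Real.cos (S j1 l).a - 1) +
          (1 / 2 * (Real.cos (S j1 k1).a - Real.cos (S j1 k0).a) +
            (t j1 k1 * Real.sin (S j1 k1).a - t j1 k0 * Real.sin (S j1 k0).a)) := by
      rw [Finset.sum_sub_distrib, ← hcard, hc0.1, hc1.1, hes.1]
      ring
    rw [e]
    have h1 := H6d_sum k0 k1 N hkN (fun l => (1 + h j1 l) * Real.cos (S j1 l).a - 1) (h j1)
      (φ ^ 2 / 2) (by positivity) (by
        intro l hl
        have hl' := Finset.mem_Ico.1 hl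
        have d := hdat l hl'.1 hl'.2.le
        have e1 := H6d_cos d.1
        have e2 := Real.cos_le_one (S j1 l).a
        have e3 := d.2.2.1
        have e4 : 0 ≤ h j1 l * Real.cos (S j1 l).a := mul_nonneg e3 (by linarith)
        have e6 : h j1 l * Real.cos (S j1 l).a ≤ h j1 l * 1 := mul_le_mul_of_nonneg_left e2 e3
        show |(1 + h j1 l) * Real.cos (S j1 l).a - 1| ≤ h j1 l + φ ^ 2 / 2
        rw [abs_le]
        constructor <;> linarith)
    have h2 : |1 / 2 * (Real.cos (S j1 k1).a - Real.cos (S j1 k0).a)| ≤ φ ^ 2 / 4 := by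
      rw [abs_le]
      constructor <;> linarith
    have h3 := hts k1 d1.1 d1.2.1
    have h4 := hts k0 d0.1 d0.2.1
    refine (abs_add_le _ _).trans ?_
    have h5 := (abs_add_le (1 / 2 * (Real.cos (S j1 k1).a - Real.cos (S j1 k0).a))
      (t j1 k1 * Real.sin (S j1 k1).a - t j1 k0 * Real.sin (S j1 k0).a))
    have h6 := abs_sub (t j1 k1 * Real.sin (S j1 k1).a) (t j1 k0 * Real.sin (S j1 k0).a)
    linarith
  · have e : (S j1 k1).y - (S j1 k0).y - (t j1 k0 - t j1 k1) =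
        ∑ l ∈ Finset.Ico k0 k1, ((1 + h j1 l) * Real.sin (S j1 l).a) +
          ((1 / 2 * Real.sin (S j1 k1).a - 1 / 2 * Real.sin (S j1 k0).a) +
            (t j1 k1 * (1 - Real.cos (S j1 k1).a) - t j1 k0 * (1 - Real.cos (S j1 k0).a))) := by
      rw [hc0.2, hc1.2, hes.2]
      ring
    rw [e]
    have h1 := H6d_sum k0 k1 N hkN (fun l => (1 + h j1 l) * Real.sin (S j1 l).a) (fun _ => 0)
      (101 / 100 * φ) (by positivity) (by
        intro l hl
        have hl' := Finset.mem_Ico.1 hl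
        have d := hdat l hl'.1 hl'.2.le
        show |(1 + h j1 l) * Real.sin (S j1 l).a| ≤ 0 + 101 / 100 * φ
        rw [abs_mul, zero_add]
        refine mul_le_mul ?_ (H6d_sin d.1) (abs_nonneg _) (by norm_num)
        rw [abs_of_nonneg (by linarith [d.2.2.1])]
        linarith [d.2.2.2])
    rw [Finset.sum_const_zero, zero_add] at h1
    have h2 := H6d_sin d1.1
    have h3 := H6d_sin d0.1
    have h4 : ∀ l, |(S j1 l).a| ≤ φ → |t j1 l| ≤ 1 / 2 →
        |t j1 l * (1 - Real.cos (S j1 l).a)| ≤ φ ^ 2 / 4 := by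
      intro l g1 g2
      have g3 := H6d_cos g1
      have g4 := Real.cos_le_one (S j1 l).a
      rw [abs_mul, abs_of_nonneg (by linarith : 0 ≤ 1 - Real.cos (S j1 l).a)]
      calc |t j1 l| * (1 - Real.cos (S j1 l).a) ≤ 1 / 2 * (φ ^ 2 / 2) :=
            mul_le_mul g2 (by linarith) (by linarith) (by norm_num)
        _ = φ ^ 2 / 4 := by ring
    have h5 := h4 k1 d1.1 d1.2.1
    have h6 := h4 k0 d0.1 d0.2.1
    refine (abs_add_le _ _).trans ?_
    have h7 := abs_add_le (1 / 2 * Real.sin (S j1 k1).a - 1 / 2 * Real.sin (S j1 k0).a)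
      (t j1 k1 * (1 - Real.cos (S j1 k1).a) - t j1 k0 * (1 - Real.cos (S j1 k0).a))
    have h8 := abs_sub (1 / 2 * Real.sin (S j1 k1).a) (1 / 2 * Real.sin (S j1 k0).a)
    have h9 := abs_sub (t j1 k1 * (1 - Real.cos (S j1 k1).a)) (t j1 k0 * (1 - Real.cos (S j1 k0).a))
    rw [abs_mul, abs_mul, abs_of_nonneg (by norm_num : (0 : ℝ) ≤ 1 / 2)] at h8
    have h11 : 10000 * φ ≤ N * φ := mul_le_mul_of_nonneg_right hNr hφ0
    linarith
  · have e : fV (S j1 k0).a ((S j1 k1).x, (S j1 k1).y) - fV (S j1 k0).a ((S j1 k0).x, (S j1 k0).y)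
        - (t j1 k0 - t j1 k1) =
        ∑ l ∈ Finset.Ico k0 k1, ((1 + h j1 l) * Real.sin ((S j1 l).a - (S j1 k0).a)) +
          (1 / 2 * Real.sin ((S j1 k1).a - (S j1 k0).a) +
            t j1 k1 * (1 - Real.cos ((S j1 k1).a - (S j1 k0).a))) := by
      have e1 : ∑ l ∈ Finset.Ico k0 k1, ((1 + h j1 l) * Real.sin ((S j1 l).a - (S j1 k0).a)) =
          (∑ l ∈ Finset.Ico k0 k1, (1 + h j1 l) * Real.sin (S j1 l).a) * Real.cos (S j1 k0).a -
          (∑ l ∈ Finset.Ico k0 k1, (1 + h j1 l) * Real.cos (S j1 l).a) * Real.sin (S j1 k0).a := by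
        rw [Finset.sum_mul, Finset.sum_mul, ← Finset.sum_sub_distrib]
        refine Finset.sum_congr rfl (fun l _ => ?_)
        rw [Real.sin_sub]
        ring
      have e2 := Real.sin_sq_add_cos_sq (S j1 k0).a
      rw [e1, Real.sin_sub, Real.cos_sub]
      simp only [fV]
      rw [hc0.1, hc0.2, hc1.1, hc1.2, hes.1, hes.2]
      linear_combination (t j1 k0) * e2
    rw [e]
    have h1 := H6d_sum k0 k1 N hkN
      (fun l => (1 + h j1 l) * Real.sin ((S j1 l).a - (S j1 k0).a)) (fun _ => 0)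
      (101 / 100 * b) (by positivity) (by
        intro l hl
        have hl' := Finset.mem_Ico.1 hl
        have d := hdat l hl'.1 hl'.2.le
        show |(1 + h j1 l) * Real.sin ((S j1 l).a - (S j1 k0).a)| ≤ 0 + 101 / 100 * b
        rw [abs_mul, zero_add]
        refine mul_le_mul ?_ (H6d_sin (hb l hl'.1 hl'.2.le)) (abs_nonneg _) (by norm_num)
        rw [abs_of_nonneg (by linarith [d.2.2.1])]
        linarith [d.2.2.2])
    rw [Finset.sum_const_zero, zero_add] at h1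
    have h2 := H6d_sin (hb k1 hk le_rfl)
    have h3 : |t j1 k1 * (1 - Real.cos ((S j1 k1).a - (S j1 k0).a))| ≤ b ^ 2 / 4 := by
      have g3 := H6d_cos (hb k1 hk le_rfl)
      have g4 := Real.cos_le_one ((S j1 k1).a - (S j1 k0).a)
      rw [abs_mul, abs_of_nonneg (by linarith : 0 ≤ 1 - Real.cos ((S j1 k1).a - (S j1 k0).a))]
      calc |t j1 k1| * (1 - Real.cos ((S j1 k1).a - (S j1 k0).a)) ≤ 1 / 2 * (b ^ 2 / 2) :=
            mul_le_mul d1.2.1 (by linarith) (by linarith) (by norm_num)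
        _ = b ^ 2 / 4 := by ring
    refine (abs_add_le _ _).trans ?_
    have h7 := abs_add_le (1 / 2 * Real.sin ((S j1 k1).a - (S j1 k0).a))
      (t j1 k1 * (1 - Real.cos ((S j1 k1).a - (S j1 k0).a)))
    rw [abs_mul (1 / 2 : ℝ), abs_of_nonneg (by norm_num : (0 : ℝ) ≤ 1 / 2)] at h7
    have h10 : b ^ 2 ≤ b := by
      have h1 := mul_le_mul_of_nonneg_right hb1 hb0
      have h2 : b ^ 2 = b * b := by ring
      linarith
    have h11 : 10000 * b ≤ N * b := mul_le_mul_of_nonneg_right hNr hb0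
    linarith

end SqLo
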