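import Pool.Agent.Lib.MP_e85462_co.L.H6a
import Pool.Agent.Lib.MP_e85462_co.L.H6c
import Pool.Agent.Lib.MP_e85462_co.L.H6d
import Pool.Agent.Lib.MP_e85462_co.L.H2

/-! H6p: auxiliary lemmas for H6. -/

open MeasureTheory Set

namespace SqLo


theorem H6_trig {x φ : ℝ} (hx : |x| ≤ φ) (hφ : φ ≤ 1 / 10 ^ 8) :
    |Real.sin x| ≤ |x| ∧ 999 / 1000 * |x| ≤ |Real.sin x| ∧
      1 - Real.cos x ≤ φ / 10 ^ 8 ∧ Real.cos x ≤ 1 := by
  have hφ0 : 0 ≤ φ := (abs_nonneg x).trans hx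
  have key : ∀ y : ℝ, 0 ≤ y → y ≤ φ → Real.sin y ≤ y ∧ 999 / 1000 * y ≤ Real.sin y := by
    intro y hy hy'
    rcases hy.eq_or_lt with h0 | h0
    · rw [← h0]; simp
    · refine ⟨Real.sin_le hy, ?_⟩
      have h1 : y ≤ 1 := by linarith [hy'.trans hφ, show (1:ℝ) / 10 ^ 8 ≤ 1 by norm_num]
      have h2 := Real.sin_gt_sub_cube h0
      have h3 : y ^ 3 / 6 ≤ y / 1000 := by
        have : y ^ 2 ≤ 1 / 1000 := by
          have : y ≤ 1 / 10 ^ 8 := hy'.trans hφ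
          nlinarith
        nlinarith
      linarith
  refine ⟨?_, ?_, ?_, Real.cos_le_one x⟩
  · rcases le_total 0 x with h | h
    · rw [abs_of_nonneg h] at hx ⊢
      have := key x h hx
      rw [abs_of_nonneg (by linarith [this.2])]
      exact this.1
    · rw [abs_of_nonpos h] at hx ⊢
      have := key (-x) (by linarith) hx
      rw [Real.sin_neg] at this
      rw [abs_of_nonpos (by linarith [this.2])]
      exact this.1
  · rcases le_total 0 x with h | h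
    · rw [abs_of_nonneg h] at hx ⊢
      have := key x h hx
      rw [abs_of_nonneg (by linarith [this.2])]
      exact this.2
    · rw [abs_of_nonpos h] at hx ⊢
      have := key (-x) (by linarith) hx
      rw [Real.sin_neg] at this
      rw [abs_of_nonpos (by linarith [this.2])]
      exact this.2
  · have h1 := Real.one_sub_sq_div_two_le_cos (x := x)
    have h2 : x ^ 2 ≤ φ ^ 2 := by
      rw [← sq_abs x]; exact pow_le_pow_left₀ (abs_nonneg x) hx 2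
    nlinarith


/-- lower bound for `dz` -/
theorem H6_dz {σ d : ℝ} (n : ℤ) (h1 : d ≤ |σ|) (h2 : |σ| ≤ 1 / 2) : d ≤ dz (n + σ) := by
  unfold dz
  set m := round ((n:ℝ) + σ) with hm
  rcases eq_or_ne m n with h | h
  · rw [h]; simpa using h1
  · have h3 : (1:ℝ) ≤ |(n:ℝ) - m| := by
      have : (1:ℤ) ≤ |n - m| := Int.one_le_abs (sub_ne_zero.mpr (Ne.symm h))
      exact_mod_cast this
    have h4 : |(n:ℝ) - m| ≤ |(n:ℝ) + σ - m| + |σ| := by
      have : (n:ℝ) - m = ((n:ℝ) + σ - m) - σ := by ring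
      rw [this]; exact abs_sub _ _
    linarith

theorem H6_V {N φ ω X Y : ℝ} (n0 : ℤ) (hN : 10000 ≤ N) (hω : |ω| ≤ φ)
    (hω' : 99 / 100 * φ ≤ |ω|) (hφ : φ ≤ 1 / 10 ^ 8) (ha : N * φ ≤ 1 / 10 ^ 4)
    (hX : 59 / 100 * N + 1 ≤ X) (hX' : X ≤ N) (hY : |Y| ≤ 101 / 100)
    (hn : |Y - n0| ≤ 61 / 10000 * (N * φ)) :
    57 / 100 * (N * φ) ≤ dz (Y * Real.cos ω - X * Real.sin ω) := by
  have hφ0 : 0 ≤ φ := (abs_nonneg ω).trans hω
  obtain ⟨s1, s2, c1, c2⟩ := H6_trig hω hφ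
  have hX0 : 0 ≤ X := by linarith
  have e1 : Y * Real.cos ω - X * Real.sin ω =
      n0 + ((Y - n0) - Y * (1 - Real.cos ω) - X * Real.sin ω) := by ring
  rw [e1]
  have b1 : |Y * (1 - Real.cos ω)| ≤ 2 / 10 ^ 8 * φ := by
    rw [abs_mul, abs_of_nonneg (by linarith : 0 ≤ 1 - Real.cos ω)]
    nlinarith [abs_nonneg Y]
  have b2 : |X * Real.sin ω| ≤ N * φ := by
    rw [abs_mul, abs_of_nonneg hX0]
    exact mul_le_mul hX' (s1.trans hω) (abs_nonneg _) (by linarith)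
  have b3 : 583 / 1000 * (N * φ) ≤ |X * Real.sin ω| := by
    rw [abs_mul, abs_of_nonneg hX0]
    have h1 : 999 / 1000 * (99 / 100 * φ) ≤ |Real.sin ω| := by linarith
    have h2 : (59 / 100 * N + 1) * (999 / 1000 * (99 / 100 * φ)) ≤ X * |Real.sin ω| :=
      mul_le_mul hX h1 (by positivity) hX0
    nlinarith
  have hNφ : φ ≤ N * φ / 10000 := by nlinarith
  apply H6_dz
  · have h1 : |X * Real.sin ω| ≤ |(Y - n0) - Y * (1 - Real.cos ω) - X * Real.sin ω| +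
        |Y - n0| + |Y * (1 - Real.cos ω)| := by
      have : X * Real.sin ω = -((Y - n0) - Y * (1 - Real.cos ω) - X * Real.sin ω) + (Y - n0)
          - Y * (1 - Real.cos ω) := by ring
      calc |X * Real.sin ω| = |-((Y - n0) - Y * (1 - Real.cos ω) - X * Real.sin ω) + (Y - n0)
          - Y * (1 - Real.cos ω)| := by rw [← this]
        _ ≤ _ := by
          refine (abs_sub _ _).trans ?_
          gcongr
          refine (abs_add_le _ _).trans ?_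
          rw [abs_neg]
    linarith
  · have h1 : |(Y - n0) - Y * (1 - Real.cos ω) - X * Real.sin ω| ≤
        |Y - n0| + |Y * (1 - Real.cos ω)| + |X * Real.sin ω| := by
      refine (abs_sub _ _).trans ?_
      gcongr
      exact abs_sub _ _
    linarith

/-- the `U` phase -/
theorem H6_U {N φ ω X Y κ : ℝ} (hN : 10000 ≤ N) (hω : |ω| ≤ φ)
    (hω' : 99 / 100 * φ ≤ |ω|) (hφ : φ ≤ 1 / 10 ^ 8) (ha : N * φ ≤ 1 / 10 ^ 4)
    (hκ : 3 * κ ≤ N * φ / 20)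
    (hX : |X| ≤ 3 * κ + 12 / 10 * φ) (hY : N - 2 ≤ Y) (hY' : Y ≤ 3 * N + 2) :
    9 / 10 * (N * φ) ≤ |X * Real.cos ω + Y * Real.sin ω| ∧
      |X * Real.cos ω + Y * Real.sin ω| ≤ 32 / 10 * (N * φ) := by
  have hφ0 : 0 ≤ φ := (abs_nonneg ω).trans hω
  obtain ⟨s1, s2, c1, c2⟩ := H6_trig hω hφ
  have hY0 : 0 ≤ Y := by linarith
  have hNφ : φ ≤ N * φ / 10000 := by nlinarith
  have b1 : |X * Real.cos ω| ≤ |X| := by
    rw [abs_mul]
    have : |Real.cos ω| ≤ 1 := Real.abs_cos_le_one ω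
    nlinarith [abs_nonneg X]
  have b2 : |Y * Real.sin ω| ≤ (3 * N + 2) * φ := by
    rw [abs_mul, abs_of_nonneg hY0]
    exact mul_le_mul hY' (s1.trans hω) (abs_nonneg _) (by linarith)
  have b3 : (N - 2) * (999 / 1000 * (99 / 100 * φ)) ≤ |Y * Real.sin ω| := by
    rw [abs_mul, abs_of_nonneg hY0]
    have h1 : 999 / 1000 * (99 / 100 * φ) ≤ |Real.sin ω| := by linarith
    exact mul_le_mul hY h1 (by positivity) hY0
  constructor
  · have h1 : |Y * Real.sin ω| ≤ |X * Real.cos ω + Y * Real.sin ω| + |X * Real.cos ω| := by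
      have : Y * Real.sin ω = (X * Real.cos ω + Y * Real.sin ω) - X * Real.cos ω := by ring
      calc |Y * Real.sin ω| = |(X * Real.cos ω + Y * Real.sin ω) - X * Real.cos ω| := by
            rw [← this]
        _ ≤ _ := abs_sub _ _
    nlinarith
  · have h1 := abs_add_le (X * Real.cos ω) (Y * Real.sin ω)
    nlinarith


section
variable {C : ℝ} {X : ℝ} {P : Finset Sq} {N M n : ℕ} {y0 D φ b : ℝ} {S : ℕ → ℕ → Sq}
  {t h : ℕ → ℕ → ℝ} {j1 i0 : ℕ}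

theorem H6_num (hC : 1 ≤ C) (V : Win C X P N M n y0 S t h D j1 i0 φ b)
    (hφ0 : 0 ≤ φ) : (10000:ℝ) ≤ N ∧ (N:ℝ) * φ ≤ 1 / 10 ^ 4 ∧ φ ≤ 1 / 10 ^ 8 ∧ 0 ≤ b ∧
      b ≤ φ / 10 ^ 12 ∧ φ ≤ N * φ / 10000 ∧ N * b ≤ N * φ / 10 ^ 12 := by
  have hN : (10000:ℝ) ≤ N := by exact_mod_cast V.hN
  have h1 := V.hφN
  have h2 : (N:ℝ) * φ ≤ 1 / 10 ^ 4 := by
    have : (10000:ℝ) * (N * φ) ≤ N * (N * φ) := by
      apply mul_le_mul_of_nonneg_right hN; positivity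
    nlinarith
  have h3 : φ ≤ 1 / 10 ^ 8 := by nlinarith
  have h4 : 0 ≤ b := by
    refine le_trans ?_ V.hb
    refine Finset.sum_nonneg fun j _ => Finset.sum_nonneg fun i _ => ?_
    exact mul_nonneg (by linarith) (wst_nn _ _ _)
  have h5 : b ≤ φ / 10 ^ 12 := by
    have := V.hbφ
    nlinarith
  refine ⟨hN, h2, h3, h4, h5, by nlinarith, ?_⟩
  have := mul_le_mul_of_nonneg_left h5 (by linarith : (0:ℝ) ≤ N)
  linarith [this]

theorem H6_lk (V : Win C X P N M n y0 S t h D j1 i0 φ b) {j i : ℕ} (hj : j ≤ M)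
    (hi : i < n + 8) : Link C P (S j i) (t j i) (S j (i + 1)) (t j (i + 1)) (h j i) :=
  (V.G.ln j hj).ln i hi

theorem H6_mem (V : Win C X P N M n y0 S t h D j1 i0 φ b) {j i : ℕ} (hj : j ≤ M)
    (hi : i < n + 8) : S j i ∈ P := (H6_lk V hj hi).hS

theorem H6_t (hC : 1 ≤ C) (V : Win C X P N M n y0 S t h D j1 i0 φ b) {j i : ℕ}
    (hj : j ≤ M) (hi : i < n + 8) : |t j i| ≤ 1 / 2 := by
  have h1 := (H6_lk V hj hi).mS
  have h2 : 0 ≤ C * wst P 16 (S j i) := mul_nonneg (by linarith) (wst_nn _ _ _)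
  linarith

theorem H6_bt (hC : 1 ≤ C) (hF : Framed X P) (hT : TC P C)
    (V : Win C X P N M n y0 S t h D j1 i0 φ b) (hφ0 : 0 ≤ φ) {kr : ℕ} (hkr : i0 ≤ kr)
    (hkr' : kr < i0 + N) (T : Sq) (hTP : T ∈ P)
    (hx : ∃ i j : ℕ, i0 ≤ i ∧ i < i0 + N ∧ j ≤ M ∧ |T.x - (S j i).x| ≤ 3 ∧
      |T.y - (S j i).y| ≤ 3) : |T.a - (S j1 kr).a| ≤ 11 / 10 * b := by
  obtain ⟨a1, a2, a3, a4, a5, a6, a7⟩ := H6_num hC V hφ0
  have hi1 := V.hi1
  have hj1 := V.hj1'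
  have hM := V.hM
  exact block_tilt C hC X P hF hT V.G i0 (i0 + N) (by omega) b (by linarith) V.hb kr j1 hkr hkr'
    (by omega) T hTP hx

theorem H6_z (hC : 1 ≤ C) (hF : Framed X P) (hT : TC P C)
    (V : Win C X P N M n y0 S t h D j1 i0 φ b) (hφ0 : 0 ≤ φ) {k : ℕ} (hk : i0 ≤ k)
    (hk' : k < i0 + N) (j0 : ℕ) (hj0 : 20 ≤ j0) (hj0' : j0 ≤ N + 20) (κ : ℝ)
    (hκ0 : cst C P (S j0) (h j0) (n + 8) ≤ κ) (hκ1 : cst C P (S j1) (h j1) (n + 8) ≤ κ) :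
    |(S j1 k).x - (S j0 k).x| ≤ 3 * κ + 12 / 10 * φ ∧
    |(S j1 k).y - (S j0 k).y - (j1 - j0)| ≤ 16 / 10 := by
  obtain ⟨a1, a2, a3, a4, a5, a6, a7⟩ := H6_num hC V hφ0
  have hi1 := V.hi1
  have hj1 := V.hj1'
  have hM := V.hM
  have q1 := fam_phase C hC X P hF hT V.G κ j1 j0 k (by omega) (by omega) (by omega) hκ1 hκ0
  have q2 := (fam_pos C hC X P hF hT V.G j1 j0 k (by omega) (by omega) (by omega)).2
  obtain ⟨e1, e2⟩ := ctr_ent (S j1) (t j1) k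
  obtain ⟨e3, e4⟩ := ctr_ent (S j0) (t j0) k
  have hD := V.G.D1
  have r1 := H6_t hC V (j := j1) (i := k) (by omega) (by omega)
  have r2 := H6_t hC V (j := j0) (i := k) (by omega) (by omega)
  have r3 := (V.G.ln j1 (by omega)).t0
  have r4 := (V.G.ln j0 (by omega)).t0
  have w1 : |(S j1 k).a| ≤ φ := V.hφ k hk hk'
  have w2 : |(S j0 k).a - (S j1 k).a| ≤ 11 / 10 * b :=
    H6_bt hC hF hT V hφ0 hk hk' _ (H6_mem V (by omega) (by omega))
      ⟨k, j0, hk, hk', by omega, by simp, by simp⟩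
  have w3 : |(S j0 k).a| ≤ 101 / 100 * φ := by
    have : (S j0 k).a = ((S j0 k).a - (S j1 k).a) + (S j1 k).a := by ring
    rw [this]
    refine (abs_add_le _ _).trans ?_
    linarith
  have hφ' : 101 / 100 * φ ≤ 2 / 10 ^ 8 := by linarith
  have c1 := Real.one_sub_sq_div_two_le_cos (x := (S j1 k).a)
  have c2 := Real.one_sub_sq_div_two_le_cos (x := (S j0 k).a)
  have c3 := Real.cos_le_one (S j1 k).a
  have c4 := Real.cos_le_one (S j0 k).a
  have d1 : (S j1 k).a ^ 2 ≤ φ / 10 ^ 7 := by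
    rw [← sq_abs]; nlinarith [abs_nonneg (S j1 k).a]
  have d2 : (S j0 k).a ^ 2 ≤ φ / 10 ^ 7 := by
    rw [← sq_abs]; nlinarith [abs_nonneg (S j0 k).a]
  have s1 : |Real.sin (S j1 k).a| ≤ φ := (Real.abs_sin_le_abs).trans w1
  have s2 : |Real.sin (S j0 k).a| ≤ 101 / 100 * φ := (Real.abs_sin_le_abs).trans w3
  have m1 : |t j1 k * Real.sin (S j1 k).a| ≤ 1 / 2 * φ := by
    rw [abs_mul]; exact mul_le_mul r1 s1 (abs_nonneg _) (by norm_num)
  have m2 : |t j0 k * Real.sin (S j0 k).a| ≤ 1 / 2 * (101 / 100 * φ) := by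
    rw [abs_mul]; exact mul_le_mul r2 s2 (abs_nonneg _) (by norm_num)
  have m3 : |t j1 k * Real.cos (S j1 k).a| ≤ 1 / 2 := by
    rw [abs_mul, ← mul_one (1 / 2 : ℝ)]
    exact mul_le_mul r1 (Real.abs_cos_le_one _) (abs_nonneg _) (by norm_num)
  have m4 : |t j0 k * Real.cos (S j0 k).a| ≤ 1 / 2 := by
    rw [abs_mul, ← mul_one (1 / 2 : ℝ)]
    exact mul_le_mul r2 (Real.abs_cos_le_one _) (abs_nonneg _) (by norm_num)
  rw [abs_le] at q1 q2 r3 r4 m1 m2 m3 m4 s1 s2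
  rw [e1, e2, e3, e4, abs_le, abs_le]
  refine ⟨⟨?_, ?_⟩, ⟨?_, ?_⟩⟩
  · linarith
  · linarith
  · linarith
  · linarith


/-- inverse of `rot X` -/
noncomputable def H6_ir (X : ℝ) (S : Sq) : Sq := ⟨S.y, X - S.x, S.a⟩

theorem H6_rir (X : ℝ) (S : Sq) : rot X (H6_ir X S) = S := by
  cases S
  simp [rot, H6_ir]

theorem H6_irr (X : ℝ) (S : Sq) : H6_ir X (rot X S) = S := by
  cases S
  simp [rot, H6_ir]

variable {A : Sq} {m : ℕ} {Y : ℕ → Sq} {s g : ℕ → ℝ}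

theorem H6_ent (L : GLine C X (rotP X P) (rot X A) m Y s g) (hφ : φ ≤ 1 / 10 ^ 8)
    (hA : |A.a| ≤ φ) : |(ent Y s 0).1 - (X - A.y - 1 / 2)| ≤ 3 / 10 * φ := by
  obtain ⟨e1, e2⟩ := ctr_ent Y s 0
  rw [L.s0] at e1
  have h1 : (rot X A).x = X - A.y := rfl
  have h2 : (rot X A).a = A.a := rfl
  rw [h1, h2] at e1
  have h3 := L.t0
  obtain ⟨s1, s2, c1, c2⟩ := H6_trig hA hφ
  have m1 : |s 0 * Real.sin A.a| ≤ 1 / 4 * φ := by
    rw [abs_mul]; exact mul_le_mul h3 (s1.trans hA) (abs_nonneg _) (by norm_num)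
  have hφ0 : 0 ≤ φ := (abs_nonneg _).trans hA
  rw [abs_le] at m1 ⊢
  constructor <;> linarith

theorem H6_m (hC : 1 ≤ C) (L : GLine C X (rotP X P) (rot X A) m Y s g)
    (hφ : φ ≤ 1 / 10 ^ 8) (hA : |A.a| ≤ φ) (hc : cst C (rotP X P) Y g (m + 8) ≤ 1 / 1000) :
    A.y ≤ m := by
  have h1 := H6_ent L hφ hA
  have h2 := (L.bar m le_rfl (by omega)).2
  obtain ⟨h3, _⟩ := ent_sum L.ln 0 m (by omega) (by omega)
  obtain ⟨_, h4⟩ := wst_cst C hC _ L.ln 0 m (by omega) (by omega)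
  have h5 := cst_mono C hC _ L.ln (i := m) (j := m + 8) (by omega) le_rfl
  have h6 : cst C (rotP X P) Y g 0 = 0 := by simp [cst]
  have h7 : ∑ l ∈ Finset.Ico 0 m, (1 + g l) * Real.cos (Y l).a ≤
      ∑ l ∈ Finset.Ico 0 m, (1 + g l) := by
    apply Finset.sum_le_sum
    intro l hl
    have h8 := (L.ln l (by have := Finset.mem_Ico.mp hl; omega)).h0
    have := Real.cos_le_one (Y l).a
    nlinarith
  rw [Finset.sum_add_distrib] at h7
  simp only [Finset.sum_const, Nat.card_Ico, nsmul_eq_mul, mul_one, Nat.sub_zero] at h7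
  rw [abs_le] at h1
  linarith

theorem H6_memY (L : GLine C X (rotP X P) (rot X A) m Y s g) {i : ℕ} (hi : i ≤ m + 8) :
    H6_ir X (Y i) ∈ P := by
  rw [← rot_mem X, H6_rir]
  rcases Nat.lt_or_ge i (m + 8) with h | h
  · exact (L.ln i h).hS
  · obtain rfl : i = m + 7 + 1 := by omega
    exact (L.ln (m + 7) (by omega)).hT

theorem H6_chain (hC : 1 ≤ C) (L : GLine C X (rotP X P) (rot X A) m Y s g)
    {ω τ κ : ℝ} {r : ℕ} (hr : r ≤ m + 8) (hκ : cst C (rotP X P) Y g (m + 8) ≤ κ)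
    (h0 : 0 ≤ τ) (h1 : τ ≤ 1 / 10) (ht : ∀ i ≤ r, |(Y i).a - ω| ≤ τ) (j : ℕ) (hj : j ≤ r) :
    |fV ω ((H6_ir X (Y j)).x, (H6_ir X (Y j)).y) - (fV ω (A.x, A.y) - j)| ≤
      κ + 2 * τ + r * τ ^ 2 ∧
    |fU ω ((H6_ir X (Y j)).x, (H6_ir X (Y j)).y) - fU ω (A.x, A.y)| ≤ 1 + 2 * (r + 1) * τ := by
  obtain ⟨p1, p2, _⟩ := chain_pos C hC (rotP X P) L.ln ω τ h0 h1 r hr ht j hj (by omega)
  obtain ⟨q1, q2⟩ := rot_UV X ω (H6_ir X (Y j))
  rw [H6_rir] at q1 q2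
  obtain ⟨q3, q4⟩ := rot_UV X ω A
  rw [L.s0] at p1 p2
  rw [q1, q3] at p1
  rw [q2, q4] at p2
  have h5 := cst_mono C hC _ L.ln (i := j) (j := m + 8) (by omega) le_rfl
  obtain ⟨_, h4⟩ := wst_cst C hC _ L.ln 0 j (by omega) (by omega)
  have h6 : cst C (rotP X P) Y g 0 = 0 := by simp [cst]
  rw [← Finset.range_eq_Ico] at h4
  have hjr : (j:ℝ) ≤ r := by exact_mod_cast hj
  have h7 : (j:ℝ) * τ ^ 2 ≤ r * τ ^ 2 := mul_le_mul_of_nonneg_right hjr (by positivity)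
  have h8 : 2 * ((j:ℝ) + 1) * τ ≤ 2 * (r + 1) * τ := by
    apply mul_le_mul_of_nonneg_right _ h0; linarith
  rw [abs_le] at p1 p2 ⊢
  constructor
  · constructor <;> linarith
  · rw [abs_le]; constructor <;> linarith


theorem H6_xy {N φ ω r xA yA x' y' px py : ℝ} (hN : 10000 ≤ N) (hω : |ω| ≤ φ)
    (hφ : φ ≤ 1 / 10 ^ 8) (ha : N * φ ≤ 1 / 10 ^ 4) (hr : r ≤ 3 * N + 5) (hr0 : 0 ≤ r)
    (hX : 0 ≤ x' - xA) (hX' : x' - xA ≤ N) (hY : |y' - yA| ≤ 101 / 100)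
    (h1 : fU ω (xA, yA) - 5 / 2 ≤ fU ω (px, py)) (h2 : fU ω (px, py) ≤ fU ω (x', y') + 5 / 2)
    (h3 : fV ω (xA, yA) - r - 2 ≤ fV ω (px, py)) (h4 : fV ω (px, py) ≤ fV ω (xA, yA) + 2) :
    xA - 10 ≤ px ∧ px ≤ x' + 10 ∧ yA - r - 3 ≤ py ∧ py ≤ yA + 10 := by
  have hφ0 : 0 ≤ φ := (abs_nonneg ω).trans hω
  obtain ⟨s1, s2, c1, c2⟩ := H6_trig hω hφ
  have hs : |Real.sin ω| ≤ φ := s1.trans hω
  have hcs := Real.sin_sq_add_cos_sq ω
  simp only [fU, fV] at h1 h2 h3 h4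
  set c := Real.cos ω with hc
  set σ := Real.sin ω with hσ
  have hc0 : 0 ≤ c := by linarith
  -- coordinates relative to A
  set a1 := (px - xA) * c + (py - yA) * σ with ha1
  set a2 := (py - yA) * c - (px - xA) * σ with ha2
  have e1 : px - xA = a1 * c - a2 * σ := by
    rw [ha1, ha2]; linear_combination (-(px - xA)) * hcs
  have e2 : py - yA = a1 * σ + a2 * c := by
    rw [ha1, ha2]; linear_combination (-(py - yA)) * hcs
  have f1 : -(5 / 2) ≤ a1 := by rw [ha1]; linarith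
  have f3 : -r - 2 ≤ a2 := by rw [ha2]; linarith
  have f4 : a2 ≤ 2 := by rw [ha2]; linarith
  have g1 : |(y' - yA) * σ| ≤ 101 / 100 * φ := by
    rw [abs_mul]; exact mul_le_mul hY hs (abs_nonneg _) (by norm_num)
  have g2 : |(x' - xA) * σ| ≤ N * φ := by
    rw [abs_mul, abs_of_nonneg hX]; exact mul_le_mul hX' hs (abs_nonneg _) (by linarith)
  have g3 : (x' - xA) * c ≤ N := by
    have := mul_le_mul_of_nonneg_left c2 hX
    linarith
  have f2 : a1 ≤ N + 3 := by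
    rw [abs_le] at g1
    rw [ha1]; linarith
  have k1 : |a2 * σ| ≤ 1 / 100 := by
    rw [abs_mul]
    have : |a2| ≤ 3 * N + 7 := by rw [abs_le]; constructor <;> linarith
    have := mul_le_mul this hs (abs_nonneg _) (by linarith)
    linarith
  have k2 : |a1 * σ| ≤ 1 / 100 := by
    rw [abs_mul]
    have : |a1| ≤ N + 3 := by rw [abs_le]; constructor <;> linarith
    have := mul_le_mul this hs (abs_nonneg _) (by linarith)
    linarith
  -- coordinates relative to A'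
  set b1 := (px - x') * c + (py - y') * σ with hb1
  set b2 := (py - y') * c - (px - x') * σ with hb2
  have e3 : px - x' = b1 * c - b2 * σ := by
    rw [hb1, hb2]; linear_combination (-(px - x')) * hcs
  have f5 : b1 ≤ 5 / 2 := by rw [hb1]; linarith
  have f6 : |b2| ≤ 3 * N + 9 := by
    have : b2 = a2 - ((y' - yA) * c - (x' - xA) * σ) := by rw [hb2, ha2]; ring
    have h7 : |(y' - yA) * c| ≤ 101 / 100 := by
      rw [abs_mul, abs_of_nonneg hc0]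
      have := mul_le_mul hY c2 hc0 (by norm_num)
      linarith
    rw [abs_le] at h7 g2 ⊢
    rw [this]
    constructor <;> linarith
  have k3 : |b2 * σ| ≤ 1 / 100 := by
    rw [abs_mul]
    have := mul_le_mul f6 hs (abs_nonneg _) (by linarith)
    linarith
  rw [abs_le] at k1 k2 k3
  have l1 : -(5 / 2) ≤ a1 * c := by
    have := mul_le_mul_of_nonneg_right f1 hc0
    linarith
  have l2 : b1 * c ≤ 5 / 2 := by
    have := mul_le_mul_of_nonneg_right f5 hc0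
    linarith
  have l3 : -r - 2 ≤ a2 * c := by
    have h5 := mul_le_mul_of_nonneg_right f3 hc0
    have h6 := mul_nonneg (by linarith : 0 ≤ r + 2) (by linarith : 0 ≤ 1 - c)
    linarith
  have l4 : a2 * c ≤ 2 := by
    have := mul_le_mul_of_nonneg_right f4 hc0
    linarith
  refine ⟨?_, ?_, ?_, ?_⟩ <;> linarith


end

end SqLo
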