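import Pool.Agent.Lib.MP_e85462_co.L.E1

/-! K0: neighbouring lines reach the wall after the same number of steps. -/

open MeasureTheory Set

namespace SqLo

private theorem K0_aux (C : ℝ) (hC : 1 ≤ C) (X : ℝ) (P : Finset Sq) (hF : Framed X P) (hT : TC P C)
    {A A' : Sq} {n n' : ℕ} {S S' : ℕ → Sq} {t h t' h' : ℕ → ℝ}
    (L : GLine C X P A n S t h) (L' : GLine C X P A' n' S' t' h')
    (h1 : (ent S' t' 0).1 = (ent S t 0).1) (h2 : |(ent S' t' 0).2 - (ent S t 0).2| ≤ 8 / 5)
    (hc : cst C P S h (n + 8) + cst C P S' h' (n' + 8) ≤ 1 / 50) (hn : n < n') : False := by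
  have hL' : Ln C P (n + 8) S' t' h' := fun i hi => L'.ln i (by omega)
  have hm1 := cst_mono C hC P L'.ln (i := n + 8) (j := n' + 8) (by omega) le_rfl
  have hm2 := cst_mono C hC P L.ln (i := n) (j := n + 8) (by omega) le_rfl
  have hm3 := cst_mono C hC P hL' (i := n) (j := n + 8) (by omega) le_rfl
  have hf := (formation C hC P hF.nm hT (by omega) L.ln hL'
    (by rw [h1, sub_self, abs_zero]; norm_num) h2 (by linarith) n (by omega)).1
  rw [h1, sub_self, sub_zero] at hf
  have hbar := (L.bar n le_rfl (by omega)).2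
  rw [sub_self, add_zero] at hbar
  rw [hbar] at hf
  have hf2 := (abs_le.1 hf).1
  have hn1 := L.n1
  have hlk := L'.ln n (by omega)
  have hin := L'.ins n hn1 hn
  have hmem : (S' n).pt (1 / 2) (t' n) ∈ (S' n).cl := by
    constructor
    · rw [pt_u]
      rw [abs_of_pos (by norm_num : (0 : ℝ) < 1 / 2)]
    · rw [pt_v]
      have h3 := hlk.mS
      have h4 : 0 ≤ wst P 16 (S' n) := wst_nn P 16 (S' n)
      have h5 : 0 ≤ C * wst P 16 (S' n) := mul_nonneg (by linarith) h4
      linarith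
  have h6 := (hin hmem).2.1
  have h7 : ((S' n).pt (1 / 2) (t' n)).1 = (ent S' t' n).1 + Real.cos (S' n).a := by
    show (S' n).x + 1 / 2 * Real.cos (S' n).a - t' n * Real.sin (S' n).a =
      ((S' n).x + -1 / 2 * Real.cos (S' n).a - t' n * Real.sin (S' n).a) + Real.cos (S' n).a
    ring
  rw [h7] at h6
  have h8 : (99 : ℝ) / 100 ≤ Real.cos (S' n).a := by
    have h9 := Real.one_sub_sq_div_two_le_cos (x := (S' n).a)
    have h10 := abs_le.1 hlk.aS
    have h11 : (S' n).a ^ 2 ≤ (1 / 10) ^ 2 := by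
      apply sq_le_sq'
      · linarith [h10.1]
      · exact h10.2
    linarith
  linarith [hm1.1, hm1.2, hm2.1, hm2.2, hm3.1, hm3.2]

/-- neighbouring lines reach the wall after the same number of steps -/
theorem same_n (C : ℝ) (hC : 1 ≤ C) (X : ℝ) (P : Finset Sq) (hF : Framed X P) (hT : TC P C)
    {A A' : Sq} {n n' : ℕ} {S S' : ℕ → Sq} {t h t' h' : ℕ → ℝ}
    (L : GLine C X P A n S t h) (L' : GLine C X P A' n' S' t' h')
    (h1 : (ent S' t' 0).1 = (ent S t 0).1) (h2 : |(ent S' t' 0).2 - (ent S t 0).2| ≤ 8 / 5)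
    (hc : cst C P S h (n + 8) + cst C P S' h' (n' + 8) ≤ 1 / 50) : n = n' := by
  rcases lt_trichotomy n n' with h3 | h3 | h3
  · exact (K0_aux C hC X P hF hT L L' h1 h2 hc h3).elim
  · exact h3
  · exact (K0_aux C hC X P hF hT L' L h1.symm (by rw [abs_sub_comm]; exact h2)
      (by rw [add_comm]; exact hc) h3).elim

end SqLo
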