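import Pool.Agent.Lib.MP_e85462_co.L.D3
import Pool.Agent.Lib.MP_e85462_co.L.G1
import Pool.Agent.Lib.MP_e85462_co.L.K0

/-! K1: selection of a cheap family of horizontal lines. -/

open MeasureTheory Set

namespace SqLo

private theorem K1_blocks (W : ℕ → ℝ) (m q : ℕ) :
    ∑ l ∈ Finset.range q, ∑ j ∈ Finset.range m, W (l * m + j) = ∑ i ∈ Finset.range (q * m), W i := by
  induction q with
  | zero => simp
  | succ q ih =>
    rw [Finset.sum_range_succ, ih, Nat.succ_mul, Finset.sum_range_add]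

private theorem K1_ent {S : ℕ → Sq} {t : ℕ → ℝ} {y : ℝ} (h : S 0 = ⟨-1 / 2, y, 0⟩) :
    ent S t 0 = (-1, y + t 0) := by
  unfold ent
  rw [h]
  unfold Sq.pt
  simp only [Real.cos_zero, Real.sin_zero]
  ext
  · show (-1 / 2 : ℝ) + -1 / 2 * 1 - t 0 * 0 = -1
    ring
  · show y + -1 / 2 * 0 + t 0 * 1 = y + t 0
    ring

/-- an index with small value -/
private theorem K1_small (f : ℕ → ℝ) (M N a : ℕ) (hN : 1 ≤ N) (D : ℝ) (hD : 0 ≤ D)
    (hf : ∀ j ≤ M, 0 ≤ f j) (hs : ∑ j ∈ Finset.range (M + 1), f j ≤ D) (ha : a + N ≤ M) :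
    ∃ j, a ≤ j ∧ j ≤ a + N ∧ f j ≤ D / N := by
  have hN0 : (0 : ℝ) < N := by exact_mod_cast (show 0 < N by omega)
  have h1 : ∑ j ∈ Finset.Icc a (a + N), f j ≤ ∑ j ∈ Finset.Icc a (a + N), D / N := by
    have h2 : ∑ j ∈ Finset.Icc a (a + N), f j ≤ ∑ j ∈ Finset.range (M + 1), f j := by
      refine Finset.sum_le_sum_of_subset_of_nonneg ?_ ?_
      · intro j hj
        rw [Finset.mem_Icc] at hj
        rw [Finset.mem_range]
        omega
      · intro j hj _
        rw [Finset.mem_range] at hj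
        exact hf j (by omega)
    have h3 : ∑ j ∈ Finset.Icc a (a + N), D / N = ((N : ℝ) + 1) * (D / N) := by
      rw [Finset.sum_const, Nat.card_Icc, nsmul_eq_mul]
      congr 1
      have h4 : a + N + 1 - a = N + 1 := by omega
      rw [h4]
      push_cast
      ring
    rw [h3]
    have h5 : ((N : ℝ) + 1) * (D / N) = D + D / N := by
      field_simp
    rw [h5]
    have h6 : 0 ≤ D / N := div_nonneg hD hN0.le
    linarith
  obtain ⟨j, hj, hj2⟩ := Finset.exists_le_of_sum_le (Finset.nonempty_Icc.2 (by omega)) h1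
  rw [Finset.mem_Icc] at hj
  exact ⟨j, hj.1, hj.2, hj2⟩

theorem sel (C : ℝ) (hC : 1 ≤ C) (k N : ℕ) (P : Finset Sq) (hF : Framed ((k : ℝ) + 1 / 2) P)
    (hT : TC P C) (hcol : ∀ j : ℕ, j < k → (⟨-1 / 2, 1 / 2 + j, 0⟩ : Sq) ∈ P)
    (hN : 10000 ≤ N) (hk : N ^ 5 ≤ k) (D : ℝ)
    (hD : 10 ^ 11 * C * tw ((k : ℝ) + 1 / 2) P / N ^ 4 ≤ D) (hD1 : D ≤ 1 / 1000) :
    ∃ (n : ℕ) (y0 : ℝ) (S : ℕ → ℕ → Sq) (t h : ℕ → ℕ → ℝ) (j0 j1 : ℕ),
      Fam C ((k : ℝ) + 1 / 2) P (3 * N + 60) n y0 S t h D ∧ 20 ≤ j0 ∧ j0 ≤ N + 20 ∧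
      2 * N + 20 ≤ j1 ∧ j1 ≤ 3 * N + 20 ∧ cst C P (S j0) (h j0) (n + 8) ≤ D / N ∧
      cst C P (S j1) (h j1) (n + 8) ≤ D / N := by
  have hNr : (10000 : ℝ) ≤ N := by exact_mod_cast hN
  have htw : 0 ≤ tw ((k : ℝ) + 1 / 2) P := ENNReal.toReal_nonneg
  set T : ℝ := C * tw ((k : ℝ) + 1 / 2) P with hTdef
  have hT0 : 0 ≤ T := mul_nonneg (by linarith) htw
  have hN4 : (0 : ℝ) < (N : ℝ) ^ 4 := by positivity
  have hD' : 10 ^ 11 * T ≤ D * (N : ℝ) ^ 4 := by
    rw [div_le_iff₀ hN4] at hD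
    calc 10 ^ 11 * T = 10 ^ 11 * C * tw ((k : ℝ) + 1 / 2) P := by rw [hTdef]; ring
      _ ≤ _ := hD
  have hD0 : 0 ≤ D := by
    by_contra hneg
    have h1 : D * (N : ℝ) ^ 4 < 0 := mul_neg_of_neg_of_pos (not_le.1 hneg) hN4
    have h2 : (0 : ℝ) ≤ 10 ^ 11 * T := by positivity
    linarith
  -- the first column
  let F : ℕ → Sq := fun j => ⟨-1 / 2, 1 / 2 + j, 0⟩
  have hFinj : Function.Injective F := by
    intro i j hij
    have h1 : (F i).y = (F j).y := by rw [hij]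
    have h2 : (1 / 2 : ℝ) + i = 1 / 2 + j := h1
    exact_mod_cast (add_left_cancel h2)
  have hLC : ∀ j < k, LC ((k : ℝ) + 1 / 2) (F j) := by
    intro j hj
    have h1 : (j : ℝ) + 1 ≤ k := by exact_mod_cast hj
    have h2 : (0 : ℝ) ≤ j := Nat.cast_nonneg j
    refine ⟨rfl, ?_, ?_, rfl⟩
    · show (1 / 2 : ℝ) ≤ 1 / 2 + j
      linarith
    · show (1 / 2 : ℝ) + j ≤ (k : ℝ) + 1 / 2 - 1 / 2
      linarith
  let A : Finset Sq := (Finset.range k).image F
  have hA : A ⊆ P := by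
    intro S hS
    obtain ⟨j, hj, rfl⟩ := Finset.mem_image.1 hS
    exact hcol j (Finset.mem_range.1 hj)
  have hALC : ∀ S ∈ A, LC ((k : ℝ) + 1 / 2) S := by
    intro S hS
    obtain ⟨j, hj, rfl⟩ := Finset.mem_image.1 hS
    exact hLC j (Finset.mem_range.1 hj)
  obtain ⟨w, hw0, hws, hw⟩ := glines C hC ((k : ℝ) + 1 / 2) P hF hT A hA
    (by
      intro S hS
      rw [(hALC S hS).1]
      norm_num)
    (fun S hS => Or.inr (hALC S hS))
    (fun n S t h hn L h0 h1 => nr_col C hC _ P n S t h hn L (hALC _ h0) (hALC _ h1))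
  let W : ℕ → ℝ := fun j => w (F j)
  have hW0 : ∀ j, 0 ≤ W j := fun j => hw0 _
  have hWs : ∑ j ∈ Finset.range k, W j ≤ 10 ^ 10 * T := by
    have h1 : ∑ S ∈ A, w S = ∑ j ∈ Finset.range k, W j :=
      Finset.sum_image (fun x _ y _ hxy => hFinj hxy)
    rw [← h1]
    exact hws
  -- the blocks
  set m : ℕ := 3 * N + 61 with hm
  set q : ℕ := k / m with hq
  have hqm : q * m ≤ k := Nat.div_mul_le_self k m
  have hqm2 : k < q * m + m := by
    have h1 := Nat.div_add_mod k m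
    have h2 := Nat.mod_lt k (show 0 < m by omega)
    rw [hq, Nat.mul_comm]
    omega
  have hqr : (N : ℝ) ^ 4 / 5 ≤ q := by
    have h1 : (k : ℝ) ≤ q * m + m := by exact_mod_cast hqm2.le
    have h2 : ((N : ℝ)) ^ 5 ≤ k := by exact_mod_cast hk
    have h3 : (m : ℝ) ≤ 4 * N := by
      rw [hm]
      push_cast
      linarith
    have h4 : (q : ℝ) * m ≤ q * (4 * N) := mul_le_mul_of_nonneg_left h3 (Nat.cast_nonneg q)
    have h5 : (N : ℝ) ^ 5 ≤ (q + 1) * 4 * N := by linarith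
    have h6 : (N : ℝ) * (N : ℝ) ^ 4 ≤ (N : ℝ) * (((q : ℝ) + 1) * 4) := by
      have h6a : (N : ℝ) * (N : ℝ) ^ 4 = (N : ℝ) ^ 5 := by ring
      have h6b : (N : ℝ) * (((q : ℝ) + 1) * 4) = (q + 1) * 4 * N := by ring
      rw [h6a, h6b]
      exact h5
    have h7 : (N : ℝ) ^ 4 ≤ (q + 1) * 4 := le_of_mul_le_mul_left h6 (by linarith)
    have h8 : (20 : ℝ) ≤ (N : ℝ) ^ 4 := by
      have h9 : (N : ℝ) ≤ (N : ℝ) ^ 4 := le_self_pow₀ (by linarith) (by norm_num)
      linarith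
    linarith
  have hq0 : (0 : ℝ) < q := lt_of_lt_of_le (by positivity) hqr
  have hq0' : 0 < q := by exact_mod_cast hq0
  have hsum : ∑ l ∈ Finset.range q, ∑ j ∈ Finset.range m, W (l * m + j) ≤
      ∑ l ∈ Finset.range q, D := by
    rw [K1_blocks, Finset.sum_const, Finset.card_range, nsmul_eq_mul]
    have h1 : ∑ i ∈ Finset.range (q * m), W i ≤ ∑ i ∈ Finset.range k, W i := by
      refine Finset.sum_le_sum_of_subset_of_nonneg ?_ (fun i _ _ => hW0 i)
      intro i hi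
      rw [Finset.mem_range] at hi ⊢
      omega
    have h2 : 10 ^ 10 * T ≤ q * D := by
      have h3 : (N : ℝ) ^ 4 / 5 * D ≤ q * D := mul_le_mul_of_nonneg_right hqr hD0
      have h4 : (N : ℝ) ^ 4 / 5 * D = D * (N : ℝ) ^ 4 / 5 := by ring
      linarith
    linarith
  obtain ⟨l, hl, hlD⟩ := Finset.exists_le_of_sum_le (Finset.nonempty_range_iff.2 hq0'.ne') hsum
  rw [Finset.mem_range] at hl
  have hlk : ∀ j < m, l * m + j < k := by
    intro j hj
    have h1 : (l + 1) * m ≤ q * m := Nat.mul_le_mul_right m hl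
    have h2 : (l + 1) * m = l * m + m := by ring
    omega
  have hWj : ∀ j < m, W (l * m + j) ≤ D := by
    intro j hj
    refine le_trans ?_ hlD
    exact Finset.single_le_sum (f := fun j => W (l * m + j)) (fun i _ => hW0 _)
      (Finset.mem_range.2 hj)
  -- the lines
  have hex : ∀ j : ℕ, ∃ (n : ℕ) (S : ℕ → Sq) (t h : ℕ → ℝ), j < m →
      GLine C ((k : ℝ) + 1 / 2) P (F (l * m + j)) n S t h ∧
        cst C P S h (n + 8) ≤ W (l * m + j) := by
    intro j
    by_cases hj : j < m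
    · obtain ⟨n, S, t, h, h1, h2⟩ := hw (F (l * m + j))
        (Finset.mem_image_of_mem F (Finset.mem_range.2 (hlk j hj)))
        (by
          have h3 : W (l * m + j) ≤ D := hWj j hj
          show W (l * m + j) < 1 / 100
          linarith)
      exact ⟨n, S, t, h, fun _ => ⟨h1, h2⟩⟩
    · exact ⟨0, fun _ => std, fun _ => 0, fun _ => 0, fun h => absurd h hj⟩
  choose n S t h hall using hex
  have hentx : ∀ j < m, ent (S j) (t j) 0 = (-1, (1 / 2 + ((l * m + j : ℕ) : ℝ)) + t j 0) := by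
    intro j hj
    exact K1_ent (hall j hj).1.s0
  have hnn : ∀ j, j + 1 < m → n (j + 1) = n j := by
    intro j hj
    have hj' : j < m := by omega
    refine (same_n C hC ((k : ℝ) + 1 / 2) P hF hT (hall j hj').1 (hall (j + 1) hj).1 ?_ ?_ ?_).symm
    · rw [hentx j hj', hentx (j + 1) hj]
    · rw [hentx j hj', hentx (j + 1) hj]
      have h1 := abs_le.1 (hall j hj').1.t0
      have h2 := abs_le.1 (hall (j + 1) hj).1.t0
      show |(1 / 2 + ((l * m + (j + 1) : ℕ) : ℝ)) + t (j + 1) 0 -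
        ((1 / 2 + ((l * m + j : ℕ) : ℝ)) + t j 0)| ≤ 8 / 5
      push_cast
      rw [abs_le]
      constructor <;> linarith
    · have h1 := (hall j hj').2
      have h2 := (hall (j + 1) hj).2
      have h3 := hWj j hj'
      have h4 := hWj (j + 1) hj
      linarith
  have hn0 : ∀ j < m, n j = n 0 := by
    intro j
    induction j with
    | zero => intro _; rfl
    | succ j ih =>
      intro hj
      rw [hnn j hj]
      exact ih (by omega)
  have hcst : ∀ j < m, cst C P (S j) (h j) (n 0 + 8) ≤ W (l * m + j) := by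
    intro j hj
    have h1 := (hall j hj).2
    rw [hn0 j hj] at h1
    exact h1
  have hG : ∀ j < m, GLine C ((k : ℝ) + 1 / 2) P (F (l * m + j)) (n 0) (S j) (t j) (h j) := by
    intro j hj
    have h1 := (hall j hj).1
    rw [hn0 j hj] at h1
    exact h1
  have hc0 : ∀ j < m, 0 ≤ cst C P (S j) (h j) (n 0 + 8) := by
    intro j hj
    exact (cst_mono C hC P (hG j hj).ln (le_refl (n 0 + 8)) le_rfl).1
  have hcs : ∑ j ∈ Finset.range (3 * N + 60 + 1), cst C P (S j) (h j) (n 0 + 8) ≤ D := by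
    refine le_trans (Finset.sum_le_sum (g := fun j => W (l * m + j)) ?_) hlD
    intro j hj
    exact hcst j (Finset.mem_range.1 hj)
  obtain ⟨j0, ha1, ha2, ha3⟩ := K1_small (fun j => cst C P (S j) (h j) (n 0 + 8)) (3 * N + 60) N 20
    (by omega) D hD0 (fun j hj => hc0 j (by omega)) hcs (by omega)
  obtain ⟨j1, hb1, hb2, hb3⟩ := K1_small (fun j => cst C P (S j) (h j) (n 0 + 8)) (3 * N + 60) N
    (2 * N + 20) (by omega) D hD0 (fun j hj => hc0 j (by omega)) hcs (by omega)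
  refine ⟨n 0, 1 / 2 + ((l * m : ℕ) : ℝ), S, t, h, j0, j1, ⟨?_, hcs, hD1⟩, ha1, by omega, hb1,
    by omega, ha3, hb3⟩
  intro j hj
  have h1 := hG j (by omega)
  have h2 : F (l * m + j) = ⟨-1 / 2, 1 / 2 + ((l * m : ℕ) : ℝ) + j, 0⟩ := by
    show (⟨-1 / 2, 1 / 2 + ((l * m + j : ℕ) : ℝ), 0⟩ : Sq) = _
    congr 1
    push_cast
    ring
  rw [h2] at h1
  exact h1

end SqLo
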