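import Pool.Agent.Lib.MP_e85462_co.L.E1

/-! K2a: the sum of the squared tilts on a horizontal line. -/

open MeasureTheory Set

namespace SqLo

theorem sumsq (C : ℝ) (hC : 1 ≤ C) (k : ℕ) (P : Finset Sq) (hF : Framed ((k : ℝ) + 1 / 2) P)
    (S0 : Sq) (n : ℕ) (S : ℕ → Sq) (t h : ℕ → ℝ) (L : GLine C ((k : ℝ) + 1 / 2) P S0 n S t h)
    (hx : S0.x = -1 / 2) (ha : S0.a = 0) (hc : cst C P S h (n + 8) ≤ 1 / 4) :
    1 ≤ ∑ i ∈ Finset.Ico 1 n, (S i).a ^ 2 ∧ (n : ℝ) ≤ 2 * ((k : ℝ) + 3) := by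
  have _ := hF
  have hn := L.n1
  have h0 : ∀ l, l < n → 0 ≤ h l := fun l hl => (L.ln l (by omega)).h0
  have haa : ∀ l, l < n → |(S l).a| ≤ 1 / 10 := fun l hl => (L.ln l (by omega)).aS
  have hcos : ∀ l, l < n → 1 - (S l).a ^ 2 / 2 ≤ Real.cos (S l).a := fun l _ =>
    Real.one_sub_sq_div_two_le_cos
  have hsq : ∀ l, l < n → (S l).a ^ 2 ≤ 1 / 100 := by
    intro l hl
    have h1 := abs_le.1 (haa l hl)
    nlinarith [h1.1, h1.2]
  have hcos0 : ∀ l, l < n → 199 / 200 ≤ Real.cos (S l).a := by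
    intro l hl
    have h1 := hcos l hl
    have h2 := hsq l hl
    linarith
  have hcos1 : ∀ l, Real.cos (S l).a ≤ 1 := fun l => Real.cos_le_one _
  have hent0 : (ent S t 0).1 = -1 := by
    simp only [ent, Sq.pt, L.s0, ha, hx, Real.cos_zero, Real.sin_zero]
    ring
  have hentn : (ent S t n).1 = (k : ℝ) + 1 / 2 := by
    have := (L.bar n le_rfl (by omega)).2
    rw [this, sub_self, add_zero]
  have hsum := (ent_sum L.ln 0 n (Nat.zero_le n) (by omega)).1
  rw [hent0, hentn] at hsum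
  -- cost of the gaps
  have hh : ∑ l ∈ Finset.Ico 0 n, h l ≤ 1 / 4 := by
    have h1 := (wst_cst C hC P L.ln 0 n (Nat.zero_le n) (by omega)).2
    have h2 := (cst_mono C hC P L.ln (show n ≤ n + 8 by omega) le_rfl).2
    have h3 : cst C P S h 0 = 0 := by simp [cst]
    linarith
  have hsplit : ∀ f : ℕ → ℝ, ∑ l ∈ Finset.Ico 0 n, f l = f 0 + ∑ l ∈ Finset.Ico 1 n, f l := by
    intro f
    rw [Finset.sum_eq_sum_Ico_succ_bot (by omega)]
  have hcard : ∑ l ∈ Finset.Ico 1 n, (1 : ℝ) = (n : ℝ) - 1 := by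
    rw [Finset.sum_const, Nat.card_Ico, nsmul_eq_mul, mul_one, Nat.cast_sub hn, Nat.cast_one]
  have hcos00 : Real.cos (S 0).a = 1 := by rw [L.s0, ha, Real.cos_zero]
  rw [hsplit h] at hh
  constructor
  · rw [hsplit, hcos00, mul_one] at hsum
    -- upper bound
    have hup : ∑ l ∈ Finset.Ico 1 n, (1 + h l) * Real.cos (S l).a ≤
        ∑ l ∈ Finset.Ico 1 n, (1 : ℝ) + ∑ l ∈ Finset.Ico 1 n, h l := by
      rw [← Finset.sum_add_distrib]
      refine Finset.sum_le_sum fun l hl => ?_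
      have hl' := (Finset.mem_Ico.1 hl).2
      have h1 := h0 l hl'
      have h2 := hcos1 l
      nlinarith
    have hlow : ∑ l ∈ Finset.Ico 1 n, (1 : ℝ) - ∑ l ∈ Finset.Ico 1 n, (S l).a ^ 2 / 2 ≤
        ∑ l ∈ Finset.Ico 1 n, (1 + h l) * Real.cos (S l).a := by
      rw [← Finset.sum_sub_distrib]
      refine Finset.sum_le_sum fun l hl => ?_
      have hl' := (Finset.mem_Ico.1 hl).2
      have h1 := h0 l hl'
      have h2 := hcos0 l hl'
      have h3 := hcos l hl'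
      nlinarith
    rw [hcard] at hup hlow
    have h00 := h0 0 (by omega)
    have h4 : (k : ℝ) + 1 / 2 - ((n : ℝ) - 1) ≤ 1 / 4 := by linarith
    have h5 : (k : ℝ) + 2 ≤ n := by
      have h6 : (k : ℝ) + 1 < n := by linarith
      have h7 : k + 1 < n := by exact_mod_cast h6
      have h8 : k + 2 ≤ n := h7
      exact_mod_cast h8
    have h9 : ∑ l ∈ Finset.Ico 1 n, (S l).a ^ 2 / 2 = (∑ l ∈ Finset.Ico 1 n, (S l).a ^ 2) / 2 := by
      rw [Finset.sum_div]
    rw [h9] at hlow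
    linarith
  · have hlow : ∑ l ∈ Finset.Ico 0 n, (199 / 200 : ℝ) ≤
        ∑ l ∈ Finset.Ico 0 n, (1 + h l) * Real.cos (S l).a := by
      refine Finset.sum_le_sum fun l hl => ?_
      have hl' := (Finset.mem_Ico.1 hl).2
      have h1 := h0 l hl'
      have h2 := hcos0 l hl'
      nlinarith
    rw [Finset.sum_const, Nat.card_Ico, nsmul_eq_mul, Nat.sub_zero] at hlow
    have hk : (0 : ℝ) ≤ k := Nat.cast_nonneg k
    linarith

end SqLo
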