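import Mathlib

/-! K2b: numerical counting lemma. -/

open MeasureTheory Set

namespace SqLo

private theorem K2b_windows (N : ℕ) (f : ℕ → ℝ) (q : ℕ) :
    ∑ i ∈ Finset.Ico 1 (1 + q * N), f i =
      ∑ w ∈ Finset.range q, ∑ i ∈ Finset.Ico (1 + w * N) (1 + w * N + N), f i := by
  induction q with
  | zero => simp
  | succ q ih =>
    rw [Finset.sum_range_succ, ← ih]
    have h1 : 1 + (q + 1) * N = 1 + q * N + N := by ring
    rw [h1, Finset.sum_Ico_consecutive] <;> omega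

private theorem K2b_one {N b c φ κ : ℝ} (hN : 1 ≤ N) (hκ : 0 ≤ κ) (hφ : 0 ≤ φ) (hφκ : φ ≤ κ)
    (hb : 0 ≤ b) (hc : 0 ≤ c)
    (h : φ ^ 2 / 10000 < b ∨ φ < 60 * κ / N ∨ N ^ 2 * φ / 4000 ≤ c) :
    N * φ ^ 2 ≤ 10000 * N * b + 3600 * κ ^ 2 / N + 4000 * κ * c / N := by
  have hN0 : 0 < N := by linarith
  have e1 : 0 ≤ 10000 * N * b := by positivity
  have e2 : 0 ≤ 3600 * κ ^ 2 / N := by positivity
  have e3 : 0 ≤ 4000 * κ * c / N := by positivity
  rcases h with h | h | h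
  · have h1 : φ ^ 2 ≤ 10000 * b := by linarith
    have h2 : N * φ ^ 2 ≤ N * (10000 * b) := mul_le_mul_of_nonneg_left h1 hN0.le
    linarith
  · have h1 : φ * N ≤ 60 * κ := ((lt_div_iff₀ hN0).mp h).le
    have h2 : (φ * N) ^ 2 ≤ (60 * κ) ^ 2 := pow_le_pow_left₀ (by positivity) h1 2
    have h3 : N * φ ^ 2 ≤ 3600 * κ ^ 2 / N := by
      rw [le_div_iff₀ hN0]
      nlinarith
    linarith
  · have h1 : N ^ 2 * φ ≤ 4000 * c := by linarith
    have h2 : N * φ ^ 2 ≤ 4000 * κ * c / N := by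
      rw [le_div_iff₀ hN0]
      have h3 : N * φ ^ 2 * N = φ * (N ^ 2 * φ) := by ring
      have h4 : φ * (N ^ 2 * φ) ≤ κ * (4000 * c) :=
        mul_le_mul hφκ h1 (by positivity) hκ
      linarith
    linarith

/-- `W` windows of length `N` cover `[1, n)` up to less than `N` indices -/
theorem counting (N n q : ℕ) (hN : 1 ≤ N) (hq : 1 + q * N ≤ n) (hq' : n ≤ 1 + (q + 1) * N)
    (a b c φ : ℕ → ℝ) (κ D R : ℝ) (hκ : 0 ≤ κ)
    (ha : ∀ i, 1 ≤ i → i < n → |a i| ≤ κ)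
    (hφ : ∀ w < q, 0 ≤ φ w ∧ φ w ≤ κ ∧ ∀ i, 1 + w * N ≤ i → i < 1 + w * N + N → |a i| ≤ φ w)
    (hb : ∀ w < q, 0 ≤ b w) (hc : ∀ w < q, 0 ≤ c w)
    (hB : ∑ w ∈ Finset.range q, b w ≤ D) (hR : ∑ w ∈ Finset.range q, c w ≤ R)
    (h : ∀ w < q, φ w ^ 2 / 10000 < b w ∨ φ w < 60 * κ / N ∨
      (N : ℝ) ^ 2 * φ w / 4000 ≤ c w)
    (h1 : 1 ≤ ∑ i ∈ Finset.Ico 1 n, a i ^ 2) :
    1 ≤ 10000 * N * D + 3600 * n * κ ^ 2 / N ^ 2 + N * κ ^ 2 + 4000 * κ * R / N := by
  have hN1 : (1 : ℝ) ≤ N := by exact_mod_cast hN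
  have hN0 : (0 : ℝ) < N := by linarith
  -- the leftover
  have hleft : ∑ i ∈ Finset.Ico (1 + q * N) n, a i ^ 2 ≤ N * κ ^ 2 := by
    calc ∑ i ∈ Finset.Ico (1 + q * N) n, a i ^ 2 ≤ ∑ i ∈ Finset.Ico (1 + q * N) n, κ ^ 2 := by
          refine Finset.sum_le_sum fun i hi => ?_
          rw [Finset.mem_Ico] at hi
          rw [← sq_abs]
          exact pow_le_pow_left₀ (abs_nonneg _) (ha i (by omega) hi.2) 2
      _ = ((n - (1 + q * N) : ℕ) : ℝ) * κ ^ 2 := by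
          rw [Finset.sum_const, Nat.card_Ico, nsmul_eq_mul]
      _ ≤ N * κ ^ 2 := by
          refine mul_le_mul_of_nonneg_right ?_ (sq_nonneg _)
          have : n - (1 + q * N) ≤ N := by
            have : (q + 1) * N = q * N + N := by ring
            omega
          exact_mod_cast this
  -- the windows
  have hwin : ∀ w ∈ Finset.range q, ∑ i ∈ Finset.Ico (1 + w * N) (1 + w * N + N), a i ^ 2 ≤
      10000 * N * b w + 3600 * κ ^ 2 / N + 4000 * κ * c w / N := by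
    intro w hw
    have hw' := Finset.mem_range.mp hw
    obtain ⟨p1, p2, p3⟩ := hφ w hw'
    calc ∑ i ∈ Finset.Ico (1 + w * N) (1 + w * N + N), a i ^ 2
        ≤ ∑ i ∈ Finset.Ico (1 + w * N) (1 + w * N + N), φ w ^ 2 := by
          refine Finset.sum_le_sum fun i hi => ?_
          rw [Finset.mem_Ico] at hi
          rw [← sq_abs]
          exact pow_le_pow_left₀ (abs_nonneg _) (p3 i hi.1 hi.2) 2
      _ = N * φ w ^ 2 := by
          rw [Finset.sum_const, Nat.card_Ico, nsmul_eq_mul]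
          congr 2
          omega
      _ ≤ _ := K2b_one hN1 hκ p1 p2 (hb w hw') (hc w hw') (h w hw')
  have hsplit : ∑ i ∈ Finset.Ico 1 n, a i ^ 2 =
      ∑ i ∈ Finset.Ico 1 (1 + q * N), a i ^ 2 + ∑ i ∈ Finset.Ico (1 + q * N) n, a i ^ 2 :=
    (Finset.sum_Ico_consecutive _ (by omega) hq).symm
  have hsum : ∑ i ∈ Finset.Ico 1 (1 + q * N), a i ^ 2 ≤
      10000 * N * D + q * (3600 * κ ^ 2 / N) + 4000 * κ * R / N := by
    rw [K2b_windows]
    refine (Finset.sum_le_sum hwin).trans ?_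
    rw [Finset.sum_add_distrib, Finset.sum_add_distrib, ← Finset.mul_sum, Finset.sum_const,
      Finset.card_range, nsmul_eq_mul]
    have e1 : ∑ w ∈ Finset.range q, 4000 * κ * c w / N =
        4000 * κ * (∑ w ∈ Finset.range q, c w) / N := by
      rw [Finset.mul_sum, Finset.sum_div]
    rw [e1]
    have e2 : 10000 * (N : ℝ) * ∑ w ∈ Finset.range q, b w ≤ 10000 * N * D :=
      mul_le_mul_of_nonneg_left hB (by positivity)
    have e3 : 4000 * κ * (∑ w ∈ Finset.range q, c w) / N ≤ 4000 * κ * R / N :=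
      div_le_div_of_nonneg_right (mul_le_mul_of_nonneg_left hR (by positivity)) hN0.le
    linarith
  have hqn : (q : ℝ) * (3600 * κ ^ 2 / N) ≤ 3600 * n * κ ^ 2 / N ^ 2 := by
    have hqN : (q : ℝ) * N ≤ n := by
      have : q * N ≤ n := by omega
      exact_mod_cast this
    have e1 : (q : ℝ) * (3600 * κ ^ 2 / N) = (q * N) * (3600 * κ ^ 2 / N ^ 2) := by
      field_simp
    have e2 : 3600 * (n : ℝ) * κ ^ 2 / N ^ 2 = n * (3600 * κ ^ 2 / N ^ 2) := by ring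
    rw [e1, e2]
    exact mul_le_mul_of_nonneg_right hqN (by positivity)
  rw [hsplit] at h1
  linarith

end SqLo
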