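import Mathlib

/-! K2c: the final numbers. -/

open MeasureTheory Set

namespace SqLo

private theorem K2c_root (k : ℕ) (hk : 20000 ^ 5 ≤ k) :
    ∃ N : ℕ, 10000 ≤ N ∧ N ^ 5 ≤ k ∧ k + 1 ≤ (N + 1) ^ 5 := by
  have hk1 : 20000 ≤ k := le_trans (by norm_num) hk
  refine ⟨Nat.findGreatest (fun N => N ^ 5 ≤ k) k, ?_, ?_, ?_⟩
  · have : 20000 ≤ Nat.findGreatest (fun N => N ^ 5 ≤ k) k :=
      Nat.le_findGreatest hk1 hk
    omega
  · exact Nat.findGreatest_spec (P := fun N => N ^ 5 ≤ k) (m := 20000) hk1 hk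
  · by_contra hlt
    push Not at hlt
    set N := Nat.findGreatest (fun N => N ^ 5 ≤ k) k with hN
    have h1 : (N + 1) ^ 5 ≤ k := by omega
    have h2 : N + 1 ≤ k := by
      have : N + 1 ≤ (N + 1) ^ 5 := Nat.le_self_pow (by norm_num) _
      omega
    have h3 : N + 1 ≤ N := Nat.le_findGreatest (P := fun N => N ^ 5 ≤ k) h2 h1
    omega

/-- the final numbers -/
theorem numbers (C : ℝ) (hC : 1 ≤ C) : ∃ ε : ℝ, 0 < ε ∧ ∃ K0 : ℕ, ∀ k : ℕ, K0 ≤ k →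
    ∀ T : ℝ, 0 ≤ T → T < ε * ((k : ℝ) + 1 / 2) ^ (3 / 5 : ℝ) →
    ∃ N : ℕ, 10000 ≤ N ∧ N ^ 5 ≤ k ∧
      10 ^ 11 * C * T / N ^ 4 ≤ 1 / 1000 ∧
      (N : ℝ) ^ 2 * (10 ^ 11 * C * T / N ^ 4 / N) ≤ 1 ∧
      ∀ n : ℝ, 0 ≤ n → n ≤ 2 * ((k : ℝ) + 3) →
        10000 * N * (10 ^ 11 * C * T / N ^ 4) +
          3600 * n * (10 ^ 11 * C * T / N ^ 4 / N) ^ 2 / N ^ 2 +
          N * (10 ^ 11 * C * T / N ^ 4 / N) ^ 2 +
          4000 * (10 ^ 11 * C * T / N ^ 4 / N) * (10 ^ 10 * C * T) / N < 1 := by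
  have hC0 : 0 < C := by linarith
  refine ⟨1 / 10 ^ 17 / C, by positivity, 20000 ^ 5, ?_⟩
  intro k hk T hT0 hT
  obtain ⟨N, hN, hNk, hkN⟩ := K2c_root k hk
  refine ⟨N, hN, hNk, ?_⟩
  have hNr : (10000 : ℝ) ≤ N := by exact_mod_cast hN
  have hNp : (0 : ℝ) < N := by linarith
  have hkN' : (k : ℝ) + 1 ≤ ((N : ℝ) + 1) ^ 5 := by exact_mod_cast hkN
  have hN1 : (N : ℝ) + 1 ≤ 10001 / 10000 * N := by linarith
  have h3 : ((N : ℝ) + 1) ^ 3 ≤ 101 / 100 * N ^ 3 := by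
    calc ((N : ℝ) + 1) ^ 3 ≤ (10001 / 10000 * N) ^ 3 :=
          pow_le_pow_left₀ (by linarith) hN1 3
      _ = (10001 / 10000) ^ 3 * N ^ 3 := by ring
      _ ≤ 101 / 100 * N ^ 3 :=
          mul_le_mul_of_nonneg_right (by norm_num) (by positivity)
  have h5 : ((N : ℝ) + 1) ^ 5 ≤ 101 / 100 * N ^ 5 := by
    calc ((N : ℝ) + 1) ^ 5 ≤ (10001 / 10000 * N) ^ 5 :=
          pow_le_pow_left₀ (by linarith) hN1 5
      _ = (10001 / 10000) ^ 5 * N ^ 5 := by ring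
      _ ≤ 101 / 100 * N ^ 5 :=
          mul_le_mul_of_nonneg_right (by norm_num) (by positivity)
  have hx : ((k : ℝ) + 1 / 2) ^ (3 / 5 : ℝ) ≤ 101 / 100 * N ^ 3 := by
    have hk0 : (0 : ℝ) ≤ k := Nat.cast_nonneg k
    calc ((k : ℝ) + 1 / 2) ^ (3 / 5 : ℝ) ≤ (((N : ℝ) + 1) ^ 5) ^ (3 / 5 : ℝ) :=
          Real.rpow_le_rpow (by linarith) (by linarith) (by norm_num)
      _ = ((N : ℝ) + 1) ^ 3 := by
          rw [← Real.rpow_natCast ((N : ℝ) + 1) 5, ← Real.rpow_mul (by linarith),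
            ← Real.rpow_natCast ((N : ℝ) + 1) 3]
          norm_num
      _ ≤ _ := h3
  have hCT : C * T ≤ 101 / 100 / 10 ^ 17 * N ^ 3 := by
    have h1 : T ≤ 1 / 10 ^ 17 / C * (101 / 100 * N ^ 3) :=
      le_trans hT.le (mul_le_mul_of_nonneg_left hx (by positivity))
    calc C * T ≤ C * (1 / 10 ^ 17 / C * (101 / 100 * N ^ 3)) :=
          mul_le_mul_of_nonneg_left h1 hC0.le
      _ = 101 / 100 / 10 ^ 17 * N ^ 3 := by field_simp
  set D : ℝ := 10 ^ 11 * C * T / N ^ 4 with hD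
  have hD0 : 0 ≤ D := by positivity
  have hCTD : 10 ^ 10 * C * T = D * N ^ 4 / 10 := by
    rw [hD]; field_simp
  have hz : D * N ≤ 101 / 100 / 10 ^ 6 := by
    have e : D * N = 10 ^ 11 * (C * T) / N ^ 3 := by
      rw [hD]; field_simp
    rw [e, div_le_iff₀ (by positivity)]
    calc (10 : ℝ) ^ 11 * (C * T) ≤ 10 ^ 11 * (101 / 100 / 10 ^ 17 * N ^ 3) :=
          mul_le_mul_of_nonneg_left hCT (by norm_num)
      _ = 101 / 100 / 10 ^ 6 * N ^ 3 := by ring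
  have hz0 : 0 ≤ D * N := by positivity
  have hDz : D ≤ D * N := by
    have := mul_le_mul_of_nonneg_left (by linarith : (1 : ℝ) ≤ N) hD0
    linarith
  refine ⟨by norm_num at hz ⊢; linarith, ?_, ?_⟩
  · have e : (N : ℝ) ^ 2 * (D / N) = D * N := by field_simp
    rw [e]
    norm_num at hz ⊢
    linarith
  · intro n hn0 hn
    rw [hCTD]
    have hn' : n ≤ 21 / 10 * N ^ 5 := by
      have h6 : (100 : ℝ) ≤ N ^ 5 := by
        calc (100 : ℝ) ≤ 10000 ^ 5 := by norm_num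
          _ ≤ N ^ 5 := pow_le_pow_left₀ (by norm_num) hNr 5
      linarith
    have t2 : 3600 * n * (D / N) ^ 2 / N ^ 2 ≤ 7560 * (D * N) ^ 2 := by
      have e : 3600 * n * (D / N) ^ 2 / N ^ 2 = 3600 * D ^ 2 / N ^ 4 * n := by
        field_simp
      rw [e]
      calc 3600 * D ^ 2 / N ^ 4 * n ≤ 3600 * D ^ 2 / N ^ 4 * (21 / 10 * N ^ 5) :=
            mul_le_mul_of_nonneg_left hn' (by positivity)
        _ = 7560 * D ^ 2 * N := by field_simp; ring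
        _ ≤ 7560 * D ^ 2 * (N * N) := by
            apply mul_le_mul_of_nonneg_left _ (by positivity)
            nlinarith
        _ = 7560 * (D * N) ^ 2 := by ring
    have t3 : N * (D / N) ^ 2 ≤ (D * N) ^ 2 := by
      have e : N * (D / N) ^ 2 = D ^ 2 / N := by field_simp
      rw [e]
      calc D ^ 2 / N ≤ D ^ 2 := div_le_self (by positivity) (by linarith)
        _ ≤ (D * N) ^ 2 := pow_le_pow_left₀ hD0 hDz 2
    have t4 : 4000 * (D / N) * (D * N ^ 4 / 10) / N = 400 * (D * N) ^ 2 := by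
      field_simp; ring
    have hz2 : (D * N) ^ 2 ≤ D * N := by
      have : D * N ≤ 1 := by norm_num at hz ⊢; linarith
      nlinarith
    rw [t4]
    have e1 : 10000 * N * D = 10000 * (D * N) := by ring
    rw [e1]
    norm_num at hz
    linarith

end SqLo
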