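import Pool.Agent.Lib.MP_e85462_co.L.K1
import Pool.Agent.Lib.MP_e85462_co.L.K2a
import Pool.Agent.Lib.MP_e85462_co.L.K2b
import Pool.Agent.Lib.MP_e85462_co.L.K2c
import Pool.Agent.Lib.MP_e85462_co.L.H6

/-! K3: the total waste of a framed packing. -/

open MeasureTheory Set

namespace SqLo

/-- the windows tile an interval -/
private theorem K3_win (f : ℕ → ℝ) (N q : ℕ) :
    ∑ w ∈ Finset.range q, ∑ i ∈ Finset.Ico (1 + w * N) (1 + w * N + N), f i =
      ∑ i ∈ Finset.Ico 1 (1 + q * N), f i := by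
  induction q with
  | zero => simp
  | succ q ih =>
    rw [Finset.sum_range_succ, ih]
    have e : 1 + (q + 1) * N = 1 + q * N + N := by ring
    rw [e]
    exact Finset.sum_Ico_consecutive f (by omega) (by omega)

/-- the squares of a line are different -/
private theorem K3_inj {C : ℝ} (hC : 1 ≤ C) {P : Finset Sq} {n : ℕ} {S : ℕ → Sq}
    {t h : ℕ → ℝ} (L : Ln C P (n + 8) S t h) {i j : ℕ} (hij : i < j) (hj : j ≤ n) :
    S i ≠ S j := by
  intro he
  have e1 := (ent_sum L i j hij.le (by omega)).1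
  have e2 := (ctr_ent S t i).1
  have e3 := (ctr_ent S t j).1
  rw [← he] at e3
  have tb : ∀ l, l < n + 8 → |t l| < 1 / 2 := by
    intro l hl
    have h1 := (L l hl).mS
    have h2 : 0 ≤ C * wst P 16 (S l) := mul_nonneg (by linarith) (wst_nn P 16 (S l))
    linarith
  have hti := tb i (by omega)
  have htj := tb j (by omega)
  have ha := (L i (by omega)).aS
  have hsin : |Real.sin (S i).a| ≤ 1 / 10 := le_trans Real.abs_sin_le_abs ha
  have e4 : (ent S t j).1 - (ent S t i).1 = (t i - t j) * Real.sin (S i).a := by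
    linarith
  have b1 : |(t i - t j) * Real.sin (S i).a| ≤ 1 * (1 / 10) := by
    rw [abs_mul]
    apply mul_le_mul _ hsin (abs_nonneg _) (by norm_num)
    have := abs_sub (t i) (t j)
    linarith
  have b2 : (1 : ℝ) / 2 ≤ ∑ l ∈ Finset.Ico i j, (1 + h l) * Real.cos (S l).a := by
    have hnn : ∀ l ∈ Finset.Ico i j, (1 : ℝ) / 2 ≤ (1 + h l) * Real.cos (S l).a := by
      intro l hl
      rw [Finset.mem_Ico] at hl
      have hL := L l (by omega)
      have hc : 1 - (S l).a ^ 2 / 2 ≤ Real.cos (S l).a := Real.one_sub_sq_div_two_le_cos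
      have hsq : (S l).a ^ 2 ≤ (1 / 10) ^ 2 := by
        rw [← sq_abs (S l).a]
        exact pow_le_pow_left₀ (abs_nonneg _) hL.aS 2
      have hh := hL.h0
      nlinarith
    calc (1 : ℝ) / 2 ≤ ((Finset.Ico i j).card : ℝ) * (1 / 2) := by
          have : 1 ≤ (Finset.Ico i j).card := by
            rw [Nat.card_Ico]; omega
          have : (1 : ℝ) ≤ ((Finset.Ico i j).card : ℝ) := by exact_mod_cast this
          linarith
      _ = ∑ l ∈ Finset.Ico i j, (1 / 2 : ℝ) := by
          rw [Finset.sum_const, nsmul_eq_mul]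
      _ ≤ _ := Finset.sum_le_sum hnn
  have b3 := (abs_le.mp b1).2
  linarith

theorem main_count (C : ℝ) (hC : 1 ≤ C) : ∃ ε : ℝ, 0 < ε ∧ ∃ K0 : ℕ, ∀ k : ℕ, K0 ≤ k →
    ∀ P : Finset Sq, Framed ((k : ℝ) + 1 / 2) P → (∀ P', Packing P' → TC P' C) →
    (∀ j : ℕ, j < k → (⟨-1 / 2, 1 / 2 + j, 0⟩ : Sq) ∈ P) →
    ε * ((k : ℝ) + 1 / 2) ^ (3 / 5 : ℝ) ≤ tw ((k : ℝ) + 1 / 2) P := by
  obtain ⟨ε, hε, K0, hnum⟩ := numbers C hC
  refine ⟨ε, hε, K0, ?_⟩
  intro k hk P hF hTC hcol
  by_contra hlt
  push Not at hlt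
  have hT0 : 0 ≤ tw ((k : ℝ) + 1 / 2) P := ENNReal.toReal_nonneg
  obtain ⟨N, hN, hNk, hD1, hN2, hfin⟩ := hnum k hk _ hT0 hlt
  have hT : TC P C := hTC P hF.pk
  set X : ℝ := (k : ℝ) + 1 / 2 with hX
  set D : ℝ := 10 ^ 11 * C * tw X P / N ^ 4 with hD
  have hNpos : (0 : ℝ) < N := by
    have : 0 < N := by omega
    exact_mod_cast this
  have hNbig : (10000 : ℝ) ≤ N := by exact_mod_cast hN
  have hD0 : 0 ≤ D := by positivity
  set κ : ℝ := D / N with hκ
  have hκ0 : 0 ≤ κ := by positivity
  have hκD : κ ≤ 1 / 1000 := by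
    have : D / N ≤ D / 1 := div_le_div_of_nonneg_left hD0 (by norm_num) (by linarith)
    rw [hκ]; linarith
  obtain ⟨n, y0, S, t, h, j0, j1, G, hj0, hj0', hj1, hj1', hc0, hc1⟩ :=
    sel C hC k N P hF hT hcol hN hNk D le_rfl hD1
  have hj1M : j1 ≤ 3 * N + 60 := by omega
  have L1 := G.ln j1 hj1M
  obtain ⟨h1, hn⟩ := sumsq C hC k P hF _ n (S j1) (t j1) (h j1) L1 rfl rfl (by
    have : cst C P (S j1) (h j1) (n + 8) ≤ κ := hc1
    linarith)
  have hn1 : 1 ≤ n := L1.n1
  -- the rotated packing
  have hF' : Framed X (rotP X P) := rot_framed X P hF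
  have hT' : TC (rotP X P) C := hTC _ hF'.pk
  set A : Finset Sq := (Finset.Ico 1 n).image (fun i => rot X (S j1 i)) with hA
  have hmem : ∀ i, i < n + 8 → S j1 i ∈ P := fun i hi => (L1.ln i hi).hS
  have hsm : ∀ i, i ≤ n + 8 → |(S j1 i).a| ≤ κ := fun i hi =>
    le_trans (fam_small C hC X P hF hT G j1 i hj1M hi) hc1
  obtain ⟨wv, hwv0, hwvs, hwvl⟩ := glines C hC X (rotP X P) hF' hT' A
    (by
      intro Q hQ
      rw [hA, Finset.mem_image] at hQ
      obtain ⟨i, hi, rfl⟩ := hQ
      rw [Finset.mem_Ico] at hi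
      exact (rot_mem X P _).2 (hmem i (by omega)))
    (by
      intro Q hQ
      rw [hA, Finset.mem_image] at hQ
      obtain ⟨i, hi, rfl⟩ := hQ
      rw [Finset.mem_Ico] at hi
      have := hsm i (by omega)
      show |(S j1 i).a| ≤ 1 / 100
      linarith)
    (by
      intro Q hQ
      rw [hA, Finset.mem_image] at hQ
      obtain ⟨i, hi, rfl⟩ := hQ
      rw [Finset.mem_Ico] at hi
      exact Or.inl ((rot_In X _).2 (L1.ins i hi.1 hi.2)))
    (by
      intro n' S' t' h' hn' LY hs0 hsn
      rw [hA, Finset.mem_image] at hs0 hsn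
      obtain ⟨i, hi, ei⟩ := hs0
      obtain ⟨j, hj, ej⟩ := hsn
      rw [Finset.mem_Ico] at hi hj
      exact nr_row C hC X P hF hT n (S j1) (t j1) (h j1) (fun l hl => L1.ln l (by omega)) i j
        (by omega) (by omega) n' S' t' h' hn' LY ei.symm ej.symm)
  rw [rot_tw] at hwvs
  -- sum over the line
  have hsumA : ∑ i ∈ Finset.Ico 1 n, wv (rot X (S j1 i)) = ∑ Q ∈ A, wv Q := by
    rw [hA, Finset.sum_image]
    intro i hi j hj hij
    have hi' := Finset.mem_Ico.1 (Finset.mem_coe.1 hi)
    have hj' := Finset.mem_Ico.1 (Finset.mem_coe.1 hj)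
    have hij' : S j1 i = S j1 j := rot_inj X hij
    by_contra hne
    rcases lt_or_gt_of_ne hne with hlt' | hlt'
    · exact K3_inj hC L1.ln hlt' (by omega) hij'
    · exact K3_inj hC L1.ln hlt' (by omega) hij'.symm
  -- windows
  obtain ⟨q, hq1, hq2⟩ : ∃ q : ℕ, 1 + q * N ≤ n ∧ n ≤ 1 + (q + 1) * N := by
    refine ⟨(n - 1) / N, ?_, ?_⟩
    · have := Nat.div_mul_le_self (n - 1) N
      omega
    · have := Nat.lt_div_mul_add (a := n - 1) (b := N) (by omega)
      have e : ((n - 1) / N + 1) * N = (n - 1) / N * N + N := by ring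
      rw [e]
      omega
  have hwin : ∀ w, w < q → 1 + w * N + N ≤ 1 + q * N := by
    intro w hw
    have : (w + 1) * N ≤ q * N := Nat.mul_le_mul_right N hw
    have e : (w + 1) * N = w * N + N := by ring
    omega
  have hne : ∀ w : ℕ, (Finset.Ico (1 + w * N) (1 + w * N + N)).Nonempty := by
    intro w
    rw [Finset.nonempty_Ico]
    omega
  set φ : ℕ → ℝ := fun w =>
    (Finset.Ico (1 + w * N) (1 + w * N + N)).sup' (hne w) (fun i => |(S j1 i).a|) with hφ
  have hφle : ∀ w i, 1 + w * N ≤ i → i < 1 + w * N + N → |(S j1 i).a| ≤ φ w := by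
    intro w i hi1 hi2
    exact Finset.le_sup' (fun i => |(S j1 i).a|) (Finset.mem_Ico.2 ⟨hi1, hi2⟩)
  have hφat : ∀ w, ∃ i, 1 + w * N ≤ i ∧ i < 1 + w * N + N ∧ |(S j1 i).a| = φ w := by
    intro w
    obtain ⟨i, hi, e⟩ := Finset.exists_mem_eq_sup' (hne w) (fun i => |(S j1 i).a|)
    rw [Finset.mem_Ico] at hi
    exact ⟨i, hi.1, hi.2, e.symm⟩
  set b : ℕ → ℝ := fun w => ∑ j ∈ Finset.range (3 * N + 60 + 1),
    ∑ i ∈ Finset.Ico (1 + w * N) (1 + w * N + N), C * wst P 20 (S j i) with hb
  set c : ℕ → ℝ := fun w => ∑ i ∈ Finset.Ico (1 + w * N) (1 + w * N + N),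
    wv (rot X (S j1 i)) with hc
  have hCw : ∀ Q : Sq, 0 ≤ C * wst P 20 Q := fun Q =>
    mul_nonneg (by linarith) (wst_nn P 20 Q)
  have key := counting N n q (by omega) hq1 hq2 (fun i => (S j1 i).a) b c φ κ D
    (10 ^ 10 * C * tw X P) hκ0
    (fun i _ hi => hsm i (by omega))
    (by
      intro w hw
      obtain ⟨i, hi1, hi2, e⟩ := hφat w
      have := hwin w hw
      refine ⟨e ▸ abs_nonneg _, ?_, fun i => hφle w i⟩
      rw [← e]
      exact hsm i (by omega))
    (fun w _ => Finset.sum_nonneg fun j _ => Finset.sum_nonneg fun i _ => hCw _)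
    (fun w _ => Finset.sum_nonneg fun i _ => hwv0 _)
    (by
      calc ∑ w ∈ Finset.range q, b w
          = ∑ j ∈ Finset.range (3 * N + 60 + 1), ∑ i ∈ Finset.Ico 1 (1 + q * N),
              C * wst P 20 (S j i) := by
            rw [hb, Finset.sum_comm]
            refine Finset.sum_congr rfl fun j _ => ?_
            exact K3_win (fun i => C * wst P 20 (S j i)) N q
        _ ≤ ∑ j ∈ Finset.range (3 * N + 60 + 1), cst C P (S j) (h j) (n + 8) := by
            refine Finset.sum_le_sum fun j hj => ?_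
            rw [Finset.mem_range] at hj
            have Lj := (G.ln j (by omega)).ln
            unfold cst
            calc ∑ i ∈ Finset.Ico 1 (1 + q * N), C * wst P 20 (S j i)
                ≤ ∑ i ∈ Finset.Ico 1 (1 + q * N), (C * wst P 20 (S j i) + h j i) := by
                  refine Finset.sum_le_sum fun i hi => ?_
                  rw [Finset.mem_Ico] at hi
                  have := (Lj i (by omega)).h0
                  linarith
              _ ≤ _ := by
                  apply Finset.sum_le_sum_of_subset_of_nonneg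
                  · intro i hi
                    rw [Finset.mem_Ico] at hi
                    rw [Finset.mem_range]
                    omega
                  · intro i hi _
                    rw [Finset.mem_range] at hi
                    have h1 := (Lj i hi).h0
                    have h2 := hCw (S j i)
                    linarith
        _ ≤ D := G.cost)
    (by
      calc ∑ w ∈ Finset.range q, c w
          = ∑ i ∈ Finset.Ico 1 (1 + q * N), wv (rot X (S j1 i)) :=
            K3_win (fun i => wv (rot X (S j1 i))) N q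
        _ ≤ ∑ i ∈ Finset.Ico 1 n, wv (rot X (S j1 i)) := by
            apply Finset.sum_le_sum_of_subset_of_nonneg
            · exact Finset.Ico_subset_Ico le_rfl hq1
            · intro i _ _
              exact hwv0 _
        _ ≤ 10 ^ 10 * (C * tw X P) := by rw [hsumA]; exact hwvs
        _ = 10 ^ 10 * C * tw X P := by ring)
    (by
      intro w hw
      by_cases hb1 : φ w ^ 2 / 10000 < b w
      · exact Or.inl hb1
      by_cases hb2 : φ w < 60 * κ / N
      · exact Or.inr (Or.inl hb2)
      push Not at hb1 hb2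
      refine Or.inr (Or.inr ?_)
      have hwq := hwin w hw
      have hφκ : φ w ≤ κ := by
        obtain ⟨i, hi1, hi2, e⟩ := hφat w
        rw [← e]
        exact hsm i (by omega)
      have V : Win C X P N (3 * N + 60) n y0 S t h D j1 (1 + w * N) (φ w) (b w) :=
        { G := G
          hM := rfl
          hN := hN
          hj1 := hj1
          hj1' := hj1'
          hi0 := by omega
          hi1 := by omega
          hφ := fun i => hφle w i
          hφN := by
            have : (N : ℝ) ^ 2 * φ w ≤ (N : ℝ) ^ 2 * κ :=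
              mul_le_mul_of_nonneg_left hφκ (by positivity)
            exact this.trans hN2
          hb := le_rfl
          hbφ := hb1 }
      exact window C hC X P hF hT V (hφat w) j0 hj0 hj0' κ hc0 hc1 hb2 hκD
        (fun i => wv (rot X (S j1 i))) (fun i => hwv0 _)
        (by
          intro i hi1 hi2 hi3
          exact hwvl _ (by
            rw [hA, Finset.mem_image]
            exact ⟨i, Finset.mem_Ico.2 ⟨by omega, by omega⟩, rfl⟩) hi3))
    h1
  have := hfin n (Nat.cast_nonneg n) hn
  linarith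

end SqLo
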