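import Pool.Agent.Lib.MP_e85462_co.L.K3
import Pool.Agent.Lib.MP_e85462_co.L.B7
import Pool.Agent.Lib.MP_e85462_co.L.E3

/-! K4: the lower bound for packings. -/

open MeasureTheory Set

namespace SqLo

/-- the number of squares is at most the area -/
private theorem K4_area (X : ℝ) (hX : 0 ≤ X) (Q : Finset Sq) (hQ : Packing Q)
    (hI : ∀ S ∈ Q, In X S) : (Q.card : ℝ) ≤ X ^ 2 := by
  have hsub : (⋃ S ∈ Q, S.op) ⊆ bx (X / 2, X / 2) (X / 2) := by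
    intro p hp
    simp only [mem_iUnion, exists_prop] at hp
    obtain ⟨S, hS, hp⟩ := hp
    obtain ⟨h1, h2, h3, h4⟩ := hI S hS (op_sub_cl S hp)
    refine ⟨?_, ?_⟩
    · rw [abs_le]; dsimp only
      constructor <;> linarith
    · rw [abs_le]; dsimp only
      constructor <;> linarith
  have hvol : volume (⋃ S ∈ Q, S.op) = Q.card := by
    rw [measure_biUnion_finset (fun S hS T hT hne => hQ S hS T hT hne)
      (fun S _ => (op_open S).measurableSet)]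
    simp only [vol_op, Finset.sum_const, nsmul_eq_mul, mul_one]
  have h5 := measure_mono (μ := volume) hsub
  rw [hvol, bx_vol _ _ (by linarith)] at h5
  have e : 2 * (X / 2) = X := by ring
  rw [e] at h5
  have h6 : (0 : ℝ) ≤ X ^ 2 := sq_nonneg _
  rw [← ENNReal.ofReal_natCast, ENNReal.ofReal_le_ofReal_iff h6] at h5
  exact h5

private theorem K4_quarter (k : ℕ) (Q : Finset Sq) (hQ : Packing Q)
    (hI : ∀ S ∈ Q, In ((k : ℝ) + 1 / 2) S) :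
    1 / 4 ≤ ((k : ℝ) + 1 / 2) ^ 2 - Q.card := by
  have hk : (0 : ℝ) ≤ k := Nat.cast_nonneg k
  have h1 := K4_area ((k : ℝ) + 1 / 2) (by linarith) Q hQ hI
  have h2 : (Q.card : ℝ) < ((k ^ 2 + k + 1 : ℕ) : ℝ) := by
    push_cast
    nlinarith
  have h3 : Q.card < k ^ 2 + k + 1 := by exact_mod_cast h2
  have h4 : Q.card ≤ k ^ 2 + k := by omega
  have h5 : (Q.card : ℝ) ≤ ((k ^ 2 + k : ℕ) : ℝ) := by exact_mod_cast h4
  push_cast at h5
  nlinarith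

private theorem K4_large (M : ℝ) : ∃ K : ℕ, ∀ k : ℕ, K ≤ k →
    M ≤ ((k : ℝ) + 1 / 2) ^ (3 / 5 : ℝ) := by
  have h1 : Filter.Tendsto (fun x : ℝ => x ^ (3 / 5 : ℝ)) Filter.atTop Filter.atTop :=
    tendsto_rpow_atTop (by norm_num)
  have h2 : Filter.Tendsto (fun k : ℕ => (k : ℝ) + 1 / 2) Filter.atTop Filter.atTop :=
    Filter.tendsto_atTop_add_const_right _ _ tendsto_natCast_atTop_atTop
  have h3 := (h1.comp h2).eventually_ge_atTop M
  exact Filter.eventually_atTop.1 h3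

theorem lower : ∃ c : ℝ, 0 < c ∧ ∀ k : ℕ, 1 ≤ k → ∀ Q : Finset Sq, Packing Q → Normd Q →
    (∀ S ∈ Q, In ((k : ℝ) + 1 / 2) S) →
    c * ((k : ℝ) + 1 / 2) ^ (3 / 5 : ℝ) ≤ ((k : ℝ) + 1 / 2) ^ 2 - Q.card := by
  obtain ⟨C, hC, htc⟩ := tc
  obtain ⟨ε, hε, K0, hmain⟩ := main_count C hC
  obtain ⟨K1, hK1⟩ := K4_large (10000 / ε)
  set K : ℕ := max K0 K1 with hK
  have hKpos : 0 < ((K : ℝ) + 1 / 2) ^ (3 / 5 : ℝ) := by
    apply Real.rpow_pos_of_pos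
    have : (0 : ℝ) ≤ K := Nat.cast_nonneg K
    linarith
  refine ⟨min (ε / 2) (1 / 4 / ((K : ℝ) + 1 / 2) ^ (3 / 5 : ℝ)), ?_, ?_⟩
  · exact lt_min (by linarith) (by positivity)
  intro k hk Q hQ hn hI
  have hkr : (0 : ℝ) ≤ k := Nat.cast_nonneg k
  have hX0 : 0 ≤ ((k : ℝ) + 1 / 2) ^ (3 / 5 : ℝ) := Real.rpow_nonneg (by linarith) _
  rcases le_or_gt K k with hkK | hkK
  · obtain ⟨P, hF, hcol, htw⟩ := frame k hk Q hQ hn hI
    have h1 := hmain k (le_trans (le_max_left _ _) hkK) P hF htc hcol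
    have h2 := hK1 k (le_trans (le_max_right _ _) hkK)
    have h3 : min (ε / 2) (1 / 4 / ((K : ℝ) + 1 / 2) ^ (3 / 5 : ℝ)) *
        ((k : ℝ) + 1 / 2) ^ (3 / 5 : ℝ) ≤ ε / 2 * ((k : ℝ) + 1 / 2) ^ (3 / 5 : ℝ) :=
      mul_le_mul_of_nonneg_right (min_le_left _ _) hX0
    have h4 : 5000 ≤ ε / 2 * ((k : ℝ) + 1 / 2) ^ (3 / 5 : ℝ) := by
      have : ε / 2 * (10000 / ε) = 5000 := by
        field_simp
        norm_num
      rw [← this]
      exact mul_le_mul_of_nonneg_left h2 (by linarith)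
    linarith
  · have h1 := K4_quarter k Q hQ hI
    have h2 : ((k : ℝ) + 1 / 2) ^ (3 / 5 : ℝ) ≤ ((K : ℝ) + 1 / 2) ^ (3 / 5 : ℝ) := by
      apply Real.rpow_le_rpow (by linarith) _ (by norm_num)
      have : (k : ℝ) ≤ K := by exact_mod_cast hkK.le
      linarith
    have h3 : min (ε / 2) (1 / 4 / ((K : ℝ) + 1 / 2) ^ (3 / 5 : ℝ)) *
        ((k : ℝ) + 1 / 2) ^ (3 / 5 : ℝ) ≤
        1 / 4 / ((K : ℝ) + 1 / 2) ^ (3 / 5 : ℝ) * ((K : ℝ) + 1 / 2) ^ (3 / 5 : ℝ) :=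
      mul_le_mul (min_le_right _ _) h2 hX0 (by positivity)
    rw [div_mul_cancel₀ _ hKpos.ne'] at h3
    linarith

end SqLo
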