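import Pool.Agent.Lib.MP_e85462_co.L.K4
import Pool.Agent.Lib.MP_e85462_co.U.Defs

/-! K5: the lower bound for families of placements. -/

open MeasureTheory Set

namespace SqLo

private theorem K5_angle (c s : ℝ) (h : c ^ 2 + s ^ 2 = 1) :
    ∃ θ : ℝ, Real.cos θ = c ∧ Real.sin θ = s := by
  have h1 : -1 ≤ c := by nlinarith [sq_nonneg s]
  have h2 : c ≤ 1 := by nlinarith [sq_nonneg s]
  have h3 : 1 - c ^ 2 = s ^ 2 := by linarith
  rcases le_total 0 s with hs | hs
  · refine ⟨Real.arccos c, Real.cos_arccos h1 h2, ?_⟩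
    rw [Real.sin_arccos, h3, Real.sqrt_sq hs]
  · refine ⟨-Real.arccos c, ?_, ?_⟩
    · rw [Real.cos_neg, Real.cos_arccos h1 h2]
    · rw [Real.sin_neg, Real.sin_arccos, h3, Real.sqrt_sq_eq_abs, abs_of_nonpos hs, neg_neg]

/-- every placement is a square with a normalised angle -/
theorem pl_sq (F : SqUp.Pl) : ∃ S : Sq, |S.a| ≤ Real.pi / 4 ∧ S.cl = F.cl ∧ S.op = F.op := by
  obtain ⟨θ, hc, hs⟩ := K5_angle F.c F.s F.h
  set T : Sq := ⟨F.x + (F.c - F.s) / 2, F.y + (F.s + F.c) / 2, θ⟩ with hT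
  have hu : ∀ a b : ℝ, T.u (F.x + a * F.c - b * F.s, F.y + a * F.s + b * F.c) = a - 1 / 2 := by
    intro a b
    simp only [Sq.u, hT, hc, hs]
    linear_combination (a - 1 / 2) * F.h
  have hv : ∀ a b : ℝ, T.v (F.x + a * F.c - b * F.s, F.y + a * F.s + b * F.c) = b - 1 / 2 := by
    intro a b
    simp only [Sq.v, hT, hc, hs]
    linear_combination (b - 1 / 2) * F.h
  have hp : ∀ p : ℝ × ℝ, p = (F.x + (T.u p + 1 / 2) * F.c - (T.v p + 1 / 2) * F.s,
      F.y + (T.u p + 1 / 2) * F.s + (T.v p + 1 / 2) * F.c) := by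
    intro p
    have h := pt_uv T p
    have e1 : (T.pt (T.u p) (T.v p)).1 = p.1 := by rw [h]
    have e2 : (T.pt (T.u p) (T.v p)).2 = p.2 := by rw [h]
    have f1 : T.x + T.u p * F.c - T.v p * F.s = p.1 := by
      rw [← e1]
      simp only [Sq.pt, hT, hc, hs]
    have f2 : T.y + T.u p * F.s + T.v p * F.c = p.2 := by
      rw [← e2]
      simp only [Sq.pt, hT, hc, hs]
    have g1 : T.x = F.x + (F.c - F.s) / 2 := rfl
    have g2 : T.y = F.y + (F.s + F.c) / 2 := rfl
    ext
    · dsimp only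
      linarith
    · dsimp only
      linarith
  have hcl : T.cl = F.cl := by
    ext p
    constructor
    · rintro ⟨h1, h2⟩
      rw [abs_le] at h1 h2
      have e := hp p
      refine ⟨T.u p + 1 / 2, T.v p + 1 / 2, by linarith [h1.1], by linarith [h1.2],
        by linarith [h2.1], by linarith [h2.2], ?_, ?_⟩
      · exact congrArg Prod.fst e
      · exact congrArg Prod.snd e
    · rintro ⟨a, b, ha0, ha1, hb0, hb1, e1, e2⟩
      have e : p = (F.x + a * F.c - b * F.s, F.y + a * F.s + b * F.c) := Prod.ext e1 e2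
      refine ⟨?_, ?_⟩
      · rw [e, hu, abs_le]
        constructor <;> linarith
      · rw [e, hv, abs_le]
        constructor <;> linarith
  have hop : T.op = F.op := by
    ext p
    constructor
    · rintro ⟨h1, h2⟩
      rw [abs_lt] at h1 h2
      have e := hp p
      refine ⟨T.u p + 1 / 2, T.v p + 1 / 2, by linarith [h1.1], by linarith [h1.2],
        by linarith [h2.1], by linarith [h2.2], ?_, ?_⟩
      · exact congrArg Prod.fst e
      · exact congrArg Prod.snd e
    · rintro ⟨a, b, ha0, ha1, hb0, hb1, e1, e2⟩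
      have e : p = (F.x + a * F.c - b * F.s, F.y + a * F.s + b * F.c) := Prod.ext e1 e2
      refine ⟨?_, ?_⟩
      · rw [e, hu, abs_lt]
        constructor <;> linarith
      · rw [e, hv, abs_lt]
        constructor <;> linarith
  have hq := quarter T (-round (θ / (Real.pi / 2)))
  refine ⟨⟨T.x, T.y, T.a + ((-round (θ / (Real.pi / 2)) : ℤ) : ℝ) * (Real.pi / 2)⟩, ?_,
    hq.1.trans hcl, hq.2.trans hop⟩
  have hpi : 0 < Real.pi / 2 := by have := Real.pi_pos; linarith
  have hr := abs_sub_round (θ / (Real.pi / 2))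
  have e : T.a + ((-round (θ / (Real.pi / 2)) : ℤ) : ℝ) * (Real.pi / 2) =
      (θ / (Real.pi / 2) - round (θ / (Real.pi / 2))) * (Real.pi / 2) := by
    have : θ / (Real.pi / 2) * (Real.pi / 2) = θ := div_mul_cancel₀ _ hpi.ne'
    rw [sub_mul, this]
    push_cast
    simp only [hT]
    ring
  change |T.a + ((-round (θ / (Real.pi / 2)) : ℤ) : ℝ) * (Real.pi / 2)| ≤ Real.pi / 4
  rw [e, abs_mul, abs_of_pos hpi]
  have h := mul_le_mul_of_nonneg_right hr hpi.le
  linarith

theorem lower_pl : ∃ c : ℝ, 0 < c ∧ ∀ k : ℕ, 1 ≤ k → ∀ (ι : Type) (_ : Fintype ι)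
    (F : ι → SqUp.Pl), (∀ i, (F i).cl ⊆ SqUp.Box ((k : ℝ) + 1 / 2) ((k : ℝ) + 1 / 2)) →
    (∀ i j, i ≠ j → Disjoint (F i).op (F j).op) →
    c * ((k : ℝ) + 1 / 2) ^ (3 / 5 : ℝ) ≤ ((k : ℝ) + 1 / 2) ^ 2 - Fintype.card ι := by
  obtain ⟨c, hc, hl⟩ := lower
  refine ⟨c, hc, ?_⟩
  intro k hk ι _ F hcl hop
  choose G hG using fun i => pl_sq (F i)
  have hinj : Function.Injective G := by
    intro i j hij
    by_contra hne
    have hd := hop i j hne
    rw [← (hG i).2.2, ← (hG j).2.2, ← hij] at hd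
    exact Set.disjoint_left.1 hd (ctr_mem (G i)) (ctr_mem (G i))
  have hcard : (Finset.univ.image G).card = Fintype.card ι := by
    rw [Finset.card_image_of_injective _ hinj, Finset.card_univ]
  have h := hl k hk (Finset.univ.image G) ?_ ?_ ?_
  · rw [hcard] at h
    exact h
  · intro S hS T hT hne
    rw [Finset.mem_image] at hS hT
    obtain ⟨i, _, rfl⟩ := hS
    obtain ⟨j, _, rfl⟩ := hT
    rw [(hG i).2.2, (hG j).2.2]
    exact hop i j (fun e => hne (by rw [e]))
  · intro S hS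
    rw [Finset.mem_image] at hS
    obtain ⟨i, _, rfl⟩ := hS
    exact (hG i).1
  · intro S hS
    rw [Finset.mem_image] at hS
    obtain ⟨i, _, rfl⟩ := hS
    intro p hp
    rw [(hG i).2.1] at hp
    have := hcl i hp
    exact this

end SqLo
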